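import Pool.Agent.Lib.MP_2619d0_ag.CUB.D4

/-!
The case `R = 0` of the theorem on cubic families (characteristic two).
-/

set_option autoImplicit false

namespace MP2619.CUB

open Finset Module

theorem eq_of_add {κ : Type*} [Field κ] (h2 : (2 : κ) = 0) {a b : κ} (h : a + b = 0) : a = b := by
  linear_combination h - b * h2

theorem vadd_self {κ V : Type*} [Field κ] [AddCommGroup V] [Module κ V] (h2 : (2 : κ) = 0) (v : V) :
    v + v = 0 := by
  rw [← two_smul κ v, h2, zero_smul]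

theorem veq_of_add {κ V : Type*} [Field κ] [AddCommGroup V] [Module κ V] (h2 : (2 : κ) = 0) {a b : V}
    (h : a + b = 0) : a = b := by
  have h3 := vadd_self h2 b
  calc a = a + (b + b) := by rw [h3, add_zero]
    _ = (a + b) + b := by abel
    _ = b := by rw [h, zero_add]

section dual

variable {κ : Type*} [Field κ] {r : ℕ}

/-- the vector whose `h`-functional is the square of `ℓ` -/
def sqd (ℓ : (Fin r → κ) →ₗ[κ] κ) : Fin r → κ := fun i => (ℓ (Pi.single i 1)) ^ 2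

theorem hh_sqd (h2 : (2 : κ) = 0) (ℓ : (Fin r → κ) →ₗ[κ] κ) (a : Fin r → κ) :
    hh a (sqd ℓ) = (ℓ a) ^ 2 := by
  have : CharP κ 2 := CharTwo.of_one_ne_zero_of_two_eq_zero one_ne_zero h2
  have e : ℓ a = ∑ i, a i * ℓ (Pi.single i 1) := by
    have h1 := LinearMap.pi_apply_eq_sum_univ ℓ a
    rw [h1]
    refine Finset.sum_congr rfl fun i _ => ?_
    rw [smul_eq_mul]
    congr 2
    funext j
    by_cases hj : i = j
    · subst hj; simp
    · rw [if_neg hj, Pi.single_eq_of_ne (fun h => hj h.symm)]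
  rw [e, sum_pow_char (R := κ) 2]
  unfold hh sqd
  refine Finset.sum_congr rfl fun i _ => ?_
  rw [mul_pow]

end dual

namespace CMap

variable {κ K : Type*} [Field κ] [AddCommGroup K] [Module κ K] {r n : ℕ}

/-- squares of the coordinates -/
noncomputable def sqb (v : Basis (Fin n) κ K) (b : K) : Fin n → κ := fun i => v.repr b i ^ 2

variable {Φ : CMap κ K (Fin r → κ)}

theorem R_kill (hR : ∀ a b c, Φ.t a b c = 0) (X : Fin r → κ) : ∀ ρ ∈ Φ.R, hh ρ X = 0 := by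
  have h : Φ.R = ⊥ := by
    rw [eq_bot_iff]
    unfold R
    rw [Submodule.span_le]
    rintro v ⟨a, b, c, rfl⟩
    rw [hR]
    exact zero_mem _
  intro ρ hρ
  rw [h, Submodule.mem_bot] at hρ
  rw [hρ, hh_zero_left]

theorem br_sqb (hR : ∀ a b c, Φ.t a b c = 0) (v : Basis (Fin n) κ K) (b c : K) :
    Φ.br v (sqb v b) c = Φ.d b c := by
  have h := Φ.d_comb v (fun i => v.repr b i) c
  rw [v.sum_repr b] at h
  rw [h, br_apply]
  have h0 : ∑ i, ∑ j, (if i < j then (v.repr b i * v.repr b j) • Φ.t (v i) (v j) c else 0) = 0 := by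
    refine Finset.sum_eq_zero fun i _ => Finset.sum_eq_zero fun j _ => ?_
    rw [hR]
    simp
  rw [h0, add_zero]
  rfl

theorem tw_zero (hR : ∀ a b c, Φ.t a b c = 0) (v : Fin n → K) (w z u : Fin n → κ) (X : Fin r → κ) :
    Φ.tw v w z u X = 0 := by
  unfold tw
  refine Finset.sum_eq_zero fun e _ => ?_
  have : ∑ i, ∑ j, w i * z j * hh (Φ.t (v i) (v j) (v e)) X = 0 := by
    refine Finset.sum_eq_zero fun i _ => Finset.sum_eq_zero fun j _ => ?_
    rw [hR, hh_zero_left, mul_zero]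
  rw [this, mul_zero]

theorem th_sqb (h2 : (2 : κ) = 0) (hR : ∀ a b c, Φ.t a b c = 0) (v : Basis (Fin n) κ K)
    (w : Fin n → κ) (b : K) (X : Fin r → κ) : Φ.th v w (sqb v b) X = hh (Φ.br v w b) X := by
  have h := th_sq (Φ := Φ) (v := v) h2 w (fun i => v.repr b i) (R_kill hR X)
  rw [v.sum_repr b] at h
  exact h

theorem th_sqb_left (h2 : (2 : κ) = 0) (v : Basis (Fin n) κ K) (y : K) (u : Fin n → κ)
    (X : Fin r → κ) : Φ.th v (sqb v y) u X = ∑ e, u e * hh (Φ.d y (v e)) X := by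
  have h := th_sq_left (Φ := Φ) (v := v) h2 (fun i => v.repr y i) u X
  rw [v.sum_repr y] at h
  exact h

theorem th_zero_right (v : Fin n → K) (w u : Fin n → κ) : Φ.th v w u 0 = 0 := by
  have := th_smul_right (Φ := Φ) (v := v) w u 0 0
  simpa using this

section iso

variable [Infinite κ] (h2 : (2 : κ) = 0) (hΦ : Φ.Iso)

include h2 hΦ

theorem X_eq (e0 b : K) : hh (Φ.f e0) (Φ.d b e0) = hh (Φ.d e0 b) (Φ.f e0) :=
  eq_of_add h2 (iso_coef h2 hΦ e0 b).2.1

theorem q_eq (e0 b : K) : hh (Φ.d e0 b) (Φ.d b e0) = hh (Φ.d b e0) (Φ.f e0) :=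
  eq_of_add h2 (iso_coef h2 hΦ e0 b).2.2.2

omit h2 hΦ in
omit [Infinite κ] in
theorem X_ne {e0 : K} (hP : P1 (Φ.f e0)) (hinj : Function.Injective (Φ.d e0)) {b : K}
    (h : ∀ c : κ, b ≠ c • e0) : hh (Φ.d e0 b) (Φ.f e0) ≠ 0 := by
  intro h0
  obtain ⟨c, hc⟩ := hP _ h0
  apply h c
  apply hinj
  rw [hc, map_smul, Φ.d_self]

variable (hR : ∀ a b c, Φ.t a b c = 0) (v : Basis (Fin n) κ K)

include hR

theorem T1 (w u z : Fin n → κ) (c : K) : Φ.th v w u (Φ.br v z c) = Φ.th v w z (Φ.br v u c) := by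
  have h := iso_P11 h2 hΦ v w z u c
  rw [tw_zero hR, zero_add] at h
  exact eq_of_add h2 h

omit hR in
theorem T3 (w u : Fin n → κ) (c : K) : Φ.th v u w (Φ.br v w c) = Φ.th v w u (Φ.br v u c) :=
  eq_of_add h2 (iso_P h2 hΦ v w u c).2

/-- `h([w|b'],x) = h(β_b, γ_{b'})` for `[w|e0] = β_b` -/
theorem eps_val {e0 : K} {w : Fin n → κ} {b : K} (h : Φ.br v w e0 = Φ.d e0 b) (b' : K) :
    hh (Φ.br v w b') (Φ.f e0) = hh (Φ.d e0 b) (Φ.d b' e0) := by
  have e1 : Φ.f e0 = Φ.br v (sqb v e0) e0 := by rw [br_sqb hR, Φ.d_self]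
  conv_lhs => rw [e1]
  rw [← th_sqb h2 hR, T1 h2 hΦ hR, th_sqb h2 hR, h, br_sqb hR]

/-- Lemma A -/
theorem lemA {e0 : K} (hP : P1 (Φ.f e0)) {w : Fin n → κ} {b : K} (h : Φ.br v w e0 = Φ.d e0 b) :
    ∃ c : κ, Φ.br v w b = Φ.d b e0 + c • Φ.f e0 ∧
      c * hh (Φ.d e0 b) (Φ.f e0) = hh (Φ.d b e0) (Φ.f e0) := by
  have e1 : hh (Φ.br v w b) (Φ.f e0) = hh (Φ.d b e0) (Φ.f e0) := by
    rw [eps_val h2 hΦ hR v h, q_eq h2 hΦ]
  obtain ⟨c, hc⟩ := hP (Φ.br v w b + Φ.d b e0) (by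
    rw [hh_add_left h2, e1]
    linear_combination hh (Φ.d b e0) (Φ.f e0) * h2)
  have hbr : Φ.br v w b = Φ.d b e0 + c • Φ.f e0 := by
    rw [← hc]
    have := vadd_self h2 (Φ.d b e0)
    calc Φ.br v w b = Φ.br v w b + (Φ.d b e0 + Φ.d b e0) := by rw [this, add_zero]
      _ = Φ.d b e0 + (Φ.br v w b + Φ.d b e0) := by abel
  refine ⟨c, hbr, ?_⟩
  have h0 := iso_I0 h2 hΦ v w e0
  rw [h, ← br_sqb hR v, T1 h2 hΦ hR, th_sqb h2 hR, h, hbr, hh_add_right, hh_smul_right,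
    q_eq h2 hΦ] at h0
  have := eq_of_add h2 h0
  exact this.symm

/-- Lemma B -/
theorem lemB {e0 b0 : K} (hP : P1 (Φ.f e0)) (hX : hh (Φ.d e0 b0) (Φ.f e0) ≠ 0) {w : Fin n → κ}
    (h : Φ.br v w e0 = 0) : ∀ c, Φ.br v w c = 0 := by
  have h' : Φ.br v w e0 = Φ.d e0 0 := by rw [h, map_zero]
  have h1 : ∀ c, ∃ χ : κ, Φ.br v w c = χ • Φ.f e0 := by
    intro c
    refine hP _ ?_
    rw [eps_val h2 hΦ hR v h', map_zero, hh_zero_left]
  choose χ hχ using h1
  have h3 : ∀ u : Fin n → κ, (∑ e, u e * χ (v e) ^ 2) * hh (Φ.f e0) (Φ.br v u e0) = 0 := by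
    intro u
    have e1 := T3 h2 hΦ v w u e0
    rw [h, th_zero_right, th_eq h2 w u (R_kill hR _)] at e1
    rw [e1, Finset.sum_mul]
    refine Finset.sum_congr rfl fun e _ => ?_
    rw [hχ, hh_smul_left]
    ring
  have hL2 : hh (Φ.f e0) (Φ.br v (sqb v b0) e0) ≠ 0 := by
    rw [br_sqb hR, X_eq h2 hΦ]
    exact hX
  have hL1 : ∀ u : Fin n → κ, ∑ e, u e * χ (v e) ^ 2 = 0 := by
    intro u
    by_contra hne
    have e1 := (mul_eq_zero.1 (h3 u)).resolve_left hne
    have e2 := (mul_eq_zero.1 (h3 (sqb v b0))).resolve_right hL2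
    have e3 := h3 (u + sqb v b0)
    simp only [Pi.add_apply, add_mul, Finset.sum_add_distrib] at e3
    rw [e2, zero_mul, add_zero, map_add, LinearMap.add_apply, hh_add_right, e1, zero_add] at e3
    rcases mul_eq_zero.1 e3 with h | h
    · exact hne h
    · exact hL2 h
  have h4 : ∀ e, Φ.br v w (v e) = 0 := by
    intro e
    have e1 := hL1 (Pi.single e 1)
    rw [Finset.sum_eq_single e] at e1
    · rw [Pi.single_eq_same, one_mul] at e1
      rw [hχ, pow_eq_zero_iff (by norm_num) |>.1 e1, zero_smul]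
    · intro j _ hj
      rw [Pi.single_eq_of_ne hj, zero_mul]
    · intro h
      exact absurd (Finset.mem_univ _) h
  intro c
  rw [← v.sum_repr c, map_sum]
  refine Finset.sum_eq_zero fun i _ => ?_
  rw [map_smul, h4, smul_zero]

/-- Theorem D -/
theorem thmD {e0 : K} (hP : P1 (Φ.f e0)) (hx0 : Φ.f e0 ≠ 0) {w1 w2 : Fin n → κ} {b1 b2 : K}
    (h1 : Φ.br v w1 e0 = Φ.d e0 b1) (h2' : Φ.br v w2 e0 = Φ.d e0 b2)
    (hX2 : hh (Φ.d e0 b2) (Φ.f e0) ≠ 0) :
    ∃ μ : κ, hh (Φ.d e0 b2) (Φ.f e0) • Φ.d b1 e0 + hh (Φ.d e0 b1) (Φ.f e0) • Φ.d b2 e0 =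
      μ • Φ.f e0 := by
  set x := Φ.f e0 with hx
  set X1 := hh (Φ.d e0 b1) x with hX1d
  set X2 := hh (Φ.d e0 b2) x with hX2d
  set q1 := hh (Φ.d b1 e0) x with hq1
  set q2 := hh (Φ.d b2 e0) x with hq2
  obtain ⟨c1, hc1, hcq1⟩ := lemA h2 hΦ hR v hP h1
  obtain ⟨c2, hc2, hcq2⟩ := lemA h2 hΦ hR v hP h2'
  have hfam : ∀ t : κ, Φ.br v (w1 + t • w2) e0 = Φ.d e0 (b1 + t • b2) := by
    intro t
    rw [map_add, map_smul, LinearMap.add_apply, LinearMap.smul_apply, h1, h2', map_add, map_smul]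
  have hγ : ∀ t : κ, Φ.d (b1 + t • b2) e0 = Φ.d b1 e0 + t ^ 2 • Φ.d b2 e0 := by
    intro t
    rw [d_line, hR, smul_zero, add_zero]
  choose c hc hcq using fun t => lemA h2 hΦ hR v hP (hfam t)
  -- the mixed bracket
  have hmix : ∀ t : κ, t • (Φ.br v w1 b2 + Φ.br v w2 b1) = (c t + c1 + t ^ 2 * c2) • x := by
    intro t
    have e1 := hc t
    rw [hγ t] at e1
    have e2 : Φ.br v (w1 + t • w2) (b1 + t • b2) =
        Φ.br v w1 b1 + t • (Φ.br v w1 b2 + Φ.br v w2 b1) + t ^ 2 • Φ.br v w2 b2 := by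
      simp only [map_add, map_smul, LinearMap.add_apply, LinearMap.smul_apply, smul_add, smul_smul]
      rw [sq]
      abel
    rw [e2, hc1, hc2] at e1
    have e4 := sub_eq_zero.2 e1
    have e5 : (2 * c1 + 2 * (t ^ 2 * c2)) • x = 0 := by
      rw [h2]; simp
    have e6 : t • (Φ.br v w1 b2 + Φ.br v w2 b1) - (c t + c1 + t ^ 2 * c2) • x =
        (Φ.d b1 e0 + c1 • Φ.f e0 + t • (Φ.br v w1 b2 + Φ.br v w2 b1) +
          t ^ 2 • (Φ.d b2 e0 + c2 • Φ.f e0) - (Φ.d b1 e0 + t ^ 2 • Φ.d b2 e0 + c t • Φ.f e0)) -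
        (2 * c1 + 2 * (t ^ 2 * c2)) • x := by
      rw [← hx]
      module
    exact sub_eq_zero.1 (by rw [e6, e4, e5, sub_zero])
  have hom := hmix 1
  rw [one_smul] at hom
  set om := c 1 + c1 + 1 ^ 2 * c2 with homd
  have hct : ∀ t : κ, c t = c1 + t * om + t ^ 2 * c2 := by
    intro t
    have e1 := hmix t
    rw [hom, smul_smul] at e1
    have e2 : (t * om - (c t + c1 + t ^ 2 * c2)) • x = 0 := by
      rw [sub_smul, e1, sub_self]
    have e3 := (smul_eq_zero.1 e2).resolve_right hx0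
    linear_combination -e3 - (c1 + t ^ 2 * c2) * h2
  have key := poly_zero 5 (fun k => if k = 0 then c1 * X1 + q1 else
    if k = 1 then om * X1 else
    if k = 2 then c1 * X2 + c2 * X1 else
    if k = 3 then om * X2 else c2 * X2 + q2) (by
      intro t
      have e1 := hcq t
      rw [hγ t, map_add, map_smul, hh_add_left h2, hh_smul_left, hh_add_left h2, hh_smul_left,
        hct t, ← hX1d, ← hX2d, ← hq1, ← hq2] at e1
      simp only [Finset.sum_range_succ, Finset.sum_range_zero]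
      norm_num
      linear_combination e1 + (q1 + (t ^ 2) ^ 2 * q2) * h2)
  have k2 : c1 * X2 + c2 * X1 = 0 := by simpa using key 2 (by norm_num)
  refine hP _ ?_
  have k3 : c1 * X1 = q1 := hcq1
  have k4 : c2 * X2 = q2 := hcq2
  rw [hh_add_left h2, hh_smul_left, hh_smul_left, ← hq1, ← hq2]
  linear_combination (X1 * X2) * k2 - X2 ^ 2 * k3 - X1 ^ 2 * k4

end iso

end CMap

/-- four factors -/
theorem FP.four {κ : Type*} [Field κ] {r : ℕ} (h2 : (2 : κ) = 0) {x : Fin r → κ} (hx : FP x)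
    (hxx : hh x x = 0) {u0 u1 u2 u3 : Fin r → κ}
    (hli : LinearIndependent κ (Fin.cons x ![u0, u1, u2, u3] : Fin (4 + 1) → (Fin r → κ)))
    {e1 e2 e3 : Fin r → κ}
    (h : hh u0 x * hh u1 x * hh u2 x * hh u3 x =
      hh u3 x * hh e1 x + hh u1 x * hh e2 x + hh u2 x * hh e3 x) : False := by
  classical
  obtain ⟨l, v', ι, hι, hv', hsp⟩ := exists_ext hli
  have hrep : ∀ (i : Fin l) (e : Fin r → κ),
      Rep (fun i => hh (v' i) x) {S | Even S.card ∧ S.card ≤ 2} (hh (v' i) x * hh e x) := by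
    intro i e
    obtain ⟨a, ha⟩ := hh_basis h2 hxx hsp e
    rw [ha, Finset.mul_sum]
    refine Rep.sum h2 _ _ fun j _ => ?_
    have : hh (v' i) x * (a j ^ 2 * hh (v' j) x) = a j ^ 2 * (hh (v' i) x * hh (v' j) x) := by ring
    rw [this]
    exact Rep.smul _ (Rep.mul2 (fun i => hh (v' i) x) i j)
  have h0 : v' (ι 0) = u0 := hι 0
  have h1 : v' (ι 1) = u1 := hι 1
  have h2' : v' (ι 2) = u2 := hι 2
  have h3 : v' (ι 3) = u3 := hι 3
  have hR : Rep (fun i => hh (v' i) x) {S | Even S.card ∧ S.card ≤ 2}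
      (hh u3 x * hh e1 x + hh u1 x * hh e2 x + hh u2 x * hh e3 x) := by
    rw [← h1, ← h2', ← h3]
    exact Rep.add h2 (Rep.add h2 (hrep _ _) (hrep _ _)) (hrep _ _)
  have hc : (Finset.univ.map ι).card = 4 := by
    rw [Finset.card_map, Finset.card_univ, Fintype.card_fin]
  have := FP.unique h2 hx hv' 0 (S := Finset.univ.map ι) (s := 1) (by
      intro T hT
      rw [add_zero]
      exact hT.1) (by
      intro hT
      have := hT.2
      rw [hc] at this
      omega) (by rw [hc]; decide) hR (by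
      rw [Finset.prod_map, Fin.prod_univ_four, one_pow, one_mul, h0, h1, h2', h3]
      exact h)
  exact one_ne_zero this

/-- three factors -/
theorem FP.three {κ : Type*} [Field κ] {r : ℕ} (h2 : (2 : κ) = 0) {x : Fin r → κ} (hx : FP x)
    (hxx : hh x x = 0) {u0 u1 u2 : Fin r → κ}
    (hli : LinearIndependent κ (Fin.cons x ![u0, u1, u2] : Fin (3 + 1) → (Fin r → κ)))
    {s A B C : κ} {e : Fin r → κ}
    (h : s ^ 2 * (hh u0 x * hh u1 x * hh u2 x) =
      A ^ 2 * hh u2 x + B ^ 2 * hh u1 x + C ^ 2 * hh e x) : s = 0 := by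
  classical
  obtain ⟨l, v', ι, hι, hv', hsp⟩ := exists_ext hli
  have hone : ∀ i : Fin l, Rep (fun i => hh (v' i) x) {S | S.card = 1} (hh (v' i) x) := by
    intro i
    have := Rep.prod (fun i => hh (v' i) x) (D := {S | S.card = 1}) (S := {i})
      (Finset.card_singleton i)
    rwa [Finset.prod_singleton] at this
  have hrep : ∀ (e : Fin r → κ), Rep (fun i => hh (v' i) x) {S | S.card = 1} (hh e x) := by
    intro e
    obtain ⟨a, ha⟩ := hh_basis h2 hxx hsp e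
    rw [ha]
    exact Rep.sum h2 _ _ fun j _ => Rep.smul _ (hone j)
  have h0 : v' (ι 0) = u0 := hι 0
  have h1 : v' (ι 1) = u1 := hι 1
  have h2' : v' (ι 2) = u2 := hι 2
  have hc : (Finset.univ.map ι).card = 3 := by
    rw [Finset.card_map, Finset.card_univ, Fintype.card_fin]
  refine FP.unique h2 hx hv' 1 (S := Finset.univ.map ι) (D := {S | S.card = 1}) (by
      intro T hT
      have : T.card = 1 := hT
      rw [this]
      exact even_two) (by
      intro hT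
      have : (Finset.univ.map ι).card = 1 := hT
      rw [hc] at this
      omega) (by rw [hc]; decide)
      (Rep.add h2 (Rep.add h2 (Rep.smul A (hrep u2)) (Rep.smul B (hrep u1))) (Rep.smul C (hrep e)))
      (by
      rw [Finset.prod_map, Fin.prod_univ_three, h0, h1, h2']
      exact h)

end MP2619.CUB
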