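import Pool.Agent.Lib.MP_2619d0_ag.CUB.A1

/-!
The case `R = 0` of the theorem on cubic families: counts.
-/

set_option autoImplicit false

namespace MP2619.CUB

open Finset Module

/-- vectors in a subspace of large dimension, independent together with a given one -/
theorem exists_pick {κ K : Type*} [Field κ] [AddCommGroup K] [Module κ K] [FiniteDimensional κ K]
    (B : Submodule κ K) {e0 : K} (he : e0 ≠ 0) :
    ∀ k : ℕ, k < finrank κ B → ∃ b : Fin k → K, (∀ i, b i ∈ B) ∧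
      LinearIndependent κ (Fin.cons e0 b : Fin (k + 1) → K) := by
  intro k
  induction k with
  | zero =>
    intro _
    refine ⟨Fin.elim0, fun i => i.elim0, ?_⟩
    refine linearIndependent_finCons.2 ⟨linearIndependent_empty_type, ?_⟩
    rw [Set.range_eq_empty, Submodule.span_empty, Submodule.mem_bot]
    exact he
  | succ k ih =>
    intro hk
    obtain ⟨b, hb, hli⟩ := ih (by omega)
    by_cases hB : B ≤ Submodule.span κ (Set.range (Fin.cons e0 b : Fin (k + 1) → K))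
    · exfalso
      have h1 := Submodule.finrank_mono hB
      have h2 := finrank_range_le_card (R := κ) (Fin.cons e0 b : Fin (k + 1) → K)
      rw [Fintype.card_fin] at h2
      unfold Set.finrank at h2
      omega
    · obtain ⟨z, hz, hz'⟩ := SetLike.not_le_iff_exists.1 hB
      refine ⟨Fin.snoc b z, ?_, ?_⟩
      · intro i
        refine Fin.lastCases ?_ (fun i => ?_) i
        · rw [Fin.snoc_last]; exact hz
        · rw [Fin.snoc_castSucc]; exact hb i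
      · rw [Fin.cons_snoc_eq_snoc_cons]
        exact linearIndependent_finSnoc.2 ⟨hli, hz'⟩

namespace CMap

variable {κ K : Type*} [Field κ] [AddCommGroup K] [Module κ K] {r n : ℕ}

/-- the space of solutions of `[w|e0] = β_b` -/
def KK (Φ : CMap κ K (Fin r → κ)) (v : Fin n → K) (e0 : K) : Submodule κ ((Fin n → κ) × K) :=
  LinearMap.ker ((((Φ.br v).flip e0).comp (LinearMap.fst κ (Fin n → κ) K)) -
    ((Φ.d e0).comp (LinearMap.snd κ (Fin n → κ) K)))

/-- the space of solutions of `[w|e0] = 0` -/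
def EE (Φ : CMap κ K (Fin r → κ)) (v : Fin n → K) (e0 : K) : Submodule κ (Fin n → κ) :=
  LinearMap.ker ((Φ.br v).flip e0)

variable {Φ : CMap κ K (Fin r → κ)}

theorem mem_KK {v : Fin n → K} {e0 : K} {p : (Fin n → κ) × K} :
    p ∈ Φ.KK v e0 ↔ Φ.br v p.1 e0 = Φ.d e0 p.2 := by
  unfold KK
  rw [LinearMap.mem_ker, LinearMap.sub_apply, sub_eq_zero]
  rfl

theorem mem_EE {v : Fin n → K} {e0 : K} {w : Fin n → κ} :
    w ∈ Φ.EE v e0 ↔ Φ.br v w e0 = 0 := by
  unfold EE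
  rw [LinearMap.mem_ker]
  rfl

theorem finrank_KK_le [FiniteDimensional κ K] (v : Fin n → K) (e0 : K) :
    finrank κ (Φ.KK v e0) ≤ finrank κ (Φ.EE v e0) +
      finrank κ ((Φ.KK v e0).map (LinearMap.snd κ (Fin n → κ) K)) := by
  let f := (LinearMap.snd κ (Fin n → κ) K).domRestrict (Φ.KK v e0)
  have h1 := LinearMap.finrank_range_add_finrank_ker f
  have h2 : LinearMap.range f = (Φ.KK v e0).map (LinearMap.snd κ (Fin n → κ) K) :=
    LinearMap.range_domRestrict _ _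
  rw [h2] at h1
  let g : LinearMap.ker f →ₗ[κ] Φ.EE v e0 :=
    LinearMap.codRestrict (Φ.EE v e0)
      (((LinearMap.fst κ (Fin n → κ) K).comp (Φ.KK v e0).subtype).comp (LinearMap.ker f).subtype)
      (by
        intro p
        rw [mem_EE]
        have h3 := mem_KK.1 p.1.2
        have h4 : (p.1 : (Fin n → κ) × K).2 = 0 := p.2
        rw [h4, map_zero] at h3
        exact h3)
  have hg : Function.Injective g := by
    intro p q hpq
    have h3 : (p.1 : (Fin n → κ) × K).1 = (q.1 : (Fin n → κ) × K).1 := congrArg Subtype.val hpq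
    have h4 : (p.1 : (Fin n → κ) × K).2 = 0 := p.2
    have h5 : (q.1 : (Fin n → κ) × K).2 = 0 := q.2
    exact Subtype.ext (Subtype.ext (Prod.ext h3 (h4.trans h5.symm)))
  have h3 := LinearMap.finrank_le_finrank_of_injective hg
  omega

theorem finrank_KK_ge [FiniteDimensional κ K] (v : Basis (Fin n) κ K) (e0 : K) :
    2 * n ≤ finrank κ (Φ.KK v e0) + finrank κ Φ.N := by
  let L : ((Fin n → κ) × K) →ₗ[κ] (Fin r → κ) :=
    (((Φ.br v).flip e0).comp (LinearMap.fst κ (Fin n → κ) K)) -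
      ((Φ.d e0).comp (LinearMap.snd κ (Fin n → κ) K))
  have h1 := LinearMap.finrank_range_add_finrank_ker L
  have h2 : LinearMap.range L ≤ Φ.N := by
    rintro _ ⟨p, rfl⟩
    exact sub_mem (Φ.br_mem _ _ _) (Φ.d_mem _ _)
  have h3 := Submodule.finrank_mono h2
  have h4 : finrank κ ((Fin n → κ) × K) = n + n := by
    rw [Module.finrank_prod, Module.finrank_fin_fun, Module.finrank_eq_card_basis v,
      Fintype.card_fin]
  have h5 : LinearMap.ker L = Φ.KK v e0 := rfl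
  rw [h5, h4] at h1
  omega

/-- the functionals `f(w) = ∑ w_e h(β_{v_e}, ·)` -/
def Ff (Φ : CMap κ K (Fin r → κ)) (v : Fin n → K) (e0 : K) :
    (Fin n → κ) →ₗ[κ] Module.Dual κ (Fin r → κ) :=
  ∑ e, (LinearMap.proj e : (Fin n → κ) →ₗ[κ] κ).smulRight (hr (Φ.d e0 (v e)))

theorem Ff_apply (v : Fin n → K) (e0 : K) (w : Fin n → κ) (X : Fin r → κ) :
    Φ.Ff v e0 w X = ∑ e, w e * hh (Φ.d e0 (v e)) X := by
  unfold Ff
  simp

theorem Ff_inj (h2 : (2 : κ) = 0) (v : Basis (Fin n) κ K) {e0 : K}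
    (hinj : Function.Injective (Φ.d e0)) : Function.Injective (Φ.Ff v e0) := by
  rw [← LinearMap.ker_eq_bot, LinearMap.ker_eq_bot']
  intro w hw
  obtain ⟨ψ, hψ⟩ := LinearMap.exists_leftInverse_of_injective (Φ.d e0)
    (LinearMap.ker_eq_bot.2 hinj)
  funext j
  have h := congrArg (fun F => F (sqd ((v.coord j).comp ψ))) hw
  simp only [Ff_apply, LinearMap.zero_apply, hh_sqd h2, LinearMap.comp_apply] at h
  have e1 : ∀ e, v.coord j (ψ (Φ.d e0 (v e))) = if e = j then 1 else 0 := by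
    intro e
    have : ψ (Φ.d e0 (v e)) = v e := LinearMap.congr_fun hψ (v e)
    rw [this, Basis.coord_apply, Basis.repr_self, Finsupp.single_apply]
  simp only [e1] at h
  rw [Finset.sum_eq_single j] at h
  · simpa using h
  · intro e _ he
    simp [he]
  · intro h'
    exact absurd (Finset.mem_univ _) h'

section main

variable [Infinite κ] (h2 : (2 : κ) = 0) (hΦ : Φ.Iso) (hR : ∀ a b c, Φ.t a b c = 0)
  (v : Basis (Fin n) κ K)

include h2 hΦ

/-- independence of `x, g, β_{b_1}, …` -/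
theorem li_cons {e0 : K} (hinj : Function.Injective (Φ.d e0)) {k : ℕ} {b : Fin k → K}
    (hli : LinearIndependent κ (Fin.cons e0 b : Fin (k + 1) → K)) {g : Fin r → κ}
    (hg : hh (Φ.f e0) g = 1) :
    LinearIndependent κ (Fin.cons (Φ.f e0) (Fin.cons g (fun i => Φ.d e0 (b i))) :
      Fin (k + 1 + 1) → (Fin r → κ)) := by
  rw [Fintype.linearIndependent_iff] at hli ⊢
  intro c hc
  rw [Fin.sum_univ_succ, Fin.sum_univ_succ] at hc
  simp only [Fin.cons_zero, Fin.cons_succ] at hc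
  have h1 := congrArg (hh (Φ.f e0)) hc
  rw [hh_add_right, hh_add_right, hh_smul_right, hh_smul_right, hΦ e0, hg, hh_sum_right,
    hh_zero_right] at h1
  have h3 : ∑ i, hh (Φ.f e0) (c (Fin.succ (Fin.succ i)) • Φ.d e0 (b i)) = 0 := by
    refine Finset.sum_eq_zero fun i _ => ?_
    rw [hh_smul_right, iso_fd h2 hΦ, mul_zero]
  rw [h3] at h1
  have hc1 : c (Fin.succ 0) = 0 := by linear_combination h1
  rw [hc1, zero_smul, zero_add] at hc
  have hd : Φ.d e0 (c 0 • e0 + ∑ i, c (Fin.succ (Fin.succ i)) • b i) = 0 := by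
    rw [map_add, map_smul, Φ.d_self, map_sum]
    rw [← hc]
    congr 1
    refine Finset.sum_congr rfl fun i _ => ?_
    rw [map_smul]
  have hz := hinj (hd.trans (map_zero (Φ.d e0)).symm)
  have h4 := hli (Fin.cons (c 0) (fun i => c (Fin.succ (Fin.succ i)))) (by
    rw [Fin.sum_univ_succ]
    simp only [Fin.cons_zero, Fin.cons_succ]
    exact hz)
  intro i
  refine Fin.cases ?_ (fun i => Fin.cases hc1 (fun i => ?_) i) i
  · simpa using h4 0
  · simpa using h4 i.succ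

omit hΦ in
omit [Infinite κ] in
/-- normal form of `γ_b` -/
theorem gform {e0 b1 b2 : K} {μ : κ} (hX1 : hh (Φ.d e0 b1) (Φ.f e0) ≠ 0)
    (hD : hh (Φ.d e0 b2) (Φ.f e0) • Φ.d b1 e0 + hh (Φ.d e0 b1) (Φ.f e0) • Φ.d b2 e0 = μ • Φ.f e0) :
    Φ.d b2 e0 = hh (Φ.d e0 b2) (Φ.f e0) • ((hh (Φ.d e0 b1) (Φ.f e0))⁻¹ • Φ.d b1 e0) +
      ((hh (Φ.d e0 b1) (Φ.f e0))⁻¹ * μ) • Φ.f e0 := by
  set X1 := hh (Φ.d e0 b1) (Φ.f e0) with hX1d
  set X2 := hh (Φ.d e0 b2) (Φ.f e0) with hX2d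
  have h1 : X1 • Φ.d b2 e0 = X2 • Φ.d b1 e0 + μ • Φ.f e0 := by
    rw [← hD]
    have := vadd_self h2 (X2 • Φ.d b1 e0)
    calc X1 • Φ.d b2 e0 = (X2 • Φ.d b1 e0 + X2 • Φ.d b1 e0) + X1 • Φ.d b2 e0 := by
          rw [this, zero_add]
      _ = _ := by abel
  have h3 : Φ.d b2 e0 = X1⁻¹ • (X1 • Φ.d b2 e0) := by
    rw [smul_smul, inv_mul_cancel₀ hX1, one_smul]
  rw [h3, h1, smul_add, smul_smul, smul_smul, smul_smul, mul_comm X1⁻¹ X2]

theorem g_val {e0 b : K} {g : Fin r → κ} {μ : κ} (hX : hh (Φ.d e0 b) (Φ.f e0) ≠ 0)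
    (hg : Φ.d b e0 = hh (Φ.d e0 b) (Φ.f e0) • g + μ • Φ.f e0) :
    hh (Φ.d e0 b) g = hh (Φ.d e0 b) (Φ.f e0) * hh g (Φ.f e0) + μ := by
  have h1 := q_eq h2 hΦ e0 b
  rw [hg, hh_add_right, hh_smul_right, hh_smul_right, hh_add_left h2, hh_smul_left,
    hh_smul_left, hΦ e0] at h1
  apply mul_left_cancel₀ hX
  linear_combination h1 - μ * hh (Φ.d e0 b) (Φ.f e0) * h2

include hR

theorem eps_form {e0 : K} {w : Fin n → κ} {b b' : K} {g : Fin r → κ} {μ μ' : κ}
    (h : Φ.br v w e0 = Φ.d e0 b) (hX : hh (Φ.d e0 b) (Φ.f e0) ≠ 0)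
    (hg : Φ.d b e0 = hh (Φ.d e0 b) (Φ.f e0) • g + μ • Φ.f e0)
    (hg' : Φ.d b' e0 = hh (Φ.d e0 b') (Φ.f e0) • g + μ' • Φ.f e0) :
    hh (Φ.br v w b') (Φ.f e0) = hh (Φ.d e0 b') (Φ.f e0) *
      (hh (Φ.d e0 b) (Φ.f e0) * hh g (Φ.f e0) + μ) + μ' * hh (Φ.d e0 b) (Φ.f e0) := by
  rw [eps_val h2 hΦ hR v h, hg', hh_add_right, hh_smul_right, hh_smul_right,
    g_val h2 hΦ hX hg]

/-- no three independent solutions modulo `e0` -/
theorem no_three {e0 : K} (hP : P1 (Φ.f e0)) (hF : FP (Φ.f e0)) (hinj : Function.Injective (Φ.d e0))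
    {w : Fin 3 → Fin n → κ} {b : Fin 3 → K}
    (hli : LinearIndependent κ (Fin.cons e0 b : Fin (3 + 1) → K))
    (h : ∀ i, Φ.br v (w i) e0 = Φ.d e0 (b i)) : False := by
  have hne : ∀ i, ∀ c : κ, b i ≠ c • e0 := by
    intro i c hc
    have h1 := Fintype.linearIndependent_iff.1 hli
      (Fin.cons (-c) (fun j => if j = i then 1 else 0)) (by
        rw [Fin.sum_univ_succ]
        simp only [Fin.cons_zero, Fin.cons_succ, ite_smul, one_smul, zero_smul]
        rw [Finset.sum_ite_eq' Finset.univ i, if_pos (Finset.mem_univ _), hc]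
        module) i.succ
    simp at h1
  have hX : ∀ i, hh (Φ.d e0 (b i)) (Φ.f e0) ≠ 0 := fun i => X_ne hP hinj (hne i)
  have hx0 : Φ.f e0 ≠ 0 := by
    intro h0
    apply hX 0
    rw [h0, hh_zero_right]
  have hμ : ∀ i, ∃ μ : κ, Φ.d (b i) e0 = hh (Φ.d e0 (b i)) (Φ.f e0) •
      ((hh (Φ.d e0 (b 0)) (Φ.f e0))⁻¹ • Φ.d (b 0) e0) + μ • Φ.f e0 := by
    intro i
    obtain ⟨μ, hμ⟩ := thmD h2 hΦ hR v hP hx0 (h 0) (h i) (hX i)
    exact ⟨_, gform h2 (hX 0) hμ⟩
  choose μ hμ using hμ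
  set g : Fin r → κ := (hh (Φ.d e0 (b 0)) (Φ.f e0))⁻¹ • Φ.d (b 0) e0 with hgd
  have hg1 : hh (Φ.f e0) g = 1 := by
    rw [hgd, hh_smul_right, X_eq h2 hΦ, inv_mul_cancel₀ (hX 0)]
  have hli2 := li_cons h2 hΦ hinj hli hg1
  have hvec : (Fin.cons g (fun i => Φ.d e0 (b i)) : Fin (3 + 1) → (Fin r → κ)) =
      ![g, Φ.d e0 (b 0), Φ.d e0 (b 1), Φ.d e0 (b 2)] := by
    funext i
    fin_cases i <;> rfl
  rw [hvec] at hli2
  refine FP.four h2 hF (hΦ e0) hli2 (e1 := Φ.br v (w 0) (b 1)) (e2 := Φ.br v (w 1) (b 2))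
    (e3 := Φ.br v (w 0) (b 2)) ?_
  rw [eps_form h2 hΦ hR v (h 0) (hX 0) (hμ 0) (hμ 1), eps_form h2 hΦ hR v (h 1) (hX 1) (hμ 1) (hμ 2),
    eps_form h2 hΦ hR v (h 0) (hX 0) (hμ 0) (hμ 2)]
  set X0 := hh (Φ.d e0 (b 0)) (Φ.f e0)
  set X1 := hh (Φ.d e0 (b 1)) (Φ.f e0)
  set X2 := hh (Φ.d e0 (b 2)) (Φ.f e0)
  set c0 := hh g (Φ.f e0)
  linear_combination (-(c0 * X0 * X1 * X2) - X0 * X1 * μ 2 - X0 * X2 * μ 1 - X1 * X2 * μ 0) * h2

/-- RZ -/
theorem finrank_KK_RZ [FiniteDimensional κ K] {e0 : K} (hP : P1 (Φ.f e0)) (hF : FP (Φ.f e0))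
    (hinj : Function.Injective (Φ.d e0)) :
    finrank κ (Φ.KK v e0) ≤ finrank κ (Φ.EE v e0) + 3 := by
  have h1 := finrank_KK_le (Φ := Φ) (v : Fin n → K) e0
  by_contra hlt
  set B := (Φ.KK v e0).map (LinearMap.snd κ (Fin n → κ) K) with hB
  have h3 : 3 < finrank κ B := by omega
  have he0 : e0 ≠ 0 := by
    rintro rfl
    have hK : ∀ y : K, y = 0 := fun y => hinj (by rw [Φ.d_zero, Φ.d_zero])
    have : finrank κ B = 0 := by
      have : Subsingleton B := ⟨fun a b => Subtype.ext ((hK a).trans (hK b).symm)⟩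
      exact finrank_zero_of_subsingleton
    omega
  obtain ⟨b, hb, hli⟩ := exists_pick B he0 3 h3
  have hw : ∀ i, ∃ w : Fin n → κ, Φ.br v w e0 = Φ.d e0 (b i) := by
    intro i
    obtain ⟨p, hp, hpb⟩ := Submodule.mem_map.1 (hb i)
    refine ⟨p.1, ?_⟩
    rw [mem_KK.1 hp, ← hpb]
    rfl
  choose w hw using hw
  exact no_three h2 hΦ hR v hP hF hinj hli hw

end main

end CMap

end MP2619.CUB
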