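import Mathlib

set_option autoImplicit false

namespace MP2619.CUB

/-- The rank of a matrix does not change under field extension. -/
theorem rank_descend {M L : Type*} [Field M] [Field L] (ι : M →+* L) {N n r : ℕ}
    (B : Fin N → Fin n → M) (v : Fin r → Fin N → L)
    (hv : LinearIndependent L (fun i j => ∑ l, v i l * ι (B l j))) :
    ∃ w : Fin r → Fin N → M, LinearIndependent M (fun i j => ∑ l, w i l * B l j) := by
  classical
  set V : Submodule M (Fin n → M) := Submodule.span M (Set.range B) with hV
  obtain ⟨b⟩ : Nonempty (Module.Basis (Fin (Module.finrank M V)) M V) := ⟨Module.finBasis M V⟩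
  rcases le_or_gt r (Module.finrank M V) with hr | hr
  · have h1 : ∀ i : Fin r, ∃ c : Fin N → M, ∑ l, c l • B l = ((b (Fin.castLE hr i) : V) : Fin n → M) := by
      intro i
      exact (Submodule.mem_span_range_iff_exists_fun M).mp (b (Fin.castLE hr i)).2
    choose w hw using h1
    refine ⟨w, ?_⟩
    have h2 : (fun (i : Fin r) (j : Fin n) => ∑ l, w i l * B l j) =
        (fun i : Fin r => ((b (Fin.castLE hr i) : V) : Fin n → M)) := by
      funext i j
      rw [← hw i]
      simp [Finset.sum_apply, smul_eq_mul]
    rw [h2]
    have h3 : LinearIndependent M (fun i : Fin r => b (Fin.castLE hr i)) :=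
      b.linearIndependent.comp _ (Fin.castLE_injective hr)
    exact h3.map' V.subtype (Submodule.ker_subtype V)
  · exfalso
    have h1 : ∀ l : Fin N, ∃ c : Fin (Module.finrank M V) → M,
        B l = ∑ k, c k • ((b k : V) : Fin n → M) := by
      intro l
      have hl : B l ∈ V := Submodule.subset_span ⟨l, rfl⟩
      refine ⟨fun k => b.repr ⟨B l, hl⟩ k, ?_⟩
      have h2 := b.sum_repr ⟨B l, hl⟩
      have h3 := congrArg (V.subtype) h2
      rw [map_sum] at h3
      simp only [map_smul, Submodule.subtype_apply] at h3
      exact h3.symm
    choose c hc using h1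
    have h4 : ∀ i : Fin r, (fun j => ∑ l, v i l * ι (B l j)) ∈
        Submodule.span L (Set.range (fun (k : Fin (Module.finrank M V)) (j : Fin n) =>
          ι (((b k : V) : Fin n → M) j))) := by
      intro i
      rw [Submodule.mem_span_range_iff_exists_fun]
      refine ⟨fun k => ∑ l, v i l * ι (c l k), ?_⟩
      funext j
      simp only [Finset.sum_apply, Pi.smul_apply, smul_eq_mul, Finset.sum_mul]
      rw [Finset.sum_comm]
      refine Finset.sum_congr rfl fun l _ => ?_
      have h5 : B l j = ∑ k, c l k * ((b k : V) : Fin n → M) j := by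
        have h6 := congrFun (hc l) j
        simpa [Finset.sum_apply, smul_eq_mul] using h6
      rw [h5, map_sum, Finset.mul_sum]
      refine Finset.sum_congr rfl fun k _ => ?_
      rw [map_mul]
      ring
    have h7 := finrank_span_eq_card hv
    have h8 : Submodule.span L (Set.range (fun (i : Fin r) (j : Fin n) => ∑ l, v i l * ι (B l j))) ≤
        Submodule.span L (Set.range (fun (k : Fin (Module.finrank M V)) (j : Fin n) =>
          ι (((b k : V) : Fin n → M) j))) := by
      rw [Submodule.span_le]
      rintro _ ⟨i, rfl⟩
      exact h4 i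
    have h9 := Submodule.finrank_mono h8
    rw [h7] at h9
    have h10 := finrank_range_le_card (R := L) (fun (k : Fin (Module.finrank M V)) (j : Fin n) =>
          ι (((b k : V) : Fin n → M) j))
    rw [Set.finrank] at h10
    simp only [Fintype.card_fin] at h9 h10
    omega

end MP2619.CUB
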