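import Pool.Agent.Lib.MP_2619d0_ag.K.K7

/-!
Cubic families: algebraically independent ratios of the coordinates of a generic point.
-/

set_option autoImplicit false

namespace MP2619.CUB

universe u

open MvPolynomial Pool.Agent.Lib.MP_2619d0_ag Pool.Agent.Lib.MP_2619d0_ag.T MP2619.T MP2619.K

/-- `K3_psi` is injective (first part of `K3_deg`, without the hypothesis on the degree). -/
theorem psi_inj {m : ℕ} {F : MvPolynomial (Fin (m + 1 + 1)) ℂ} (hF : VG F)
    {κ : Type*} [Field κ] (χ : MvPolynomial (Fin (m + 1)) ℂ →+* κ) (hχ : Gp F χ) :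
    Function.Injective (K3_psi χ) := by
  classical
  obtain ⟨f, hf⟩ : ∃ f, f = finSuccEquiv ℂ m (dh ℂ (m + 1) F) := ⟨_, rfl⟩
  obtain ⟨hd, hc⟩ := finSucc_dh_coeff (m := m) hF.1
  rw [← hf] at hd hc
  have hlead := K3_lead hF
  have hc3 : f.coeff 3 ≠ 0 := by
    rw [hc, Ne, C_eq_zero]
    exact hlead
  have hnd : f.natDegree = 3 := by
    apply le_antisymm
    · exact Polynomial.natDegree_le_of_degree_le hd
    · exact Polynomial.le_natDegree_of_ne_zero hc3
  have hker : ∀ P : Polynomial (MvPolynomial (Fin m) ℂ),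
      P.eval₂ (K3_psi χ) (χ (X 0)) = 0 ↔ f ∣ P := by
    intro P
    rw [← K3_eval, hχ, dvd_iff_finSucc, ← hf, AlgEquiv.apply_symm_apply]
  rw [injective_iff_map_eq_zero]
  intro g hg
  have h1 : (Polynomial.C g).eval₂ (K3_psi χ) (χ (X 0)) = 0 := by
    rw [Polynomial.eval₂_C, hg]
  rw [hker] at h1
  by_contra hg0
  have h2 := Polynomial.natDegree_le_of_dvd h1 (Polynomial.C_ne_zero.2 hg0)
  rw [hnd, Polynomial.natDegree_C] at h2
  omega

/-- The ratios `x j / x 0`, `j ≥ 2`, are algebraically independent over `ℂ`. -/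
theorem ratios_indep {m : ℕ} {L : Type u} [Field L] [Algebra ℂ L]
    {F : MvPolynomial (Fin (m+1+1)) ℂ} (hF : VG F) (x : Fin (m+1+1) → L) (hx : HG F x) :
    AlgebraicIndependent ℂ (fun j : Fin m => x j.succ.succ / x 0) := by
  have hx0 : x 0 ≠ 0 := HG_zero hF hx
  have hGx : Gp F (ev x) := Gp_ev (N := m+1) hF.1 x hx0 hx
  have h1 := psi_inj hF (ev x) hGx
  have h2 : ∀ g : MvPolynomial (Fin m) ℂ, aeval (fun j : Fin m => x j.succ.succ / x 0) g =
      K3_psi (ev x) g := by
    intro g
    have h3 : ((aeval (fun j : Fin m => x j.succ.succ / x 0) : MvPolynomial (Fin m) ℂ →ₐ[ℂ] L) :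
        MvPolynomial (Fin m) ℂ →+* L) = K3_psi (ev x) := by
      apply MvPolynomial.ringHom_ext
      · intro a
        change aeval (fun j : Fin m => x j.succ.succ / x 0) (C a) = K3_psi (ev x) (C a)
        rw [K3_psi_C, aeval_C, ev_apply, aeval_C]
      · intro i
        change aeval (fun j : Fin m => x j.succ.succ / x 0) (X i) = K3_psi (ev x) (X i)
        rw [K3_psi_X, aeval_X, ev_apply, aeval_X]
    exact RingHom.congr_fun h3 g
  intro g g' hgg
  apply h1
  rw [← h2, ← h2]
  exact hgg

/-- Among elements algebraically independent over a subfield there are many which are algebraically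
independent over a bigger field of small transcendence degree. -/
theorem indep_of_trdeg {m D : ℕ} {K : Type*} {E L : Type u} [Field K] [Field E] [Field L] [Algebra K E]
    [Algebra K L] [Algebra E L] [IsScalarTower K E L] (y : Fin m → L)
    (hy : AlgebraicIndependent K y) (hD : Algebra.trdeg K E ≤ D) :
    ∃ i : Fin (m - D) → Fin m, AlgebraicIndependent E (fun l => y (i l)) := by
  classical
  let T : IntermediateField E L := IntermediateField.adjoin E (Set.range y)
  have hmem : ∀ j, y j ∈ T := fun j => IntermediateField.subset_adjoin _ _ ⟨j, rfl⟩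
  let y' : Fin m → T := fun j => ⟨y j, hmem j⟩
  let A : Subalgebra E T := Algebra.adjoin E (Set.range y')
  have halg : Algebra.IsAlgebraic A T := by
    refine ⟨fun z => ?_⟩
    obtain ⟨z, hz⟩ := z
    induction hz using IntermediateField.adjoin_induction with
    | mem z hz =>
      obtain ⟨j, rfl⟩ := hz
      exact isAlgebraic_algebraMap (⟨y' j, Algebra.subset_adjoin ⟨j, rfl⟩⟩ : A)
    | algebraMap a => exact isAlgebraic_algebraMap (algebraMap E A a)
    | add z w hz hw h1 h2 => exact IsAlgebraic.add h1 h2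
    | inv z hz h1 => exact IsAlgebraic.inv h1
    | mul z w hz hw h1 h2 => exact IsAlgebraic.mul h1 h2
  obtain ⟨t, htS, ht⟩ := exists_isTranscendenceBasis_subset (R := E) (A := T) (Set.range y')
  have htfin : Finite t := Set.Finite.subset (Set.finite_range y') htS
  have h1 : Cardinal.mk t = Algebra.trdeg E T := ht.cardinalMk_eq_trdeg
  have tw1 : IsScalarTower K E T := by
    refine IsScalarTower.of_algebraMap_eq fun a => ?_
    apply Subtype.ext
    exact IsScalarTower.algebraMap_apply K E L a
  have tw2 : IsScalarTower K T L := IsScalarTower.of_algebraMap_eq fun a => rfl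
  have h2 : Algebra.trdeg K E + Algebra.trdeg E T = Algebra.trdeg K T :=
    trdeg_add_eq K E (A := T)
  have hy' : AlgebraicIndependent K y' := by
    exact AlgebraicIndependent.of_comp (IsScalarTower.toAlgHom K T L) (by
      have h4 : (⇑(IsScalarTower.toAlgHom K T L) ∘ y') = y := rfl
      rw [h4]
      exact hy)
  have h3 := hy'.lift_cardinalMk_le_trdeg
  have h4 : (m : Cardinal.{u}) ≤ Algebra.trdeg K T := by
    have h5 : Cardinal.lift.{u} (Cardinal.mk (Fin m)) = (m : Cardinal.{u}) := by simp
    rw [h5, Cardinal.lift_id'] at h3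
    exact h3
  rw [← h2, ← h1] at h4
  have hct : Cardinal.mk t = (Nat.card t : Cardinal.{u}) := Nat.cast_card.symm
  have h5 : (m : Cardinal.{u}) ≤ ((D + Nat.card t : ℕ) : Cardinal.{u}) := by
    refine h4.trans ?_
    rw [hct]
    push_cast
    exact add_le_add_left hD _
  have h6 : m ≤ D + Nat.card t := by exact_mod_cast h5
  obtain ⟨e⟩ : Nonempty (Fin (m - D) ↪ t) := by
    have : Fintype t := Fintype.ofFinite t
    apply Function.Embedding.nonempty_of_card_le
    rw [Fintype.card_fin, ← Nat.card_eq_fintype_card]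
    omega
  have hsel : ∀ z : t, ∃ j, y' j = z.1 := fun z => htS z.2
  choose i hi using hsel
  refine ⟨fun l => i (e l), ?_⟩
  have h7 : AlgebraicIndependent E (fun l => ((e l : t) : T)) :=
    ht.1.comp e e.injective
  have h8 := h7.map' (f := IsScalarTower.toAlgHom E T L) (algebraMap T L).injective
  have h9 : (⇑(IsScalarTower.toAlgHom E T L) ∘ fun l => ((e l : t) : T)) =
      fun l => y (i (e l)) := by
    funext l
    change ((e l : t) : T).1 = y (i (e l))
    rw [← hi (e l)]
  rw [h9] at h8
  exact h8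

/-- Among the ratios `x j / x 0` there are `m - D` elements algebraically independent over `E`. -/
theorem indep_ratios {m : ℕ} {E L : Type u} [Field E] [Field L] [Algebra ℂ E] [Algebra ℂ L]
    [Algebra E L] [IsScalarTower ℂ E L] {F : MvPolynomial (Fin (m+1+1)) ℂ} (hF : VG F)
    (x : Fin (m+1+1) → L) (hx : HG F x) {D : ℕ} (hD : Algebra.trdeg ℂ E ≤ D) :
    ∃ i : Fin (m - D) → Fin (m+1+1), AlgebraicIndependent E (fun l => x (i l) / x 0) := by
  obtain ⟨i, hi⟩ := indep_of_trdeg (E := E) _ (ratios_indep hF x hx) hD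
  exact ⟨fun l => (i l).succ.succ, hi⟩

end MP2619.CUB
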