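import Pool.Agent.Lib.MP_2619d0_ag.CUB.Der
import Pool.Agent.Lib.MP_2619d0_ag.CUB.RankDesc
import Pool.Agent.Lib.MP_2619d0_ag.CUB.RankI
import Pool.Agent.Lib.MP_2619d0_ag.K.K7

/-!
Cubic families: the rank of the derivative of the family.
-/

set_option autoImplicit false

namespace MP2619.CUB

universe u

open MvPolynomial Pool.Agent.Lib.MP_2619d0_ag Pool.Agent.Lib.MP_2619d0_ag.T MP2619.T MP2619.K

/-- chain rule for a derivation of `L` over `E` and a polynomial with coefficients in `E` -/
theorem rank_chain {N : ℕ} {E L : Type*} [Field E] [Field L] [Algebra E L] (δ : Derivation E L L)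
    (φ : MvPolynomial (Fin N) E) (p : Fin N → L) :
    δ (aeval p φ) = ∑ l, δ (p l) * aeval p (pderiv l φ) := by
  induction φ using MvPolynomial.induction_on with
  | C a => simp [aeval_C]
  | add f g hf hg => simp only [map_add, hf, hg, mul_add, Finset.sum_add_distrib]
  | mul_X f n hf =>
    have h1 : ∀ l : Fin N, aeval p (pderiv l (f * X n)) =
        aeval p (pderiv l f) * p n + (if l = n then aeval p f else 0) := by
      intro l
      rw [Derivation.leibniz, map_add, smul_eq_mul, smul_eq_mul, map_mul, map_mul, aeval_X]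
      by_cases h : l = n
      · subst h
        rw [pderiv_X_self, if_pos rfl, map_one]
        ring
      · rw [pderiv_X_of_ne (Ne.symm h), if_neg h, map_zero]
        ring
    rw [map_mul, aeval_X, Derivation.leibniz, hf, smul_eq_mul, smul_eq_mul]
    simp only [h1, mul_add, Finset.sum_add_distrib, mul_ite, mul_zero, Finset.sum_ite_eq',
      Finset.sum_ite_eq, Finset.mem_univ, if_true]
    rw [Finset.mul_sum]
    rw [add_comm]
    congr 1
    · exact Finset.sum_congr rfl fun l _ => by ring
    · ring

/-- The rank of the derivative of `φ` at `p` is at least `m - D + 1`. With `y j = x j / x 0` and derivations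
`δ_l` dual to the elements of `indep_ratios` (`der_exists`): `δ_l (x j) = ∑ i, δ_l (p i) * aeval p (∂_i φ j)`
(`φ j` has coefficients in `E`), `δ_l (y j) = (δ_l (x j) - δ_l (x 0) * y j) / x 0`, and
`3 * x j = ∑ i, p i * aeval p (∂_i φ j)` (Euler, the forms are homogeneous of degree three). The vectors
`x`, `δ_l y` are linearly independent: the coordinate `0` of `δ_l y` is zero, `x 0 ≠ 0`, and
`δ_l (y (i l')) = if l' = l then 1 else 0`. -/
theorem rank_beta {m N : ℕ} {E L : Type u} [Field E] [Field L] [Algebra ℂ E] [Algebra ℂ L]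
    [Algebra E L] [IsScalarTower ℂ E L] {F : MvPolynomial (Fin (m+1+1)) ℂ} (hF : VG F)
    (φ : Fin (m+1+1) → MvPolynomial (Fin N) E) (hφ : ∀ j, (φ j).IsHomogeneous 3) (p : Fin N → L)
    (x : Fin (m+1+1) → L) (hxd : x = fun j => aeval p (φ j)) (hx : HG F x) {D : ℕ}
    (hD : Algebra.trdeg ℂ E ≤ D) :
    ∃ v : Fin (m - D + 1) → Fin N → L,
      LinearIndependent L (fun i j => ∑ l, v i l * aeval p (pderiv l (φ j))) := by
  have hchE : CharZero E := charZero_of_injective_algebraMap (algebraMap ℂ E).injective
  have hchL : CharZero L := charZero_of_injective_algebraMap (algebraMap ℂ L).injective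
  have hx0 : x 0 ≠ 0 := HG_zero hF hx
  obtain ⟨i, hi⟩ := indep_ratios hF x hx hD
  choose δ hδ using der_exists (fun l => x (i l) / x 0) hi
  have hchain : ∀ l j, ∑ a, δ l (p a) * aeval p (pderiv a (φ j)) = δ l (x j) := by
    intro l j
    rw [← rank_chain, hxd]
  have heuler : ∀ j, ∑ a, p a * aeval p (pderiv a (φ j)) = 3 * x j := by
    intro j
    have h1 := congrArg (aeval p) (hφ j).sum_X_mul_pderiv
    rw [map_sum, map_nsmul] at h1
    simp only [map_mul, aeval_X] at h1
    rw [h1, hxd, nsmul_eq_mul]
    norm_num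
  refine ⟨Fin.cons p (fun l a => δ l (p a)), ?_⟩
  rw [Fintype.linearIndependent_iff]
  intro c hc
  have hcj : ∀ j, c 0 * (3 * x j) + ∑ l : Fin (m - D), c l.succ * δ l (x j) = 0 := by
    intro j
    have h1 := congrFun hc j
    rw [Finset.sum_apply, Fin.sum_univ_succ] at h1
    simp only [Pi.smul_apply, smul_eq_mul, Fin.cons_zero, Fin.cons_succ, heuler, hchain, Pi.zero_apply] at h1
    exact h1
  have hc0 := hcj 0
  have hsucc : ∀ l' : Fin (m - D), c l'.succ = 0 := by
    intro l'
    have h1 := hcj (i l')
    have h2 : x (i l') = (x (i l') / x 0) * x 0 := by field_simp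
    have h3 : ∀ l, δ l (x (i l')) = (x (i l') / x 0) * δ l (x 0) + (if l' = l then 1 else 0) * x 0 := by
      intro l
      conv_lhs => rw [h2]
      rw [Derivation.leibniz, hδ l l', smul_eq_mul, smul_eq_mul]
      ring
    simp only [h3] at h1
    have h4 : ∑ l : Fin (m - D), c l.succ * ((x (i l') / x 0) * δ l (x 0) + (if l' = l then 1 else 0) * x 0) =
        (x (i l') / x 0) * (∑ l : Fin (m - D), c l.succ * δ l (x 0)) + c l'.succ * x 0 := by
      rw [Finset.mul_sum]
      simp only [mul_add, Finset.sum_add_distrib]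
      congr 1
      · exact Finset.sum_congr rfl fun l _ => by ring
      · simp
    rw [h4] at h1
    have h5 : c l'.succ * x 0 = 0 := by
      have h6 : c 0 * (3 * x (i l')) = (x (i l') / x 0) * (c 0 * (3 * x 0)) := by
        field_simp
      rw [h6] at h1
      linear_combination h1 - (x (i l') / x 0) * hc0
    exact (mul_eq_zero.mp h5).resolve_right hx0
  have hc00 : c 0 = 0 := by
    simp only [hsucc, zero_mul, Finset.sum_const_zero, add_zero] at hc0
    rcases mul_eq_zero.mp hc0 with h | h
    · exact h
    · exact absurd h (mul_ne_zero (by norm_num) hx0)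
  intro l
  refine Fin.cases hc00 hsucc l

end MP2619.CUB
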