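import Pool.Agent.Lib.MP_2619d0_ag.CUB.Fac
import Pool.Agent.Lib.MP_2619d0_ag.CUB.Rank
import Pool.Agent.Lib.MP_2619d0_ag.R.TQ
import Pool.Agent.Lib.MP_2619d0_ag.R.G2
import Pool.Agent.Lib.MP_2619d0_ag.TTop

/-!
Cubic families: families of low degree and families with a common factor.
-/

set_option autoImplicit false

namespace MP2619.CUB

universe u

open MvPolynomial Pool.Agent.Lib.MP_2619d0_ag Pool.Agent.Lib.MP_2619d0_ag.T MP2619.T MP2619.K MP2619.R

variable {m N : ℕ} {E L : Type u} [Field E] [Field L] [Algebra ℂ E] [Algebra ℂ L] [Algebra E L]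
  [IsScalarTower ℂ E L]

/-- A generic point of `X` is not proportional to a point with coordinates in `E`. -/
theorem not_E_any {F : MvPolynomial (Fin (m+1+1)) ℂ} (hF : VG F)
    (x : Fin (m+1+1) → L) (hx : HG F x) {D : ℕ} (hD : Algebra.trdeg ℂ E ≤ D) (hDm : D + 1 ≤ m)
    (c : L) (a : Fin (m+1+1) → E) (h : ∀ j, algebraMap E L (a j) = c * x j) (hc : c ≠ 0) :
    False := by
  obtain ⟨i, hi⟩ := indep_ratios hF x hx hD
  have h1 := (hi.transcendental ⟨0, by omega⟩)
  apply h1
  have h2 : x (i ⟨0, by omega⟩) / x 0 =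
      algebraMap E L (a (i ⟨0, by omega⟩) / a 0) := by
    rw [map_div₀, h, h, mul_div_mul_left _ _ hc]
  rw [h2]
  exact isAlgebraic_algebraMap _

/-- The quadratic case. -/
theorem quad_any (hm : 3 ≤ m) {F : MvPolynomial (Fin (m+1+1)) ℂ} (hF : VG F)
    (φ : Fin (m+1+1) → MvPolynomial (Fin N) E) (hφ : ∀ j, (φ j).IsHomogeneous 2)
    (h0 : aeval φ F = 0) (p : Fin N → L) (x : Fin (m+1+1) → L)
    (hxd : x = fun j => aeval p (φ j)) (hx : HG F x) {D : ℕ} (hD : Algebra.trdeg ℂ E ≤ D)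
    (hDm : 3 * D ≤ m + 1) : ¬ Odd (Module.finrank (ratioField x) L) := by
  classical
  intro hodd
  have hinf : Infinite L := Infinite.of_injective _ (algebraMap ℂ L).injective
  have hinfE : Infinite E := Infinite.of_injective _ (algebraMap ℂ E).injective
  have hx0 : x 0 ≠ 0 := HG_zero hF hx
  obtain ⟨e, he⟩ : ∃ e : Fin N → E, eval e (φ 0) ≠ 0 := by
    by_contra hcon
    push Not at hcon
    have h1 : φ 0 = 0 := MvPolynomial.funext fun e => by rw [hcon e, map_zero]
    apply hx0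
    rw [hxd]
    change aeval p (φ 0) = 0
    rw [h1, map_zero]
  obtain ⟨w, hw⟩ : ∃ w : Fin (m+1+1) → L, w = fun j => algebraMap E L (eval e (φ j)) := ⟨_, rfl⟩
  have hw0 : w 0 ≠ 0 := by
    rw [hw]
    exact fun h => he ((map_eq_zero (algebraMap E L)).1 h)
  have hnp : ∀ c : L, w ≠ c • x := by
    intro c hc
    have hc0 : c ≠ 0 := by
      rintro rfl
      rw [hc, zero_smul] at hw0
      exact hw0 rfl
    refine not_E_any hF x hx hD (by omega) c (fun j => eval e (φ j)) (fun j => ?_) hc0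
    have h1 := congrFun hc j
    rw [hw] at h1
    exact h1
  have hFw : aeval w F = 0 := by
    have h2 := fc_phi (L := L) hF φ h0 (fun i => algebraMap E L (e i))
    have h3 : (fun j => aeval (fun i => algebraMap E L (e i)) (φ j)) = w := by
      rw [hw]
      funext j
      have h4 := MvPolynomial.aeval_algebraMap_apply (A := E) L e (φ j)
      rw [← MvPolynomial.aeval_eq_eval]
      exact h4
    rw [h3] at h2
    rw [← h2]
    exact aeval_eq_Fc hF.1 _
  obtain ⟨h1, -⟩ := third_hom2 (N := m+1) (by omega) hF x hx hodd w hFw hnp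
  have htr : 3 * Algebra.trdeg ℂ (ratioF w) ≤ (m : Cardinal.{u}) + 1 := by
    have h5 : Algebra.trdeg ℂ (ratioF w) ≤ D := by
      rw [hw]
      refine le_trans (TQ_trdeg _) (le_trans ?_ hD)
      exact _root_.trdeg_le_of_injective (ratioF fun j => eval e (φ j)).val
        (ratioF fun j => eval e (φ j)).val.injective
    calc 3 * Algebra.trdeg ℂ (ratioF w) ≤ 3 * (D : Cardinal.{u}) := mul_le_mul_right h5 3
      _ ≤ (m : Cardinal.{u}) + 1 := by exact_mod_cast hDm
  obtain ⟨h2, h3, h4⟩ := third_convert (by omega) hF w x h1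
    (third_small_main (fun n D h4 h5 => S_main n D (by omega) (by omega) (by omega))
      hm hF x hx hodd w hFw hnp htr)
  obtain ⟨q, hq⟩ : ∃ q : Fin (m+1+1) → L, q = fun j => aeval p (Bf (φ j) e) := ⟨_, rfl⟩
  refine conic_third (by omega) hF w q x hx h2 ?_ h3 h4
  intro s
  have hexp : (fun j => aeval (fun i => s * algebraMap E L (e i) + p i) (φ j)) =
      s ^ 2 • w + s • q + x := by
    funext j
    rw [quad_expand (hφ j), hw, hq, hxd]
    rfl
  rw [← hexp]
  exact fc_phi hF φ h0 _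

/-- Forms of degree at most two. -/
theorem low_any (hm : 3 ≤ m) {F : MvPolynomial (Fin (m+1+1)) ℂ} (hF : VG F) {e : ℕ} (he : e ≤ 2)
    (φ : Fin (m+1+1) → MvPolynomial (Fin N) E) (hφ : ∀ j, (φ j).IsHomogeneous e)
    (h0 : aeval φ F = 0) (p : Fin N → L) (x : Fin (m+1+1) → L)
    (hxd : x = fun j => aeval p (φ j)) (hx : HG F x) {D : ℕ} (hD : Algebra.trdeg ℂ E ≤ D)
    (hDm : 3 * D ≤ m + 1) : ¬ Odd (Module.finrank (ratioField x) L) := by
  classical
  intro hodd
  have hx0 : x 0 ≠ 0 := HG_zero hF hx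
  by_cases hp : ∃ i, p i ≠ 0
  · obtain ⟨i, hi⟩ := hp
    obtain ⟨c, hc⟩ : ∃ c : L, c = p i ^ (2 - e) := ⟨_, rfl⟩
    have hc0 : c ≠ 0 := by
      rw [hc]
      exact pow_ne_zero _ hi
    have hx' : c • x = fun j => aeval p (X i ^ (2 - e) * φ j) := by
      funext j
      rw [map_mul, map_pow, aeval_X, Pi.smul_apply, smul_eq_mul, hc, hxd]
    have h1 := quad_any (E := E) hm hF (fun j => X i ^ (2 - e) * φ j) (fun j => by
      have h2 := ((isHomogeneous_X E i).pow (2 - e)).mul (hφ j)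
      have h3 : 1 * (2 - e) + e = 2 := by omega
      rw [h3] at h2
      exact h2) (by
        have h2 := aeval_smul_hom hF.1 (X i ^ (2 - e)) φ
        exact h2.trans (by rw [h0, mul_zero])) p (c • x) hx' (HG_smul hx c hc0) hD hDm
    have h2 : ratioField (c • x) = ratioField x := ratioField_smul' x hc0
    rw [h2] at h1
    exact h1 hodd
  · push Not at hp
    have hp0 : p = 0 := funext hp
    refine not_E_any hF x hx hD (by omega) 1 (fun j => coeff 0 (φ j)) (fun j => ?_) one_ne_zero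
    rw [one_mul, hxd, hp0]
    have h1 : aeval (0 : Fin N → L) (φ j) = algebraMap E L (constantCoeff (φ j)) := by
      rw [← MvPolynomial.aeval_zero]
    exact h1.symm

/-- Cubic forms with a common factor. -/
theorem not_cop2 {σ K : Type*} [Field K] {n : ℕ} (φ : Fin n → MvPolynomial σ K)
    (hφ : ∀ j, (φ j).IsHomogeneous 3) (hne : ∃ j, φ j ≠ 0) (h : ¬ Cop φ) :
    ∃ (g : MvPolynomial σ K) (ψ : Fin n → MvPolynomial σ K) (e : ℕ),
      e ≤ 2 ∧ g ≠ 0 ∧ (∀ j, (ψ j).IsHomogeneous e) ∧ ∀ j, φ j = g * ψ j := by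
  classical
  unfold Cop at h
  push Not at h
  obtain ⟨g, hg, hgu⟩ := h
  choose φ' hφ' using hg
  obtain ⟨j0, hj0⟩ := hne
  have hg0 : g ≠ 0 := by
    intro h0
    apply hj0
    rw [hφ' j0, h0, zero_mul]
  obtain ⟨b, c, hbc, hb, -⟩ := homog_of_mul g (φ' j0) 3 (by rw [← hφ']; exact hφ j0)
    (by rw [← hφ']; exact hj0)
  have hb1 : 1 ≤ b := by
    by_contra hlt
    have hb0 : b = 0 := by omega
    apply hgu
    rw [hb0] at hb
    have h1 : g = C (coeff 0 g) :=
      totalDegree_eq_zero_iff_eq_C.1 ((totalDegree_zero_iff_isHomogeneous _).2 hb)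
    have h2 : coeff 0 g ≠ 0 := by
      intro h3
      apply hg0
      rw [h1, h3, C_0]
    rw [h1]
    exact (isUnit_iff_ne_zero.2 h2).map C
  have hφ'h : ∀ j, (φ' j).IsHomogeneous (3 - b) := by
    intro j
    by_cases hj : φ j = 0
    · have h1 : φ' j = 0 := by
        have h2 := hφ' j
        rw [hj] at h2
        exact (mul_eq_zero.1 h2.symm).resolve_left hg0
      rw [h1]
      exact isHomogeneous_zero _ _ _
    · obtain ⟨b', c', hbc', hb', hc'⟩ := homog_of_mul g (φ' j) 3 (by rw [← hφ']; exact hφ j)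
        (by rw [← hφ']; exact hj)
      have h1 : b' = b := hb'.inj_right hb hg0
      have h2 : c' = 3 - b := by omega
      rw [← h2]
      exact hc'
  exact ⟨g, φ', 3 - b, by omega, hg0, hφ'h, hφ'⟩

/-- The case with a common factor. -/
theorem factor_any (hm : 3 ≤ m) {F : MvPolynomial (Fin (m+1+1)) ℂ} (hF : VG F)
    (φ : Fin (m+1+1) → MvPolynomial (Fin N) E) (hφ : ∀ j, (φ j).IsHomogeneous 3)
    (h0 : aeval φ F = 0) (hcop : ¬ Cop φ) (p : Fin N → L) (x : Fin (m+1+1) → L)
    (hxd : x = fun j => aeval p (φ j)) (hx : HG F x) {D : ℕ} (hD : Algebra.trdeg ℂ E ≤ D)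
    (hDm : 3 * D ≤ m + 1) : ¬ Odd (Module.finrank (ratioField x) L) := by
  classical
  intro hodd
  have hx0 : x 0 ≠ 0 := HG_zero hF hx
  have hne : ∃ j, φ j ≠ 0 := by
    refine ⟨0, fun h => hx0 ?_⟩
    rw [hxd]
    change aeval p (φ 0) = 0
    rw [h, map_zero]
  obtain ⟨g, ψ, e, he, hg0, hψ, hgψ⟩ := not_cop2 φ hφ hne hcop
  have hxg : ∀ j, x j = aeval p g * aeval p (ψ j) := by
    intro j
    rw [← map_mul, ← hgψ, hxd]
  have hgp : aeval p g ≠ 0 := by
    intro h
    have h1 := hxg 0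
    rw [h, zero_mul] at h1
    exact hx0 h1
  have hx' : (aeval p g)⁻¹ • x = fun j => aeval p (ψ j) := by
    funext j
    rw [Pi.smul_apply, smul_eq_mul, hxg, inv_mul_cancel_left₀ hgp]
  have h0' : aeval ψ F = 0 := by
    have h2 := aeval_smul_hom hF.1 g ψ
    have h3 : (fun j => g * ψ j) = φ := funext fun j => (hgψ j).symm
    rw [h3, h0] at h2
    exact (mul_eq_zero.1 h2.symm).resolve_left (pow_ne_zero _ hg0)
  have hc0 := inv_ne_zero hgp
  have h1 := low_any hm hF he ψ hψ h0' p ((aeval p g)⁻¹ • x) hx' (HG_smul hx _ hc0) hD hDm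
  have h2 : ratioField ((aeval p g)⁻¹ • x) = ratioField x := ratioField_smul' x hc0
  rw [h2] at h1
  exact h1 hodd

end MP2619.CUB
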