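import Pool.Agent.Lib.MP_2619d0_ag.K.K6a

/-!
CUB, rows Lattice and Integral.
-/

set_option autoImplicit false

namespace MP2619.CUB

open MvPolynomial Pool.Agent.Lib.MP_2619d0_ag Pool.Agent.Lib.MP_2619d0_ag.T MP2619.K

/-- integral vectors with independent residues are independent -/
theorem CUB_lift_indep {M : Type*} [Field M] (O : ValuationSubring M) {k n : ℕ}
    (t : Fin k → Fin n → O)
    (ht : LinearIndependent (IsLocalRing.ResidueField O)
      (fun j i => IsLocalRing.residue O (t j i))) :
    LinearIndependent M (fun (j : Fin k) (i : Fin n) => (t j i : M)) := by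
  classical
  rw [Fintype.linearIndependent_iff]
  intro g hg
  by_contra hcon
  push Not at hcon
  obtain ⟨j₀, hj₀⟩ := hcon
  obtain ⟨c, hc, hc0, hcV⟩ := exists_scale O (Finset.univ.image g)
    ⟨g j₀, Finset.mem_image_of_mem g (Finset.mem_univ j₀), hj₀⟩
  obtain ⟨j₁, _, hj₁⟩ := Finset.mem_image.1 hc
  have hmem : ∀ j, c⁻¹ * g j ∈ O := fun j =>
    hcV _ (Finset.mem_image_of_mem g (Finset.mem_univ j))
  have hsum : ∀ i, ∑ j, (⟨c⁻¹ * g j, hmem j⟩ : O) * t j i = 0 := by
    intro i
    apply Subtype.val_injective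
    have h1 := congrFun hg i
    push_cast
    have h2 : (∑ j, g j * (t j i : M)) = 0 := by
      rw [Finset.sum_apply] at h1
      exact h1
    calc ∑ j, c⁻¹ * g j * (t j i : M) = c⁻¹ * ∑ j, g j * (t j i : M) := by
          rw [Finset.mul_sum]
          exact Finset.sum_congr rfl fun j _ => by ring
      _ = 0 := by rw [h2, mul_zero]
  have hres : ∑ j, IsLocalRing.residue O (⟨c⁻¹ * g j, hmem j⟩ : O) •
      (fun i => IsLocalRing.residue O (t j i)) = 0 := by
    funext i
    rw [Finset.sum_apply]
    have h3 : ∀ j, (IsLocalRing.residue O (⟨c⁻¹ * g j, hmem j⟩ : O) •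
        (fun i => IsLocalRing.residue O (t j i))) i =
        IsLocalRing.residue O ((⟨c⁻¹ * g j, hmem j⟩ : O) * t j i) := by
      intro j
      rw [Pi.smul_apply, smul_eq_mul, map_mul]
    rw [Finset.sum_congr rfl fun j _ => h3 j, ← map_sum, hsum i, map_zero]
    rfl
  have h4 := Fintype.linearIndependent_iff.1 ht _ hres j₁
  have h5 : (⟨c⁻¹ * g j₁, hmem j₁⟩ : O) = 1 := by
    apply Subtype.val_injective
    change c⁻¹ * g j₁ = 1
    rw [hj₁, inv_mul_cancel₀ hc0]
  rw [h5, map_one] at h4
  exact one_ne_zero h4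

/-- The image of an injective linear map has integral vectors with independent residues. -/
theorem CUB_lattice {M : Type*} [Field M] (O : ValuationSubring M) {V : Type*} [AddCommGroup V]
    [Module M V] {k n : ℕ} (hk : k ≤ Module.finrank M V) (β : V →ₗ[M] (Fin n → M))
    (hβ : Function.Injective β) :
    ∃ (v : Fin k → V) (t : Fin k → Fin n → O), LinearIndependent M v ∧
      (∀ j, β (v j) = fun i => (t j i : M)) ∧
      LinearIndependent (IsLocalRing.ResidueField O)
        (fun j i => IsLocalRing.residue O (t j i)) := by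
  classical
  have h1 : k ≤ Module.finrank (IsLocalRing.ResidueField O) (redSub O (LinearMap.range β)) := by
    apply K6_red
    rwa [LinearMap.finrank_range_of_inj hβ]
  let b := Module.finBasis (IsLocalRing.ResidueField O) (redSub O (LinearMap.range β))
  choose t htW htb using fun j => (b (Fin.castLE h1 j)).2
  choose v hv using htW
  have hind : LinearIndependent (IsLocalRing.ResidueField O)
      (fun j i => IsLocalRing.residue O (t j i)) := by
    have h2 : LinearIndependent (IsLocalRing.ResidueField O)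
        (fun j : Fin k => ((b (Fin.castLE h1 j) : redSub O (LinearMap.range β)) :
          Fin n → IsLocalRing.ResidueField O)) :=
      (b.linearIndependent.comp (Fin.castLE h1) (Fin.castLE_injective h1)).map'
        (redSub O (LinearMap.range β)).subtype (Submodule.ker_subtype _)
    have h3 : (fun j : Fin k => ((b (Fin.castLE h1 j) : redSub O (LinearMap.range β)) :
          Fin n → IsLocalRing.ResidueField O)) = fun j i => IsLocalRing.residue O (t j i) :=
      funext fun j => htb j
    rwa [h3] at h2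
  refine ⟨v, t, ?_, hv, hind⟩
  have h4 := CUB_lift_indep O t hind
  have h5 : (fun (j : Fin k) (i : Fin n) => (t j i : M)) = β ∘ v := by
    funext j
    exact (hv j).symm
  rw [h5] at h4
  exact h4.of_comp β

/-- a nonzero polynomial is a multiple of a primitive one -/
theorem CUB_primitive {M : Type*} [Field M] (O : ValuationSubring M) {σ : Type*}
    (P : MvPolynomial σ M) (hP : P ≠ 0) : ∃ (g : M) (P1 : MvPolynomial σ O), g ≠ 0 ∧
      P = C g * map O.subtype P1 ∧ map (IsLocalRing.residue O) P1 ≠ 0 ∧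
      ∃ d, coeff d P = g := by
  classical
  obtain ⟨d0, hd0⟩ := MvPolynomial.ne_zero_iff.1 hP
  obtain ⟨g, hg, hg0, hgO⟩ := exists_scale O (P.support.image fun d => coeff d P)
    ⟨coeff d0 P, Finset.mem_image_of_mem _ (mem_support_iff.2 hd0), hd0⟩
  obtain ⟨d1, hd1, hd1'⟩ := Finset.mem_image.1 hg
  have hmem : ∀ d, g⁻¹ * coeff d P ∈ O := by
    intro d
    by_cases hd : coeff d P = 0
    · rw [hd, mul_zero]
      exact O.zero_mem
    · exact hgO _ (Finset.mem_image_of_mem _ (mem_support_iff.2 hd))
  have hrange : C g⁻¹ * P ∈ Set.range (map O.subtype : MvPolynomial σ O → MvPolynomial σ M) := by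
    rw [mem_range_map_iff_coeffs_subset]
    intro x hx
    have hx' : x ∈ (C g⁻¹ * P).coeffs := hx
    rw [mem_coeffs_iff] at hx'
    obtain ⟨d, hd, rfl⟩ := hx'
    rw [coeff_C_mul]
    exact ⟨⟨_, hmem d⟩, rfl⟩
  obtain ⟨P1, hP1⟩ := hrange
  refine ⟨g, P1, hg0, ?_, ?_, d1, hd1'⟩
  · rw [hP1, ← mul_assoc, ← C_mul, mul_inv_cancel₀ hg0, C_1, one_mul]
  · intro h0
    have h1 := congrArg (coeff d1) h0
    rw [coeff_map, coeff_zero] at h1
    have h2 : ((coeff d1 P1 : O) : M) = 1 := by
      have h3 := congrArg (coeff d1) hP1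
      rw [coeff_map, coeff_C_mul, hd1', inv_mul_cancel₀ hg0] at h3
      exact h3
    have h4 : coeff d1 P1 = 1 := Subtype.ext h2
    rw [h4, map_one] at h1
    exact one_ne_zero h1

/-- A polynomial which is integral at almost all integral points has integral coefficients. -/
theorem CUB_integral {M : Type*} [Field M] (O : ValuationSubring M)
    [Infinite (IsLocalRing.ResidueField O)] {σ : Type*} [Finite σ] (P R : MvPolynomial σ M)
    (hR : R ≠ 0) (i₀ : σ)
    (h : ∀ t : σ → O, IsLocalRing.residue O (t i₀) ≠ 0 → eval (fun i => (t i : M)) R ≠ 0 →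
      eval (fun i => (t i : M)) P ∈ O) : ∀ d, coeff d P ∈ O := by
  classical
  intro d
  by_cases hP : P = 0
  · rw [hP, coeff_zero]
    exact O.zero_mem
  obtain ⟨g, P1, hg, hPg, hP1, -⟩ := CUB_primitive O P hP
  obtain ⟨g', R1, hg', hRg, hR1, -⟩ := CUB_primitive O R hR
  have hX : (X i₀ : MvPolynomial σ (IsLocalRing.ResidueField O)) ≠ 0 := X_ne_zero i₀
  obtain ⟨u, hu⟩ : ∃ u : σ → IsLocalRing.ResidueField O,
      eval u (map (IsLocalRing.residue O) P1 * map (IsLocalRing.residue O) R1 * X i₀) ≠ 0 := by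
    by_contra hcon
    push Not at hcon
    have h1 : map (IsLocalRing.residue O) P1 * map (IsLocalRing.residue O) R1 * X i₀ = 0 :=
      MvPolynomial.funext fun u => by rw [hcon u, map_zero]
    exact mul_ne_zero (mul_ne_zero hP1 hR1) hX h1
  rw [map_mul, map_mul, eval_X] at hu
  choose t ht using fun i => IsLocalRing.residue_surjective (u i)
  have hev : ∀ Q : MvPolynomial σ O, eval (fun i => (t i : M)) (map O.subtype Q) =
      ((eval t Q : O) : M) := by
    intro Q
    rw [eval_map]
    exact (MvPolynomial.eval₂_comp_left O.subtype (RingHom.id O) t Q).symm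
  have hevr : ∀ Q : MvPolynomial σ O, eval u (map (IsLocalRing.residue O) Q) =
      IsLocalRing.residue O (eval t Q) := by
    intro Q
    rw [eval_map]
    have h1 : u = fun i => IsLocalRing.residue O (t i) := funext fun i => (ht i).symm
    rw [h1]
    exact (MvPolynomial.eval₂_comp_left (IsLocalRing.residue O) (RingHom.id O) t Q).symm
  rw [hevr, hevr, ← ht] at hu
  have hp : IsLocalRing.residue O (eval t P1) ≠ 0 := fun h0 => hu (by rw [h0, zero_mul, zero_mul])
  have hr : IsLocalRing.residue O (eval t R1) ≠ 0 := fun h0 => hu (by rw [h0, mul_zero, zero_mul])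
  have h0 : IsLocalRing.residue O (t i₀) ≠ 0 := fun h0 => hu (by rw [h0, mul_zero])
  have hunit : IsUnit (eval t P1) := by
    by_contra h6
    apply hp
    rw [IsLocalRing.residue_eq_zero_iff, IsLocalRing.mem_maximalIdeal, mem_nonunits_iff]
    exact h6
  have hR0 : eval (fun i => (t i : M)) R ≠ 0 := by
    rw [hRg, map_mul, eval_C, hev]
    refine mul_ne_zero hg' fun h1 => hr ?_
    have h2 : eval t R1 = 0 := Subtype.ext h1
    rw [h2, map_zero]
  have h3 := h t h0 hR0
  rw [hPg, map_mul, eval_C, hev] at h3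
  obtain ⟨w, hw⟩ := hunit
  have hgO : g ∈ O := by
    have h4 : g = (g * ((eval t P1 : O) : M)) * (((w⁻¹ : Oˣ) : O) : M) := by
      have h5 : ((eval t P1 : O) : M) * (((w⁻¹ : Oˣ) : O) : M) = 1 := by
        rw [← hw]
        have h7 : ((w : O) * ((w⁻¹ : Oˣ) : O) : O) = 1 := by rw [Units.mul_inv]
        exact congrArg Subtype.val h7
      rw [mul_assoc, h5, mul_one]
    rw [h4]
    exact O.mul_mem _ _ h3 (((w⁻¹ : Oˣ) : O)).2
  rw [hPg, coeff_C_mul, coeff_map]
  exact O.mul_mem _ _ hgO (coeff d P1).2

end MP2619.CUB
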