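import Pool.Agent.Lib.MP_2619d0_ag.CUB.Red0
import Pool.Agent.Lib.MP_2619d0_ag.CUB.Lattice

/-!
Cubic families: restriction to a linear subspace, the lattice.
-/

set_option autoImplicit false

namespace MP2619.CUB

open MvPolynomial Pool.Agent.Lib.MP_2619d0_ag.T

/-- The substitution `y = ∑ l, X l • V l` (restriction to the span of the vectors `V l`). -/
noncomputable def lsubR {K : Type*} [CommRing K] {n k : ℕ} (V : Fin k → Fin n → K)
    (φ : MvPolynomial (Fin n) K) : MvPolynomial (Fin k) K :=
  aeval (fun i => ∑ l, C (V l i) * X l) φ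

/-- The restriction to the line `s p + v`. -/
noncomputable def lineP {K : Type*} [CommRing K] {n : ℕ} (φ : MvPolynomial (Fin n) K)
    (p v : Fin n → K) : Polynomial K :=
  aeval (fun i => Polynomial.C (p i) * Polynomial.X + Polynomial.C (v i)) φ

theorem eval_lsubR {K : Type*} [CommRing K] {n k : ℕ} (V : Fin k → Fin n → K)
    (φ : MvPolynomial (Fin n) K) (y : Fin k → K) :
    eval y (lsubR V φ) = eval (fun i => ∑ l, V l i * y l) φ := by
  unfold lsubR
  induction φ using MvPolynomial.induction_on with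
  | C a => simp
  | add p q hp hq => rw [map_add, map_add, map_add, hp, hq]
  | mul_X p i hp => rw [map_mul, map_mul, map_mul, hp, aeval_X, eval_X]; simp

theorem lsubR_homog {K : Type*} [CommRing K] {n k d : ℕ} (V : Fin k → Fin n → K)
    {φ : MvPolynomial (Fin n) K} (hφ : φ.IsHomogeneous d) : (lsubR V φ).IsHomogeneous d := by
  unfold lsubR
  have h := hφ.aeval (n := 1) (S := K) (fun i => ∑ l, C (V l i) * X l) (fun i =>
    IsHomogeneous.sum _ _ _ fun l _ => by
      have := (isHomogeneous_C (Fin k) (V l i)).mul (isHomogeneous_X K l)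
      simpa using this)
  simpa using h

theorem latR_eval_e0 {K : Type*} [CommRing K] {n d : ℕ} {Ψ : MvPolynomial (Fin (n + 1)) K}
    (h : Ψ.IsHomogeneous d) : eval (Pi.single 0 1) Ψ = coeff (Finsupp.single 0 d) Ψ := by
  classical
  rw [eval_eq]
  rw [Finset.sum_eq_single (Finsupp.single 0 d)]
  · have : ∏ i ∈ (Finsupp.single (0 : Fin (n + 1)) d).support,
        (Pi.single (0 : Fin (n + 1)) (1 : K) : Fin (n + 1) → K) i ^ (Finsupp.single (0 : Fin (n + 1)) d) i = 1 := by
      refine Finset.prod_eq_one fun i hi => ?_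
      have hi' : i = 0 := by
        by_contra hne
        rw [Finsupp.mem_support_iff, Finsupp.single_apply, if_neg (Ne.symm hne)] at hi
        exact hi rfl
      rw [hi', Pi.single_eq_same, one_pow]
    rw [this, mul_one]
  · intro e he hne
    have hdeg : e.degree = d := by
      by_contra hne'
      exact (mem_support_iff.1 he) (h.coeff_eq_zero hne')
    have : ∃ i, i ≠ 0 ∧ e i ≠ 0 := by
      by_contra hcon
      push Not at hcon
      apply hne
      ext i
      by_cases hi : i = 0
      · subst hi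
        rw [Finsupp.single_eq_same, ← hdeg, Finsupp.degree_eq_sum, Fin.sum_univ_succ]
        rw [Finset.sum_eq_zero (fun j _ => hcon j.succ (Fin.succ_ne_zero j)), add_zero]
      · rw [hcon i hi, Finsupp.single_apply, if_neg (Ne.symm hi)]
    obtain ⟨i, hi0, hi⟩ := this
    rw [Finset.prod_eq_zero (Finsupp.mem_support_iff.2 hi), mul_zero]
    rw [Pi.single_eq_of_ne hi0, zero_pow hi]
  · intro hn
    rw [notMem_support_iff.1 hn, zero_mul]

theorem latR_sub_e0 {K : Type*} [CommRing K] {n k : ℕ} (V : Fin (k + 1) → Fin n → K) :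
    (fun i => ∑ l, V l i * (Pi.single 0 1 : Fin (k + 1) → K) l) = V 0 := by
  funext i
  rw [Finset.sum_eq_single 0]
  · simp
  · intro b _ hb
    simp [hb]
  · intro h
    exact absurd (Finset.mem_univ _) h

theorem latR_pderiv {K : Type*} [CommRing K] {n k : ℕ} (V : Fin k → Fin n → K)
    (φ : MvPolynomial (Fin n) K) (i : Fin k) :
    pderiv i (lsubR V φ) = ∑ l, C (V i l) * lsubR V (pderiv l φ) := by
  classical
  unfold lsubR
  induction φ using MvPolynomial.induction_on with
  | C a => simp
  | add p q hp hq =>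
    rw [map_add, map_add, hp, hq, ← Finset.sum_add_distrib]
    refine Finset.sum_congr rfl fun l _ => ?_
    rw [map_add, map_add, mul_add]
  | mul_X p j hp =>
    have h1 : pderiv i (∑ l, C (V l j) * X l : MvPolynomial (Fin k) K) = C (V i j) := by
      rw [map_sum, Finset.sum_eq_single i]
      · rw [pderiv_C_mul, pderiv_X_self, mul_one]
      · intro b _ hb
        rw [pderiv_C_mul, pderiv_X_of_ne hb, mul_zero]
      · intro h
        exact absurd (Finset.mem_univ _) h
    rw [map_mul, aeval_X, pderiv_mul, hp, h1]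
    have h2 : ∀ l : Fin n, C (V i l) * aeval (fun i => ∑ l, C (V l i) * X l) (pderiv l (p * X j)) =
        (C (V i l) * aeval (fun i => ∑ l, C (V l i) * X l) (pderiv l p)) * (∑ l, C (V l j) * X l) +
          (if l = j then C (V i j) * aeval (fun i => ∑ l, C (V l i) * X l) p else 0) := by
      intro l
      rw [pderiv_mul, map_add, map_mul, aeval_X, map_mul]
      by_cases hlj : l = j
      · subst hlj
        rw [pderiv_X_self, if_pos rfl, map_one]
        ring
      · rw [pderiv_X_of_ne (Ne.symm hlj), if_neg hlj, map_zero]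
        ring
    simp_rw [h2]
    rw [Finset.sum_add_distrib, Finset.sum_ite_eq', if_pos (Finset.mem_univ _), Finset.sum_mul]
    ring

theorem coeff_lsubR_zero {K : Type*} [Field K] {n k : ℕ} (V : Fin (k + 1) → Fin n → K)
    {φ : MvPolynomial (Fin n) K} (hφ : φ.IsHomogeneous 3) :
    coeff (Finsupp.single 0 3) (lsubR V φ) = eval (V 0) φ := by
  rw [← latR_eval_e0 (lsubR_homog V hφ), eval_lsubR, latR_sub_e0]

/-- The coefficient of `X 0 ^ 2 * X i` (`i ≠ 0`) of a cubic form `Ψ` is `(∂_i Ψ)(e 0)`, and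
`∂_i (lsubR V φ) = ∑ l, C (V i l) * lsubR V (∂_l φ)`. -/
theorem coeff_lsubR_one {K : Type*} [Field K] {n k : ℕ} (V : Fin (k + 1) → Fin n → K)
    {φ : MvPolynomial (Fin n) K} (hφ : φ.IsHomogeneous 3) (i : Fin k) :
    coeff (Finsupp.single 0 2 + Finsupp.single i.succ 1) (lsubR V φ) =
      ∑ l, V i.succ l * eval (V 0) (pderiv l φ) := by
  have h1 : (pderiv i.succ (lsubR V φ)).IsHomogeneous 2 := (lsubR_homog V hφ).pderiv
  have h2 := latR_eval_e0 h1
  rw [coeff_pderiv] at h2
  have h3 : (Finsupp.single (0 : Fin (k + 1)) 2) i.succ = 0 := by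
    rw [Finsupp.single_apply, if_neg (Ne.symm (Fin.succ_ne_zero i))]
  rw [h3] at h2
  simp only [Nat.cast_zero, zero_add, mul_one] at h2
  rw [← h2, latR_pderiv, map_sum]
  refine Finset.sum_congr rfl fun l _ => ?_
  rw [map_mul, eval_C, eval_lsubR, latR_sub_e0]

theorem line_lsubR {K : Type*} [Field K] {n k : ℕ} (V : Fin (k + 1) → Fin n → K)
    (φ : MvPolynomial (Fin n) K) (t : Fin k → K) :
    (finSuccEquiv K k (lsubR V φ)).map (eval t : MvPolynomial (Fin k) K →+* K) =
      lineP φ (V 0) (∑ i, t i • V i.succ) := by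
  unfold lsubR lineP
  induction φ using MvPolynomial.induction_on with
  | C a =>
    rw [aeval_C, aeval_C, finSuccEquiv_apply]
    simp
  | add p q hp hq => rw [map_add, map_add, Polynomial.map_add, map_add, hp, hq]
  | mul_X p i hp =>
    rw [map_mul, map_mul, Polynomial.map_mul, map_mul, hp, aeval_X, aeval_X]
    congr 1
    rw [map_sum, Polynomial.map_sum, Fin.sum_univ_succ]
    have h0 : ((finSuccEquiv K k) (C (V 0 i) * X 0)).map (eval t : MvPolynomial (Fin k) K →+* K) =
        Polynomial.C (V 0 i) * Polynomial.X := by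
      rw [map_mul, finSuccEquiv_X_zero, finSuccEquiv_apply]
      simp
    have h1 : ∀ j : Fin k, ((finSuccEquiv K k) (C (V j.succ i) * X j.succ)).map
        (eval t : MvPolynomial (Fin k) K →+* K) = Polynomial.C (t j * V j.succ i) := by
      intro j
      rw [map_mul, finSuccEquiv_X_succ, finSuccEquiv_apply]
      simp [mul_comm]
    rw [h0, Finset.sum_congr rfl fun j _ => h1 j]
    congr 1
    rw [Finset.sum_apply, map_sum]
    rfl

/-- The restriction of a polynomial that does not vanish at a point of a subspace. -/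
theorem lsubR_tail_ne {K : Type*} [Field K] {n k : ℕ} (V : Fin (k + 1) → Fin n → K)
    (R : MvPolynomial (Fin n) K) (t : Fin k → K) (h : eval (∑ i, t i • V i.succ) R ≠ 0) :
    ∃ r : MvPolynomial (Fin k) K, r ≠ 0 ∧ ∀ t, eval t r = eval (∑ i, t i • V i.succ) R := by
  have he : ∀ t, eval t (lsubR (fun j => V (Fin.succ j)) R) = eval (∑ i, t i • V i.succ) R := by
    intro t
    rw [eval_lsubR]
    congr 2
    funext i
    rw [Finset.sum_apply]
    refine Finset.sum_congr rfl fun j _ => ?_
    rw [Pi.smul_apply, smul_eq_mul, mul_comm]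
  refine ⟨lsubR (fun j => V (Fin.succ j)) R, fun h0 => ?_, he⟩
  apply h
  rw [← he, h0, map_zero]

section

variable {M : Type*} [Field M]

theorem lt_cut {r : ℕ} (P : Submodule M (Fin r → M)) (f : (Fin r → M) →ₗ[M] M) :
    Module.finrank M P ≤ Module.finrank M (P ⊓ LinearMap.ker f : Submodule M (Fin r → M)) + 1 := by
  let g : P →ₗ[M] M := f.comp P.subtype
  have h1 := LinearMap.finrank_range_add_finrank_ker g
  have h2 : Module.finrank M (LinearMap.range g) ≤ 1 := by
    have h4 := Submodule.finrank_le (LinearMap.range g)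
    rwa [Module.finrank_self] at h4
  have h3 : Module.finrank M ((LinearMap.ker g).map P.subtype) =
      Module.finrank M (LinearMap.ker g) := Submodule.finrank_map_subtype_eq P (LinearMap.ker g)
  have h4 : (LinearMap.ker g).map P.subtype ≤ P ⊓ LinearMap.ker f := by
    rintro _ ⟨y, hy, rfl⟩
    exact ⟨y.2, hy⟩
  have h5 := Submodule.finrank_mono h4
  omega

theorem lt_pick {r k : ℕ} (P : Submodule M (Fin r → M)) (h : k ≤ Module.finrank M P) :
    ∃ y : Fin k → Fin r → M, LinearIndependent M y ∧ ∀ i, y i ∈ P := by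
  let b := Module.finBasis M P
  refine ⟨fun i => b (Fin.castLE h i), ?_, fun i => (b (Fin.castLE h i)).2⟩
  exact (b.linearIndependent.comp (Fin.castLE h) (Fin.castLE_injective h)).map' P.subtype
    (Submodule.ker_subtype _)

/-- polynomial functions which do not vanish at a point do not vanish on a general point of a line -/
theorem lt_line [Infinite M] {n : ℕ} (R : MvPolynomial (Fin n) M) (h0 h1 : Fin n → M)
    (hR : eval h0 R ≠ 0) (a b : M) (hb : b ≠ 0) :
    ∃ c : M, eval (h0 + c • h1) R ≠ 0 ∧ a + c * b ≠ 0 := by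
  obtain ⟨P, hP⟩ : ∃ P : Polynomial M, ∀ c, P.eval c = eval (h0 + c • h1) R := by
    refine ⟨aeval (fun i => Polynomial.C (h0 i) + Polynomial.X * Polynomial.C (h1 i)) R, fun c => ?_⟩
    have h2 : (Polynomial.aeval c : Polynomial M →ₐ[M] M).comp
        (aeval (fun i => Polynomial.C (h0 i) + Polynomial.X * Polynomial.C (h1 i))) =
        (aeval (h0 + c • h1) : MvPolynomial (Fin n) M →ₐ[M] M) := by
      apply MvPolynomial.algHom_ext
      intro i
      rw [AlgHom.comp_apply, aeval_X, aeval_X, map_add, map_mul, Polynomial.aeval_C,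
        Polynomial.aeval_C, Polynomial.aeval_X]
      rfl
    exact DFunLike.congr_fun h2 R
  have hP0 : P ≠ 0 := by
    intro h
    apply hR
    have h2 := hP 0
    rw [h, Polynomial.eval_zero, zero_smul, add_zero] at h2
    exact h2.symm
  have hQ0 : (Polynomial.C a + Polynomial.X * Polynomial.C b : Polynomial M) ≠ 0 := by
    intro h
    apply hb
    have h2 := congrArg (fun q => Polynomial.coeff q 1) h
    simpa using h2
  obtain ⟨c, hc⟩ : ∃ c, (P * (Polynomial.C a + Polynomial.X * Polynomial.C b)).eval c ≠ 0 := by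
    by_contra hcon
    push Not at hcon
    apply mul_ne_zero hP0 hQ0
    apply Polynomial.funext
    intro c
    rw [hcon, Polynomial.eval_zero]
  rw [Polynomial.eval_mul, hP, Polynomial.eval_add, Polynomial.eval_mul, Polynomial.eval_C,
    Polynomial.eval_C, Polynomial.eval_X] at hc
  exact ⟨c, left_ne_zero_of_mul hc, right_ne_zero_of_mul hc⟩

end

/-- The lattice. `β v := (∑ l, v l * eval p (pderiv l (φ j)))_j` is linear of rank at least `k + 1`
(`w`), `β p = 3 x` (Euler). `H := {v | (β v) 0 = 0}` is a complement of `p` (`(β p) 0 = 3 ≠ 0`, a unit of `O`),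
`β H` has dimension at least `k ≥ 1`. `R` is not zero on `H` (`hRp`); `M` is infinite: there is `u ∈ H` with
`R u ≠ 0` and `β u ≠ 0`. Choose a subspace `U` of `H` of dimension `k` which contains `u` and on which `β` is
injective, and a lattice basis of `U` (`CUB_lattice` for `β` on `U`): `V i.succ`, `b i`. -/
theorem lat2 {M : Type*} [Field M] [Infinite M] (h3 : (3 : M) ≠ 0) (O : ValuationSubring M)
    {N n k : ℕ} (hk : 1 ≤ k) (x : Fin (N + 1) → O) (hx0 : x 0 = 1)
    (φ : Fin (N + 1) → MvPolynomial (Fin n) M)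
    (hφ : ∀ j, (φ j).IsHomogeneous 3) (p : Fin n → M) (hp : ∀ j, eval p (φ j) = x j)
    (w : Fin (k + 1) → Fin n → M)
    (hw : LinearIndependent M (fun i j => ∑ l, w i l * eval p (pderiv l (φ j))))
    (R : MvPolynomial (Fin n) M) (hR : R ≠ 0)
    (hRp : ∀ (v : Fin n → M) (e : M), eval (v + e • p) R = eval v R) :
    ∃ (V : Fin (k + 1) → Fin n → M) (b : Fin k → Fin (N + 1) → O), V 0 = p ∧
      (∀ i, b i 0 = 0) ∧
      LinearIndependent (IsLocalRing.ResidueField O) (fun i j => IsLocalRing.residue O (b i j)) ∧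
      (∀ i j, ∑ l, V i.succ l * eval p (pderiv l (φ j)) = b i j) ∧
      ∃ t : Fin k → M, eval (∑ i, t i • V i.succ) R ≠ 0 := by
  classical
  let β : (Fin n → M) →ₗ[M] (Fin (N + 1) → M) :=
    { toFun := fun v j => ∑ l, v l * eval p (pderiv l (φ j))
      map_add' := by
        intro v w
        funext j
        simp only [Pi.add_apply, add_mul, Finset.sum_add_distrib]
      map_smul' := by
        intro a v
        funext j
        simp only [Pi.smul_apply, smul_eq_mul, RingHom.id_apply, Finset.mul_sum]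
        exact Finset.sum_congr rfl fun i _ => by ring }
  have hβ : ∀ v j, β v j = ∑ l, v l * eval p (pderiv l (φ j)) := fun _ _ => rfl
  have hβp : β p 0 = 3 := by
    have h1 := congrArg (eval p) (hφ 0).sum_X_mul_pderiv
    rw [map_sum] at h1
    simp only [map_mul, eval_X, nsmul_eq_mul, map_natCast, hp] at h1
    rw [hβ, h1, hx0]
    push_cast
    ring
  -- the complement of `p`
  obtain ⟨f0, hf0⟩ : ∃ f0 : (Fin (N + 1) → M) →ₗ[M] M, f0 = LinearMap.proj 0 := ⟨_, rfl⟩
  have hrange : k + 1 ≤ Module.finrank M (LinearMap.range β) := by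
    have h1 : (fun i => β (w i)) = fun i j => ∑ l, w i l * eval p (pderiv l (φ j)) := rfl
    rw [← h1] at hw
    have h2 : LinearIndependent M (fun i => (⟨β (w i), w i, rfl⟩ : LinearMap.range β)) :=
      LinearIndependent.of_comp (LinearMap.range β).subtype hw
    have h3 := h2.fintype_card_le_finrank
    rwa [Fintype.card_fin] at h3
  obtain ⟨W, hW⟩ : ∃ W, W = LinearMap.range β ⊓ LinearMap.ker f0 := ⟨_, rfl⟩
  have hWk : k ≤ Module.finrank M W := by
    have h1 := lt_cut (LinearMap.range β) f0
    rw [hW]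
    omega
  have hWmem : ∀ y ∈ W, ∃ v, β v = y ∧ β v 0 = 0 := by
    intro y hy
    rw [hW] at hy
    obtain ⟨⟨v, rfl⟩, hy2⟩ := hy
    refine ⟨v, rfl, ?_⟩
    rw [hf0] at hy2
    exact hy2
  have hWmem' : ∀ v, β v 0 = 0 → β v ∈ W := by
    intro v hv
    rw [hW]
    refine ⟨⟨v, rfl⟩, ?_⟩
    rw [hf0]
    exact hv
  -- a point `h0` of the complement with `R h0 ≠ 0`
  obtain ⟨v0, hv0⟩ : ∃ v0, eval v0 R ≠ 0 := by
    by_contra hcon
    push Not at hcon
    exact hR (MvPolynomial.funext fun v => by rw [hcon, map_zero])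
  obtain ⟨h0, hh0, hh0'⟩ : ∃ h0, eval h0 R ≠ 0 ∧ β h0 0 = 0 := by
    refine ⟨v0 + (-(β v0 0 / 3)) • p, ?_, ?_⟩
    · rw [hRp]
      exact hv0
    · rw [map_add, map_smul, Pi.add_apply, Pi.smul_apply, hβp, smul_eq_mul, neg_mul,
        div_mul_cancel₀ _ h3, add_neg_cancel]
  obtain ⟨h1, hh1, hh1'⟩ : ∃ h1, β h1 ≠ 0 ∧ β h1 0 = 0 := by
    obtain ⟨y, hy, hyW⟩ := lt_pick W hWk
    obtain ⟨v, hv, hv'⟩ := hWmem _ (hyW ⟨0, hk⟩)
    refine ⟨v, ?_, hv'⟩
    rw [hv]
    exact hy.ne_zero _
  obtain ⟨j, hj⟩ := Function.ne_iff.1 hh1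
  obtain ⟨c, hc1, hc2⟩ := lt_line R h0 h1 hh0 (β h0 j) (β h1 j) hj
  obtain ⟨u, hu⟩ : ∃ u, u = h0 + c • h1 := ⟨_, rfl⟩
  have huR : eval u R ≠ 0 := by
    rw [hu]
    exact hc1
  have huj : β u j ≠ 0 := by
    rw [hu, map_add, map_smul]
    exact hc2
  have hu0 : β u 0 = 0 := by
    rw [hu, map_add, map_smul, Pi.add_apply, Pi.smul_apply, hh0', hh1', smul_zero, add_zero]
  -- independent vectors
  obtain ⟨k', rfl⟩ : ∃ k', k = k' + 1 := ⟨k - 1, by omega⟩
  obtain ⟨y', hy', hyW'⟩ := lt_pick (k := k') (W ⊓ LinearMap.ker (LinearMap.proj j)) (by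
    have h4 := lt_cut W (LinearMap.proj j)
    omega)
  choose z hz hz0 using fun i => hWmem (y' i) (hyW' i).1
  obtain ⟨uu, huu⟩ : ∃ uu : Fin (k' + 1) → Fin n → M, uu = Fin.cons u z := ⟨_, rfl⟩
  have huu0 : ∀ i, β (uu i) 0 = 0 := by
    intro i
    rw [huu]
    refine Fin.cases ?_ (fun i => ?_) i
    · exact hu0
    · exact hz0 i
  have hind : LinearIndependent M (fun i => β (uu i)) := by
    have h4 : (fun i => β (uu i)) = Fin.cons (β u) y' := by
      funext i
      rw [huu]
      refine Fin.cases ?_ (fun i => ?_) i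
      · rfl
      · exact hz i
    rw [h4, linearIndependent_finCons]
    refine ⟨hy', fun h5 => huj ?_⟩
    have h6 : Submodule.span M (Set.range y') ≤ LinearMap.ker (LinearMap.proj j) := by
      rw [Submodule.span_le]
      rintro _ ⟨i, rfl⟩
      exact (hyW' i).2
    exact LinearMap.mem_ker.1 (h6 h5)
  -- the lattice
  let γ : (Fin (k' + 1) → M) →ₗ[M] (Fin n → M) := Fintype.linearCombination M uu
  have hγ : ∀ g, γ g = ∑ i, g i • uu i := fun g => Fintype.linearCombination_apply M uu g
  have hinj : Function.Injective (β.comp γ) := by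
    rw [injective_iff_map_eq_zero]
    intro g hg
    have h4 : ∑ i, g i • β (uu i) = 0 := by
      rw [← hg, LinearMap.comp_apply, hγ, map_sum]
      exact Finset.sum_congr rfl fun i _ => by rw [map_smul]
    exact funext fun i => Fintype.linearIndependent_iff.1 hind g h4 i
  obtain ⟨v, t, hv, hvt, htres⟩ := CUB_lattice O (k := k' + 1)
    (by rw [Module.finrank_fin_fun]) (β.comp γ) hinj
  refine ⟨Fin.cons p (fun i => γ (v i)), t, Fin.cons_zero _ _, ?_, htres, ?_, ?_⟩
  · intro i
    apply Subtype.ext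
    have h4 := congrFun (hvt i) 0
    rw [LinearMap.comp_apply, hγ, map_sum, Finset.sum_apply] at h4
    change ((t i 0 : O) : M) = 0
    rw [← h4]
    refine Finset.sum_eq_zero fun l _ => ?_
    rw [map_smul, Pi.smul_apply, huu0, smul_zero]
  · intro i j
    rw [Fin.cons_succ]
    exact congrFun (hvt i) j
  · let B := basisOfLinearIndependentOfCardEqFinrank hv (by
      rw [Fintype.card_fin, Module.finrank_fin_fun])
    refine ⟨fun i => B.repr (Pi.single 0 1) i, ?_⟩
    have h4 : ∑ i, B.repr (Pi.single 0 1) i • v i = Pi.single 0 1 := by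
      have h5 := B.sum_repr (Pi.single 0 1)
      have h6 : ∀ i, B i = v i := fun i => by
        rw [coe_basisOfLinearIndependentOfCardEqFinrank]
      simp only [h6] at h5
      exact h5
    have h5 : ∑ i, B.repr (Pi.single 0 1) i • (Fin.cons p (fun i => γ (v i)) :
        Fin (k' + 1 + 1) → Fin n → M) i.succ = u := by
      simp only [Fin.cons_succ]
      have h6 := congrArg γ h4
      rw [map_sum] at h6
      simp only [map_smul] at h6
      rw [h6, hγ, Finset.sum_eq_single 0]
      · rw [Pi.single_eq_same, one_smul, huu, Fin.cons_zero]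
      · intro i _ hi
        rw [Pi.single_eq_of_ne hi, zero_smul]
      · intro h
        exact absurd (Finset.mem_univ _) h
    rw [h5]
    exact huR

end MP2619.CUB
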