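import Pool.Agent.Lib.MP_2619d0_ag.CUB.Nop
import Pool.Agent.Lib.MP_2619d0_ag.CUB.Lat2

/-!
Cubic families: Bezout on general lines through a point.
-/

set_option autoImplicit false

namespace MP2619.CUB

open MvPolynomial

theorem bezp_basis {K : Type*} [Field K] {k : ℕ} (p : Fin (k + 1) → K) (hp : p ≠ 0) :
    ∃ V : Fin (k + 1) → Fin (k + 1) → K, V 0 = p ∧ LinearIndependent K V := by
  classical
  obtain ⟨l0, hl0⟩ := Function.ne_iff.1 hp
  refine ⟨Fin.cons p (fun i : Fin k => Pi.single (l0.succAbove i) 1), Fin.cons_zero _ _, ?_⟩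
  rw [linearIndependent_finCons]
  constructor
  · have h1 := (Pi.basisFun K (Fin (k + 1))).linearIndependent.comp l0.succAbove
      Fin.succAbove_right_injective
    have h2 : (Pi.basisFun K (Fin (k + 1))) ∘ l0.succAbove =
        fun i : Fin k => (Pi.single (l0.succAbove i) 1 : Fin (k + 1) → K) := by
      funext i
      rw [Function.comp_apply, Pi.basisFun_apply]
    rwa [h2] at h1
  · intro h
    have h1 : Submodule.span K (Set.range fun i : Fin k =>
        (Pi.single (l0.succAbove i) 1 : Fin (k + 1) → K)) ≤ LinearMap.ker (LinearMap.proj l0) := by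
      rw [Submodule.span_le]
      rintro _ ⟨i, rfl⟩
      change (Pi.single (l0.succAbove i) 1 : Fin (k + 1) → K) l0 = 0
      exact Pi.single_eq_of_ne (Fin.succAbove_ne l0 i).symm _
    exact hl0 (LinearMap.mem_ker.1 (h1 h))

theorem lineP_add {K : Type*} [CommRing K] {n : ℕ} (φ : MvPolynomial (Fin n) K)
    (p v : Fin n → K) (a : K) :
    lineP φ p (v + a • p) = (lineP φ p v).comp (Polynomial.X + Polynomial.C a) := by
  have h1 : (aeval (fun i => Polynomial.C (p i) * Polynomial.X + Polynomial.C ((v + a • p) i)) :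
      MvPolynomial (Fin n) K →ₐ[K] Polynomial K) =
      (Polynomial.aeval (Polynomial.X + Polynomial.C a) : Polynomial K →ₐ[K] Polynomial K).comp
        (aeval (fun i => Polynomial.C (p i) * Polynomial.X + Polynomial.C (v i))) := by
    apply MvPolynomial.algHom_ext
    intro i
    rw [AlgHom.comp_apply, aeval_X, aeval_X, map_add, map_mul, Polynomial.aeval_X,
      Polynomial.aeval_C, Polynomial.aeval_C, Pi.add_apply, Pi.smul_apply, smul_eq_mul,
      Polynomial.C_add, Polynomial.C_mul]
    change _ = Polynomial.C (p i) * _ + Polynomial.C (v i)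
    ring
  exact DFunLike.congr_fun h1 φ

/-- Bezout on general lines through `p` -/
theorem bezp {K : Type*} [Field K] {N n : ℕ} (φ : Fin (N + 1) → MvPolynomial (Fin n) K)
    (hφ : ∀ j, (φ j).IsHomogeneous 3) (hno : Nop φ)
    (p : Fin n → K) (h0 : eval p (φ 0) = 1) :
    ∃ R : MvPolynomial (Fin n) K, R ≠ 0 ∧
      (∀ (v : Fin n → K) (e : K), eval (v + e • p) R = eval v R) ∧
      ∀ v, eval v R ≠ 0 → ∃ A : Fin (N + 1) → Polynomial K, ∑ j, A j * lineP (φ j) p v = 1 := by
  classical
  have hp : p ≠ 0 := by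
    rintro rfl
    have h1 : eval (0 : Fin n → K) (φ 0) = 0 := by
      rw [MvPolynomial.eval_zero, constantCoeff_eq]
      by_contra h2
      have h3 := hφ 0 h2
      rw [map_zero] at h3
      omega
    rw [h1] at h0
    exact zero_ne_one h0
  rcases Nat.eq_zero_or_pos n with hn | hn
  · subst hn
    exact absurd (Subsingleton.elim p 0) hp
  obtain ⟨k, rfl⟩ : ∃ k, n = k + 1 := ⟨n - 1, by omega⟩
  obtain ⟨V, hV0, hV⟩ := bezp_basis p hp
  obtain ⟨B, hB⟩ : ∃ B : Matrix (Fin (k + 1)) (Fin (k + 1)) K, B = V := ⟨V, rfl⟩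
  have hu : IsUnit B := by
    rw [← Matrix.linearIndependent_rows_iff_isUnit, hB]
    exact hV
  obtain ⟨W, hWB⟩ := hu.exists_left_inv
  obtain ⟨W', hBW'⟩ := hu.exists_right_inv
  have hBW : B * W = 1 := by
    have h4 : W = W' := by
      calc W = W * (B * W') := by rw [hBW', mul_one]
        _ = W' := by rw [← mul_assoc, hWB, one_mul]
    rw [h4, hBW']
  obtain ⟨Ψ, hΨ⟩ : ∃ Ψ : Fin (N + 1) → MvPolynomial (Fin (k + 1)) K, Ψ = fun j => lsub V (φ j) :=
    ⟨_, rfl⟩
  have hΨh : ∀ j, (Ψ j).IsHomogeneous 3 := by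
    intro j
    rw [hΨ]
    exact nlsub_hom V (hφ j)
  obtain ⟨r, hr0, hr⟩ := nop_line Ψ hΨh (by
    rw [hΨ]
    have h1 := coeff_lsubR_zero V (hφ 0)
    rw [hV0, h0] at h1
    exact h1) (by
    rw [hΨ]
    exact nop_lsub φ hno V hV)
  have hR : ∀ v : Fin (k + 1) → K, eval v (lsub W (rename Fin.succ r)) =
      eval (fun i : Fin k => Matrix.vecMul v W i.succ) r := by
    intro v
    have h1 := eval_lsubR W (rename Fin.succ r) v
    have h2 : lsubR W (rename Fin.succ r) = lsub W (rename Fin.succ r) := rfl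
    rw [h2] at h1
    rw [h1, eval_rename]
    congr 2
    funext i
    rw [Function.comp_apply, Matrix.vecMul, dotProduct]
    exact Finset.sum_congr rfl fun l _ => mul_comm _ _
  have hpW : Matrix.vecMul p W = Pi.single 0 1 := by
    have h1 : p = Matrix.vecMul (Pi.single 0 1) B := by
      rw [Matrix.single_one_vecMul, hB]
      exact hV0.symm
    rw [h1, Matrix.vecMul_vecMul, hBW, Matrix.vecMul_one]
  refine ⟨lsub W (rename Fin.succ r), ?_, ?_, ?_⟩
  · intro h
    have h1 := congrArg (lsub B) h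
    rw [nlsub_comp, hBW, nlsub_one, lsub, map_zero] at h1
    apply hr0
    apply rename_injective _ (Fin.succ_injective k)
    rw [h1, map_zero]
  · intro v e
    rw [hR, hR]
    congr 2
    funext i
    rw [Matrix.add_vecMul, Matrix.smul_vecMul, hpW, Pi.add_apply, Pi.smul_apply,
      Pi.single_eq_of_ne (Fin.succ_ne_zero i), smul_zero, add_zero]
  · intro v hv
    rw [hR] at hv
    obtain ⟨A, hA⟩ := hr _ hv
    obtain ⟨y, hy⟩ : ∃ y, y = Matrix.vecMul v W := ⟨_, rfl⟩
    have hvy : v = (∑ i : Fin k, y i.succ • V i.succ) + y 0 • p := by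
      have h1 : v = Matrix.vecMul y B := by
        rw [hy, Matrix.vecMul_vecMul, hWB, Matrix.vecMul_one]
      conv_lhs => rw [h1]
      rw [Matrix.vecMul_eq_sum, Fin.sum_univ_succ, hB, hV0]
      exact add_comm _ _
    refine ⟨fun j => (A j).comp (Polynomial.X + Polynomial.C (y 0)), ?_⟩
    have h2 : ∀ j, (A j).comp (Polynomial.X + Polynomial.C (y 0)) * lineP (φ j) p v =
        (A j * (finSuccEquiv K k (Ψ j)).map
          (eval (fun i : Fin k => Matrix.vecMul v W i.succ) :
            MvPolynomial (Fin k) K →+* K)).comp (Polynomial.X + Polynomial.C (y 0)) := by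
      intro j
      rw [Polynomial.mul_comp]
      congr 1
      conv_lhs => rw [hvy]
      rw [lineP_add]
      congr 1
      have h3 := line_lsubR V (φ j) (fun i : Fin k => Matrix.vecMul v W i.succ)
      have h4 : lsubR V (φ j) = Ψ j := by
        rw [hΨ]
        rfl
      rw [h4, hV0] at h3
      rw [h3, hy]
    rw [Finset.sum_congr rfl fun j _ => h2 j, ← Polynomial.sum_comp, hA, Polynomial.one_comp]

end MP2619.CUB
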