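import Mathlib
import Pool.Agent.Lib.MP_2619d0_ag.T.Defs

/-!
Cubic families: definitions for the reduction.
-/

set_option autoImplicit false

namespace MP2619.CUB

open MvPolynomial Pool.Agent.Lib.MP_2619d0_ag.T

/-- Every vector in the tangent space of the Fermat cubic at `x` is, modulo `x`, the value of a derivation
at `x`. -/
def DerP {κ : Type*} [Field κ] {n : ℕ} (x : Fin n → κ) : Prop :=
  ∀ u : Fin n → κ, ∑ i, x i ^ 2 * u i = 0 →
    ∃ (D : Derivation ℤ κ κ) (c : κ), ∀ i, u i = D (x i) + c * x i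

/-- The reduction of a family of cubic parametrisations: `κ` is the residue field, `x` the reduction of the
generic point, `Φ` the reduction of the family. -/
structure CubRed {κ : Type*} [Field κ] {N n : ℕ} (x : Fin (N + 1) → κ)
    (Φ : Fin (N + 1) → MvPolynomial (Fin (n + 1)) κ) : Prop where
  two : (2 : κ) = 0
  inf : Infinite κ
  x0 : x 0 = 1
  xx : ∑ i, x i ^ 3 = 0
  hP : ∀ w : Fin (N + 1) → κ, ∑ i, w i ^ 2 * x i = 0 → w = w 0 • x
  der : DerP x
  hom : ∀ j, (Φ j).IsHomogeneous 3
  cube : ∑ j, Φ j ^ 3 = 0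
  pt : ∀ j, coeff (Finsupp.single 0 3) (Φ j) = x j
  inj : LinearIndependent κ
    (fun (i : Fin (n + 1)) (j : Fin (N + 1)) =>
      coeff (Finsupp.single 0 2 + Finsupp.single i 1) (Φ j))

/-- The valuation ring is discrete. -/
structure Disc {M : Type*} [Field M] (O : ValuationSubring M) (ϖ : O) : Prop where
  mem : ϖ ∈ IsLocalRing.maximalIdeal O
  dvd : ∀ b ∈ IsLocalRing.maximalIdeal O, ϖ ∣ b
  arch : ∀ b : O, b ≠ 0 → ∃ k : ℕ, ¬ ϖ ^ k ∣ b

/-- The place: the cubic form with coefficients `c` reduces to the Fermat cubic and its point `x` to the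
generic point of the Fermat cubic. -/
structure Pl {M : Type*} [Field M] (O : ValuationSubring M) {N : ℕ}
    (c : Fin (N + 1) → Fin (N + 1) → Fin (N + 1) → O) (x : Fin (N + 1) → O) (ϖ : O) : Prop where
  disc : Disc O ϖ
  two : (2 : IsLocalRing.ResidueField O) = 0
  inf : Infinite (IsLocalRing.ResidueField O)
  hc : ∀ i j l, IsLocalRing.residue O (c i j l) = if i = j ∧ j = l then 1 else 0
  x0 : x 0 = 1
  xx : ∑ i, IsLocalRing.residue O (x i) ^ 3 = 0
  hP : ∀ w : Fin (N + 1) → IsLocalRing.ResidueField O,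
    ∑ i, w i ^ 2 * IsLocalRing.residue O (x i) = 0 →
      w = w 0 • fun i => IsLocalRing.residue O (x i)
  der : DerP (fun i => IsLocalRing.residue O (x i))

/-- The forms `φ j` have no common factor. -/
def Cop {σ K : Type*} [CommRing K] {N : ℕ} (φ : Fin N → MvPolynomial σ K) : Prop :=
  ∀ g : MvPolynomial σ K, (∀ j, g ∣ φ j) → IsUnit g

/-- The substitution `y = ∑ l, X l • V l`. -/
noncomputable def lsub {K : Type*} [CommRing K] {n : ℕ} (V : Fin n → Fin n → K)
    (φ : MvPolynomial (Fin n) K) : MvPolynomial (Fin n) K :=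
  aeval (fun i => ∑ l, C (V l i) * X l) φ

end MP2619.CUB
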