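import Pool.Agent.Lib.MP_2619d0_ag.CUB.D4
import Pool.Agent.Lib.MP_2619d0_ag.CUB.Red0
import Pool.Agent.Lib.MP_2619d0_ag.T.B1
import Pool.Agent.Lib.MP_2619d0_ag.T.B2

/-!
From the reduction of a cubic family (polynomials) to a cubic map.
-/

set_option autoImplicit false

namespace MP2619.CUB

open MvPolynomial Pool.Agent.Lib.MP_2619d0_ag.T

section

variable {κ : Type*} [Field κ] {N n : ℕ}

theorem Tc_add_mid' {ι R : Type*} [Fintype ι] [CommRing R] (c : ι → ι → ι → R) (x y y' z : ι → R) :
    Tc c x (y + y') z = Tc c x y z + Tc c x y' z := by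
  rw [Tc_comm, Tc_add_left, Tc_comm c y, Tc_comm c y']

theorem Tc_smul_mid' {ι R : Type*} [Fintype ι] [CommRing R] (c : ι → ι → ι → R) (a : R)
    (x y z : ι → R) : Tc c x (a • y) z = a * Tc c x y z := by
  rw [Tc_comm, Tc_smul_left, Tc_comm c y]

theorem Tc_add_right' {ι R : Type*} [Fintype ι] [CommRing R] (c : ι → ι → ι → R) (x y z z' : ι → R) :
    Tc c x y (z + z') = Tc c x y z + Tc c x y z' := by
  rw [Tc_comm' c, Tc_add_mid', Tc_comm' c x z, Tc_comm' c x z']

theorem Tc_smul_right' {ι R : Type*} [Fintype ι] [CommRing R] (c : ι → ι → ι → R) (a : R)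
    (x y z : ι → R) : Tc c x y (a • z) = a * Tc c x y z := by
  rw [Tc_comm' c, Tc_smul_mid', Tc_comm' c x z]

/-- the cubic map given by cubic forms with coefficients `c j` -/
def mkC (h2 : (2 : κ) = 0) (c : Fin N → Fin n → Fin n → Fin n → κ) :
    CMap κ (Fin n → κ) (Fin N → κ) where
  f := fun y j => Fc (c j) y
  d := fun y =>
    { toFun := fun w j => Dc (c j) y w
      map_add' := fun w w' => by funext j; exact Dc_add_right _ _ _ _
      map_smul' := fun s w => by funext j; exact Dc_smul_right _ _ _ _ }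
  t := LinearMap.mk₂ κ (fun y z =>
    { toFun := fun w j => Tc (c j) y z w
      map_add' := fun w w' => by funext j; exact Tc_add_right' _ _ _ _ _
      map_smul' := fun s w => by funext j; exact Tc_smul_right' _ _ _ _ _ })
    (fun y y' z => LinearMap.ext fun w => funext fun j => Tc_add_left (c j) y y' z w)
    (fun s y z => LinearMap.ext fun w => funext fun j => Tc_smul_left (c j) s y z w)
    (fun y z z' => LinearMap.ext fun w => funext fun j => Tc_add_mid' (c j) y z z' w)
    (fun s y z => LinearMap.ext fun w => funext fun j => Tc_smul_mid' (c j) s y z w)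
  f_add := fun y z => by funext j; exact Fc_add _ _ _
  f_smul := fun s y => by funext j; exact Fc_smul _ _ _
  d_add := fun y z w => by
    funext j
    show Dc (c j) (y + z) w = Dc (c j) y w + Dc (c j) z w + Tc (c j) y z w
    rw [Dc_add_left]
    ring
  d_smul := fun s y w => by
    funext j
    show Dc (c j) (s • y) w = s ^ 2 * Dc (c j) y w
    exact Dc_smul_left _ _ _ _
  d_self := fun y => by
    funext j
    show Dc (c j) y y = Fc (c j) y
    rw [Dc_self]
    linear_combination Fc (c j) y * h2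

theorem mkC_f (h2 : (2 : κ) = 0) (c : Fin N → Fin n → Fin n → Fin n → κ) (y : Fin n → κ)
    (j : Fin N) : (mkC h2 c).f y j = Fc (c j) y := rfl

theorem mkC_d (h2 : (2 : κ) = 0) (c : Fin N → Fin n → Fin n → Fin n → κ) (y w : Fin n → κ)
    (j : Fin N) : (mkC h2 c).d y w j = Dc (c j) y w := rfl

theorem cub_eval {φ : MvPolynomial (Fin n) κ} (hφ : φ.IsHomogeneous 3) (y : Fin n → κ) :
    Fc (cub φ) y = eval y φ := by
  have h := aeval_eq_Fc (A := κ) hφ y
  rw [MvPolynomial.aeval_eq_eval] at h
  have e : cm (algebraMap κ κ) (cub φ) = cub φ := rfl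
  rw [e] at h
  exact h.symm

theorem Dc_single (c : Fin (n + 1) → Fin (n + 1) → Fin (n + 1) → κ) (i : Fin (n + 1)) :
    Dc c (Pi.single 0 1) (Pi.single i 1) = c i 0 0 + c 0 i 0 + c 0 0 i := by
  unfold Dc
  have e : ∀ a b d : Fin (n + 1), c a b d * ((Pi.single i 1 : Fin (n + 1) → κ) a *
      (Pi.single 0 1 : Fin (n + 1) → κ) b * (Pi.single 0 1 : Fin (n + 1) → κ) d +
      (Pi.single 0 1 : Fin (n + 1) → κ) a * (Pi.single i 1 : Fin (n + 1) → κ) b *
      (Pi.single 0 1 : Fin (n + 1) → κ) d + (Pi.single 0 1 : Fin (n + 1) → κ) a *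
      (Pi.single 0 1 : Fin (n + 1) → κ) b * (Pi.single i 1 : Fin (n + 1) → κ) d) =
      (if a = i then (if b = 0 then (if d = 0 then c a b d else 0) else 0) else 0) +
      (if a = 0 then (if b = i then (if d = 0 then c a b d else 0) else 0) else 0) +
      (if a = 0 then (if b = 0 then (if d = i then c a b d else 0) else 0) else 0) := by
    intro a b d
    simp only [Pi.single_apply]
    split_ifs <;> ring
  simp only [e, Finset.sum_add_distrib]
  congr 1
  · congr 1
    · simp
    · simp
  · simp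

theorem cub_d {φ : MvPolynomial (Fin (n + 1)) κ} (h2 : (2 : κ) = 0) (i : Fin (n + 1)) :
    Dc (cub φ) (Pi.single 0 1) (Pi.single i 1) =
      coeff (Finsupp.single 0 2 + Finsupp.single i 1) φ := by
  rw [Dc_single]
  have e0 : (Finsupp.single (0 : Fin (n + 1)) 1 + Finsupp.single 0 1 : Fin (n + 1) →₀ ℕ) =
      Finsupp.single 0 2 := by
    rw [← Finsupp.single_add]
  by_cases hi : i = 0
  · subst hi
    unfold cub
    simp only [le_refl, and_self, if_true]
    rw [e0]
    linear_combination (coeff (Finsupp.single 0 2 + Finsupp.single 0 1) φ) * h2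
  · have hi' : ¬ i ≤ 0 := by
      intro h
      exact hi (Fin.le_zero_iff.1 h)
    unfold cub
    rw [if_neg (by tauto), if_neg (by tauto), if_pos ⟨le_refl _, Fin.zero_le _⟩, e0]
    ring

/-- the bridge from the reduction to the linear algebra -/
theorem CubRed.exists_CMap {x : Fin (N + 1) → κ} {Φ : Fin (N + 1) → MvPolynomial (Fin (n + 1)) κ}
    (h : CubRed x Φ) : ∃ Ψ : CMap κ (Fin (n + 1) → κ) (Fin (N + 1) → κ),
      (∀ y j, Ψ.f y j = eval y (Φ j)) ∧ Ψ.Iso ∧ Ψ.f (Pi.single 0 1) = x ∧
      Function.Injective (Ψ.d (Pi.single 0 1)) ∧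
      ∀ u : Fin (N + 1) → κ, hh x u = 0 →
        ∃ (D : Derivation ℤ κ κ) (c : κ), ∀ i, u i = D (x i) + c * x i := by
  have h2 := h.two
  refine ⟨mkC h2 (fun j => cub (Φ j)), ?_, ?_, ?_, ?_, ?_⟩
  · intro y j
    rw [mkC_f, cub_eval (h.hom j)]
  · intro y
    have h1 := congrArg (eval y) h.cube
    rw [map_sum, map_zero] at h1
    rw [← h1]
    unfold hh
    refine Finset.sum_congr rfl fun j _ => ?_
    rw [mkC_f, cub_eval (h.hom j), map_pow]
    ring
  · funext j
    rw [← CMap.d_self, mkC_d, cub_d h2, ← h.pt j, ← Finsupp.single_add]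
  · have hli := h.inj
    rw [← LinearMap.ker_eq_bot, LinearMap.ker_eq_bot']
    intro w hw
    rw [Fintype.linearIndependent_iff] at hli
    have hw' : ∑ i, w i • (fun j => coeff (Finsupp.single 0 2 + Finsupp.single i 1) (Φ j)) =
        (0 : Fin (N + 1) → κ) := by
      have e1 : w = ∑ i, w i • (Pi.single i 1 : Fin (n + 1) → κ) := by
        funext k
        simp [Finset.sum_apply, Pi.single_apply]
      rw [e1, map_sum] at hw
      rw [← hw]
      refine Finset.sum_congr rfl fun i _ => ?_
      rw [map_smul]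
      congr 1
      funext j
      rw [mkC_d, cub_d h2]
    funext i
    exact hli w hw' i
  · intro u hu
    exact h.der u hu

end

end MP2619.CUB
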