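import Mathlib

/-!
Coprimality of a family of cubic forms without common factor.
-/

set_option autoImplicit false

namespace MP2619.CUB

open MvPolynomial

section hc

variable {σ M : Type*} [Field M]

theorem COP_hc {Ψ : MvPolynomial σ M} {n : ℕ} (hΨ : Ψ.IsHomogeneous n) (h : MvPolynomial σ M) (e : ℕ) :
    homogeneousComponent (n + e) (Ψ * h) = Ψ * homogeneousComponent e h := by
  conv_lhs => rw [← sum_homogeneousComponent h]
  rw [Finset.mul_sum, map_sum]
  have h1 : ∀ i, homogeneousComponent (n + e) (Ψ * homogeneousComponent i h) =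
      if i = e then Ψ * homogeneousComponent i h else 0 := by
    intro i
    have h2 : (Ψ * homogeneousComponent i h) ∈ homogeneousSubmodule σ M (n + i) := by
      rw [mem_homogeneousSubmodule]
      exact hΨ.mul (homogeneousComponent_isHomogeneous i h)
    rw [homogeneousComponent_of_mem h2]
    by_cases hie : i = e
    · rw [if_pos (by rw [hie]), if_pos hie]
    · rw [if_neg (by omega), if_neg hie]
  simp only [h1]
  rw [Finset.sum_ite_eq']
  split_ifs with h2
  · rfl
  · rw [Finset.mem_range, not_lt] at h2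
    rw [homogeneousComponent_eq_zero e h (by omega), mul_zero]

/-- a common factor of a family of cubic forms gives a proportional family of quadratic forms -/
theorem COP_factor {N : ℕ} (i0 : σ) (Ψ h : Fin (N + 1) → MvPolynomial σ M) (g : MvPolynomial σ M)
    (hΨ : ∀ j, (Ψ j).IsHomogeneous 3) (hg : 1 ≤ g.totalDegree) (hgh : ∀ j, Ψ j = g * h j)
    (h0 : Ψ 0 ≠ 0) :
    ∃ ψ : Fin (N + 1) → MvPolynomial σ M, (∀ j, (ψ j).IsHomogeneous 2) ∧
      (∀ i j, Ψ i * ψ j = Ψ j * ψ i) ∧ ∃ j, ψ j ≠ 0 := by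
  have hg0 : g ≠ 0 := by
    rintro rfl
    exact h0 (by rw [hgh, zero_mul])
  have hh0 : h 0 ≠ 0 := by
    intro h1
    exact h0 (by rw [hgh, h1, mul_zero])
  have hdeg : g.totalDegree + (h 0).totalDegree = 3 := by
    rw [← totalDegree_mul_of_isDomain hg0 hh0, ← hgh]
    exact (hΨ 0).totalDegree h0
  obtain ⟨e, he, hne⟩ : ∃ e ∈ Finset.range ((h 0).totalDegree + 1),
      homogeneousComponent e (h 0) ≠ 0 := by
    by_contra hcon
    push Not at hcon
    exact hh0 ((sum_homogeneousComponent (h 0)).symm.trans (Finset.sum_eq_zero hcon))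
  have he2 : e ≤ 2 := by
    rw [Finset.mem_range] at he
    omega
  refine ⟨fun j => homogeneousComponent e (h j) * X i0 ^ (2 - e), fun j => ?_, fun i j => ?_, 0, ?_⟩
  · have h1 := (homogeneousComponent_isHomogeneous e (h j)).mul ((isHomogeneous_X M i0).pow (2 - e))
    have h2 : e + 1 * (2 - e) = 2 := by omega
    rwa [h2] at h1
  · have h1 : Ψ i * h j = Ψ j * h i := by
      rw [hgh i, hgh j]
      ring
    have h2 := congrArg (homogeneousComponent (3 + e)) h1
    rw [COP_hc (hΨ i), COP_hc (hΨ j)] at h2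
    beta_reduce
    rw [← mul_assoc, h2, mul_assoc]
  · exact mul_ne_zero hne (pow_ne_zero _ (X_ne_zero _))

end hc

section bezout

variable {M : Type*} [Field M] {k N : ℕ}

theorem COP_coeff3 {f : MvPolynomial (Fin (k + 1)) M} (hf : f.IsHomogeneous 3) :
    (finSuccEquiv M k f).coeff 3 = C (coeff (Finsupp.single 0 3) f) := by
  have h1 := hf.finSuccEquiv_coeff_isHomogeneous 3 0 rfl
  have h2 := totalDegree_eq_zero_iff_eq_C.1 (Nat.le_zero.1 h1.totalDegree_le)
  rw [h2, finSuccEquiv_coeff_coeff]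
  congr 2
  ext i
  refine Fin.cases ?_ (fun i => ?_) i
  · simp
  · simp

theorem COP_natDegree {f : MvPolynomial (Fin (k + 1)) M} (hf : f.IsHomogeneous 3) :
    (finSuccEquiv M k f).natDegree ≤ 3 := by
  rw [natDegree_finSuccEquiv]
  exact (degreeOf_le_totalDegree f 0).trans hf.totalDegree_le

/-- COPRIME: Bezout for a family of cubic forms which is not proportional to a family of quadratic forms -/
theorem COP_bezout (Ψ : Fin (N + 1) → MvPolynomial (Fin (k + 1)) M) (hΨ : ∀ j, (Ψ j).IsHomogeneous 3)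
    (h0 : coeff (Finsupp.single 0 3) (Ψ 0) = 1)
    (hno : ∀ ψ : Fin (N + 1) → MvPolynomial (Fin (k + 1)) M, (∀ j, (ψ j).IsHomogeneous 2) →
      (∀ i j, Ψ i * ψ j = Ψ j * ψ i) → ∀ j, ψ j = 0) :
    ∃ (R : MvPolynomial (Fin k) M) (A : Fin (N + 1) → Polynomial (MvPolynomial (Fin k) M)), R ≠ 0 ∧
      ∑ j, A j * finSuccEquiv M k (Ψ j) = Polynomial.C R := by
  classical
  obtain ⟨P, hP⟩ : ∃ P : Fin (N + 1) → Polynomial (MvPolynomial (Fin k) M), ∀ j, P j =
    finSuccEquiv M k (Ψ j) := ⟨_, fun _ => rfl⟩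
  let K := FractionRing (MvPolynomial (Fin k) M)
  have hinj : Function.Injective (algebraMap (MvPolynomial (Fin k) M) K) :=
    IsFractionRing.injective _ _
  have hmon : (P 0).Monic := by
    have h1 : (P 0).coeff 3 = 1 := by
      rw [hP, COP_coeff3 (hΨ 0), h0, C_1]
    exact Polynomial.monic_of_natDegree_le_of_coeff_eq_one 3 (by rw [hP]; exact COP_natDegree (hΨ 0)) h1
  obtain ⟨Q, hQ⟩ : ∃ Q : Fin (N + 1) → Polynomial K, ∀ j, Q j = (P j).map (algebraMap _ K) :=
    ⟨_, fun _ => rfl⟩
  obtain ⟨g, hg⟩ := (IsPrincipalIdealRing.principal (Ideal.span (Set.range Q))).principal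
  have hgQ : ∀ j, g ∣ Q j := by
    intro j
    have h1 : Q j ∈ Ideal.span (Set.range Q) := Ideal.subset_span ⟨j, rfl⟩
    rw [hg] at h1
    exact Ideal.mem_span_singleton.1 h1
  have hQ0 : Q 0 ≠ 0 := by
    rw [hQ]
    exact (hmon.map _).ne_zero
  have hg0 : g ≠ 0 := by
    rintro rfl
    exact hQ0 (zero_dvd_iff.1 (hgQ 0))
  obtain ⟨g', hg'⟩ := IsIntegrallyClosed.eq_map_mul_C_of_dvd K hmon (g := g) (by
    have := hgQ 0
    rwa [hQ] at this)
  have hlc : g.leadingCoeff ≠ 0 := Polynomial.leadingCoeff_ne_zero.2 hg0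
  have hg'mon : g'.Monic := by
    apply (Function.Injective.monic_map_iff hinj).2
    unfold Polynomial.Monic
    have h1 := congrArg Polynomial.leadingCoeff hg'
    rw [Polynomial.leadingCoeff_mul, Polynomial.leadingCoeff_C] at h1
    exact mul_right_cancel₀ hlc (h1.trans (one_mul _).symm)
  have hdvd : ∀ j, g' ∣ P j := by
    intro j
    rw [← Polynomial.map_dvd_map (algebraMap _ K) hinj hg'mon, ← hQ]
    exact (Dvd.intro _ hg').trans (hgQ j)
  have hdeg : g'.natDegree = 0 := by
    by_contra hne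
    choose q hq using hdvd
    obtain ⟨ψ, h1, h2, j, h3⟩ := COP_factor (0 : Fin (k + 1)) Ψ
      (fun j => (finSuccEquiv M k).symm (q j)) ((finSuccEquiv M k).symm g') hΨ (by
        have h4 := natDegree_finSuccEquiv ((finSuccEquiv M k).symm g')
        rw [AlgEquiv.apply_symm_apply] at h4
        have h5 := degreeOf_le_totalDegree ((finSuccEquiv M k).symm g') 0
        omega) (fun j => by
        rw [← map_mul, ← hq, hP, AlgEquiv.symm_apply_apply]) (by
        intro h4
        rw [h4, coeff_zero] at h0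
        exact zero_ne_one h0)
    exact h3 (hno ψ h1 h2 j)
  have hg'1 : g' = 1 := hg'mon.natDegree_eq_zero.1 hdeg
  have hgC : g = Polynomial.C g.leadingCoeff := by
    rw [hg'1, Polynomial.map_one, one_mul] at hg'
    exact hg'.symm
  have hmem : (1 : Polynomial K) ∈ Ideal.span (Set.range Q) := by
    rw [hg]
    refine Ideal.mem_span_singleton.2 ⟨Polynomial.C (g.leadingCoeff)⁻¹, ?_⟩
    rw [hgC]
    rw [Polynomial.leadingCoeff_C, ← Polynomial.C_mul, mul_inv_cancel₀ hlc, Polynomial.C_1]
  obtain ⟨a, ha⟩ := (Ideal.mem_span_range_iff_exists_fun).1 hmem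
  choose b hb hb2 using fun j => IsLocalization.integerNormalization_spec
    (nonZeroDivisors (MvPolynomial (Fin k) M)) (a j)
  refine ⟨∏ j, b j, fun j => Polynomial.C (∏ i ∈ Finset.univ.erase j, b i) *
    IsLocalization.integerNormalization (nonZeroDivisors (MvPolynomial (Fin k) M)) (a j), ?_, ?_⟩
  · exact Finset.prod_ne_zero_iff.2 fun j _ => nonZeroDivisors.ne_zero (hb j)
  · apply Polynomial.map_injective _ hinj
    rw [Polynomial.map_sum, Polynomial.map_C]
    have h1 : ∀ j, Polynomial.map (algebraMap (MvPolynomial (Fin k) M) K)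
        (Polynomial.C (∏ i ∈ Finset.univ.erase j, b i) *
          IsLocalization.integerNormalization (nonZeroDivisors (MvPolynomial (Fin k) M)) (a j) *
            finSuccEquiv M k (Ψ j)) =
        Polynomial.C (algebraMap (MvPolynomial (Fin k) M) K (∏ i, b i)) * (a j * Q j) := by
      intro j
      rw [Polynomial.map_mul, Polynomial.map_mul, hb2, Polynomial.map_C, ← hP, ← hQ]
      rw [← Finset.prod_erase_mul Finset.univ b (Finset.mem_univ j), map_mul (algebraMap _ K),
        Polynomial.C_mul, ← algebraMap_smul K (b j) (a j), Polynomial.smul_eq_C_mul]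
      ring
    simp only [h1]
    rw [← Finset.mul_sum, ha, mul_one]

end bezout

end MP2619.CUB
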