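import Mathlib

/-!
Cubic families in characteristic two: cubic maps, the form `h`, first identities.
-/

set_option autoImplicit false

namespace MP2619.CUB

open Finset

section basics

variable {κ : Type*} [Field κ] {r : ℕ}

/-- `h(u,v) = ∑ u_i² v_i` -/
def hh (u v : Fin r → κ) : κ := ∑ i, u i ^ 2 * v i

theorem sq_add (h2 : (2 : κ) = 0) (a b : κ) : (a + b) ^ 2 = a ^ 2 + b ^ 2 := by
  linear_combination (a * b) * h2

theorem hh_add_left (h2 : (2 : κ) = 0) (a b c : Fin r → κ) : hh (a + b) c = hh a c + hh b c := by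
  unfold hh
  rw [← Finset.sum_add_distrib]
  refine Finset.sum_congr rfl fun i _ => ?_
  rw [Pi.add_apply, sq_add h2]
  ring

theorem hh_add_right (a b c : Fin r → κ) : hh a (b + c) = hh a b + hh a c := by
  unfold hh
  rw [← Finset.sum_add_distrib]
  refine Finset.sum_congr rfl fun i _ => ?_
  rw [Pi.add_apply]
  ring

theorem hh_smul_left (s : κ) (a c : Fin r → κ) : hh (s • a) c = s ^ 2 * hh a c := by
  unfold hh
  rw [Finset.mul_sum]
  refine Finset.sum_congr rfl fun i _ => ?_
  rw [Pi.smul_apply, smul_eq_mul]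
  ring

theorem hh_smul_right (s : κ) (a c : Fin r → κ) : hh a (s • c) = s * hh a c := by
  unfold hh
  rw [Finset.mul_sum]
  refine Finset.sum_congr rfl fun i _ => ?_
  rw [Pi.smul_apply, smul_eq_mul]
  ring

theorem hh_zero_left (c : Fin r → κ) : hh (0 : Fin r → κ) c = 0 := by
  unfold hh
  simp

theorem hh_zero_right (c : Fin r → κ) : hh c (0 : Fin r → κ) = 0 := by
  unfold hh
  simp

theorem hh_sum_left (h2 : (2 : κ) = 0) {ι : Type*} (s : Finset ι) (a : ι → Fin r → κ) (c : Fin r → κ) :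
    hh (∑ i ∈ s, a i) c = ∑ i ∈ s, hh (a i) c := by
  classical
  induction s using Finset.induction_on with
  | empty => simp [hh_zero_left]
  | insert i s hi ih => rw [Finset.sum_insert hi, Finset.sum_insert hi, hh_add_left h2, ih]

theorem hh_sum_right {ι : Type*} (s : Finset ι) (a : ι → Fin r → κ) (c : Fin r → κ) :
    hh c (∑ i ∈ s, a i) = ∑ i ∈ s, hh c (a i) := by
  classical
  induction s using Finset.induction_on with
  | empty => simp [hh_zero_right]
  | insert i s hi ih => rw [Finset.sum_insert hi, Finset.sum_insert hi, hh_add_right, ih]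

/-- `h(u, ·)` as a linear form -/
def hr (u : Fin r → κ) : (Fin r → κ) →ₗ[κ] κ where
  toFun := hh u
  map_add' := hh_add_right u
  map_smul' := fun s v => hh_smul_right s u v

@[simp] theorem hr_apply (u v : Fin r → κ) : hr u v = hh u v := rfl

end basics

/-- A cubic map between vector spaces in characteristic two: `d y w` is the derivative at `y` in the
direction `w`, `t` the polar (trilinear, alternating) form. -/
structure CMap (κ K V : Type*) [Field κ] [AddCommGroup K] [Module κ K] [AddCommGroup V] [Module κ V] where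
  f : K → V
  d : K → K →ₗ[κ] V
  t : K →ₗ[κ] K →ₗ[κ] K →ₗ[κ] V
  f_add : ∀ y z, f (y + z) = f y + d y z + d z y + f z
  f_smul : ∀ (s : κ) (y : K), f (s • y) = s ^ 3 • f y
  d_add : ∀ y z w, d (y + z) w = d y w + d z w + t y z w
  d_smul : ∀ (s : κ) (y w : K), d (s • y) w = s ^ 2 • d y w
  d_self : ∀ y, d y y = f y

namespace CMap

variable {κ K K' V : Type*} [Field κ] [AddCommGroup K] [Module κ K] [AddCommGroup K'] [Module κ K']
  [AddCommGroup V] [Module κ V]

/-- composition with a linear map (restriction to a subspace: `j = S.subtype`) -/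
def comp (Φ : CMap κ K V) (j : K' →ₗ[κ] K) : CMap κ K' V where
  f := fun y => Φ.f (j y)
  d := fun y => (Φ.d (j y)).comp j
  t := LinearMap.mk₂ κ (fun a b => (Φ.t (j a) (j b)).comp j)
    (fun a a' b => by ext c; simp) (fun s a b => by ext c; simp) (fun a b b' => by ext c; simp)
    (fun s a b => by ext c; simp)
  f_add := fun y z => by simp only [map_add, Φ.f_add, LinearMap.comp_apply]
  f_smul := fun s y => by simp only [map_smul, Φ.f_smul]
  d_add := fun y z w => by
    simp only [map_add, LinearMap.comp_apply, Φ.d_add, LinearMap.mk₂_apply]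
  d_smul := fun s y w => by simp only [map_smul, LinearMap.comp_apply, Φ.d_smul]
  d_self := fun y => Φ.d_self _

@[simp] theorem comp_f (Φ : CMap κ K V) (j : K' →ₗ[κ] K) (y : K') : (Φ.comp j).f y = Φ.f (j y) := rfl

@[simp] theorem comp_d (Φ : CMap κ K V) (j : K' →ₗ[κ] K) (y w : K') :
    (Φ.comp j).d y w = Φ.d (j y) (j w) := rfl

@[simp] theorem comp_t (Φ : CMap κ K V) (j : K' →ₗ[κ] K) (a b c : K') :
    (Φ.comp j).t a b c = Φ.t (j a) (j b) (j c) := rfl

variable (Φ : CMap κ K V)

theorem f_zero : Φ.f 0 = 0 := by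
  have := Φ.f_smul 0 0
  simpa using this

theorem d_zero (w : K) : Φ.d 0 w = 0 := by
  have := Φ.d_smul 0 0 w
  simpa using this

theorem t_swap (a b c : K) : Φ.t a b c = Φ.t b a c := by
  have h1 := Φ.d_add a b c
  have h2 := Φ.d_add b a c
  rw [add_comm b a, h1] at h2
  rw [add_comm (Φ.d b c)] at h2
  exact add_left_cancel h2

theorem t_rot (a b c : K) : Φ.t a b c = Φ.t a c b := by
  have h1 := Φ.f_add (a + b) c
  have h2 := Φ.f_add (a + c) b
  rw [Φ.f_add a b, Φ.d_add a b c, map_add] at h1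
  rw [Φ.f_add a c, Φ.d_add a c b, map_add] at h2
  have e : a + c + b = a + b + c := by abel
  rw [e, h1] at h2
  have h3 : Φ.t a b c - Φ.t a c b = 0 := by
    have := sub_eq_zero.2 h2
    rw [← this]
    abel
  exact sub_eq_zero.1 h3

theorem t_self (h2 : (2 : κ) = 0) (a c : K) : Φ.t a a c = 0 := by
  have h1 := Φ.d_add a a c
  have e : a + a = (2 : κ) • a := by rw [two_smul]
  rw [e, Φ.d_smul, h2] at h1
  have e2 : Φ.d a c + Φ.d a c = (2 : κ) • Φ.d a c := by rw [two_smul]
  rw [e2, h2, zero_smul, zero_add] at h1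
  rw [← h1]
  simp

theorem t_self' (h2 : (2 : κ) = 0) (a c : K) : Φ.t a c a = 0 := by
  rw [Φ.t_rot a c a, Φ.t_self h2]

theorem t_self'' (h2 : (2 : κ) = 0) (a c : K) : Φ.t c a a = 0 := by
  rw [Φ.t_swap c a a, Φ.t_self' h2]

/-- the span of the image -/
def N : Submodule κ V := Submodule.span κ {v | ∃ y c, v = Φ.d y c}

/-- the span of the polar form -/
def R : Submodule κ V := Submodule.span κ {v | ∃ a b c, v = Φ.t a b c}

theorem d_mem (y c : K) : Φ.d y c ∈ Φ.N := Submodule.subset_span ⟨y, c, rfl⟩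

theorem f_mem (y : K) : Φ.f y ∈ Φ.N := by
  rw [← Φ.d_self]
  exact Φ.d_mem _ _

theorem t_mem_R (a b c : K) : Φ.t a b c ∈ Φ.R := Submodule.subset_span ⟨a, b, c, rfl⟩

theorem t_mem (a b c : K) : Φ.t a b c ∈ Φ.N := by
  have h : Φ.t a b c = Φ.d (a + b) c - Φ.d a c - Φ.d b c := by
    rw [Φ.d_add]
    abel
  rw [h]
  exact sub_mem (sub_mem (Φ.d_mem _ _) (Φ.d_mem _ _)) (Φ.d_mem _ _)

theorem R_le_N : Φ.R ≤ Φ.N := by
  unfold R
  rw [Submodule.span_le]
  rintro v ⟨a, b, c, rfl⟩
  exact Φ.t_mem a b c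

/-- `[w|c]` with respect to a family `v` -/
def br {ι : Type*} [Fintype ι] (v : ι → K) : (ι → κ) →ₗ[κ] K →ₗ[κ] V :=
  ∑ i, (LinearMap.proj i : (ι → κ) →ₗ[κ] κ).smulRight (Φ.d (v i))

theorem br_apply {ι : Type*} [Fintype ι] (v : ι → K) (w : ι → κ) (c : K) :
    Φ.br v w c = ∑ i, w i • Φ.d (v i) c := by
  unfold br
  simp

theorem br_mem {ι : Type*} [Fintype ι] (v : ι → K) (w : ι → κ) (c : K) : Φ.br v w c ∈ Φ.N := by
  rw [br_apply]
  exact sum_mem fun i _ => Submodule.smul_mem _ _ (Φ.d_mem _ _)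

theorem br_single {ι : Type*} [Fintype ι] [DecidableEq ι] (v : ι → K) (i : ι) (s : κ) (c : K) :
    Φ.br v (Pi.single i s) c = s • Φ.d (v i) c := by
  rw [br_apply, Finset.sum_eq_single i]
  · rw [Pi.single_eq_same]
  · intro j _ hj
    rw [Pi.single_eq_of_ne hj, zero_smul]
  · intro h
    exact absurd (Finset.mem_univ i) h

end CMap

end MP2619.CUB
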