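import Pool.Agent.Lib.MP_2619d0_ag.CUB.D1

/-!
Cubic maps with `h(Φ,Φ) = 0`: identities.
-/

set_option autoImplicit false

namespace MP2619.CUB

open Finset

theorem poly_zero {κ : Type*} [Field κ] [Infinite κ] (M : ℕ) (a : ℕ → κ)
    (h : ∀ t : κ, ∑ k ∈ range M, a k * t ^ k = 0) : ∀ k < M, a k = 0 := by
  intro k hk
  have hp : (∑ k ∈ range M, Polynomial.C (a k) * Polynomial.X ^ k : Polynomial κ) = 0 := by
    refine Polynomial.funext fun t => ?_
    rw [Polynomial.eval_finsetSum, Polynomial.eval_zero, ← h t]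
    refine Finset.sum_congr rfl fun k _ => ?_
    rw [Polynomial.eval_mul, Polynomial.eval_C, Polynomial.eval_pow, Polynomial.eval_X]
  have h2 := congrArg (fun p => Polynomial.coeff p k) hp
  simp only [Polynomial.finsetSum_coeff, Polynomial.coeff_C_mul, Polynomial.coeff_X_pow,
    Polynomial.coeff_zero, mul_ite, mul_one, mul_zero] at h2
  rw [Finset.sum_ite_eq] at h2
  rwa [if_pos (mem_range.2 hk)] at h2

namespace CMap

variable {κ K : Type*} [Field κ] [AddCommGroup K] [Module κ K] {r : ℕ}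

/-- the cubic map is isotropic: `∑ Φ_i³ = 0` -/
def Iso (Φ : CMap κ K (Fin r → κ)) : Prop := ∀ y, hh (Φ.f y) (Φ.f y) = 0

variable {Φ : CMap κ K (Fin r → κ)}

theorem Iso.comp (hΦ : Φ.Iso) {K' : Type*} [AddCommGroup K'] [Module κ K'] (j : K' →ₗ[κ] K) :
    (Φ.comp j).Iso := fun y => hΦ (j y)

theorem f_line (Φ : CMap κ K (Fin r → κ)) (y w : K) (t : κ) :
    Φ.f (y + t • w) = Φ.f y + t • Φ.d y w + t ^ 2 • Φ.d w y + t ^ 3 • Φ.f w := by
  rw [Φ.f_add, map_smul, Φ.d_smul, Φ.f_smul]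

theorem d_line (Φ : CMap κ K (Fin r → κ)) (y z w : K) (t : κ) :
    Φ.d (y + t • z) w = Φ.d y w + t • Φ.t y z w + t ^ 2 • Φ.d z w := by
  rw [Φ.d_add, Φ.d_smul]
  have : Φ.t y (t • z) w = t • Φ.t y z w := by rw [map_smul, LinearMap.smul_apply]
  rw [this]
  abel

variable [Infinite κ]

theorem iso_coef (h2 : (2 : κ) = 0) (hΦ : Φ.Iso) (y w : K) :
    hh (Φ.f y) (Φ.d y w) = 0 ∧
    hh (Φ.f y) (Φ.d w y) + hh (Φ.d y w) (Φ.f y) = 0 ∧
    hh (Φ.f y) (Φ.f w) + hh (Φ.d y w) (Φ.d y w) = 0 ∧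
    hh (Φ.d y w) (Φ.d w y) + hh (Φ.d w y) (Φ.f y) = 0 := by
  have key := poly_zero 10 (fun k => if k = 0 then hh (Φ.f y) (Φ.f y) else
    if k = 1 then hh (Φ.f y) (Φ.d y w) else
    if k = 2 then hh (Φ.f y) (Φ.d w y) + hh (Φ.d y w) (Φ.f y) else
    if k = 3 then hh (Φ.f y) (Φ.f w) + hh (Φ.d y w) (Φ.d y w) else
    if k = 4 then hh (Φ.d y w) (Φ.d w y) + hh (Φ.d w y) (Φ.f y) else
    if k = 5 then hh (Φ.d y w) (Φ.f w) + hh (Φ.d w y) (Φ.d y w) else
    if k = 6 then hh (Φ.d w y) (Φ.d w y) + hh (Φ.f w) (Φ.f y) else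
    if k = 7 then hh (Φ.d w y) (Φ.f w) + hh (Φ.f w) (Φ.d y w) else
    if k = 8 then hh (Φ.f w) (Φ.d w y) else hh (Φ.f w) (Φ.f w)) (by
      intro t
      have h := hΦ (y + t • w)
      rw [f_line] at h
      simp only [hh_add_left h2, hh_add_right, hh_smul_left, hh_smul_right] at h
      simp only [Finset.sum_range_succ, Finset.sum_range_zero]
      norm_num
      linear_combination h)
  refine ⟨?_, ?_, ?_, ?_⟩
  · simpa using key 1 (by norm_num)
  · simpa using key 2 (by norm_num)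
  · simpa using key 3 (by norm_num)
  · simpa using key 4 (by norm_num)

theorem iso_fd (h2 : (2 : κ) = 0) (hΦ : Φ.Iso) (y w : K) : hh (Φ.f y) (Φ.d y w) = 0 :=
  (iso_coef h2 hΦ y w).1

theorem iso_dcoef (h2 : (2 : κ) = 0) (hΦ : Φ.Iso) (y z w : K) :
    hh (Φ.f y) (Φ.t y z w) = 0 ∧
    hh (Φ.f y) (Φ.d z w) + hh (Φ.d y z) (Φ.d y w) = 0 ∧
    hh (Φ.d y z) (Φ.d z w) + hh (Φ.d z y) (Φ.d y w) = 0 := by
  have key := poly_zero 9 (fun k => if k = 0 then hh (Φ.f y) (Φ.d y w) else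
    if k = 1 then hh (Φ.f y) (Φ.t y z w) else
    if k = 2 then hh (Φ.f y) (Φ.d z w) + hh (Φ.d y z) (Φ.d y w) else
    if k = 3 then hh (Φ.d y z) (Φ.t y z w) else
    if k = 4 then hh (Φ.d y z) (Φ.d z w) + hh (Φ.d z y) (Φ.d y w) else
    if k = 5 then hh (Φ.d z y) (Φ.t y z w) else
    if k = 6 then hh (Φ.d z y) (Φ.d z w) + hh (Φ.f z) (Φ.d y w) else
    if k = 7 then hh (Φ.f z) (Φ.t y z w) else hh (Φ.f z) (Φ.d z w)) (by
      intro t
      have h := iso_fd h2 hΦ (y + t • z) w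
      rw [f_line, d_line] at h
      simp only [hh_add_left h2, hh_add_right, hh_smul_left, hh_smul_right] at h
      simp only [Finset.sum_range_succ, Finset.sum_range_zero]
      norm_num
      linear_combination h)
  refine ⟨?_, ?_, ?_⟩
  · simpa using key 1 (by norm_num)
  · simpa using key 2 (by norm_num)
  · simpa using key 4 (by norm_num)

/-- `h(Φ(y), r) = 0` -/
theorem iso_ft (h2 : (2 : κ) = 0) (hΦ : Φ.Iso) (y a b c : K) : hh (Φ.f y) (Φ.t a b c) = 0 := by
  have key := poly_zero 8 (fun k => if k = 0 then hh (Φ.f y) (Φ.t y b c) else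
    if k = 1 then hh (Φ.f y) (Φ.t a b c) else
    if k = 2 then hh (Φ.d y a) (Φ.t y b c) else
    if k = 3 then hh (Φ.d y a) (Φ.t a b c) else
    if k = 4 then hh (Φ.d a y) (Φ.t y b c) else
    if k = 5 then hh (Φ.d a y) (Φ.t a b c) else
    if k = 6 then hh (Φ.f a) (Φ.t y b c) else hh (Φ.f a) (Φ.t a b c)) (by
      intro s
      have h := (iso_dcoef h2 hΦ (y + s • a) b c).1
      rw [f_line] at h
      have e : Φ.t (y + s • a) b c = Φ.t y b c + s • Φ.t a b c := by
        simp only [map_add, map_smul, LinearMap.add_apply, LinearMap.smul_apply]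
      rw [e] at h
      simp only [hh_add_left h2, hh_add_right, hh_smul_left, hh_smul_right] at h
      simp only [Finset.sum_range_succ, Finset.sum_range_zero]
      norm_num
      linear_combination h)
  simpa using key 1 (by norm_num)

theorem iso_dt (h2 : (2 : κ) = 0) (hΦ : Φ.Iso) (y w a b c : K) : hh (Φ.d y w) (Φ.t a b c) = 0 := by
  have key := poly_zero 7 (fun k => if k = 0 then hh (Φ.f y) (Φ.t a b c) else
    if k = 2 then hh (Φ.d y w) (Φ.t a b c) else
    if k = 4 then hh (Φ.d w y) (Φ.t a b c) else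
    if k = 6 then hh (Φ.f w) (Φ.t a b c) else 0) (by
      intro s
      have h := iso_ft h2 hΦ (y + s • w) a b c
      rw [f_line] at h
      simp only [hh_add_left h2, hh_smul_left] at h
      simp only [Finset.sum_range_succ, Finset.sum_range_zero]
      norm_num
      linear_combination h)
  simpa using key 2 (by norm_num)

/-- `h(N, R) = 0` -/
theorem iso_NR (h2 : (2 : κ) = 0) (hΦ : Φ.Iso) {u v : Fin r → κ} (hu : u ∈ Φ.N) (hv : v ∈ Φ.R) :
    hh u v = 0 := by
  induction hu using Submodule.span_induction with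
  | mem u hu =>
    obtain ⟨y, c, rfl⟩ := hu
    induction hv using Submodule.span_induction with
    | mem v hv =>
      obtain ⟨a, b, c', rfl⟩ := hv
      exact iso_dt h2 hΦ _ _ _ _ _
    | zero => exact hh_zero_right _
    | add a b _ _ ha hb => rw [hh_add_right, ha, hb, add_zero]
    | smul s a _ ha => rw [hh_smul_right, ha, mul_zero]
  | zero => exact hh_zero_left _
  | add a b _ _ ha hb => rw [hh_add_left h2, ha, hb, add_zero]
  | smul s a _ ha => rw [hh_smul_left, ha, mul_zero]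

/-- (I1) -/
theorem iso_I1 (h2 : (2 : κ) = 0) (hΦ : Φ.Iso) (y u z w : K) :
    hh (Φ.d y u) (Φ.d z w) + hh (Φ.d y z) (Φ.d u w) + hh (Φ.t y u z) (Φ.d y w) = 0 := by
  have key := poly_zero 7 (fun k =>
    if k = 0 then hh (Φ.f y) (Φ.d z w) + hh (Φ.d y z) (Φ.d y w) else
    if k = 1 then hh (Φ.d y z) (Φ.t y u w) else
    if k = 2 then hh (Φ.d y u) (Φ.d z w) + hh (Φ.d y z) (Φ.d u w) + hh (Φ.t y u z) (Φ.d y w) else
    if k = 3 then hh (Φ.t y u z) (Φ.t y u w) else
    if k = 4 then hh (Φ.d u y) (Φ.d z w) + hh (Φ.t y u z) (Φ.d u w) + hh (Φ.d u z) (Φ.d y w) else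
    if k = 5 then hh (Φ.d u z) (Φ.t y u w) else
      hh (Φ.f u) (Φ.d z w) + hh (Φ.d u z) (Φ.d u w)) (by
      intro s
      have h := (iso_dcoef h2 hΦ (y + s • u) z w).2.1
      rw [f_line, d_line, d_line] at h
      simp only [hh_add_left h2, hh_add_right, hh_smul_left, hh_smul_right] at h
      simp only [Finset.sum_range_succ, Finset.sum_range_zero]
      norm_num
      linear_combination h)
  simpa using key 2 (by norm_num)

/-- (I4), the four term relation -/
theorem iso_I4 (h2 : (2 : κ) = 0) (hΦ : Φ.Iso) (y u z v w : K) :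
    hh (Φ.t y u z) (Φ.d v w) + hh (Φ.t y u v) (Φ.d z w) + hh (Φ.t y z v) (Φ.d u w) +
      hh (Φ.t u z v) (Φ.d y w) = 0 := by
  have key := poly_zero 5 (fun k =>
    if k = 0 then hh (Φ.d y u) (Φ.d z w) + hh (Φ.d y z) (Φ.d u w) + hh (Φ.t y u z) (Φ.d y w) else
    if k = 1 then hh (Φ.t y u z) (Φ.t y v w) else
    if k = 2 then hh (Φ.t y v u) (Φ.d z w) + hh (Φ.t y v z) (Φ.d u w) + hh (Φ.t y u z) (Φ.d v w) +
      hh (Φ.t v u z) (Φ.d y w) else
    if k = 3 then hh (Φ.t v u z) (Φ.t y v w) else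
      hh (Φ.d v u) (Φ.d z w) + hh (Φ.d v z) (Φ.d u w) + hh (Φ.t v u z) (Φ.d v w)) (by
      intro s
      have h := iso_I1 h2 hΦ (y + s • v) u z w
      rw [d_line, d_line, d_line] at h
      have e : Φ.t (y + s • v) u z = Φ.t y u z + s • Φ.t v u z := by
        simp only [map_add, map_smul, LinearMap.add_apply, LinearMap.smul_apply]
      rw [e] at h
      simp only [hh_add_left h2, hh_add_right, hh_smul_left, hh_smul_right] at h
      simp only [Finset.sum_range_succ, Finset.sum_range_zero]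
      norm_num
      linear_combination h)
  have h := key 2 (by norm_num)
  simp only [OfNat.ofNat_ne_zero, OfNat.ofNat_ne_one, if_false, if_true] at h
  rw [Φ.t_rot y v u, Φ.t_rot y v z, Φ.t_swap v u z, Φ.t_rot u v z] at h
  linear_combination h

end CMap

end MP2619.CUB
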