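import Pool.Agent.Lib.MP_2619d0_ag.CUB.D2

/-!
Isotropic cubic maps in coordinates: the identities for the first slot `[w|c]`.
-/

set_option autoImplicit false

namespace MP2619.CUB

open Finset

namespace CMap

variable {κ K : Type*} [Field κ] [AddCommGroup K] [Module κ K] {r n : ℕ}

/-- the derivative in coordinates -/
theorem d_comb {V : Type*} [AddCommGroup V] [Module κ V] (Φ : CMap κ K V) :
    ∀ {n : ℕ} (v : Fin n → K) (y : Fin n → κ) (c : K),
      Φ.d (∑ i, y i • v i) c = ∑ i, y i ^ 2 • Φ.d (v i) c +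
        ∑ i, ∑ j, (if i < j then (y i * y j) • Φ.t (v i) (v j) c else 0) := by
  intro n
  induction n with
  | zero =>
    intro v y c
    simp [Φ.d_zero]
  | succ n ih =>
    intro v y c
    rw [Fin.sum_univ_castSucc, Φ.d_add, Φ.d_smul, ih, Fin.sum_univ_castSucc
      (f := fun i => y i ^ 2 • Φ.d (v i) c), Fin.sum_univ_castSucc
      (f := fun i => ∑ j, if i < j then (y i * y j) • Φ.t (v i) (v j) c else 0)]
    have e1 : ∀ i : Fin n, (∑ j : Fin (n + 1), if Fin.castSucc i < j then
        (y (Fin.castSucc i) * y j) • Φ.t (v (Fin.castSucc i)) (v j) c else 0) =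
        (∑ j : Fin n, if i < j then (y (Fin.castSucc i) * y (Fin.castSucc j)) •
          Φ.t (v (Fin.castSucc i)) (v (Fin.castSucc j)) c else 0) +
        (y (Fin.castSucc i) * y (Fin.last n)) • Φ.t (v (Fin.castSucc i)) (v (Fin.last n)) c := by
      intro i
      rw [Fin.sum_univ_castSucc]
      simp only [Fin.castSucc_lt_castSucc_iff, Fin.castSucc_lt_last, if_true]
    have e2 : (∑ j : Fin (n + 1), if Fin.last n < j then
        (y (Fin.last n) * y j) • Φ.t (v (Fin.last n)) (v j) c else 0) = 0 := by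
      refine Finset.sum_eq_zero fun j _ => ?_
      rw [if_neg (not_lt.2 (Fin.le_last j))]
    have e3 : Φ.t (∑ i : Fin n, y (Fin.castSucc i) • v (Fin.castSucc i))
        (y (Fin.last n) • v (Fin.last n)) c = ∑ i : Fin n, (y (Fin.castSucc i) * y (Fin.last n)) •
          Φ.t (v (Fin.castSucc i)) (v (Fin.last n)) c := by
      rw [map_sum, LinearMap.sum_apply, LinearMap.sum_apply]
      refine Finset.sum_congr rfl fun i _ => ?_
      simp only [map_smul, LinearMap.smul_apply, smul_smul]
      rw [mul_comm]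
    rw [e2, e3, Finset.sum_congr rfl (fun i _ => e1 i), Finset.sum_add_distrib]
    abel

theorem f_comb {V : Type*} [AddCommGroup V] [Module κ V] (Φ : CMap κ K V) (v : Fin n → K)
    (y : Fin n → κ) : Φ.f (∑ i, y i • v i) = ∑ e, y e • Φ.d (∑ i, y i • v i) (v e) := by
  rw [← Φ.d_self, map_sum]
  refine Finset.sum_congr rfl fun e _ => ?_
  rw [map_smul]

/-- `h(Φ_{v_e}(√w), X)` -/
def hq (Φ : CMap κ K (Fin r → κ)) (v : Fin n → K) (w : Fin n → κ) (e : Fin n) (X : Fin r → κ) : κ :=
  ∑ i, w i ^ 2 * hh (Φ.d (v i) (v e)) X +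
    ∑ i, ∑ j, (if i < j then w i * w j else 0) * hh (Φ.t (v i) (v j) (v e)) X

/-- `Θ(w; u; X) = ∑ u_e h(Φ_{v_e}(√w), X)`, quadratic in `w`, linear in `u` and `X` -/
def th (Φ : CMap κ K (Fin r → κ)) (v : Fin n → K) (w u : Fin n → κ) (X : Fin r → κ) : κ :=
  ∑ e, u e * Φ.hq v w e X

/-- the polar form of `Θ` -/
def tw (Φ : CMap κ K (Fin r → κ)) (v : Fin n → K) (w z u : Fin n → κ) (X : Fin r → κ) : κ :=
  ∑ e, u e * ∑ i, ∑ j, w i * z j * hh (Φ.t (v i) (v j) (v e)) X

variable {Φ : CMap κ K (Fin r → κ)} {v : Fin n → K}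

theorem hq_add_right (w : Fin n → κ) (e : Fin n) (X Y : Fin r → κ) :
    Φ.hq v w e (X + Y) = Φ.hq v w e X + Φ.hq v w e Y := by
  unfold hq
  simp only [hh_add_right, mul_add, Finset.sum_add_distrib]
  ring

theorem hq_smul_right (w : Fin n → κ) (e : Fin n) (s : κ) (X : Fin r → κ) :
    Φ.hq v w e (s • X) = s * Φ.hq v w e X := by
  unfold hq
  simp only [hh_smul_right, mul_add, Finset.mul_sum]
  congr 1
  · refine Finset.sum_congr rfl fun i _ => ?_
    ring
  · refine Finset.sum_congr rfl fun i _ => Finset.sum_congr rfl fun j _ => ?_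
    ring

theorem th_add_right (w u : Fin n → κ) (X Y : Fin r → κ) :
    Φ.th v w u (X + Y) = Φ.th v w u X + Φ.th v w u Y := by
  unfold th
  simp only [hq_add_right, mul_add, Finset.sum_add_distrib]

theorem th_smul_right (w u : Fin n → κ) (s : κ) (X : Fin r → κ) :
    Φ.th v w u (s • X) = s * Φ.th v w u X := by
  unfold th
  simp only [hq_smul_right, Finset.mul_sum]
  refine Finset.sum_congr rfl fun e _ => ?_
  ring

theorem th_add_mid (w u z : Fin n → κ) (X : Fin r → κ) :
    Φ.th v w (u + z) X = Φ.th v w u X + Φ.th v w z X := by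
  unfold th
  simp only [Pi.add_apply, add_mul, Finset.sum_add_distrib]

theorem th_smul_mid (w u : Fin n → κ) (s : κ) (X : Fin r → κ) :
    Φ.th v w (s • u) X = s * Φ.th v w u X := by
  unfold th
  simp only [Pi.smul_apply, smul_eq_mul, Finset.mul_sum]
  refine Finset.sum_congr rfl fun e _ => ?_
  ring

theorem tw_add_right (w z u : Fin n → κ) (X Y : Fin r → κ) :
    Φ.tw v w z u (X + Y) = Φ.tw v w z u X + Φ.tw v w z u Y := by
  unfold tw
  simp only [hh_add_right, mul_add, Finset.sum_add_distrib]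

theorem tw_smul_right (w z u : Fin n → κ) (s : κ) (X : Fin r → κ) :
    Φ.tw v w z u (s • X) = s * Φ.tw v w z u X := by
  unfold tw
  simp only [hh_smul_right, Finset.mul_sum]
  refine Finset.sum_congr rfl fun e _ => Finset.sum_congr rfl fun i _ =>
    Finset.sum_congr rfl fun j _ => ?_
  ring

theorem tw_add_mid (w z u u' : Fin n → κ) (X : Fin r → κ) :
    Φ.tw v w z (u + u') X = Φ.tw v w z u X + Φ.tw v w z u' X := by
  unfold tw
  simp only [Pi.add_apply, add_mul, Finset.sum_add_distrib]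

theorem tw_smul_mid (w z u : Fin n → κ) (s : κ) (X : Fin r → κ) :
    Φ.tw v w z (s • u) X = s * Φ.tw v w z u X := by
  unfold tw
  simp only [Pi.smul_apply, smul_eq_mul, Finset.mul_sum]
  refine Finset.sum_congr rfl fun e _ => Finset.sum_congr rfl fun i _ =>
    Finset.sum_congr rfl fun j _ => ?_
  ring

theorem sum_lt_eq {A : Fin n → Fin n → κ} (hA : ∀ i j, A i j = A j i) (hA0 : ∀ i, A i i = 0)
    (w z : Fin n → κ) :
    ∑ i, ∑ j, (if i < j then w i * z j + z i * w j else 0) * A i j =
      ∑ i, ∑ j, w i * z j * A i j := by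
  have e1 : ∀ i j : Fin n, (if i < j then w i * z j + z i * w j else 0) * A i j =
      (if i < j then w i * z j * A i j else 0) + (if i < j then z i * w j * A i j else 0) := by
    intro i j
    split_ifs
    · ring
    · ring
  have e2 : ∀ i j : Fin n, w i * z j * A i j =
      (if i < j then w i * z j * A i j else 0) + (if j < i then w i * z j * A i j else 0) := by
    intro i j
    rcases lt_trichotomy i j with h | h | h
    · rw [if_pos h, if_neg (not_lt.2 h.le), add_zero]
    · subst h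
      rw [hA0, mul_zero]
      simp
    · rw [if_pos h, if_neg (not_lt.2 h.le), zero_add]
  simp only [e1, Finset.sum_add_distrib]
  rw [Finset.sum_congr rfl fun i _ => Finset.sum_congr rfl fun j _ => e2 i j]
  simp only [Finset.sum_add_distrib]
  congr 1
  rw [Finset.sum_comm]
  refine Finset.sum_congr rfl fun i _ => Finset.sum_congr rfl fun j _ => ?_
  split_ifs
  · rw [hA j i]; ring
  · rfl

theorem hq_line (h2 : (2 : κ) = 0) (w z : Fin n → κ) (s : κ) (e : Fin n) (X : Fin r → κ) :
    Φ.hq v (w + s • z) e X = Φ.hq v w e X +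
      s * ∑ i, ∑ j, w i * z j * hh (Φ.t (v i) (v j) (v e)) X + s ^ 2 * Φ.hq v z e X := by
  have hs := sum_lt_eq (A := fun i j => hh (Φ.t (v i) (v j) (v e)) X)
    (fun i j => by rw [Φ.t_swap]) (fun i => by rw [Φ.t_self h2, hh_zero_left]) w z
  rw [← hs]
  unfold hq
  have e1 : ∀ i j : Fin n, (if i < j then (w + s • z) i * (w + s • z) j else 0) *
      hh (Φ.t (v i) (v j) (v e)) X =
      (if i < j then w i * w j else 0) * hh (Φ.t (v i) (v j) (v e)) X +
      (s * ((if i < j then w i * z j + z i * w j else 0) * hh (Φ.t (v i) (v j) (v e)) X) +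
      s ^ 2 * ((if i < j then z i * z j else 0) * hh (Φ.t (v i) (v j) (v e)) X)) := by
    intro i j
    split_ifs
    · simp only [Pi.add_apply, Pi.smul_apply, smul_eq_mul]; ring
    · ring
  have e2 : ∀ i : Fin n, (w + s • z) i ^ 2 * hh (Φ.d (v i) (v e)) X =
      w i ^ 2 * hh (Φ.d (v i) (v e)) X + s ^ 2 * (z i ^ 2 * hh (Φ.d (v i) (v e)) X) := by
    intro i
    simp only [Pi.add_apply, Pi.smul_apply, smul_eq_mul]
    rw [sq_add h2]
    ring
  simp only [e1, e2, Finset.sum_add_distrib, ← Finset.mul_sum]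
  ring

theorem th_line (h2 : (2 : κ) = 0) (w z u : Fin n → κ) (s : κ) (X : Fin r → κ) :
    Φ.th v (w + s • z) u X = Φ.th v w u X + s * Φ.tw v w z u X + s ^ 2 * Φ.th v z u X := by
  unfold th tw
  simp only [hq_line h2, mul_add, Finset.sum_add_distrib]
  simp only [Finset.mul_sum (s := univ) (a := s), Finset.mul_sum (s := univ) (a := s ^ 2)]
  congr 1
  · congr 1
    refine Finset.sum_congr rfl fun e _ => ?_
    simp only [← Finset.mul_sum]
    ring
  · refine Finset.sum_congr rfl fun e _ => ?_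
    ring

/-- the polar form is symmetric -/
theorem tw_rot (w z u : Fin n → κ) (X : Fin r → κ) : Φ.tw v w z u X = Φ.tw v u z w X := by
  have e : ∀ a b c : Fin n → κ, Φ.tw v a b c X =
      ∑ k, ∑ i, ∑ j, c k * (a i * b j * hh (Φ.t (v i) (v j) (v k)) X) := by
    intro a b c
    unfold tw
    refine Finset.sum_congr rfl fun k _ => ?_
    rw [Finset.mul_sum]
    refine Finset.sum_congr rfl fun i _ => ?_
    rw [Finset.mul_sum]
  rw [e, e, Finset.sum_comm]
  refine Finset.sum_congr rfl fun i _ => Finset.sum_congr rfl fun k _ =>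
    Finset.sum_congr rfl fun j _ => ?_
  have : Φ.t (v i) (v j) (v k) = Φ.t (v k) (v j) (v i) := by
    rw [Φ.t_rot (v i), Φ.t_swap (v i), Φ.t_rot (v k)]
  rw [this]
  ring

theorem tw_self (h2 : (2 : κ) = 0) (w u : Fin n → κ) (X : Fin r → κ) : Φ.tw v w w u X = 0 := by
  unfold tw
  refine Finset.sum_eq_zero fun e _ => ?_
  have hs := sum_lt_eq (A := fun i j => hh (Φ.t (v i) (v j) (v e)) X)
    (fun i j => by rw [Φ.t_swap]) (fun i => by rw [Φ.t_self h2, hh_zero_left]) w w
  rw [← hs]
  have : ∑ i, ∑ j, (if i < j then w i * w j + w i * w j else 0) * hh (Φ.t (v i) (v j) (v e)) X =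
      0 := by
    refine Finset.sum_eq_zero fun i _ => Finset.sum_eq_zero fun j _ => ?_
    split_ifs
    · linear_combination (w i * w j * hh (Φ.t (v i) (v j) (v e)) X) * h2
    · rw [zero_mul]
  rw [this, mul_zero]

theorem tw_self' (h2 : (2 : κ) = 0) (w u : Fin n → κ) (X : Fin r → κ) : Φ.tw v w u w X = 0 := by
  have e : ∀ a b c : Fin n → κ, Φ.tw v a b c X = Φ.tw v b a c X := by
    intro a b c
    unfold tw
    refine Finset.sum_congr rfl fun k _ => ?_
    rw [Finset.sum_comm]
    congr 1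
    refine Finset.sum_congr rfl fun i _ => Finset.sum_congr rfl fun j _ => ?_
    rw [Φ.t_swap]
    ring
  rw [e w u w, tw_rot, tw_self h2]

theorem tw_self'' (h2 : (2 : κ) = 0) (w u : Fin n → κ) (X : Fin r → κ) : Φ.tw v u w w X = 0 := by
  rw [tw_rot, tw_self h2]

/-- without the polar form `Θ` is the obvious expression -/
theorem hq_eq (h2 : (2 : κ) = 0) (w : Fin n → κ) (e : Fin n) {X : Fin r → κ}
    (hX : ∀ ρ ∈ Φ.R, hh ρ X = 0) : Φ.hq v w e X = hh (Φ.br v w (v e)) X := by
  unfold hq
  rw [br_apply, hh_sum_left h2]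
  have e1 : ∑ i, ∑ j, (if i < j then w i * w j else 0) * hh (Φ.t (v i) (v j) (v e)) X = 0 := by
    refine Finset.sum_eq_zero fun i _ => Finset.sum_eq_zero fun j _ => ?_
    rw [hX _ (Φ.t_mem_R _ _ _), mul_zero]
  rw [e1, add_zero]
  refine Finset.sum_congr rfl fun i _ => ?_
  rw [hh_smul_left]

theorem th_eq (h2 : (2 : κ) = 0) (w u : Fin n → κ) {X : Fin r → κ}
    (hX : ∀ ρ ∈ Φ.R, hh ρ X = 0) : Φ.th v w u X = ∑ e, u e * hh (Φ.br v w (v e)) X := by
  unfold th
  refine Finset.sum_congr rfl fun e _ => ?_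
  rw [hq_eq h2 w e hX]

/-- `Θ(w; b², X) = h([w|b], X)` for rational `b` -/
theorem th_sq (h2 : (2 : κ) = 0) (w b : Fin n → κ) {X : Fin r → κ}
    (hX : ∀ ρ ∈ Φ.R, hh ρ X = 0) :
    Φ.th v w (fun e => b e ^ 2) X = hh (Φ.br v w (∑ e, b e • v e)) X := by
  rw [th_eq h2 w _ hX, map_sum, hh_sum_left h2]
  refine Finset.sum_congr rfl fun e _ => ?_
  rw [map_smul, hh_smul_left]

/-- `Θ(y²; u, X) = ∑ u_e h(Φ_{v_e}(y), X)` for rational `y` -/
theorem hq_sq (h2 : (2 : κ) = 0) (y : Fin n → κ) (e : Fin n) (X : Fin r → κ) :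
    Φ.hq v (fun i => y i ^ 2) e X = hh (Φ.d (∑ i, y i • v i) (v e)) X := by
  rw [d_comb, hh_add_left h2, hh_sum_left h2, hh_sum_left h2]
  unfold hq
  congr 1
  · refine Finset.sum_congr rfl fun i _ => ?_
    rw [hh_smul_left]
  · refine Finset.sum_congr rfl fun i _ => ?_
    rw [hh_sum_left h2]
    refine Finset.sum_congr rfl fun j _ => ?_
    split_ifs
    · rw [hh_smul_left]; ring
    · rw [hh_zero_left, zero_mul]

theorem th_sq_left (h2 : (2 : κ) = 0) (y u : Fin n → κ) (X : Fin r → κ) :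
    Φ.th v (fun i => y i ^ 2) u X = ∑ e, u e * hh (Φ.d (∑ i, y i • v i) (v e)) X := by
  unfold th
  refine Finset.sum_congr rfl fun e _ => ?_
  rw [hq_sq h2]

variable [Infinite κ]

/-- (S) -/
theorem iso_S (h2 : (2 : κ) = 0) (hΦ : Φ.Iso) (y : Fin n → κ) (c : K) :
    hh (Φ.f (∑ i, y i • v i)) (Φ.br v (fun i => y i ^ 2) c) = 0 := by
  have h := iso_fd h2 hΦ (∑ i, y i • v i) c
  rw [d_comb, hh_add_right] at h
  have h0 : hh (Φ.f (∑ i, y i • v i))
      (∑ i, ∑ j, (if i < j then (y i * y j) • Φ.t (v i) (v j) c else 0)) = 0 := by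
    rw [hh_sum_right]
    refine Finset.sum_eq_zero fun i _ => ?_
    rw [hh_sum_right]
    refine Finset.sum_eq_zero fun j _ => ?_
    split_ifs
    · rw [hh_smul_right, iso_ft h2 hΦ, mul_zero]
    · exact hh_zero_right _
  rw [h0, add_zero] at h
  rw [br_apply]
  exact h

/-- (I0) -/
theorem iso_I0 (h2 : (2 : κ) = 0) (hΦ : Φ.Iso) (v : Fin n → K) (w : Fin n → κ) (c : K) :
    Φ.th v w w (Φ.br v w c) = 0 := by
  -- the polynomial
  let p : MvPolynomial (Fin n) κ :=
    ∑ e, MvPolynomial.X e * ∑ l, (MvPolynomial.X l * (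
      (∑ i, MvPolynomial.X i ^ 2 * MvPolynomial.C (hh (Φ.d (v i) (v e)) (Φ.d (v l) c))) +
      ∑ i, ∑ j, (MvPolynomial.X i * MvPolynomial.X j *
        MvPolynomial.C (if i < j then hh (Φ.t (v i) (v j) (v e)) (Φ.d (v l) c) else 0))))
  have hp : ∀ w : Fin n → κ, MvPolynomial.eval w p = Φ.th v w w (Φ.br v w c) := by
    intro w
    have e1 : ∀ e : Fin n, Φ.hq v w e (Φ.br v w c) = ∑ l, w l * Φ.hq v w e (Φ.d (v l) c) := by
      intro e
      rw [br_apply]
      have : ∀ s : Finset (Fin n), Φ.hq v w e (∑ l ∈ s, w l • Φ.d (v l) c) =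
          ∑ l ∈ s, w l * Φ.hq v w e (Φ.d (v l) c) := by
        intro s
        induction s using Finset.induction_on with
        | empty =>
          rw [Finset.sum_empty, Finset.sum_empty]
          have := hq_smul_right (Φ := Φ) (v := v) w e 0 0
          simpa using this
        | insert l s hl ih =>
          rw [Finset.sum_insert hl, Finset.sum_insert hl, hq_add_right, hq_smul_right, ih]
      exact this univ
    unfold th
    simp only [p, map_sum, map_mul, map_add, map_pow, MvPolynomial.eval_X, MvPolynomial.eval_C, e1]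
    refine Finset.sum_congr rfl fun e _ => ?_
    congr 1
    refine Finset.sum_congr rfl fun l _ => ?_
    congr 1
    unfold hq
    congr 1
    refine Finset.sum_congr rfl fun i _ => Finset.sum_congr rfl fun j _ => ?_
    split_ifs
    · rfl
    · rw [mul_zero, zero_mul]
  have hz : p = 0 := by
    refine MvPolynomial.funext_set (fun _ => Set.range (fun t : κ => t ^ 2)) ?_ ?_
    · intro _
      refine Set.infinite_range_of_injective ?_
      intro a b hab
      have hab' : a ^ 2 = b ^ 2 := hab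
      have h : (a - b) ^ 2 = 0 := by
        linear_combination hab' + (b ^ 2 - a * b) * h2
      exact sub_eq_zero.1 (pow_eq_zero_iff (by norm_num) |>.1 h)
    · intro x hx
      rw [Set.mem_univ_pi] at hx
      choose y hy using hx
      have hxy : x = fun i => y i ^ 2 := by
        funext i
        exact (hy i).symm
      rw [hp, hxy, map_zero, th_sq_left h2]
      have h := iso_S (v := v) h2 hΦ y c
      rw [f_comb, hh_sum_left h2] at h
      rw [← h]
      refine Finset.sum_congr rfl fun e _ => ?_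
      rw [hh_smul_left]
  rw [← hp, hz, map_zero]

theorem iso_P (h2 : (2 : κ) = 0) (hΦ : Φ.Iso) (v : Fin n → K) (w u : Fin n → κ) (c : K) :
    (Φ.th v w u (Φ.br v w c) + Φ.th v w w (Φ.br v u c) = 0) ∧
    (Φ.th v u w (Φ.br v w c) + Φ.th v w u (Φ.br v u c) = 0) := by
  have key := poly_zero 5 (fun k =>
    if k = 0 then Φ.th v w w (Φ.br v w c) else
    if k = 1 then Φ.th v w u (Φ.br v w c) + Φ.th v w w (Φ.br v u c) else
    if k = 2 then Φ.th v u w (Φ.br v w c) + Φ.th v w u (Φ.br v u c) else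
    if k = 3 then Φ.th v u u (Φ.br v w c) + Φ.th v u w (Φ.br v u c) else
      Φ.th v u u (Φ.br v u c)) (by
      intro s
      have h := iso_I0 h2 hΦ v (w + s • u) c
      have e : Φ.br v (w + s • u) c = Φ.br v w c + s • Φ.br v u c := by
        rw [map_add, map_smul, LinearMap.add_apply, LinearMap.smul_apply]
      rw [e, th_add_right, th_smul_right, th_line h2, th_line h2, th_add_mid, th_add_mid,
        th_add_mid, th_add_mid, th_smul_mid, th_smul_mid, th_smul_mid, th_smul_mid,
        tw_add_mid, tw_add_mid, tw_smul_mid, tw_smul_mid, tw_self' h2, tw_self' h2,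
        tw_self'' h2, tw_self'' h2] at h
      simp only [Finset.sum_range_succ, Finset.sum_range_zero]
      norm_num
      linear_combination h)
  refine ⟨?_, ?_⟩
  · simpa using key 1 (by norm_num)
  · simpa using key 2 (by norm_num)

/-- (P11) -/
theorem iso_P11 (h2 : (2 : κ) = 0) (hΦ : Φ.Iso) (v : Fin n → K) (w z u : Fin n → κ) (c : K) :
    Φ.tw v w z u (Φ.br v w c) + Φ.th v w u (Φ.br v z c) + Φ.th v w z (Φ.br v u c) = 0 := by
  have key := poly_zero 4 (fun k =>
    if k = 0 then Φ.th v w u (Φ.br v w c) + Φ.th v w w (Φ.br v u c) else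
    if k = 1 then Φ.tw v w z u (Φ.br v w c) + Φ.th v w u (Φ.br v z c) +
      Φ.th v w z (Φ.br v u c) else
    if k = 2 then Φ.th v z u (Φ.br v w c) + Φ.tw v w z u (Φ.br v z c) +
      Φ.th v z w (Φ.br v u c) else
      Φ.th v z u (Φ.br v z c) + Φ.th v z z (Φ.br v u c)) (by
      intro s
      have h := (iso_P h2 hΦ v (w + s • z) u c).1
      have e : Φ.br v (w + s • z) c = Φ.br v w c + s • Φ.br v z c := by
        rw [map_add, map_smul, LinearMap.add_apply, LinearMap.smul_apply]
      rw [e, th_add_right, th_smul_right, th_line h2, th_line h2, th_line h2, th_add_mid,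
        th_add_mid, th_smul_mid, th_smul_mid,
        tw_add_mid, tw_smul_mid, tw_self' h2, tw_self'' h2] at h
      simp only [Finset.sum_range_succ, Finset.sum_range_zero]
      norm_num
      linear_combination h)
  simpa using key 1 (by norm_num)

end CMap

end MP2619.CUB
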