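import Pool.Agent.Lib.MP_2619d0_ag.CUB.D3

/-!
Hypotheses on the point `x = Φ(e0)`: (P1), the product lemma, linear syzygies.
-/

set_option autoImplicit false

namespace MP2619.CUB

open Finset

variable {κ : Type*} [Field κ] {r : ℕ}

/-- (P1) -/
def P1 (x : Fin r → κ) : Prop := ∀ u, hh u x = 0 → ∃ c : κ, u = c • x

/-- (FP1), the product lemma: if `v_1, …, v_k` are independent modulo `x`, then the products of the
values `h(v_i, x)` over subsets of even size are independent over the field of squares, and the same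
for odd size. -/
def FP (x : Fin r → κ) : Prop :=
  ∀ (k : ℕ) (v : Fin k → (Fin r → κ)),
    LinearIndependent κ (Fin.cons x v : Fin (k + 1) → (Fin r → κ)) →
    ∀ (p : ℕ) (c : Finset (Fin k) → κ), (∀ S, Odd (S.card + p) → c S = 0) →
      ∑ S, c S ^ 2 * ∏ i ∈ S, hh (v i) x = 0 → ∀ S, c S = 0

namespace CMap

variable {K : Type*} [AddCommGroup K] [Module κ K]

/-- linear syzygies of a cubic map -/
def IsSyz (Φ : CMap κ K (Fin r → κ)) (g : K →ₗ[κ] (Fin r → κ)) : Prop :=
  ∀ y, ∑ i, g y i * Φ.f y i = 0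

/-- (FR): there are linear syzygies of maximal rank -/
def FR (Φ : CMap κ K (Fin r → κ)) (e0 : K) : Prop :=
  ∀ u : Fin r → κ, ∑ i, u i * Φ.f e0 i = 0 → ∃ g, Φ.IsSyz g ∧ g e0 = u

/-- (LR): a linear syzygy which kills `R` at `e0` kills `R` -/
def LR (Φ : CMap κ K (Fin r → κ)) (e0 : K) : Prop :=
  ∀ g, Φ.IsSyz g → (∀ ρ ∈ Φ.R, ∑ i, g e0 i * ρ i = 0) → ∀ y, ∀ ρ ∈ Φ.R, ∑ i, g y i * ρ i = 0

end CMap

/-- representable elements -/
def Rep {k : ℕ} (z : Fin k → κ) (D : Set (Finset (Fin k))) (y : κ) : Prop :=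
  ∃ c : Finset (Fin k) → κ, (∀ S, S ∉ D → c S = 0) ∧ y = ∑ S, c S ^ 2 * ∏ i ∈ S, z i

theorem Rep.zero {k : ℕ} (z : Fin k → κ) (D : Set (Finset (Fin k))) : Rep z D 0 :=
  ⟨fun _ => 0, fun _ _ => rfl, by simp⟩

theorem Rep.add (h2 : (2 : κ) = 0) {k : ℕ} {z : Fin k → κ} {D : Set (Finset (Fin k))} {y y' : κ}
    (h : Rep z D y) (h' : Rep z D y') : Rep z D (y + y') := by
  obtain ⟨c, hc, rfl⟩ := h
  obtain ⟨c', hc', rfl⟩ := h'
  refine ⟨fun S => c S + c' S, fun S hS => by simp only [hc S hS, hc' S hS, add_zero], ?_⟩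
  rw [← Finset.sum_add_distrib]
  refine Finset.sum_congr rfl fun S _ => ?_
  rw [sq_add h2]
  ring

theorem Rep.smul {k : ℕ} {z : Fin k → κ} {D : Set (Finset (Fin k))} {y : κ} (s : κ)
    (h : Rep z D y) : Rep z D (s ^ 2 * y) := by
  obtain ⟨c, hc, rfl⟩ := h
  refine ⟨fun S => s * c S, fun S hS => by simp only [hc S hS, mul_zero], ?_⟩
  rw [Finset.mul_sum]
  refine Finset.sum_congr rfl fun S _ => ?_
  ring

theorem Rep.sum (h2 : (2 : κ) = 0) {k : ℕ} {z : Fin k → κ} {D : Set (Finset (Fin k))}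
    {ι : Type*} (s : Finset ι) (y : ι → κ) (h : ∀ i ∈ s, Rep z D (y i)) : Rep z D (∑ i ∈ s, y i) := by
  classical
  induction s using Finset.induction_on with
  | empty => exact Rep.zero z D
  | insert i s hi ih =>
    rw [Finset.sum_insert hi]
    exact Rep.add h2 (h i (Finset.mem_insert_self _ _))
      (ih fun j hj => h j (Finset.mem_insert_of_mem hj))

theorem Rep.mono {k : ℕ} {z : Fin k → κ} {D D' : Set (Finset (Fin k))} {y : κ} (h : Rep z D y)
    (hD : D ⊆ D') : Rep z D' y := by
  obtain ⟨c, hc, rfl⟩ := h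
  exact ⟨c, fun S hS => hc S fun hS' => hS (hD hS'), rfl⟩

theorem Rep.prod {k : ℕ} (z : Fin k → κ) {D : Set (Finset (Fin k))} {S : Finset (Fin k)}
    (hS : S ∈ D) : Rep z D (∏ i ∈ S, z i) := by
  classical
  refine ⟨fun T => if T = S then 1 else 0, fun T hT => ?_, ?_⟩
  · have hTS : T ≠ S := by
      rintro rfl
      exact hT hS
    simp only [hTS, if_false]
  · rw [Finset.sum_eq_single S]
    · simp
    · intro T _ hT
      simp [hT]
    · intro h
      exact absurd (Finset.mem_univ _) h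

/-- `z_i z_j` is representable by sets with at most two elements, of even size -/
theorem Rep.mul2 {k : ℕ} (z : Fin k → κ) (i j : Fin k) :
    Rep z {S | Even S.card ∧ S.card ≤ 2} (z i * z j) := by
  classical
  by_cases hij : i = j
  · subst hij
    have h := Rep.smul (z i) (Rep.prod z (D := {S | Even S.card ∧ S.card ≤ 2}) (S := ∅)
      ⟨by simp, by simp⟩)
    simpa [sq] using h
  · have h := Rep.prod z (D := {S | Even S.card ∧ S.card ≤ 2}) (S := {i, j})
      ⟨by rw [Finset.card_pair hij]; exact even_two, by rw [Finset.card_pair hij]⟩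
    rwa [Finset.prod_pair hij] at h

/-- comparison of two representations -/
theorem FP.unique (h2 : (2 : κ) = 0) {x : Fin r → κ} (hx : FP x) {k : ℕ} {v : Fin k → (Fin r → κ)}
    (hv : LinearIndependent κ (Fin.cons x v : Fin (k + 1) → (Fin r → κ))) (p : ℕ)
    {D : Set (Finset (Fin k))} {S : Finset (Fin k)} (hD : ∀ T ∈ D, Even (T.card + p)) (hS : S ∉ D)
    (hSp : Even (S.card + p)) {s y : κ} (h : Rep (fun i => hh (v i) x) D y)
    (he : s ^ 2 * ∏ i ∈ S, hh (v i) x = y) : s = 0 := by
  classical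
  obtain ⟨c, hc, hy⟩ := h
  have key := hx k v hv p (fun T => c T + if T = S then s else 0) (by
    intro T hT
    have h1 : T ∉ D := fun h => (Nat.not_even_iff_odd.2 hT) (hD T h)
    have h3 : T ≠ S := by
      rintro rfl
      exact (Nat.not_even_iff_odd.2 hT) hSp
    rw [hc T h1, if_neg h3, add_zero]) (by
    have e : ∀ T : Finset (Fin k), (c T + if T = S then s else 0) ^ 2 * ∏ i ∈ T, hh (v i) x =
        c T ^ 2 * ∏ i ∈ T, hh (v i) x + if T = S then s ^ 2 * ∏ i ∈ T, hh (v i) x else 0 := by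
      intro T
      rw [sq_add h2]
      split_ifs
      · ring
      · ring
    simp only [e, Finset.sum_add_distrib]
    rw [Finset.sum_ite_eq' Finset.univ S, if_pos (Finset.mem_univ _), ← hy, he]
    linear_combination y * h2) S
  simp only [if_true] at key
  rwa [hc S hS, zero_add] at key

/-- value of `h(·, x)` on a vector, in terms of a basis modulo `x` -/
theorem hh_basis (h2 : (2 : κ) = 0) {x : Fin r → κ} (hxx : hh x x = 0) {k : ℕ}
    {v : Fin k → (Fin r → κ)}
    (hv : ⊤ ≤ Submodule.span κ (Set.range (Fin.cons x v : Fin (k + 1) → (Fin r → κ))))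
    (e : Fin r → κ) : ∃ a : Fin k → κ, hh e x = ∑ j, a j ^ 2 * hh (v j) x := by
  have he : e ∈ Submodule.span κ (Set.range (Fin.cons x v : Fin (k + 1) → (Fin r → κ))) :=
    hv Submodule.mem_top
  rw [Submodule.mem_span_range_iff_exists_fun] at he
  obtain ⟨c, hc⟩ := he
  rw [Fin.sum_univ_succ] at hc
  simp only [Fin.cons_zero, Fin.cons_succ] at hc
  refine ⟨fun j => c j.succ, ?_⟩
  rw [← hc, hh_add_left h2, hh_smul_left, hxx, mul_zero, zero_add, hh_sum_left h2]
  refine Finset.sum_congr rfl fun j _ => ?_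
  rw [hh_smul_left]

/-- independent vectors modulo `x` extend to a basis modulo `x` -/
theorem exists_ext {x : Fin r → κ} {k : ℕ} {v : Fin k → (Fin r → κ)}
    (hv : LinearIndependent κ (Fin.cons x v : Fin (k + 1) → (Fin r → κ))) :
    ∃ (l : ℕ) (v' : Fin l → (Fin r → κ)) (ι : Fin k ↪ Fin l), (∀ i, v' (ι i) = v i) ∧
      LinearIndependent κ (Fin.cons x v' : Fin (l + 1) → (Fin r → κ)) ∧
      ⊤ ≤ Submodule.span κ (Set.range (Fin.cons x v' : Fin (l + 1) → (Fin r → κ))) := by
  classical
  -- extend to a basis indexed by a set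
  have hinj : Function.Injective (Fin.cons x v : Fin (k + 1) → (Fin r → κ)) := hv.injective
  have hx0 : x ∉ Set.range v := by
    rintro ⟨i, hi⟩
    have := @hinj i.succ 0 (by simpa using hi)
    exact absurd this (Fin.succ_ne_zero i)
  let s : Set (Fin r → κ) := Set.range (Fin.cons x v : Fin (k + 1) → (Fin r → κ))
  have hs : LinearIndepOn κ id s := hv.linearIndepOn_id
  let B := hs.extend (Set.subset_univ s)
  have hB : LinearIndepOn κ id B := hs.linearIndepOn_extend (Set.subset_univ s)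
  have hsB : s ⊆ B := hs.subset_extend (Set.subset_univ s)
  have hspan : ⊤ ≤ Submodule.span κ B := by
    have := hs.span_extend_eq_span (Set.subset_univ s)
    rw [Submodule.span_univ] at this
    exact this.ge
  have hfin : B.Finite := by
    have : Finite B := hB.linearIndependent.finite
    exact Set.toFinite B
  -- remove x
  let C : Set (Fin r → κ) := B \ {x}
  have hCfin : C.Finite := hfin.subset Set.sdiff_subset
  have : Fintype C := hCfin.fintype
  let eq := Fintype.equivFin C
  let v' : Fin (Fintype.card C) → (Fin r → κ) := fun j => (eq.symm j : Fin r → κ)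
  have hxB : x ∈ B := hsB ⟨0, by simp⟩
  have hvC : ∀ i, v i ∈ C := by
    intro i
    refine ⟨hsB ⟨i.succ, by simp⟩, ?_⟩
    intro h
    exact hx0 ⟨i, h⟩
  have hv'inj : Function.Injective v' := by
    intro a b hab
    exact eq.symm.injective (Subtype.ext hab)
  refine ⟨Fintype.card C, v', ⟨fun i => eq ⟨v i, hvC i⟩, ?_⟩, ?_, ?_, ?_⟩
  · intro a b hab
    have := congrArg Subtype.val (eq.injective hab)
    have h3 := @hinj a.succ b.succ (by simpa using this)
    exact Fin.succ_injective _ h3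
  · intro i
    show ((eq.symm (eq ⟨v i, hvC i⟩) : C) : Fin r → κ) = v i
    rw [Equiv.symm_apply_apply]
  · have hcons : Function.Injective (Fin.cons x v' : Fin (Fintype.card C + 1) → (Fin r → κ)) := by
      rw [Fin.cons_injective_iff]
      refine ⟨?_, hv'inj⟩
      rintro ⟨j, hj⟩
      exact (eq.symm j).2.2 hj
    have hr : Set.range (Fin.cons x v' : Fin (Fintype.card C + 1) → (Fin r → κ)) ⊆ B := by
      rintro _ ⟨j, rfl⟩
      refine Fin.cases ?_ (fun j => ?_) j
      · simpa using hxB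
      · simpa using (eq.symm j).2.1
    exact (LinearIndepOn.mono hB hr).linearIndependent.comp
      (fun j => ⟨_, ⟨j, rfl⟩⟩) (fun a b hab => hcons (congrArg Subtype.val hab))
  · refine hspan.trans (Submodule.span_mono ?_)
    intro b hb
    by_cases hbx : b = x
    · exact ⟨0, by simp [hbx]⟩
    · refine ⟨(eq ⟨b, hb, hbx⟩).succ, ?_⟩
      rw [Fin.cons_succ]
      show ((eq.symm (eq ⟨b, hb, hbx⟩) : C) : Fin r → κ) = b
      rw [Equiv.symm_apply_apply]

end MP2619.CUB
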