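import Pool.Agent.Lib.MP_2619d0_ag.K.K2

/-!
Cubic families: derivations in characteristic zero.
-/

set_option autoImplicit false

namespace MP2619.CUB

open MvPolynomial TensorProduct

/-- In characteristic zero algebraically independent elements have dual derivations. Extend `y` to a
transcendence basis `z : ι → L` of `L / E` (`exists_isTranscendenceBasis_superset` for `Set.range y`, `y` is
injective); `ρ = aeval z : MvPolynomial ι E → L` is injective and `L` is algebraic, hence (characteristic
zero) separable over the subfield generated by its image. Then copy the proof of `MP2619.K.K2_der` /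
`R10_der` (files `K/K2.lean`, `KC/R10a.lean`): `L` is formally étale over `MvPolynomial ι E`. -/
theorem der_exists {E L : Type*} [Field E] [Field L] [Algebra E L] [CharZero E] {s : ℕ}
    (y : Fin s → L) (hy : AlgebraicIndependent E y) (j : Fin s) :
    ∃ D : Derivation E L L, ∀ i, D (y i) = if i = j then 1 else 0 := by
  classical
  have hyinj : Function.Injective y := hy.injective
  obtain ⟨t, hst, ht⟩ := exists_isTranscendenceBasis_superset (R := E) (s := Set.range y)
    (AlgebraicIndependent.to_subtype_range hy)
  obtain ⟨ρ, hρd⟩ : ∃ ρ : MvPolynomial t E →ₐ[E] L, ρ = aeval ((↑) : t → L) := ⟨_, rfl⟩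
  have hρinj : Function.Injective ρ.toRingHom := by
    rw [hρd]
    exact ht.1
  have hρX : ∀ i : t, ρ (X i) = (i : L) := by
    intro i
    rw [hρd, aeval_X]
  let K := Subfield.closure (Set.range ρ.toRingHom)
  let χ : MvPolynomial t E →+* K :=
    ρ.toRingHom.codRestrict _ (fun g => Subfield.subset_closure ⟨g, rfl⟩)
  let _ : Algebra (MvPolynomial t E) K := χ.toAlgebra
  have hfrac : IsFractionRing (MvPolynomial t E) K := MP2619.K.K2_frac ρ.toRingHom hρinj
  let _ : Algebra (MvPolynomial t E) L := ρ.toRingHom.toAlgebra
  have t1 : IsScalarTower (MvPolynomial t E) K L :=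
    IsScalarTower.of_algebraMap_eq fun _ => rfl
  have t2 : IsScalarTower E (MvPolynomial t E) L :=
    IsScalarTower.of_algebraMap_eq fun x => (ρ.commutes x).symm
  have hchL : CharZero L := charZero_of_injective_algebraMap (algebraMap E L).injective
  have hchK : CharZero K := by
    refine ⟨fun a b hab => ?_⟩
    have h1 : ((a : K) : L) = ((b : K) : L) := congrArg Subtype.val hab
    push_cast at h1
    exact_mod_cast h1
  have halg : Algebra.IsAlgebraic K L := by
    have h1 := ht.isAlgebraic
    let f : Algebra.adjoin E (Set.range ((↑) : t → L)) →+* K :=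
      (Algebra.adjoin E (Set.range ((↑) : t → L))).val.toRingHom.codRestrict _ (fun g => by
        apply Subfield.subset_closure
        have h2 : (g : L) ∈ (aeval ((↑) : t → L) : MvPolynomial t E →ₐ[E] L).range := by
          rw [← Algebra.adjoin_range_eq_range_aeval]
          exact g.2
        obtain ⟨a, ha⟩ := h2
        refine ⟨a, ?_⟩
        rw [hρd]
        exact ha)
    have hf : Function.Injective f := by
      intro a b h
      have h3 : ((f a : K) : L) = ((f b : K) : L) := by rw [h]
      exact Subtype.ext h3
    refine ⟨fun a => ?_⟩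
    obtain ⟨P, hP, ha⟩ := h1.isAlgebraic a
    refine ⟨P.map f, (Polynomial.map_ne_zero_iff hf).2 hP, ?_⟩
    rw [Polynomial.aeval_def, Polynomial.eval₂_map]
    exact ha
  have hsep : Algebra.IsSeparable K L := Algebra.IsAlgebraic.isSeparable_of_perfectField
  have e1 : Algebra.FormallyEtale (MvPolynomial t E) K :=
    Algebra.FormallyEtale.of_isLocalization (nonZeroDivisors _)
  have e2 : Algebra.FormallyEtale K L := Algebra.FormallyEtale.of_isSeparable K L
  have e3 : Algebra.FormallyEtale (MvPolynomial t E) L := Algebra.FormallyEtale.comp _ K _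
  let d0 : Derivation E (MvPolynomial t E) L :=
    MvPolynomial.mkDerivation E (fun i => if (i : L) = y j then (1 : L) else 0)
  let l0 : Ω[MvPolynomial t E⁄E] →ₗ[MvPolynomial t E] L := d0.liftKaehlerDifferential
  let l1 : L ⊗[MvPolynomial t E] Ω[MvPolynomial t E⁄E] →ₗ[L] L :=
    l0.liftBaseChange L
  let D1 : Derivation E L L :=
    (l1.comp (KaehlerDifferential.tensorKaehlerEquivOfFormallyEtale E
      (MvPolynomial t E) L).symm.toLinearMap).compDer (KaehlerDifferential.D E L)
  refine ⟨D1, fun i => ?_⟩
  obtain ⟨i', hi'⟩ : ∃ i' : t, (i' : L) = y i := ⟨⟨y i, hst ⟨i, rfl⟩⟩, rfl⟩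
  have h3 : D1 (algebraMap (MvPolynomial t E) L (X i')) = d0 (X i') := by
    change l1 ((KaehlerDifferential.tensorKaehlerEquivOfFormallyEtale E
      (MvPolynomial t E) L).symm (KaehlerDifferential.D E L
        (algebraMap (MvPolynomial t E) L (X i')))) = _
    rw [KaehlerDifferential.tensorKaehlerEquivOfFormallyEtale_symm_D_algebraMap]
    change l0.liftBaseChange L _ = _
    rw [LinearMap.liftBaseChange_tmul, one_smul]
    exact Derivation.liftKaehlerDifferential_comp_D d0 (X i')
  have h4 : algebraMap (MvPolynomial t E) L (X i') = y i := by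
    rw [← hi']
    exact hρX i'
  rw [← h4, h3]
  change mkDerivation E _ (X i') = _
  rw [mkDerivation_X, hi']
  by_cases hij : i = j
  · rw [if_pos hij, hij, if_pos rfl]
  · rw [if_neg hij, if_neg (fun h => hij (hyinj h))]

end MP2619.CUB
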