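import Pool.Agent.Lib.MP_2619d0_ag.CUB.D4

/-!
The product lemma FP1: if derivations of the residue field fill the tangent hyperplane of `x`
(hypothesis `DER x`) then products of an even (odd) number of values `h(v_i, x)`, for `v_i`
independent modulo `x`, are independent over the field of squares.
-/

set_option autoImplicit false

namespace MP2619.CUB

open Finset

section FP1

variable {κ : Type*} [Field κ] {r : ℕ}

/-- the derivatives of `x` and `x` itself fill the hyperplane `h(x, ·) = 0` -/
def DER (x : Fin r → κ) : Prop :=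
  ∀ u : Fin r → κ, hh x u = 0 →
    ∃ (D : Derivation ℤ κ κ) (c : κ), ∀ i, u i = D (x i) + c * x i

/-- independent vectors have a dual system -/
theorem FP1_dual {k : ℕ} {w : Fin k → Fin r → κ} (hw : LinearIndependent κ w) :
    ∃ B : Fin r → Fin k → κ, ∀ i j, ∑ l, w i l * B l j = if i = j then 1 else 0 := by
  classical
  have hinj : Function.Injective (Fintype.linearCombination κ w) :=
    LinearIndependent.fintypeLinearCombination_injective hw
  obtain ⟨g, hg⟩ := LinearMap.exists_leftInverse_of_injective (Fintype.linearCombination κ w)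
    (LinearMap.ker_eq_bot.2 hinj)
  refine ⟨fun l j => g (Pi.single l 1) j, ?_⟩
  intro i j
  have h1 : g (w i) = Pi.single i 1 := by
    have := LinearMap.congr_fun hg (Pi.single i 1)
    simpa [Fintype.linearCombination_apply_single] using this
  have h2 : g (w i) = ∑ l, w i l • g (Pi.single l 1) := by
    conv_lhs => rw [pi_eq_sum_univ' (w i)]
    rw [map_sum]
    simp
  have h3 := congrFun (h1.symm.trans h2) j
  rw [Finset.sum_apply] at h3
  simp only [Pi.smul_apply, smul_eq_mul] at h3
  rw [← h3, Pi.single_apply]
  simp [eq_comm]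

theorem FP1_sq_sum (h2 : (2 : κ) = 0) {ι : Type*} (s : Finset ι) (a : ι → κ) :
    (∑ i ∈ s, a i) ^ 2 = ∑ i ∈ s, a i ^ 2 := by
  classical
  induction s using Finset.induction_on with
  | empty => simp
  | insert i s hi ih => rw [Finset.sum_insert hi, Finset.sum_insert hi, sq_add h2, ih]

/-- a derivation kills squares -/
theorem FP1_sq (h2 : (2 : κ) = 0) (D : Derivation ℤ κ κ) (a b : κ) : D (a ^ 2 * b) = a ^ 2 * D b := by
  rw [Derivation.leibniz, Derivation.leibniz_pow]
  simp only [smul_eq_mul, nsmul_eq_mul]
  have : ((2 : ℕ) : κ) = 0 := by exact_mod_cast h2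
  rw [this]
  ring

theorem FP1_hh (h2 : (2 : κ) = 0) (D : Derivation ℤ κ κ) (v x : Fin r → κ) :
    D (hh v x) = hh v (fun i => D (x i)) := by
  unfold hh
  rw [map_sum]
  exact Finset.sum_congr rfl fun i _ => FP1_sq h2 D _ _

/-- prescribed derivatives of the values `h(v_j, x)` up to a multiple of the values -/
theorem FP1_deriv (h2 : (2 : κ) = 0) {x : Fin r → κ} (hD : DER x) {k : ℕ} {v : Fin k → Fin r → κ}
    (hv : LinearIndependent κ (Fin.cons x v : Fin (k + 1) → Fin r → κ)) (i : Fin k) :
    ∃ (D : Derivation ℤ κ κ) (c : κ), ∀ j, D (hh (v j) x) = (if j = i then 1 else 0) + c * hh (v j) x := by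
  obtain ⟨B, hB⟩ := FP1_dual hv
  have e0 := hB 0 i.succ
  rw [if_neg (Fin.succ_ne_zero i).symm] at e0
  have hsq : ∀ w : Fin r → κ, hh w (fun l => B l i.succ ^ 2) = (∑ l, w l * B l i.succ) ^ 2 := by
    intro w
    unfold hh
    rw [FP1_sq_sum h2]
    exact Finset.sum_congr rfl fun l _ => by ring
  obtain ⟨D, c, hDc⟩ := hD (fun l => B l i.succ ^ 2) (by
    rw [hsq]
    simp only [Fin.cons_zero] at e0
    rw [e0]
    ring)
  refine ⟨D, -c, fun j => ?_⟩
  have e1 : (fun l => D (x l)) = (fun l => B l i.succ ^ 2) - c • x := by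
    funext l
    have := hDc l
    rw [Pi.sub_apply, Pi.smul_apply, smul_eq_mul]
    linear_combination -this
  have e2 := hB j.succ i.succ
  simp only [Fin.cons_succ, Fin.succ_inj] at e2
  rw [FP1_hh h2, e1, sub_eq_add_neg, ← neg_smul, hh_add_right, hh_smul_right, hsq, e2]
  split_ifs <;> ring

theorem FP1_prod {k : ℕ} (D : Derivation ℤ κ κ) (z : Fin k → κ) (S : Finset (Fin k)) :
    D (∏ i ∈ S, z i) = ∑ i ∈ S, (∏ j ∈ S.erase i, z j) * D (z i) := by
  classical
  induction S using Finset.induction_on with
  | empty => simp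
  | insert a S ha ih =>
    rw [Finset.prod_insert ha, Derivation.leibniz, ih, Finset.sum_insert ha, Finset.erase_insert ha]
    simp only [smul_eq_mul]
    rw [add_comm, Finset.mul_sum]
    congr 1
    refine Finset.sum_congr rfl fun i hi => ?_
    have hne : a ≠ i := fun h => ha (h ▸ hi)
    rw [Finset.erase_insert_of_ne hne, Finset.prod_insert (fun h => ha (Finset.mem_of_mem_erase h))]
    ring

/-- the induction: relations supported on sets of size at most `n` -/
theorem FP1_main (h2 : (2 : κ) = 0) {k : ℕ} {z : Fin k → κ}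
    (hz : ∀ i, ∃ (D : Derivation ℤ κ κ) (c : κ), ∀ j, D (z j) = (if j = i then 1 else 0) + c * z j)
    (n : ℕ) : ∀ (p : ℕ) (c : Finset (Fin k) → κ), (∀ S : Finset (Fin k), n < S.card → c S = 0) →
      (∀ S : Finset (Fin k), Odd (S.card + p) → c S = 0) →
      ∑ S : Finset (Fin k), c S ^ 2 * ∏ i ∈ S, z i = 0 → ∀ S, c S = 0 := by
  classical
  have hempty : ∀ (c : Finset (Fin k) → κ), (∀ S : Finset (Fin k), S ≠ ∅ → c S = 0) →
      ∑ S : Finset (Fin k), c S ^ 2 * ∏ i ∈ S, z i = 0 → ∀ S, c S = 0 := by
    intro c hc hs S
    by_cases hS : S = ∅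
    · rw [Finset.sum_eq_single ∅ (fun T _ hT => by rw [hc T hT]; ring) (by simp)] at hs
      rw [Finset.prod_empty, mul_one] at hs
      rw [hS]
      exact pow_eq_zero_iff two_ne_zero |>.1 hs
    · exact hc S hS
  induction n with
  | zero =>
    intro p c h0 _ hs
    exact hempty c (fun S hS => h0 S (Finset.card_pos.2 (Finset.nonempty_iff_ne_empty.2 hS))) hs
  | succ n ih =>
    intro p c h0 hp hs
    apply hempty c _ hs
    intro S hS
    obtain ⟨i, hi⟩ := Finset.nonempty_iff_ne_empty.2 hS
    obtain ⟨D, e, hD⟩ := hz i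
    -- apply the derivation to the relation
    have hd : ∑ T : Finset (Fin k), c T ^ 2 * D (∏ j ∈ T, z j) = 0 := by
      have := congrArg D hs
      rw [map_sum, map_zero] at this
      rw [← this]
      exact Finset.sum_congr rfl fun T _ => (FP1_sq h2 D _ _).symm
    have hterm : ∀ T : Finset (Fin k), D (∏ j ∈ T, z j) =
        (if i ∈ T then ∏ j ∈ T.erase i, z j else 0) + (T.card : κ) * e * ∏ j ∈ T, z j := by
      intro T
      rw [FP1_prod]
      have h3 : ∀ l ∈ T, (∏ j ∈ T.erase l, z j) * D (z l) =
          (if l = i then ∏ j ∈ T.erase l, z j else 0) + e * ∏ j ∈ T, z j := by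
        intro l hl
        rw [hD l, ← Finset.prod_erase_mul T z hl]
        split_ifs <;> ring
      rw [Finset.sum_congr rfl h3, Finset.sum_add_distrib, Finset.sum_ite_eq' T i, Finset.sum_const,
        nsmul_eq_mul]
      ring
    have hpar : ∀ T : Finset (Fin k), c T ^ 2 * ((T.card : κ) * e * ∏ j ∈ T, z j) =
        (p : κ) * e * (c T ^ 2 * ∏ j ∈ T, z j) := by
      intro T
      by_cases hT : Odd (T.card + p)
      · rw [hp T hT]
        ring
      · rw [Nat.not_odd_iff_even] at hT
        obtain ⟨m, hm⟩ := hT
        have h3 : (T.card : κ) + p = 0 := by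
          have : ((T.card + p : ℕ) : κ) = ((m + m : ℕ) : κ) := by rw [hm]
          push_cast at this
          rw [this]
          linear_combination (m : κ) * h2
        have h4 : (T.card : κ) = p := by linear_combination h3 - (p : κ) * h2
        rw [h4]
        ring
    have hrel : ∑ T : Finset (Fin k), c T ^ 2 * (if i ∈ T then ∏ j ∈ T.erase i, z j else 0) = 0 := by
      have h5 : ∑ T : Finset (Fin k), c T ^ 2 * D (∏ j ∈ T, z j) =
          ∑ T : Finset (Fin k), c T ^ 2 * (if i ∈ T then ∏ j ∈ T.erase i, z j else 0) +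
          (p : κ) * e * ∑ T : Finset (Fin k), c T ^ 2 * ∏ j ∈ T, z j := by
        rw [Finset.mul_sum, ← Finset.sum_add_distrib]
        refine Finset.sum_congr rfl fun T _ => ?_
        rw [hterm T, mul_add, hpar T]
      rw [hd, hs, mul_zero, add_zero] at h5
      exact h5.symm
    -- reindex
    let c' : Finset (Fin k) → κ := fun T => if i ∈ T then 0 else c (insert i T)
    have hrel' : ∑ T : Finset (Fin k), c' T ^ 2 * ∏ j ∈ T, z j = 0 := by
      rw [← hrel]
      refine Finset.sum_bij_ne_zero (fun T _ _ => insert i T) (fun _ _ _ => Finset.mem_univ _) ?_ ?_ ?_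
      · intro T1 _ h1 T2 _ h2' h3
        have m1 : i ∉ T1 := by
          intro hm
          apply h1
          simp [c', hm]
        have m2 : i ∉ T2 := by
          intro hm
          apply h2'
          simp [c', hm]
        rw [← Finset.erase_insert m1, ← Finset.erase_insert m2, h3]
      · intro T _ hT
        have hm : i ∈ T := by
          by_contra hm
          apply hT
          rw [if_neg hm, mul_zero]
        refine ⟨T.erase i, Finset.mem_univ _, ?_, Finset.insert_erase hm⟩
        simp only [c', Finset.notMem_erase, if_false, Finset.insert_erase hm]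
        rwa [if_pos hm] at hT
      · intro T _ h1
        have m1 : i ∉ T := by
          intro hm
          apply h1
          simp [c', hm]
        simp only [c', m1, if_false, Finset.mem_insert_self, if_true, Finset.erase_insert m1]
    have hfin := ih (p + 1) c' (by
      intro T hT
      simp only [c']
      split_ifs with hm
      · rfl
      · apply h0
        rw [Finset.card_insert_of_notMem hm]
        omega) (by
      intro T hT
      simp only [c']
      split_ifs with hm
      · rfl
      · apply hp
        rw [Finset.card_insert_of_notMem hm]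
        have : T.card + 1 + p = T.card + (p + 1) := by ring
        rw [this]
        exact hT) hrel' (S.erase i)
    simp only [c', Finset.notMem_erase, if_false, Finset.insert_erase hi] at hfin
    exact hfin

/-- FP1 from derivations -/
theorem FP_of_DER (h2 : (2 : κ) = 0) {x : Fin r → κ} (hD : DER x) : FP x := by
  intro k v hv p c hp hs S
  exact FP1_main h2 (z := fun i => hh (v i) x) (fun i => FP1_deriv h2 hD hv i) k p c
    (fun T hT => absurd (Finset.card_le_univ T) (by simpa using hT)) hp hs S

/-- P1 from FP: `h(u, x) = 0` only for multiples of `x` -/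
theorem P1_of_FP {x : Fin r → κ} (hx : x ≠ 0) (hF : FP x) {u : Fin r → κ} (hu : hh u x = 0) :
    u ∈ Submodule.span κ {x} := by
  classical
  by_contra hcon
  have hli : LinearIndependent κ (Fin.cons x (fun _ : Fin 1 => u) : Fin 2 → Fin r → κ) := by
    rw [linearIndependent_finCons]
    have hu0 : u ≠ 0 := by
      intro h
      apply hcon
      rw [h]
      exact Submodule.zero_mem _
    refine ⟨LinearIndependent.of_subsingleton (v := fun _ : Fin 1 => u) 0 hu0, ?_⟩
    intro hmem
    rw [Set.range_const, Submodule.mem_span_singleton] at hmem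
    obtain ⟨a, ha⟩ := hmem
    have ha0 : a ≠ 0 := by
      intro h
      apply hx
      rw [← ha, h, zero_smul]
    apply hcon
    rw [Submodule.mem_span_singleton]
    exact ⟨a⁻¹, by rw [← ha, smul_smul, inv_mul_cancel₀ ha0, one_smul]⟩
  have := hF 1 (fun _ => u) hli 1 (fun S => if S = Finset.univ then 1 else 0) (by
    intro S hS
    rw [if_neg]
    intro h
    rw [h, Finset.card_univ, Fintype.card_fin] at hS
    exact absurd hS (by decide)) (by
    rw [Finset.sum_eq_single Finset.univ (fun T _ hT => by rw [if_neg hT]; ring) (by simp)]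
    simp [hu]) Finset.univ
  simp at this

/-- P1 from derivations -/
theorem P1_of_DER (h2 : (2 : κ) = 0) {x : Fin r → κ} (hx : x ≠ 0) (hD : DER x) {u : Fin r → κ}
    (hu : hh u x = 0) : u ∈ Submodule.span κ {x} :=
  P1_of_FP hx (FP_of_DER h2 hD) hu

end FP1

end MP2619.CUB
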