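import Pool.Agent.Lib.MP_2619d0_ag.CUB.D4

/-!
Linear syzygies from half-linear functionals: for an additive `c : κ → κ` with `c (s² a) = s c a` and
`d ∈ K` the map `y ↦ c([y²|d])` is a linear syzygy of an isotropic cubic map. (P1) at `Φ(e₀)` implies (FR).
-/

set_option autoImplicit false

namespace MP2619.CUB

open Finset

variable {κ : Type*} [Field κ] {r : ℕ}

/-- half-linear functionals: `c (s² a) = s c a` -/
def IsHalf (c : κ →+ κ) : Prop := ∀ s a : κ, c (s ^ 2 * a) = s * c a

/-- the field with scalars acting through squares -/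
def Tw (κ : Type*) : Type _ := κ

instance : AddCommGroup (Tw κ) := inferInstanceAs (AddCommGroup κ)

private theorem tw1 (a : κ) : (1 : κ) ^ 2 * a = a := by ring
private theorem tw2 (s t a : κ) : (s * t) ^ 2 * a = s ^ 2 * (t ^ 2 * a) := by ring
private theorem tw3 (s : κ) : s ^ 2 * (0 : κ) = 0 := by ring
private theorem tw4 (s a b : κ) : s ^ 2 * (a + b) = s ^ 2 * a + s ^ 2 * b := by ring
private theorem tw5 (h2 : (2 : κ) = 0) (s t a : κ) : (s + t) ^ 2 * a = s ^ 2 * a + t ^ 2 * a := by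
  rw [sq_add h2]; ring
private theorem tw6 (a : κ) : (0 : κ) ^ 2 * a = 0 := by ring

/-- the twisted module structure -/
@[reducible] def twModule (h2 : (2 : κ) = 0) : Module κ (Tw κ) where
  smul s := fun (a : κ) => (s ^ 2 * a : κ)
  one_smul := fun a => tw1 (κ := κ) a
  mul_smul := fun s t a => tw2 (κ := κ) s t a
  smul_zero := fun s => tw3 (κ := κ) s
  smul_add := fun s a b => tw4 (κ := κ) s a b
  add_smul := fun s t a => tw5 (κ := κ) h2 s t a
  zero_smul := fun a => tw6 (κ := κ) a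

/-- the identity map -/
def toTw (a : κ) : Tw κ := a

/-- half-linear functionals separate points -/
theorem exists_half (h2 : (2 : κ) = 0) {a : κ} (ha : a ≠ 0) : ∃ c : κ →+ κ, IsHalf c ∧ c a ≠ 0 := by
  let _ := twModule (κ := κ) h2
  by_contra hcon
  push Not at hcon
  apply ha
  have h : toTw a = 0 := (Module.forall_dual_apply_eq_zero_iff κ (toTw a)).1 (by
    intro φ
    have hadd : ∀ b b' : κ, φ (toTw (b + b')) = φ (toTw b) + φ (toTw b') :=
      fun b b' => map_add φ (toTw b) (toTw b')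
    have hsm : ∀ s b : κ, φ (toTw (s ^ 2 * b)) = s * φ (toTw b) := fun s b => by
      have hs : φ (s • toTw b) = s • φ (toTw b) := map_smul φ s (toTw b)
      exact hs
    exact hcon (AddMonoidHom.mk' (fun b : κ => φ (toTw b)) hadd) hsm)
  exact h

theorem eq_of_half (h2 : (2 : κ) = 0) {a b : κ} (h : ∀ c : κ →+ κ, IsHalf c → c a = c b) : a = b := by
  by_contra hab
  obtain ⟨c, hc, hc0⟩ := exists_half h2 (sub_ne_zero.2 hab)
  apply hc0
  rw [map_sub, h c hc, sub_self]

theorem IsHalf.smul {c : κ →+ κ} (hc : IsHalf c) (s : κ) :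
    IsHalf ((AddMonoidHom.mulLeft s).comp c) := by
  intro t a
  show s * c (t ^ 2 * a) = t * (s * c a)
  rw [hc]
  ring

theorem IsHalf.add {c c' : κ →+ κ} (hc : IsHalf c) (hc' : IsHalf c') : IsHalf (c + c') := by
  intro t a
  show c (t ^ 2 * a) + c' (t ^ 2 * a) = t * (c a + c' a)
  rw [hc, hc']
  ring

theorem IsHalf.hh {c : κ →+ κ} (hc : IsHalf c) (u v : Fin r → κ) :
    c (hh u v) = ∑ i, u i * c (v i) := by
  unfold CUB.hh
  rw [map_sum]
  refine Finset.sum_congr rfl fun i _ => ?_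
  rw [hc]

namespace CMap

variable {K : Type*} [AddCommGroup K] [Module κ K] {n : ℕ}

/-- the linear map `y ↦ c([y²|d])` -/
noncomputable def hs (Φ : CMap κ K (Fin r → κ)) (v : Module.Basis (Fin n) κ K) (c : κ →+ κ) (d : K) :
    K →ₗ[κ] (Fin r → κ) :=
  v.constr κ (fun a => fun i => c (Φ.d (v a) d i))

theorem hs_basis (Φ : CMap κ K (Fin r → κ)) (v : Module.Basis (Fin n) κ K) (c : κ →+ κ) (d : K)
    (a : Fin n) (i : Fin r) : Φ.hs v c d (v a) i = c (Φ.d (v a) d i) := by
  unfold hs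
  rw [Module.Basis.constr_basis]

theorem hs_apply {Φ : CMap κ K (Fin r → κ)} (v : Module.Basis (Fin n) κ K) {c : κ →+ κ} (hc : IsHalf c)
    (d : K) (y : Fin n → κ) (i : Fin r) :
    Φ.hs v c d (∑ a, y a • v a) i = c (Φ.br v (fun a => y a ^ 2) d i) := by
  rw [map_sum, Finset.sum_apply, br_apply, Finset.sum_apply, map_sum]
  refine Finset.sum_congr rfl fun a _ => ?_
  rw [map_smul, Pi.smul_apply, hs_basis, Pi.smul_apply, smul_eq_mul, smul_eq_mul, hc]

/-- the value on a vector `ρ` -/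
theorem hs_pair {Φ : CMap κ K (Fin r → κ)} (v : Module.Basis (Fin n) κ K) {c : κ →+ κ} (hc : IsHalf c)
    (d : K) (y : Fin n → κ) (ρ : Fin r → κ) :
    ∑ i, Φ.hs v c d (∑ a, y a • v a) i * ρ i = c (CUB.hh ρ (Φ.br v (fun a => y a ^ 2) d)) := by
  rw [hc.hh]
  refine Finset.sum_congr rfl fun i _ => ?_
  rw [hs_apply v hc, mul_comm]

theorem hs_pair_basis {Φ : CMap κ K (Fin r → κ)} (v : Module.Basis (Fin n) κ K) {c : κ →+ κ}
    (hc : IsHalf c) (d : K) (a : Fin n) (ρ : Fin r → κ) :
    ∑ i, Φ.hs v c d (v a) i * ρ i = c (CUB.hh ρ (Φ.d (v a) d)) := by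
  rw [hc.hh]
  refine Finset.sum_congr rfl fun i _ => ?_
  rw [hs_basis, mul_comm]

variable [Infinite κ]

/-- component syzygies -/
theorem hs_isSyz (h2 : (2 : κ) = 0) {Φ : CMap κ K (Fin r → κ)} (hΦ : Φ.Iso)
    (v : Module.Basis (Fin n) κ K) {c : κ →+ κ} (hc : IsHalf c) (d : K) : Φ.IsSyz (Φ.hs v c d) := by
  intro y
  have hy : y = ∑ a, v.repr y a • v a := (v.sum_repr y).symm
  rw [hy, hs_pair v hc, iso_S h2 hΦ, map_zero]

/-- (P1) implies (FR), at a basis vector -/
theorem FR_basis (h2 : (2 : κ) = 0) {Φ : CMap κ K (Fin r → κ)} (hΦ : Φ.Iso)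
    (v : Module.Basis (Fin n) κ K) (a : Fin n) (hP : P1 (Φ.f (v a))) : Φ.FR (v a) := by
  intro u hu
  -- the space of values
  let x := Φ.f (v a)
  let U : Submodule κ (Fin r → κ) :=
    { carrier := {u | ∃ c : κ →+ κ, IsHalf c ∧ ∀ i, u i = c (x i)}
      add_mem' := by
        rintro u u' ⟨c, hc, h⟩ ⟨c', hc', h'⟩
        exact ⟨c + c', hc.add hc', fun i => by rw [Pi.add_apply, h, h']; rfl⟩
      zero_mem' := ⟨0, fun s t => by simp, fun i => by simp⟩
      smul_mem' := by
        rintro s u ⟨c, hc, h⟩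
        exact ⟨_, hc.smul s, fun i => by rw [Pi.smul_apply, h]; rfl⟩ }
  have hU : u ∈ U := by
    by_contra hcon
    obtain ⟨φ, hφu, hφU⟩ := Submodule.exists_le_ker_of_notMem hcon
    -- the functional is the pairing with a vector
    have hφ : ∀ z, φ z = ∑ i, z i * φ (Pi.single i 1) := by
      intro z
      have hz : z = ∑ i, z i • (Pi.single i (1 : κ) : Fin r → κ) := by
        funext j
        rw [Finset.sum_apply, Finset.sum_eq_single j]
        · simp
        · intro b _ hb
          simp [Pi.single_eq_of_ne hb.symm]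
        · intro h
          exact absurd (Finset.mem_univ _) h
      conv_lhs => rw [hz]
      rw [map_sum]
      refine Finset.sum_congr rfl fun i _ => ?_
      rw [map_smul, smul_eq_mul]
    have hp : CUB.hh (fun i => φ (Pi.single i 1)) x = 0 := by
      refine eq_of_half h2 fun c hc => ?_
      rw [hc.hh, map_zero]
      have h1 : (fun i => c (x i)) ∈ U := ⟨c, hc, fun _ => rfl⟩
      have h3 : φ (fun i => c (x i)) = 0 := hφU h1
      rw [hφ] at h3
      rw [← h3]
      refine Finset.sum_congr rfl fun i _ => ?_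
      ring
    obtain ⟨s, hs⟩ := hP _ hp
    apply hφu
    rw [hφ]
    have e : ∀ i, φ (Pi.single i 1) = s * x i := fun i => congrFun hs i
    have e2 : ∑ i, u i * φ (Pi.single i 1) = s * ∑ i, u i * x i := by
      rw [Finset.mul_sum]
      refine Finset.sum_congr rfl fun i _ => ?_
      rw [e]
      ring
    rw [e2, hu, mul_zero]
  obtain ⟨c, hc, hcu⟩ := hU
  refine ⟨Φ.hs v c (v a), hs_isSyz h2 hΦ v hc _, ?_⟩
  funext i
  rw [hs_basis, hcu i, Φ.d_self]

/-- (P1) implies (FR) -/
theorem FR_of_P1 (h2 : (2 : κ) = 0) [Module.Finite κ K] {Φ : CMap κ K (Fin r → κ)} (hΦ : Φ.Iso)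
    {e0 : K} (hP : P1 (Φ.f e0)) (he0 : e0 ≠ 0) : Φ.FR e0 := by
  classical
  have hli : LinearIndepOn κ id ({e0} : Set K) := LinearIndepOn.singleton he0
  let b := Module.Basis.extend hli
  have hmem : e0 ∈ hli.extend (Set.subset_univ _) :=
    hli.subset_extend (Set.subset_univ _) (Set.mem_singleton _)
  have hfin : Finite (hli.extend (Set.subset_univ ({e0} : Set K))) := Module.Finite.finite_basis b
  let _ : Fintype (hli.extend (Set.subset_univ ({e0} : Set K))) := Fintype.ofFinite _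
  let b' := b.reindex (Fintype.equivFin _)
  have hb : b' (Fintype.equivFin _ ⟨e0, hmem⟩) = e0 := by
    rw [Module.Basis.reindex_apply, Equiv.symm_apply_apply]
    exact Module.Basis.extend_apply_self hli ⟨e0, hmem⟩
  have h := FR_basis h2 hΦ b' (Fintype.equivFin _ ⟨e0, hmem⟩) (by rw [hb]; exact hP)
  rwa [hb] at h

end CMap

end MP2619.CUB
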