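import Pool.Agent.Lib.MP_2619d0_ag.CUB.Red0

/-!
Cubic families: factors of homogeneous polynomials, common factors.
-/

set_option autoImplicit false

namespace MP2619.CUB

open MvPolynomial

section hom

variable {σ R : Type*} [CommRing R]

/-- the substitution `X i ↦ t X i` -/
noncomputable def facT : MvPolynomial σ R →ₐ[R] Polynomial (MvPolynomial σ R) :=
  aeval (fun i => Polynomial.C (X i) * Polynomial.X)

theorem facT_monomial (m : σ →₀ ℕ) (c : R) :
    facT (monomial m c) = Polynomial.C (monomial m c) * Polynomial.X ^ m.degree := by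
  unfold facT
  rw [aeval_monomial, Finsupp.prod]
  simp_rw [mul_pow]
  rw [Finset.prod_mul_distrib, Finset.prod_pow_eq_pow_sum, ← mul_assoc, ← Finsupp.degree_apply]
  congr 1
  rw [monomial_eq, Finsupp.prod, map_mul, map_prod]
  simp_rw [map_pow]
  rfl

theorem facT_coeff (f : MvPolynomial σ R) (k : ℕ) : ((facT f).coeff k).IsHomogeneous k := by
  rw [f.as_sum, map_sum, Polynomial.finsetSum_coeff]
  refine IsHomogeneous.sum _ _ _ fun m _ => ?_
  rw [facT_monomial, Polynomial.coeff_C_mul, Polynomial.coeff_X_pow]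
  split_ifs with h
  · rw [mul_one]
    exact isHomogeneous_monomial _ h.symm
  · rw [mul_zero]
    exact isHomogeneous_zero _ _ _

theorem facT_hom (f : MvPolynomial σ R) (n : ℕ) (h : f.IsHomogeneous n) :
    facT f = Polynomial.C f * Polynomial.X ^ n := by
  conv_rhs => rw [f.as_sum, map_sum, Finset.sum_mul]
  conv_lhs => rw [f.as_sum, map_sum]
  refine Finset.sum_congr rfl fun m hm => ?_
  rw [facT_monomial]
  have h1 : m.degree = n := by
    have := h (mem_support_iff.1 hm)
    rw [Finsupp.degree_eq_weight_one]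
    exact this
  rw [h1]

theorem facT_eval (f : MvPolynomial σ R) : (facT f).eval 1 = f := by
  conv_lhs => rw [f.as_sum, map_sum, Polynomial.eval_finsetSum]
  conv_rhs => rw [f.as_sum]
  refine Finset.sum_congr rfl fun m _ => ?_
  rw [facT_monomial]
  simp

theorem facT_of_eq (f : MvPolynomial σ R) (a : ℕ)
    (h1 : (facT f).natDegree = a) (h2 : (facT f).natTrailingDegree = a) :
    f.IsHomogeneous a := by
  have h3 : facT f = Polynomial.monomial a ((facT f).coeff a) := by
    ext1 k
    rw [Polynomial.coeff_monomial]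
    split_ifs with h
    · rw [h]
    · rcases lt_or_gt_of_ne h with h | h
      · exact Polynomial.coeff_eq_zero_of_natDegree_lt (by omega)
      · exact Polynomial.coeff_eq_zero_of_lt_natTrailingDegree (by omega)
  have h4 : f = (facT f).coeff a := by
    conv_lhs => rw [← facT_eval f, h3]
    simp
  rw [h4]
  exact facT_coeff f a

/-- Factors of a nonzero homogeneous polynomial are homogeneous. -/
theorem homog_of_mul [IsDomain R] (f g : MvPolynomial σ R) (n : ℕ)
    (h : (f * g).IsHomogeneous n) (hne : f * g ≠ 0) :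
    ∃ a b, a + b = n ∧ f.IsHomogeneous a ∧ g.IsHomogeneous b := by
  have h1 : facT f * facT g = Polynomial.C (f * g) * Polynomial.X ^ n := by
    rw [← map_mul, facT_hom _ n h]
  have hC : (Polynomial.C (f * g)) * Polynomial.X ^ n ≠ (0 : Polynomial (MvPolynomial σ R)) := by
    rw [Ne, mul_eq_zero, not_or]
    exact ⟨Polynomial.C_ne_zero.2 hne, pow_ne_zero _ Polynomial.X_ne_zero⟩
  have hf0 : facT f ≠ 0 := by
    intro h0
    rw [h0, zero_mul] at h1
    exact hC h1.symm
  have hg0 : facT g ≠ 0 := by
    intro h0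
    rw [h0, mul_zero] at h1
    exact hC h1.symm
  have h2 : (facT f).natDegree + (facT g).natDegree = n := by
    rw [← Polynomial.natDegree_mul hf0 hg0, h1,
      Polynomial.natDegree_C_mul_X_pow _ _ hne]
  have h3 : (facT f).natTrailingDegree + (facT g).natTrailingDegree = n := by
    rw [← Polynomial.natTrailingDegree_mul hf0 hg0, h1, Polynomial.natTrailingDegree_mul_X_pow
      (Polynomial.C_ne_zero.2 hne), Polynomial.natTrailingDegree_C, zero_add]
  have h4 := Polynomial.natTrailingDegree_le_natDegree (facT f)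
  have h5 := Polynomial.natTrailingDegree_le_natDegree (facT g)
  refine ⟨(facT f).natDegree, (facT g).natDegree, h2, facT_of_eq f _ rfl (by omega),
    facT_of_eq g _ rfl (by omega)⟩

end hom

/-- Cubic forms with a common factor come from quadratic forms. -/
theorem not_cop {K : Type*} [Field K] {N n : ℕ} (φ : Fin N → MvPolynomial (Fin (n + 1)) K)
    (hφ : ∀ j, (φ j).IsHomogeneous 3) (hne : ∃ j, φ j ≠ 0) (h : ¬ Cop φ) :
    ∃ (a : ℕ) (g : MvPolynomial (Fin (n + 1)) K) (ψ : Fin N → MvPolynomial (Fin (n + 1)) K) (b : ℕ),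
      g ≠ 0 ∧ g.IsHomogeneous b ∧ (∀ j, (ψ j).IsHomogeneous 2) ∧ ∀ j, X 0 ^ a * φ j = g * ψ j := by
  classical
  unfold Cop at h
  push Not at h
  obtain ⟨g, hg, hgu⟩ := h
  choose φ' hφ' using hg
  obtain ⟨j0, hj0⟩ := hne
  have hg0 : g ≠ 0 := by
    intro h0
    apply hj0
    rw [hφ' j0, h0, zero_mul]
  obtain ⟨b, c, hbc, hb, -⟩ := homog_of_mul g (φ' j0) 3 (by rw [← hφ']; exact hφ j0)
    (by rw [← hφ']; exact hj0)
  have hb1 : 1 ≤ b := by
    by_contra hlt
    have hb0 : b = 0 := by omega
    apply hgu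
    rw [hb0] at hb
    have h1 : g = C (coeff 0 g) :=
      totalDegree_eq_zero_iff_eq_C.1 ((totalDegree_zero_iff_isHomogeneous _).2 hb)
    have h2 : coeff 0 g ≠ 0 := by
      intro h3
      apply hg0
      rw [h1, h3, C_0]
    rw [h1]
    exact (isUnit_iff_ne_zero.2 h2).map C
  have hφ'h : ∀ j, (φ' j).IsHomogeneous (3 - b) := by
    intro j
    by_cases hj : φ j = 0
    · have h1 : φ' j = 0 := by
        have h2 := hφ' j
        rw [hj] at h2
        exact (mul_eq_zero.1 h2.symm).resolve_left hg0
      rw [h1]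
      exact isHomogeneous_zero _ _ _
    · obtain ⟨b', c', hbc', hb', hc'⟩ := homog_of_mul g (φ' j) 3 (by rw [← hφ']; exact hφ j)
        (by rw [← hφ']; exact hj)
      have h1 : b' = b := hb'.inj_right hb hg0
      have h2 : c' = 3 - b := by omega
      rw [← h2]
      exact hc'
  refine ⟨b - 1, g, fun j => X 0 ^ (b - 1) * φ' j, b, hg0, hb, ?_, ?_⟩
  · intro j
    have h1 := ((isHomogeneous_X K (0 : Fin (n + 1))).pow (b - 1)).mul (hφ'h j)
    have h2 : 1 * (b - 1) + (3 - b) = 2 := by omega
    rw [h2] at h1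
    exact h1
  · intro j
    conv_lhs => rw [hφ' j]
    ring

end MP2619.CUB
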