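import Pool.Agent.Lib.MP_2619d0_ag.CUB.H0

/-!
T1 (linear, polar and diagonal form), the functionals `f(w)`.
-/

set_option autoImplicit false

namespace MP2619.CUB

open Finset CMap Module

variable {κ K : Type*} [Field κ] [AddCommGroup K] [Module κ K] {r : ℕ}

theorem sum_sum_symm (h2 : (2 : κ) = 0) {ι : Type*} [Fintype ι] (B : ι → ι → κ)
    (hB : ∀ i j, B i j = B j i) : ∑ i, ∑ j, B i j = ∑ i, B i i := by
  classical
  have h1 : ∑ i, ∑ j, B i j = ∑ p : ι × ι, B p.1 p.2 := by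
    rw [Fintype.sum_prod_type]
  have h3 : (∑ p : ι × ι, B p.1 p.2) =
      ∑ p ∈ (Finset.univ : Finset ι).diag, B p.1 p.2 + ∑ p ∈ (Finset.univ : Finset ι).offDiag, B p.1 p.2 := by
    rw [← Finset.sum_union (Finset.disjoint_diag_offDiag _), Finset.diag_union_offDiag]
    rfl
  have h4 : ∑ p ∈ (Finset.univ : Finset ι).offDiag, B p.1 p.2 = 0 := by
    refine Finset.sum_involution (fun p _ => p.swap) ?_ ?_ ?_ ?_
    · rintro ⟨i, j⟩ _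
      simp only [Prod.swap_prod_mk]
      rw [hB j i]
      linear_combination (B i j) * h2
    · rintro ⟨i, j⟩ hp _ he
      simp only [Prod.swap_prod_mk, Prod.mk.injEq] at he
      exact (Finset.mem_offDiag.1 hp).2.2 he.2
    · rintro ⟨i, j⟩ hp
      simp only [Finset.mem_offDiag, Finset.mem_univ, true_and, Prod.swap_prod_mk] at hp ⊢
      exact fun h => hp h.symm
    · rintro ⟨i, j⟩ _
      rfl
  have h5 : ∑ p ∈ (Finset.univ : Finset ι).diag, B p.1 p.2 = ∑ i, B i i := by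
    rw [Finset.sum_diag]
  rw [h1, h3, h4, h5, add_zero]

theorem neg_eq_self2 (h2 : (2 : κ) = 0) (a : κ) : -a = a := by
  linear_combination (-a) * h2

theorem dot_sum_smul {ι : Type*} [Fintype ι] (a : Fin r → κ) (w : ι → κ) (u : ι → Fin r → κ) :
    a ⬝ᵥ (∑ i, w i • u i) = ∑ i, w i * (a ⬝ᵥ u i) := by
  rw [dotProduct_sum]
  refine Finset.sum_congr rfl fun i _ => ?_
  rw [dotProduct_smul, smul_eq_mul]

variable [Infinite κ]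

/-- T1, linear part (file HT) -/
theorem T1_lin (h2 : (2 : κ) = 0) {Φ : CMap κ K (Fin r → κ)} (hΦ : Φ.Iso) (e0 : K)
    (g0 : K →ₗ[κ] (Fin r → κ)) (hg0 : Φ.IsSyz g0) (hge : g0 e0 = sqv (Φ.f e0))
    {ι : Type*} [Fintype ι] (v : ι → K) (hv : ∀ i, ∀ ρ ∈ Φ.R, g0 (v i) ⬝ᵥ ρ = 0)
    {w : ι → κ} {b : K} {τ : Fin r → κ} (h : Φ.br v w e0 = Φ.d e0 b + τ) (c : K) :
    g0 c ⬝ᵥ Φ.d e0 b + g0 c ⬝ᵥ τ = ∑ i, w i * hh (Φ.d e0 (v i)) (Φ.d e0 c) := by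
  rw [← dotProduct_add, ← h, br_apply, dot_sum_smul]
  refine Finset.sum_congr rfl fun i _ => ?_
  congr 1
  have h3 := syz_G3 g0 hg0 (v i) c e0
  rw [hv i _ (Φ.t_mem_R _ _ _), hge, sqv_dot, zero_add] at h3
  have h4 := (iso_dcoef h2 hΦ e0 (v i) c).2.1
  linear_combination h3 - h4

theorem hh_NR {Φ : CMap κ K (Fin r → κ)} (h2 : (2 : κ) = 0) (hΦ : Φ.Iso) (y c : K) {τ : Fin r → κ}
    (hτ : τ ∈ Φ.R) : hh (Φ.d y c) τ = 0 := iso_NR h2 hΦ (Φ.d_mem _ _) hτ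

/-- `H(w, b) = ∑ w_i w'_j h(β_i, γ_j)` -/
theorem H_expand (h2 : (2 : κ) = 0) {Φ : CMap κ K (Fin r → κ)} (hΦ : Φ.Iso) (e0 : K)
    {ι : Type*} [Fintype ι] (v : ι → K) (w : ι → κ) {w' : ι → κ} {b' : K} {τ' : Fin r → κ}
    (hτ' : τ' ∈ Φ.R) (h' : Φ.br v w' e0 = Φ.d e0 b' + τ') :
    ∑ i, w i * hh (Φ.d e0 (v i)) (Φ.d e0 b') =
      ∑ i, ∑ j, w i * w' j * hh (Φ.d e0 (v i)) (Φ.d (v j) e0) := by
  refine Finset.sum_congr rfl fun i _ => ?_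
  have e : hh (Φ.d e0 (v i)) (Φ.d e0 b') = hh (Φ.d e0 (v i)) (Φ.br v w' e0) := by
    rw [h', hh_add_right, hh_NR h2 hΦ _ _ hτ', add_zero]
  rw [e, br_apply, hh_sum_right, Finset.mul_sum]
  refine Finset.sum_congr rfl fun j _ => ?_
  rw [hh_smul_right]
  ring

theorem A_symm (h2 : (2 : κ) = 0) {Φ : CMap κ K (Fin r → κ)} (hΦ : Φ.Iso) (e0 : K)
    (g0 : K →ₗ[κ] (Fin r → κ)) (hg0 : Φ.IsSyz g0) (hge : g0 e0 = sqv (Φ.f e0)) (b b' : K) :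
    g0 b ⬝ᵥ Φ.d e0 b' + g0 b' ⬝ᵥ Φ.d e0 b = 0 := by
  have h3 := syz_G3 g0 hg0 e0 b b'
  rw [hge, sqv_dot, iso_ft h2 hΦ, zero_add] at h3
  exact h3

/-- T1, polar form (file HT) -/
theorem T1_polar (h2 : (2 : κ) = 0) {Φ : CMap κ K (Fin r → κ)} (hΦ : Φ.Iso) (e0 : K)
    (g0 : K →ₗ[κ] (Fin r → κ)) (hg0 : Φ.IsSyz g0) (hge : g0 e0 = sqv (Φ.f e0))
    {ι : Type*} [Fintype ι] (v : ι → K) (hv : ∀ i, ∀ ρ ∈ Φ.R, g0 (v i) ⬝ᵥ ρ = 0)
    {w w' : ι → κ} {b b' : K} {τ τ' : Fin r → κ} (hτ : τ ∈ Φ.R) (hτ' : τ' ∈ Φ.R)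
    (h : Φ.br v w e0 = Φ.d e0 b + τ) (h' : Φ.br v w' e0 = Φ.d e0 b' + τ') :
    g0 b ⬝ᵥ τ' + g0 b' ⬝ᵥ τ = ∑ i, ∑ j, w i * w' j * hh (Φ.t e0 (v i) (v j)) (Φ.f e0) := by
  have e1 := T1_lin h2 hΦ e0 g0 hg0 hge v hv h b'
  have e2 := T1_lin h2 hΦ e0 g0 hg0 hge v hv h' b
  rw [H_expand h2 hΦ e0 v w hτ' h'] at e1
  rw [H_expand h2 hΦ e0 v w' hτ h] at e2
  have e3 := A_symm h2 hΦ e0 g0 hg0 hge b b'
  have e4 : ∑ i, ∑ j, w' i * w j * hh (Φ.d e0 (v i)) (Φ.d (v j) e0) =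
      ∑ i, ∑ j, w i * w' j * hh (Φ.d e0 (v j)) (Φ.d (v i) e0) := by
    rw [Finset.sum_comm]
    refine Finset.sum_congr rfl fun i _ => Finset.sum_congr rfl fun j _ => ?_
    ring
  rw [e4] at e2
  have e5 : ∑ i, ∑ j, w i * w' j * hh (Φ.t e0 (v i) (v j)) (Φ.f e0) =
      -(∑ i, ∑ j, w i * w' j * hh (Φ.d e0 (v i)) (Φ.d (v j) e0) +
        ∑ i, ∑ j, w i * w' j * hh (Φ.d e0 (v j)) (Φ.d (v i) e0)) := by
    rw [← Finset.sum_add_distrib, ← Finset.sum_neg_distrib]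
    refine Finset.sum_congr rfl fun i _ => ?_
    rw [← Finset.sum_add_distrib, ← Finset.sum_neg_distrib]
    refine Finset.sum_congr rfl fun j _ => ?_
    have h1 := iso_I1 h2 hΦ e0 (v i) (v j) e0
    rw [Φ.d_self] at h1
    linear_combination (w i * w' j) * h1
  rw [e5, neg_eq_self2 h2]
  linear_combination e1 + e2 - e3

/-- T1, diagonal form in the isotropic case (file HT) -/
theorem T1_diag (h2 : (2 : κ) = 0) {Φ : CMap κ K (Fin r → κ)} (hΦ : Φ.Iso) (e0 : K)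
    (g0 : K →ₗ[κ] (Fin r → κ)) (hg0 : Φ.IsSyz g0) (hge : g0 e0 = sqv (Φ.f e0))
    {ι : Type*} [Fintype ι] (v : ι → K) (hv : ∀ i, ∀ ρ ∈ Φ.R, g0 (v i) ⬝ᵥ ρ = 0)
    (ht : ∀ i j, Φ.t e0 (v i) (v j) = 0)
    {w : ι → κ} {b : K} {τ : Fin r → κ} (hτ : τ ∈ Φ.R) (h : Φ.br v w e0 = Φ.d e0 b + τ) :
    g0 b ⬝ᵥ τ = hh τ (Φ.f e0) := by
  have e1 := T1_lin h2 hΦ e0 g0 hg0 hge v hv h b
  rw [H_expand h2 hΦ e0 v w hτ h] at e1
  rw [sum_sum_symm h2 (fun i j => w i * w j * hh (Φ.d e0 (v i)) (Φ.d (v j) e0))] at e1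
  · have e2 : ∑ i, w i * w i * hh (Φ.d e0 (v i)) (Φ.d (v i) e0) = hh (Φ.br v w e0) (Φ.f e0) := by
      rw [br_apply, hh_sum_left h2]
      refine Finset.sum_congr rfl fun i _ => ?_
      rw [hh_smul_left]
      have h4 := (iso_coef h2 hΦ e0 (v i)).2.2.2
      linear_combination (w i * w i) * h4 - (w i ^ 2 * hh (Φ.d (v i) e0) (Φ.f e0)) * h2
    rw [e2, h, hh_add_left h2] at e1
    have h5 := syz_G2 g0 hg0 e0 b
    rw [hge, sqv_dot] at h5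
    have h6 := (iso_coef h2 hΦ e0 b).2.1
    linear_combination e1 - h5 + h6
  · intro i j
    have h1 := iso_I1 h2 hΦ e0 (v i) (v j) e0
    rw [ht, hh_zero_left, add_zero] at h1
    linear_combination (w i * w j) * h1 - (w i * w j * hh (Φ.d e0 (v j)) (Φ.d (v i) e0)) * h2

/-- `f(w) = ∑ w_i β_{v_i}^{(2)}` (file HT): values on `[w'|e0]` and on `β_c` -/
theorem fw_br (h2 : (2 : κ) = 0) {Φ : CMap κ K (Fin r → κ)} (hΦ : Φ.Iso) (e0 : K)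
    {ι : Type*} [Fintype ι] (v : ι → K) (w w' : ι → κ) (hw : Φ.br v w e0 ∈ Φ.R) :
    (∑ i, w i • sqv (Φ.d e0 (v i))) ⬝ᵥ Φ.br v w' e0 =
      ∑ i, ∑ j, w i * w' j * hh (Φ.t e0 (v i) (v j)) (Φ.f e0) := by
  have e1 : (∑ i, w i • sqv (Φ.d e0 (v i))) ⬝ᵥ Φ.br v w' e0 =
      ∑ i, ∑ j, w i * w' j * hh (Φ.d e0 (v i)) (Φ.d (v j) e0) := by
    rw [sum_dotProduct]
    refine Finset.sum_congr rfl fun i _ => ?_
    rw [smul_dotProduct, sqv_dot, br_apply, hh_sum_right, smul_eq_mul, Finset.mul_sum]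
    refine Finset.sum_congr rfl fun j _ => ?_
    rw [hh_smul_right]
    ring
  have e2 : ∑ i, ∑ j, w i * w' j * hh (Φ.d e0 (v j)) (Φ.d (v i) e0) = 0 := by
    rw [Finset.sum_comm]
    refine Finset.sum_eq_zero fun j _ => ?_
    have : ∑ i, w i * w' j * hh (Φ.d e0 (v j)) (Φ.d (v i) e0) =
        w' j * hh (Φ.d e0 (v j)) (Φ.br v w e0) := by
      rw [br_apply, hh_sum_right, Finset.mul_sum]
      refine Finset.sum_congr rfl fun i _ => ?_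
      rw [hh_smul_right]
      ring
    rw [this, hh_NR h2 hΦ _ _ hw, mul_zero]
  rw [e1]
  have e3 : ∑ i, ∑ j, w i * w' j * hh (Φ.d e0 (v i)) (Φ.d (v j) e0) =
      ∑ i, ∑ j, w i * w' j * hh (Φ.t e0 (v i) (v j)) (Φ.f e0) +
        ∑ i, ∑ j, w i * w' j * hh (Φ.d e0 (v j)) (Φ.d (v i) e0) := by
    rw [← Finset.sum_add_distrib]
    refine Finset.sum_congr rfl fun i _ => ?_
    rw [← Finset.sum_add_distrib]
    refine Finset.sum_congr rfl fun j _ => ?_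
    have h1 := iso_I1 h2 hΦ e0 (v i) (v j) e0
    rw [Φ.d_self] at h1
    linear_combination (w i * w' j) * h1 - (w i * w' j * (hh (Φ.t e0 (v i) (v j)) (Φ.f e0) +
      hh (Φ.d e0 (v j)) (Φ.d (v i) e0))) * h2
  rw [e3, e2, add_zero]

end MP2619.CUB
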