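import Pool.Agent.Lib.MP_2619d0_ag.CUB.H0

/-!
Squares of independent vectors are independent; `ν + dim R ≤ r`.
-/

set_option autoImplicit false

namespace MP2619.CUB

open Finset CMap Module

variable {κ K : Type*} [Field κ] [AddCommGroup K] [Module κ K] {r : ℕ}

theorem HT2_exists_dual {ι : Type*} [Fintype ι] [DecidableEq ι] {u : ι → Fin r → κ}
    (hu : LinearIndependent κ u) :
    ∃ B : ι → Fin r → κ, ∀ i j, u i ⬝ᵥ B j = if i = j then 1 else 0 := by
  have hinj : LinearMap.ker (Fintype.linearCombination κ u) = ⊥ := by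
    rw [LinearMap.ker_eq_bot']
    intro c hc
    rw [Fintype.linearCombination_apply] at hc
    funext i
    exact Fintype.linearIndependent_iff.1 hu c hc i
  obtain ⟨g, hg⟩ := LinearMap.exists_leftInverse_of_injective _ hinj
  refine ⟨fun j k => g (Pi.single k 1) j, ?_⟩
  intro i j
  have h1 : g (u i) = Pi.single i 1 := by
    have h := LinearMap.congr_fun hg (Pi.single i 1)
    rw [LinearMap.comp_apply, Fintype.linearCombination_apply_single, one_smul] at h
    exact h
  have h2 : g (u i) j = ∑ k, u i k * g (Pi.single k 1) j := by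
    have e : u i = ∑ k, u i k • (Pi.single k (1 : κ) : Fin r → κ) := by
      funext l
      rw [Finset.sum_apply]
      simp [Pi.single_apply]
    conv_lhs => rw [e, map_sum, Finset.sum_apply]
    refine Finset.sum_congr rfl fun k _ => ?_
    rw [map_smul, Pi.smul_apply, smul_eq_mul]
  have h3 : u i ⬝ᵥ (fun k => g (Pi.single k 1) j) = g (u i) j := by
    rw [h2]
    rfl
  rw [h3, h1, Pi.single_apply]
  by_cases hij : i = j
  · subst hij
    simp
  · rw [if_neg hij, if_neg (fun h => hij h.symm)]

theorem HT2_sq_sum (h2 : (2 : κ) = 0) {ι : Type*} (s : Finset ι) (a : ι → κ) :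
    (∑ i ∈ s, a i) ^ 2 = ∑ i ∈ s, a i ^ 2 := by
  classical
  induction s using Finset.induction_on with
  | empty => simp
  | insert i s hi ih => rw [Finset.sum_insert hi, Finset.sum_insert hi, sq_add h2, ih]

/-- squares of independent vectors are independent (file HT) -/
theorem sqv_indep (h2 : (2 : κ) = 0) {ι : Type*} [Fintype ι] {u : ι → Fin r → κ}
    (hu : LinearIndependent κ u) : LinearIndependent κ (fun i => sqv (u i)) := by
  classical
  obtain ⟨B, hB⟩ := HT2_exists_dual hu
  rw [Fintype.linearIndependent_iff]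
  intro c hc j
  have hdot : ∀ i, sqv (u i) ⬝ᵥ sqv (B j) = if i = j then 1 else 0 := by
    intro i
    have h : (u i ⬝ᵥ B j) ^ 2 = sqv (u i) ⬝ᵥ sqv (B j) := by
      unfold dotProduct sqv
      rw [HT2_sq_sum h2]
      refine Finset.sum_congr rfl fun k _ => ?_
      ring
    rw [← h, hB]
    by_cases hij : i = j
    · simp [hij]
    · simp [hij]
  have h := congrArg (fun x => x ⬝ᵥ sqv (B j)) hc
  simp only [sum_dotProduct, smul_dotProduct, zero_dotProduct, smul_eq_mul] at h
  rw [Finset.sum_congr rfl (fun i _ => by rw [hdot i])] at h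
  simpa using h

/-- `ν + dim R ≤ r` (file HT) -/
theorem N_add_R_le [Infinite κ] (h2 : (2 : κ) = 0) {Φ : CMap κ K (Fin r → κ)} (hΦ : Φ.Iso) :
    finrank κ Φ.N + finrank κ Φ.R ≤ r := by
  classical
  set b := finBasis κ Φ.N with hb
  have hu : LinearIndependent κ (fun i => ((b i : Φ.N) : Fin r → κ)) :=
    b.linearIndependent.map' Φ.N.subtype (Submodule.ker_subtype _)
  have hs := sqv_indep h2 hu
  obtain ⟨B, hB⟩ := HT2_exists_dual hs
  let T : (Fin r → κ) →ₗ[κ] (Fin (finrank κ Φ.N) → κ) :=
    LinearMap.pi fun i => hr ((b i : Φ.N) : Fin r → κ)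
  have hT : Function.Surjective T := by
    intro c
    refine ⟨∑ j, c j • B j, ?_⟩
    funext i
    rw [map_sum, Finset.sum_apply]
    have : ∀ j, (T (c j • B j)) i = if i = j then c j else 0 := by
      intro j
      have e : (T (B j)) i = if i = j then 1 else 0 := hB i j
      rw [map_smul, Pi.smul_apply, e]
      by_cases hij : i = j
      · simp [hij]
      · simp [hij]
    rw [Finset.sum_congr rfl (fun j _ => this j)]
    simp
  have hker : Φ.R ≤ LinearMap.ker T := by
    intro v hv
    rw [LinearMap.mem_ker]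
    funext i
    exact iso_NR h2 hΦ (b i).2 hv
  have h1 := LinearMap.finrank_range_add_finrank_ker T
  rw [LinearMap.range_eq_top.2 hT, finrank_top, finrank_fin_fun, finrank_fin_fun] at h1
  have h3 := Submodule.finrank_mono hker
  omega

end MP2619.CUB
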