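import Pool.Agent.Lib.MP_2619d0_ag.CUB.H0
import Pool.Agent.Lib.MP_2619d0_ag.CUB.HT1
import Pool.Agent.Lib.MP_2619d0_ag.CUB.HT2

/-!
The count for `R₁ ≠ 0` (file H2).
-/

set_option autoImplicit false

namespace MP2619.CUB

open Finset CMap Module

variable {κ K : Type*} [Field κ] [AddCommGroup K] [Module κ K] {r : ℕ}

/-- the map `(w,b,τ) ↦ [w|e0] - β_b - τ` -/
noncomputable def H2_L {ι : Type*} [Fintype ι] (Φ : CMap κ K (Fin r → κ)) (e0 : K) (v : ι → K) :
    ((ι → κ) × K × Φ.R) →ₗ[κ] (Fin r → κ) :=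
  ((Φ.br v).flip e0) ∘ₗ LinearMap.fst κ (ι → κ) (K × Φ.R) -
    (Φ.d e0) ∘ₗ LinearMap.fst κ K Φ.R ∘ₗ LinearMap.snd κ (ι → κ) (K × Φ.R) -
      Φ.R.subtype ∘ₗ LinearMap.snd κ K Φ.R ∘ₗ LinearMap.snd κ (ι → κ) (K × Φ.R)

theorem H2_L_apply {ι : Type*} [Fintype ι] (Φ : CMap κ K (Fin r → κ)) (e0 : K) (v : ι → K)
    (p : (ι → κ) × K × Φ.R) :
    H2_L Φ e0 v p = Φ.br v p.1 e0 - Φ.d e0 p.2.1 - p.2.2 := rfl

/-- rank-nullity on a submodule -/
theorem H2_rn {V W : Type*} [AddCommGroup V] [Module κ V] [FiniteDimensional κ V] [AddCommGroup W]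
    [Module κ W] (A : Submodule κ V) (f : V →ₗ[κ] W) :
    finrank κ A = finrank κ (A.map f) + finrank κ (A ⊓ LinearMap.ker f : Submodule κ V) := by
  have h1 := LinearMap.finrank_range_add_finrank_ker (f ∘ₗ A.subtype)
  have h2 : LinearMap.range (f ∘ₗ A.subtype) = A.map f := by
    rw [LinearMap.range_comp, Submodule.range_subtype]
  have h3 : Submodule.map A.subtype (LinearMap.ker (f ∘ₗ A.subtype)) = A ⊓ LinearMap.ker f := by
    ext x
    constructor
    · rintro ⟨p, hp, rfl⟩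
      exact ⟨p.2, hp⟩
    · rintro ⟨hx, hx'⟩
      exact ⟨⟨x, hx⟩, hx', rfl⟩
  rw [h2] at h1
  rw [← h3, Submodule.finrank_map_subtype_eq]
  exact h1.symm

/-- duality: an injective family of functionals killing `Q` -/
theorem H2_dual {M V : Type*} [AddCommGroup M] [Module κ M] [AddCommGroup V]
    [Module κ V] [FiniteDimensional κ V] (F : M →ₗ[κ] Module.Dual κ V)
    (hF : Function.Injective F) (Q : Submodule κ V) (h : ∀ m, ∀ u ∈ Q, F m u = 0) :
    finrank κ M + finrank κ Q ≤ finrank κ V := by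
  have h1 := Subspace.finrank_add_finrank_dualAnnihilator_eq Q
  have h2 : finrank κ (LinearMap.range F) = finrank κ M := LinearMap.finrank_range_of_inj hF
  have h3 : LinearMap.range F ≤ Q.dualAnnihilator := by
    rintro _ ⟨m, rfl⟩
    rw [Submodule.mem_dualAnnihilator]
    exact fun u hu => h m u hu
  have h4 := Submodule.finrank_mono h3
  omega

/-- functionals killing `Q`: dimension of the image -/
theorem H2_dual' {V : Type*} [AddCommGroup V]
    [Module κ V] [FiniteDimensional κ V] (P : Submodule κ (Module.Dual κ V))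
    (Q : Submodule κ V) (h : ∀ m ∈ P, ∀ u ∈ Q, m u = 0) :
    finrank κ P + finrank κ Q ≤ finrank κ V :=
  H2_dual (M := P) P.subtype P.injective_subtype Q fun m u hu => h (m : Module.Dual κ V) m.2 u hu

/-- count for `R₁ ≠ 0` (file H2) -/
theorem count2 [Infinite κ] [FiniteDimensional κ K] (h2 : (2 : κ) = 0)
    {Φ : CMap κ K (Fin r → κ)} (hΦ : Φ.Iso) (e0 : K) (g0 : K →ₗ[κ] (Fin r → κ)) (hg0 : Φ.IsSyz g0)
    (hge : g0 e0 = sqv (Φ.f e0)) (hinj : Function.Injective (Φ.d e0))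
    (hX : ∀ b, hh (Φ.d e0 b) (Φ.f e0) = 0 → b ∈ Submodule.span κ {e0})
    (S : Submodule κ K) (R1 : Submodule κ (Fin r → κ)) (hP : LRPair Φ e0 g0 S R1)
    {k : ℕ} (v : Basis (Fin k) κ S)
    (hLR : ∀ (w : Fin k → κ) (b : K) (ρ : Fin r → κ), b ∈ S → ρ ∈ R1 →
      Φ.br (fun i => (v i : K)) w e0 + ρ = Φ.d e0 b → (∀ ρ' ∈ R1, hh ρ' (Φ.d e0 b) = 0) → b = 0) :
    3 * finrank κ K + 2 * finrank κ R1 ≤ 2 * r := by
  classical
  have hk : finrank κ S = k := by rw [Module.finrank_eq_card_basis v, Fintype.card_fin]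
  have hcod := hP.codim
  rw [hk] at hcod
  have hNR := N_add_R_le h2 hΦ
  -- the degenerate case
  by_cases hxR : Φ.f e0 ∈ Φ.R
  · have h1 : ∀ b : K, b ∈ Submodule.span κ {e0} := by
      intro b
      refine hX b ?_
      exact iso_NR h2 hΦ (Φ.d_mem e0 b) hxR
    have hR : Φ.R = ⊥ := by
      rw [eq_bot_iff]
      unfold CMap.R
      rw [Submodule.span_le]
      rintro _ ⟨a, b, c, rfl⟩
      obtain ⟨s, rfl⟩ := Submodule.mem_span_singleton.1 (h1 a)
      obtain ⟨t, rfl⟩ := Submodule.mem_span_singleton.1 (h1 b)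
      simp [Φ.t_self h2]
    have hx0 : Φ.f e0 = 0 := by
      rw [hR] at hxR
      exact (Submodule.mem_bot κ).1 hxR
    have he0 : e0 = 0 := by
      apply hinj
      rw [map_zero, Φ.d_self, hx0]
    have hK : finrank κ K = 0 := by
      have h8 : (⊤ : Submodule κ K) ≤ ⊥ := by
        intro b _
        have := h1 b
        rw [he0, Submodule.span_zero_singleton] at this
        exact this
      have h9 := Submodule.finrank_mono h8
      rw [finrank_top, finrank_bot] at h9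
      omega
    have hR1 : finrank κ R1 = 0 := by
      have h9 := Submodule.finrank_mono hP.R_le
      rw [hR, finrank_bot] at h9
      omega
    omega
  set vv : Fin k → K := fun i => (v i : K) with hvv
  have hvS : ∀ i, vv i ∈ S := fun i => (v i).2
  have hv0 : ∀ i, ∀ ρ ∈ Φ.R, g0 (vv i) ⬝ᵥ ρ = 0 := fun i ρ hρ => hP.g0_S _ (hvS i) ρ hρ
  set L := H2_L Φ e0 vv with hL
  set KK : Submodule κ ((Fin k → κ) × K × Φ.R) := LinearMap.ker L with hKK
  have hrn := LinearMap.finrank_range_add_finrank_ker L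
  rw [Module.finrank_prod, Module.finrank_prod, Module.finrank_fin_fun, ← hKK] at hrn
  have hmem : ∀ p : (Fin k → κ) × K × Φ.R, p ∈ KK → Φ.br vv p.1 e0 = Φ.d e0 p.2.1 + p.2.2 := by
    intro p hp
    rw [hKK, LinearMap.mem_ker, hL, H2_L_apply, sub_sub, sub_eq_zero] at hp
    exact hp
  have hmem' : ∀ p : (Fin k → κ) × K × Φ.R, Φ.br vv p.1 e0 = Φ.d e0 p.2.1 + p.2.2 → p ∈ KK := by
    intro p hp
    rw [hKK, LinearMap.mem_ker, hL, H2_L_apply, sub_sub, sub_eq_zero]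
    exact hp
  -- projections
  let pw : ((Fin k → κ) × K × Φ.R) →ₗ[κ] (Fin k → κ) := LinearMap.fst κ (Fin k → κ) (K × Φ.R)
  let pb : ((Fin k → κ) × K × Φ.R) →ₗ[κ] K := LinearMap.fst κ K Φ.R ∘ₗ LinearMap.snd κ (Fin k → κ) (K × Φ.R)
  let pt : ((Fin k → κ) × K × Φ.R) →ₗ[κ] Φ.R := LinearMap.snd κ K Φ.R ∘ₗ LinearMap.snd κ (Fin k → κ) (K × Φ.R)
  -- D_R
  set DR : Submodule κ K := Submodule.comap (Φ.d e0) Φ.R with hDR
  -- (C2)
  have hC2 : finrank κ (KK ⊓ LinearMap.ker pw : Submodule κ _) ≤ finrank κ DR := by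
    have h3 := H2_rn (KK ⊓ LinearMap.ker pw) pb
    have h4 : Submodule.map pb (KK ⊓ LinearMap.ker pw) ≤ DR := by
      rintro _ ⟨p, ⟨hp, hp'⟩, rfl⟩
      have h5 := hmem p hp
      have h6 : p.1 = 0 := hp'
      rw [h6, map_zero, LinearMap.zero_apply] at h5
      have h7 : Φ.d e0 p.2.1 = - (p.2.2 : Fin r → κ) := (neg_eq_of_add_eq_zero_left h5.symm).symm
      change Φ.d e0 p.2.1 ∈ Φ.R
      rw [h7]
      exact neg_mem p.2.2.2
    have h5 : (KK ⊓ LinearMap.ker pw) ⊓ LinearMap.ker pb = ⊥ := by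
      rw [eq_bot_iff]
      rintro p ⟨⟨hp, hp'⟩, hp''⟩
      have h5 := hmem p hp
      have h6 : p.1 = 0 := hp'
      have h7 : p.2.1 = 0 := hp''
      rw [h6, h7, map_zero, map_zero, LinearMap.zero_apply, zero_add] at h5
      rw [Submodule.mem_bot]
      exact Prod.ext h6 (Prod.ext h7 (Subtype.ext h5.symm))
    have h6 := Submodule.finrank_mono h4
    rw [h5, finrank_bot] at h3
    omega
  -- injectivity of g0 on D_R
  have hinjD : ∀ b ∈ DR, g0 b ⬝ᵥ Φ.d e0 b = 0 → b = 0 := by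
    intro b hb hb0
    have h3 := syz_G2 g0 hg0 e0 b
    rw [hb0, add_zero, hge, sqv_dot] at h3
    have h4 := (iso_coef h2 hΦ e0 b).2.1
    rw [h3, zero_add] at h4
    obtain ⟨s, rfl⟩ := Submodule.mem_span_singleton.1 (hX b h4)
    by_cases hs : s = 0
    · rw [hs, zero_smul]
    · exfalso
      apply hxR
      have h5 : Φ.d e0 (s • e0) ∈ Φ.R := hb
      rw [map_smul, Φ.d_self] at h5
      exact (Submodule.smul_mem_iff _ hs).1 h5
  -- KS, Sol
  set KS : Submodule κ ((Fin k → κ) × K × Φ.R) := KK ⊓ LinearMap.ker (S.mkQ ∘ₗ pb) with hKS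
  have hKSmem : ∀ p ∈ KS, p ∈ KK ∧ p.2.1 ∈ S := by
    rintro p ⟨hp, hp'⟩
    refine ⟨hp, ?_⟩
    have h4 : S.mkQ p.2.1 = 0 := hp'
    rwa [Submodule.mkQ_apply, Submodule.Quotient.mk_eq_zero] at h4
  set R1' : Submodule κ Φ.R := Submodule.comap Φ.R.subtype R1 with hR1'
  have hR1d : finrank κ R1' = finrank κ R1 := by
    have h3 : Submodule.map Φ.R.subtype R1' = R1 := by
      rw [hR1', Submodule.map_comap_eq, Submodule.range_subtype]
      exact inf_eq_right.2 hP.R_le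
    rw [← h3, Submodule.finrank_map_subtype_eq]
  have hE1 := H2_rn KK (S.mkQ ∘ₗ pb)
  rw [← hKS] at hE1
  have hE1' : finrank κ (Submodule.map (S.mkQ ∘ₗ pb) KK) ≤ finrank κ (K ⧸ S) := Submodule.finrank_le _
  have hq := Submodule.finrank_quotient_add_finrank S
  rw [hk] at hq
  set Sol : Submodule κ ((Fin k → κ) × K × Φ.R) := KS ⊓ LinearMap.ker (R1'.mkQ ∘ₗ pt) with hSol
  have hSolmem : ∀ p ∈ Sol, p ∈ KK ∧ p.2.1 ∈ S ∧ (p.2.2 : Fin r → κ) ∈ R1 := by
    rintro p ⟨hp, hp'⟩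
    refine ⟨(hKSmem p hp).1, (hKSmem p hp).2, ?_⟩
    have h4 : R1'.mkQ p.2.2 = 0 := hp'
    rw [Submodule.mkQ_apply, Submodule.Quotient.mk_eq_zero] at h4
    exact h4
  have hE2 := H2_rn KS (R1'.mkQ ∘ₗ pt)
  rw [← hSol] at hE2
  -- T' ⊔ R1'
  set T' : Submodule κ Φ.R := Submodule.map pt KS with hT'
  have hE3 : finrank κ (Submodule.map (R1'.mkQ ∘ₗ pt) KS) + finrank κ R1' ≤ finrank κ (T' ⊔ R1' : Submodule κ Φ.R) := by
    have h3 := H2_rn (T' ⊔ R1') R1'.mkQ
    have h4 : Submodule.map R1'.mkQ (T' ⊔ R1') = Submodule.map (R1'.mkQ ∘ₗ pt) KS := by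
      rw [Submodule.map_sup, Submodule.mkQ_map_self, sup_bot_eq, hT', ← Submodule.map_comp]
    have h5 : (T' ⊔ R1') ⊓ LinearMap.ker R1'.mkQ = R1' := by
      rw [Submodule.ker_mkQ]
      exact inf_eq_right.2 le_sup_right
    rw [h4, h5] at h3
    omega
  let G : DR →ₗ[κ] Module.Dual κ Φ.R :=
    (Module.Dual.transpose (R := κ) Φ.R.subtype) ∘ₗ (dotProductEquiv κ (Fin r)).toLinearMap ∘ₗ g0 ∘ₗ DR.subtype
  have hGapp : ∀ (b : DR) (u : Φ.R), G b u = g0 b ⬝ᵥ (u : Fin r → κ) := fun b u => rfl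
  have hE4 : finrank κ DR + finrank κ (T' ⊔ R1' : Submodule κ Φ.R) ≤ finrank κ Φ.R := by
    refine H2_dual G ?_ _ ?_
    · rw [← LinearMap.ker_eq_bot, eq_bot_iff]
      intro b hb
      rw [LinearMap.mem_ker] at hb
      rw [Submodule.mem_bot]
      apply Subtype.ext
      refine hinjD b b.2 ?_
      have h3 := hGapp b ⟨Φ.d e0 b, b.2⟩
      rw [hb] at h3
      exact h3.symm
    · intro b u hu
      have h3 : (T' ⊔ R1' : Submodule κ Φ.R) ≤ LinearMap.ker (G b) := by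
        refine sup_le ?_ ?_
        · rintro _ ⟨p, hp, rfl⟩
          obtain ⟨hp1, hp2⟩ := hKSmem p hp
          rw [LinearMap.mem_ker, hGapp]
          have h4 := T1_polar h2 hΦ e0 g0 hg0 hge vv hv0 (w := 0) (w' := p.1) (b := (b : K)) (b' := p.2.1)
            (τ := - Φ.d e0 b) (τ' := p.2.2) (neg_mem b.2) p.2.2.2
            (by rw [map_zero, LinearMap.zero_apply, add_neg_cancel]) (hmem p hp1)
          rw [dotProduct_neg, hP.g0_S _ hp2 _ b.2] at h4
          simp only [Pi.zero_apply, zero_mul, Finset.sum_const_zero, neg_zero, add_zero] at h4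
          exact h4
        · intro u hu
          rw [LinearMap.mem_ker, hGapp]
          exact hP.g0_R _ _ hu
      exact h3 hu
  -- E_1
  set E1 : Submodule κ (Fin k → κ) := Submodule.comap ((Φ.br vv).flip e0) R1 with hE1def
  have hE1mem : ∀ w, w ∈ E1 ↔ Φ.br vv w e0 ∈ R1 := fun w => Iff.rfl
  have hE5 : finrank κ Sol ≤ finrank κ E1 + finrank κ R1 := by
    set bs := Module.finBasis κ R1 with hbs
    let θ : ((Fin k → κ) × K × Φ.R) →ₗ[κ] (Fin (finrank κ R1) → κ) :=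
      LinearMap.pi fun j => (hr (bs j : Fin r → κ)) ∘ₗ (Φ.d e0) ∘ₗ pb
    have hθ : ∀ p j, θ p j = hh (bs j : Fin r → κ) (Φ.d e0 p.2.1) := fun p j => rfl
    have h3 := H2_rn Sol θ
    have h4 : finrank κ (Submodule.map θ Sol) ≤ finrank κ (Fin (finrank κ R1) → κ) := Submodule.finrank_le _
    rw [Module.finrank_fin_fun] at h4
    have hb0 : ∀ p ∈ Sol ⊓ LinearMap.ker θ, p.2.1 = 0 ∧ (p.2.2 : Fin r → κ) ∈ R1 ∧ p ∈ KK := by
      rintro p ⟨hp, hp'⟩
      obtain ⟨hp1, hp2, hp3⟩ := hSolmem p hp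
      refine ⟨?_, hp3, hp1⟩
      refine hLR p.1 p.2.1 (- (p.2.2 : Fin r → κ)) hp2 (neg_mem hp3) ?_ ?_
      · rw [hmem p hp1]
        abel
      · intro ρ hρ
        have h6 : ρ = ∑ j, (bs.repr ⟨ρ, hρ⟩ j) • (bs j : Fin r → κ) := by
          have h7 := bs.sum_repr ⟨ρ, hρ⟩
          have h8 := congrArg (fun u : R1 => (u : Fin r → κ)) h7
          simp only [Submodule.coe_sum, Submodule.coe_smul] at h8
          exact h8.symm
        rw [h6, hh_sum_left h2]
        refine Finset.sum_eq_zero fun j _ => ?_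
        rw [hh_smul_left, ← hθ p j]
        have h9 : θ p = 0 := hp'
        rw [h9, Pi.zero_apply, mul_zero]
    have h5 := H2_rn (Sol ⊓ LinearMap.ker θ) pw
    have h6 : Submodule.map pw (Sol ⊓ LinearMap.ker θ) ≤ E1 := by
      rintro _ ⟨p, hp, rfl⟩
      obtain ⟨hp1, hp2, hp3⟩ := hb0 p hp
      have h7 := hmem p hp3
      rw [hp1, map_zero, zero_add] at h7
      rw [hE1mem]
      change Φ.br vv p.1 e0 ∈ R1
      rw [h7]
      exact hp2
    have h7 : (Sol ⊓ LinearMap.ker θ) ⊓ LinearMap.ker pw = ⊥ := by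
      rw [eq_bot_iff]
      rintro p ⟨hp, hp'⟩
      obtain ⟨hp1, hp2, hp3⟩ := hb0 p hp
      have h7 := hmem p hp3
      have h8 : p.1 = 0 := hp'
      rw [h8, hp1, map_zero, map_zero, LinearMap.zero_apply, zero_add] at h7
      rw [Submodule.mem_bot]
      exact Prod.ext h8 (Prod.ext hp1 (Subtype.ext h7.symm))
    have h8 := Submodule.finrank_mono h6
    rw [h7, finrank_bot] at h5
    omega
  -- functionals f(w)
  have hind : LinearIndependent κ (fun j => sqv (Φ.d e0 (vv j))) := by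
    refine sqv_indep h2 ?_
    have h3 : LinearIndependent κ vv := v.linearIndependent.map' S.subtype (Submodule.ker_subtype S)
    exact h3.map' (Φ.d e0) (LinearMap.ker_eq_bot.2 hinj)
  let Ft : (Fin k → κ) →ₗ[κ] (Fin r → κ) := Fintype.linearCombination κ (fun j => sqv (Φ.d e0 (vv j)))
  have hFt : ∀ w, Ft w = ∑ j, w j • sqv (Φ.d e0 (vv j)) := fun w => Fintype.linearCombination_apply _ _ _
  have hFinj : Function.Injective Ft := hind.fintypeLinearCombination_injective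
  have hFc : ∀ w c, Ft w ⬝ᵥ c = ∑ j, w j * hh (Φ.d e0 (vv j)) c := by
    intro w c
    rw [hFt, sum_dotProduct]
    refine Finset.sum_congr rfl fun j _ => ?_
    rw [smul_dotProduct, sqv_dot, smul_eq_mul]
  let AA : (Fin k → κ) →ₗ[κ] Module.Dual κ (Fin k → κ) :=
    (Module.Dual.transpose (R := κ) ((Φ.br vv).flip e0)) ∘ₗ (dotProductEquiv κ (Fin r)).toLinearMap ∘ₗ Ft
  have hAA : ∀ w w', AA w w' = Ft w ⬝ᵥ Φ.br vv w' e0 := fun w w' => rfl
  set E2 : Submodule κ (Fin k → κ) := E1 ⊓ LinearMap.ker AA with hE2def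
  have hF1 := H2_rn E1 AA
  rw [← hE2def] at hF1
  -- (C)
  have hC : finrank κ (Submodule.map AA E1) + finrank κ (Submodule.map pw KK) ≤ k := by
    have h3 := H2_dual' (Submodule.map AA E1) (Submodule.map pw KK) ?_
    · rwa [Module.finrank_fin_fun] at h3
    · rintro _ ⟨w, hw, rfl⟩ _ ⟨p, hp, rfl⟩
      rw [hAA, hFt]
      have hwR : Φ.br vv w e0 ∈ R1 := hw
      change (∑ j, w j • sqv (Φ.d e0 (vv j))) ⬝ᵥ Φ.br vv p.1 e0 = 0
      rw [fw_br h2 hΦ e0 vv w p.1 (hP.R_le hwR)]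
      have h4 := T1_polar h2 hΦ e0 g0 hg0 hge vv hv0 (w := w) (w' := p.1) (b := 0) (b' := p.2.1)
        (τ := Φ.br vv w e0) (τ' := p.2.2) (hP.R_le hwR) p.2.2.2
        (by rw [map_zero, zero_add]) (hmem p hp)
      rw [← h4, map_zero, zero_dotProduct, zero_add]
      exact hP.g0_R _ _ hwR
  have hC1 := H2_rn KK pw
  -- (D)
  have hD : finrank κ E2 + finrank κ (LinearMap.range L) ≤ r := by
    have h3 := H2_dual (V := Fin r → κ)
      ((dotProductEquiv κ (Fin r)).toLinearMap ∘ₗ Ft ∘ₗ E2.subtype) ?_ (LinearMap.range L) ?_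
    · rwa [Module.finrank_fin_fun] at h3
    · intro a b hab
      have h3 : (dotProductEquiv κ (Fin r)) (Ft a) = (dotProductEquiv κ (Fin r)) (Ft b) := hab
      exact Subtype.ext (hFinj ((dotProductEquiv κ (Fin r)).injective h3))
    · rintro w _ ⟨p, rfl⟩
      change Ft (w : Fin k → κ) ⬝ᵥ L p = 0
      obtain ⟨hw1, hw2⟩ := w.2
      have hwR : Φ.br vv w e0 ∈ R1 := hw1
      rw [hL, H2_L_apply, dotProduct_sub, dotProduct_sub]
      have h4 : Ft (w : Fin k → κ) ⬝ᵥ Φ.br vv p.1 e0 = 0 := by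
        have h5 : AA (w : Fin k → κ) = 0 := hw2
        rw [← hAA, h5, LinearMap.zero_apply]
      have h5 : Ft (w : Fin k → κ) ⬝ᵥ Φ.d e0 p.2.1 = 0 := by
        have h6 := T1_lin h2 hΦ e0 g0 hg0 hge vv hv0 (w := (w : Fin k → κ)) (b := 0)
          (τ := Φ.br vv w e0) (by rw [map_zero, zero_add]) p.2.1
        rw [hFc, ← h6, map_zero, dotProduct_zero, zero_add]
        exact hP.g0_R _ _ hwR
      have h6 : Ft (w : Fin k → κ) ⬝ᵥ (p.2.2 : Fin r → κ) = 0 := by
        rw [hFc]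
        refine Finset.sum_eq_zero fun j _ => ?_
        rw [iso_NR h2 hΦ (Φ.d_mem _ _) p.2.2.2, mul_zero]
      rw [h4, h5, h6, sub_zero, sub_zero]
  -- (B)
  have hB : finrank κ (LinearMap.range L) ≤ finrank κ Φ.N := by
    refine Submodule.finrank_mono ?_
    rintro _ ⟨p, rfl⟩
    rw [hL, H2_L_apply]
    exact sub_mem (sub_mem (Φ.br_mem _ _ _) (Φ.d_mem _ _)) (Φ.R_le_N p.2.2.2)
  omega

end MP2619.CUB
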