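import Pool.Agent.Lib.MP_2619d0_ag.CUB.HL
import Pool.Agent.Lib.MP_2619d0_ag.CUB.HT1
import Pool.Agent.Lib.MP_2619d0_ag.CUB.HT2

/-!
The count for `R₁ = 0` (file H3).
-/

set_option autoImplicit false

namespace MP2619.CUB

open Finset CMap Module

variable {κ K : Type*} [Field κ] [AddCommGroup K] [Module κ K] {r : ℕ}


/-- if all functionals `F w · ` (`w ∈ E`, `F` injective) kill `Q`, then `dim E + dim Q ≤ r` -/
theorem H3_ann {M : Type*} [AddCommGroup M] [Module κ M] (F : M →ₗ[κ] (Fin r → κ))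
    (hF : Function.Injective F) (E : Submodule κ M) (Q : Submodule κ (Fin r → κ))
    (h : ∀ w ∈ E, ∀ u ∈ Q, F w ⬝ᵥ u = 0) : finrank κ E + finrank κ Q ≤ r := by
  classical
  have h1 := Subspace.finrank_add_finrank_dualAnnihilator_eq Q
  rw [Module.finrank_fin_fun] at h1
  let G : E →ₗ[κ] Module.Dual κ (Fin r → κ) :=
    (dotProductEquiv κ (Fin r)).toLinearMap ∘ₗ F ∘ₗ E.subtype
  have hGinj : Function.Injective G := by
    intro a b hab
    have h3 : (dotProductEquiv κ (Fin r)) (F a) = (dotProductEquiv κ (Fin r)) (F b) := hab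
    exact Subtype.ext (hF ((dotProductEquiv κ (Fin r)).injective h3))
  have hGr : LinearMap.range G ≤ Q.dualAnnihilator := by
    rintro _ ⟨w, rfl⟩
    rw [Submodule.mem_dualAnnihilator]
    intro u hu
    exact h w w.2 u hu
  have h4 : finrank κ (LinearMap.range G) = finrank κ E := LinearMap.finrank_range_of_inj hGinj
  have h5 := Submodule.finrank_mono hGr
  omega

/-- rank-nullity on a submodule -/
theorem H3_rn {V W : Type*} [AddCommGroup V] [Module κ V] [FiniteDimensional κ V] [AddCommGroup W]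
    [Module κ W] [FiniteDimensional κ W] (A : Submodule κ V) (f : V →ₗ[κ] W) :
    finrank κ A ≤ finrank κ W + finrank κ (A ⊓ LinearMap.ker f : Submodule κ V) := by
  have h1 := LinearMap.finrank_range_add_finrank_ker (f ∘ₗ A.subtype)
  have h2 : finrank κ (LinearMap.range (f ∘ₗ A.subtype)) ≤ finrank κ W := Submodule.finrank_le _
  have h3 : Submodule.map A.subtype (LinearMap.ker (f ∘ₗ A.subtype)) ≤ A ⊓ LinearMap.ker f := by
    rintro _ ⟨p, hp, rfl⟩
    exact ⟨p.2, hp⟩
  have h4 := Submodule.finrank_mono h3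
  rw [Submodule.finrank_map_subtype_eq] at h4
  omega

/-- `N` is bigger than `β(K)` -/
theorem H3_N [Infinite κ] [FiniteDimensional κ K] (h2 : (2 : κ) = 0)
    {Φ : CMap κ K (Fin r → κ)} (hΦ : Φ.Iso) (e0 : K) (hinj : Function.Injective (Φ.d e0))
    (hX : ∀ b, hh (Φ.d e0 b) (Φ.f e0) = 0 → b ∈ Submodule.span κ {e0})
    (hn : 2 ≤ finrank κ K) : finrank κ K + 1 ≤ finrank κ Φ.N := by
  have h1 : finrank κ (LinearMap.range (Φ.d e0)) = finrank κ K := LinearMap.finrank_range_of_inj hinj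
  have h3 : ∃ b : K, b ∉ Submodule.span κ {e0} := by
    by_contra hcon
    push Not at hcon
    have h4 : (⊤ : Submodule κ K) ≤ Submodule.span κ {e0} := fun b _ => hcon b
    have h5 := Submodule.finrank_mono h4
    rw [finrank_top] at h5
    have h6 : finrank κ (Submodule.span κ ({e0} : Set K)) ≤ 1 := by
      by_cases he : e0 = 0
      · rw [he, Submodule.span_zero_singleton, finrank_bot]
        omega
      · rw [finrank_span_singleton he]
    omega
  obtain ⟨b, hb⟩ := h3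
  have hlt : LinearMap.range (Φ.d e0) < Φ.N := by
    refine lt_of_le_of_ne ?_ ?_
    · rintro _ ⟨c, rfl⟩
      exact Φ.d_mem _ _
    · intro heq
      have h4 : Φ.d b e0 ∈ LinearMap.range (Φ.d e0) := by
        rw [heq]
        exact Φ.d_mem _ _
      obtain ⟨c, hc⟩ := h4
      have h5 := (iso_coef h2 hΦ e0 b).2.1
      rw [← hc, iso_fd h2 hΦ, zero_add] at h5
      exact hb (hX b h5)
  have h4 := Submodule.finrank_lt_finrank_of_lt hlt
  omega

/-- count for `R₁ = 0` (file H3) -/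
theorem count3 [Infinite κ] [FiniteDimensional κ K] (h2 : (2 : κ) = 0)
    {Φ : CMap κ K (Fin r → κ)} (hΦ : Φ.Iso) (e0 : K) (g0 : K →ₗ[κ] (Fin r → κ)) (hg0 : Φ.IsSyz g0)
    (hge : g0 e0 = sqv (Φ.f e0)) (hinj : Function.Injective (Φ.d e0))
    (hX : ∀ b, hh (Φ.d e0 b) (Φ.f e0) = 0 → b ∈ Submodule.span κ {e0})
    (hP1 : ∀ u : Fin r → κ, hh u (Φ.f e0) = 0 → u ∈ Submodule.span κ {Φ.f e0})
    (hn : 2 ≤ finrank κ K)
    (S : Submodule κ K) (hP : LRPair Φ e0 g0 S ⊥)
    {k : ℕ} (v : Basis (Fin k) κ S)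
    (hRZ : finrank κ (LinearMap.ker (((Φ.br (fun i => (v i : K))).flip e0) ∘ₗ LinearMap.fst κ (Fin k → κ) S -
        (Φ.d e0) ∘ₗ S.subtype ∘ₗ LinearMap.snd κ (Fin k → κ) S)) ≤
      finrank κ (LinearMap.ker ((Φ.br (fun i => (v i : K))).flip e0)) + 3) :
    3 * finrank κ K ≤ 2 * r + 2 := by
  classical
  have hk : finrank κ S = k := by rw [Module.finrank_eq_card_basis v, Fintype.card_fin]
  have hcod := hP.codim
  rw [hk, finrank_bot] at hcod
  set vv : Fin k → K := fun i => (v i : K) with hvv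
  have hvS : ∀ i, vv i ∈ S := fun i => (v i).2
  have hv0 : ∀ i, ∀ ρ ∈ Φ.R, g0 (vv i) ⬝ᵥ ρ = 0 := fun i ρ hρ => hP.g0_S _ (hvS i) ρ hρ
  have ht : ∀ i j, Φ.t e0 (vv i) (vv j) = 0 := fun i j => by
    have := hP.t_mem e0 hP.e0_mem (vv i) (hvS i) (vv j) (hvS j)
    simpa using this
  set L := Lmap Φ e0 vv with hL
  -- dimension of the kernel
  have hrn := LinearMap.finrank_range_add_finrank_ker L
  rw [Module.finrank_prod, Module.finrank_prod, Module.finrank_fin_fun] at hrn
  -- τ = 0 on the part over S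
  have htau : ∀ p ∈ LinearMap.ker L, p.2.1 ∈ S → (p.2.2 : Fin r → κ) = 0 := by
    intro p hp hb
    rw [LinearMap.mem_ker, hL, Lmap_apply] at hp
    have h3 : Φ.br vv p.1 e0 = Φ.d e0 p.2.1 + p.2.2 := by
      rw [sub_sub, sub_eq_zero] at hp
      exact hp
    have h4 := T1_diag h2 hΦ e0 g0 hg0 hge vv hv0 ht p.2.2.2 h3
    rw [hP.g0_S _ hb _ p.2.2.2] at h4
    have h5 := hP1 _ h4.symm
    rw [Submodule.mem_span_singleton] at h5
    obtain ⟨c, hc⟩ := h5
    by_cases hc0 : c = 0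
    · rw [← hc, hc0, zero_smul]
    · exfalso
      have h6 : ∀ b : K, b ∈ Submodule.span κ {e0} := by
        intro b
        refine hX b ?_
        have h7 := iso_NR h2 hΦ (Φ.d_mem e0 b) p.2.2.2
        rw [← hc, hh_smul_right] at h7
        exact (mul_eq_zero.1 h7).resolve_left hc0
      have h8 : (⊤ : Submodule κ K) ≤ Submodule.span κ {e0} := fun b _ => h6 b
      have h9 := Submodule.finrank_mono h8
      rw [finrank_top] at h9
      have h10 : finrank κ (Submodule.span κ ({e0} : Set K)) ≤ 1 := by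
        by_cases he : e0 = 0
        · rw [he, Submodule.span_zero_singleton, finrank_bot]
          omega
        · rw [finrank_span_singleton he]
      omega
  -- dim ker L ≤ dim RZ + (n - k)
  set RZ := LinearMap.ker (((Φ.br vv).flip e0) ∘ₗ LinearMap.fst κ (Fin k → κ) S -
        (Φ.d e0) ∘ₗ S.subtype ∘ₗ LinearMap.snd κ (Fin k → κ) S) with hRZdef
  have hπ := H3_rn (LinearMap.ker L)
    (S.mkQ ∘ₗ LinearMap.fst κ K Φ.R ∘ₗ LinearMap.snd κ (Fin k → κ) (K × Φ.R))
  have hq := Submodule.finrank_quotient_add_finrank S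
  let i : ((Fin k → κ) × S) →ₗ[κ] ((Fin k → κ) × K × Φ.R) :=
    LinearMap.prod (LinearMap.fst κ (Fin k → κ) S)
      (LinearMap.prod (S.subtype ∘ₗ LinearMap.snd κ (Fin k → κ) S) 0)
  have hmap : LinearMap.ker L ⊓ LinearMap.ker (S.mkQ ∘ₗ LinearMap.fst κ K Φ.R ∘ₗ
      LinearMap.snd κ (Fin k → κ) (K × Φ.R)) ≤ Submodule.map i RZ := by
    rintro p ⟨hp, hp0⟩
    have hp1 : p.2.1 ∈ S := by
      have h4 : S.mkQ p.2.1 = 0 := hp0
      rwa [Submodule.mkQ_apply, Submodule.Quotient.mk_eq_zero] at h4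
    have hp2 := htau p hp hp1
    refine ⟨(p.1, ⟨p.2.1, hp1⟩), ?_, ?_⟩
    · have h3 : L p = 0 := hp
      rw [hL, Lmap_apply, hp2, sub_zero] at h3
      exact h3
    · refine Prod.ext rfl (Prod.ext rfl (Subtype.ext ?_))
      exact hp2.symm
  have hle := (Submodule.finrank_mono hmap).trans (Submodule.finrank_map_le _ _)
  -- f(E) kills the range of L
  set E := LinearMap.ker ((Φ.br vv).flip e0) with hE
  have hind : LinearIndependent κ (fun j => sqv (Φ.d e0 (vv j))) := by
    refine sqv_indep h2 ?_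
    have h3 : LinearIndependent κ vv := v.linearIndependent.map' S.subtype (Submodule.ker_subtype S)
    exact h3.map' (Φ.d e0) (LinearMap.ker_eq_bot.2 hinj)
  have hann : finrank κ E + finrank κ (LinearMap.range L) ≤ r := by
    refine H3_ann (Fintype.linearCombination κ (fun j => sqv (Φ.d e0 (vv j))))
      hind.fintypeLinearCombination_injective E _ ?_
    rintro w hw _ ⟨p, rfl⟩
    rw [Fintype.linearCombination_apply, hL, Lmap_apply, dotProduct_sub, dotProduct_sub]
    have hw0 : Φ.br vv w e0 = 0 := hw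
    have h3 := fw_br h2 hΦ e0 vv w p.1 (by rw [hw0]; exact zero_mem _)
    have h4 : ∀ c, (∑ j, w j • sqv (Φ.d e0 (vv j))) ⬝ᵥ c = ∑ j, w j * hh (Φ.d e0 (vv j)) c := by
      intro c
      rw [sum_dotProduct]
      refine Finset.sum_congr rfl fun j _ => ?_
      rw [smul_dotProduct, sqv_dot, smul_eq_mul]
    have h5 := T1_lin h2 hΦ e0 g0 hg0 hge vv hv0 (w := w) (b := 0) (τ := 0)
      (by rw [hw0, map_zero, add_zero]) p.2.1
    rw [h3, h4, h4, ← h5]
    simp only [ht, hh_zero_left, map_zero, dotProduct_zero, mul_zero, Finset.sum_const_zero, add_zero,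
      sub_zero, zero_sub, neg_eq_zero]
    refine Finset.sum_eq_zero fun j _ => ?_
    rw [iso_NR h2 hΦ (Φ.d_mem _ _) p.2.2.2, mul_zero]
  have hN := H3_N h2 hΦ e0 hinj hX hn
  have hNR := N_add_R_le h2 hΦ
  omega

end MP2619.CUB
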