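import Pool.Agent.Lib.MP_2619d0_ag.CUB.D3

/-!
The operators `κ_a` on `R₁` for an LR pair: `h(ρ, Φ_a(d)) = h(κ_a ρ, β_d)`.
-/

set_option autoImplicit false

namespace MP2619.CUB

open Finset

/-- `κ` with the scalar action `s • a = s² a` -/
def TwK (κ : Type*) := κ

/-- Additive maps `π` with `π(s² a) = s π(a)` separate points. -/
theorem exists_halfFrob {κ : Type*} [Field κ] (h2 : (2 : κ) = 0) {c : κ} (hc : c ≠ 0) :
    ∃ π : κ → κ, (∀ a b, π (a + b) = π a + π b) ∧ (∀ s a, π (s ^ 2 * a) = s * π a) ∧ π c ≠ 0 := by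
  let iA : AddCommGroup (TwK κ) := inferInstanceAs (AddCommGroup κ)
  let tf : TwK κ → κ := fun a => a
  let ft : κ → TwK κ := fun a => a
  have tf_add : ∀ a b : TwK κ, tf (a + b) = tf a + tf b := fun a b => rfl
  let iM : Module κ (TwK κ) :=
    { smul := fun s a => ft (s ^ 2 * tf a)
      one_smul := fun a => by
        have h : (1 : κ) ^ 2 * tf a = tf a := by ring
        exact h
      mul_smul := fun s t a => by
        have h : (s * t) ^ 2 * tf a = s ^ 2 * (t ^ 2 * tf a) := by ring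
        exact h
      smul_zero := fun s => by
        have h : s ^ 2 * (0 : κ) = 0 := by ring
        exact h
      smul_add := fun s a b => by
        have h : s ^ 2 * (tf a + tf b) = s ^ 2 * tf a + s ^ 2 * tf b := by ring
        exact h
      add_smul := fun s t a => by
        have h : (s + t) ^ 2 * tf a = s ^ 2 * tf a + t ^ 2 * tf a := by
          linear_combination (s * t * tf a) * h2
        exact h
      zero_smul := fun a => by
        have h : (0 : κ) ^ 2 * tf a = 0 := by ring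
        exact h }
  have h := mt (Module.forall_dual_apply_eq_zero_iff κ (V := TwK κ) (ft c)).1 hc
  push Not at h
  obtain ⟨φ, hφ⟩ := h
  exact ⟨fun a => φ (ft a), fun a b => φ.map_add (ft a) (ft b), fun s a => φ.map_smul s (ft a), hφ⟩

namespace CMap

variable {κ K : Type*} [Field κ] [AddCommGroup K] [Module κ K] {r n : ℕ}

/-- the linear map `y ↦ ∑ y_j π(Φ_{v_j}(c))` -/
noncomputable def gsyz (Φ : CMap κ K (Fin r → κ)) (v : Module.Basis (Fin n) κ K) (π : κ → κ) (c : K) :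
    K →ₗ[κ] (Fin r → κ) :=
  ∑ j, (v.coord j).smulRight (fun i => π (Φ.d (v j) c i))

theorem gsyz_apply (Φ : CMap κ K (Fin r → κ)) (v : Module.Basis (Fin n) κ K) (π : κ → κ) (c y : K)
    (i : Fin r) : Φ.gsyz v π c y i = ∑ j, v.repr y j * π (Φ.d (v j) c i) := by
  unfold gsyz
  rw [LinearMap.sum_apply, Finset.sum_apply]
  refine Finset.sum_congr rfl fun j _ => ?_
  simp

variable {Φ : CMap κ K (Fin r → κ)}

/-- `<g_π(y), u> = π(h(u, Φ_y(c)))` if `h(u, R) = 0` -/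
theorem gsyz_dot (v : Module.Basis (Fin n) κ K) {π : κ → κ} (hadd : ∀ a b, π (a + b) = π a + π b)
    (hsq : ∀ s a, π (s ^ 2 * a) = s * π a) (c y : K) (u : Fin r → κ)
    (hu : ∀ a b, hh u (Φ.t a b c) = 0) :
    ∑ i, Φ.gsyz v π c y i * u i = π (hh u (Φ.d y c)) := by
  have hπ0 : π 0 = 0 := by
    have := hadd 0 0
    rw [add_zero] at this
    simpa using this
  let πh : κ →+ κ := ⟨⟨π, hπ0⟩, hadd⟩
  have hπs : ∀ {ι : Type} (s : Finset ι) (a : ι → κ), π (∑ i ∈ s, a i) = ∑ i ∈ s, π (a i) :=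
    fun s a => map_sum πh a s
  have hd : hh u (Φ.d y c) = ∑ j, v.repr y j ^ 2 * hh u (Φ.d (v j) c) := by
    conv_lhs => rw [← v.sum_repr y]
    rw [d_comb, hh_add_right, hh_sum_right, hh_sum_right]
    have h0 : ∀ i : Fin n, hh u (∑ j, if i < j then (v.repr y i * v.repr y j) • Φ.t (v i) (v j) c
        else 0) = 0 := by
      intro i
      rw [hh_sum_right]
      refine Finset.sum_eq_zero fun j _ => ?_
      split_ifs
      · rw [hh_smul_right, hu, mul_zero]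
      · exact hh_zero_right _
    rw [Finset.sum_eq_zero fun i _ => h0 i, add_zero]
    refine Finset.sum_congr rfl fun j _ => ?_
    rw [hh_smul_right]
  rw [hd, hπs]
  have e : ∀ j : Fin n, π (v.repr y j ^ 2 * hh u (Φ.d (v j) c)) =
      ∑ i, v.repr y j * π (Φ.d (v j) c i) * u i := by
    intro j
    rw [hsq]
    unfold hh
    rw [hπs, Finset.mul_sum]
    refine Finset.sum_congr rfl fun i _ => ?_
    rw [hsq]
    ring
  rw [Finset.sum_congr rfl fun j _ => e j, Finset.sum_comm]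
  refine Finset.sum_congr rfl fun i _ => ?_
  rw [gsyz_apply, Finset.sum_mul]

theorem gsyz_syz [Infinite κ] (h2 : (2 : κ) = 0) (hΦ : Φ.Iso) (v : Module.Basis (Fin n) κ K)
    {π : κ → κ} (hadd : ∀ a b, π (a + b) = π a + π b) (hsq : ∀ s a, π (s ^ 2 * a) = s * π a)
    (c y : K) : ∑ i, Φ.gsyz v π c y i * Φ.f y i = 0 := by
  rw [gsyz_dot v hadd hsq c y (Φ.f y) (fun a b => iso_ft h2 hΦ y a b c), iso_fd h2 hΦ]
  have := hadd 0 0
  rw [add_zero] at this
  simpa using this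

/-- the space of linear syzygies -/
def syzSub (Φ : CMap κ K (Fin r → κ)) : Submodule κ (K →ₗ[κ] (Fin r → κ)) where
  carrier := {g | ∀ y, ∑ i, g y i * Φ.f y i = 0}
  add_mem' := by
    intro g g' hg hg' y
    have := congrArg₂ (· + ·) (hg y) (hg' y)
    simp only [← Finset.sum_add_distrib, add_zero] at this
    rw [← this]
    refine Finset.sum_congr rfl fun i _ => ?_
    rw [LinearMap.add_apply, Pi.add_apply]
    ring
  zero_mem' := by
    intro y
    simp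
  smul_mem' := by
    intro s g hg y
    have := congrArg (fun t => s * t) (hg y)
    simp only [Finset.mul_sum, mul_zero] at this
    rw [← this]
    refine Finset.sum_congr rfl fun i _ => ?_
    rw [LinearMap.smul_apply, Pi.smul_apply, smul_eq_mul]
    ring

/-- evaluation of syzygies: `g ↦ <g(y), u>` -/
def evS (Φ : CMap κ K (Fin r → κ)) (y : K) (u : Fin r → κ) : syzSub Φ →ₗ[κ] κ where
  toFun := fun g => ∑ i, (g : K →ₗ[κ] (Fin r → κ)) y i * u i
  map_add' := by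
    intro g g'
    rw [← Finset.sum_add_distrib]
    refine Finset.sum_congr rfl fun i _ => ?_
    rw [Submodule.coe_add, LinearMap.add_apply, Pi.add_apply]
    ring
  map_smul' := by
    intro s g
    rw [RingHom.id_apply, smul_eq_mul, Finset.mul_sum]
    refine Finset.sum_congr rfl fun i _ => ?_
    rw [Submodule.coe_smul, LinearMap.smul_apply, Pi.smul_apply, smul_eq_mul]
    ring

/-- If every linear syzygy which kills `R₁` at `e0` kills `R₁` at `a`, then for every `ρ ∈ R₁` there is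
`ρ' ∈ R₁` with `h(ρ, Φ_a(d)) = h(ρ', β_d)` for all `d`. -/
theorem exists_kap_one [Infinite κ] [FiniteDimensional κ K] (h2 : (2 : κ) = 0) (hΦ : Φ.Iso) (e0 a : K)
    (R1 : Submodule κ (Fin r → κ)) (hR1 : R1 ≤ Φ.N)
    (hlr : ∀ g : K →ₗ[κ] (Fin r → κ), (∀ y, ∑ i, g y i * Φ.f y i = 0) →
      (∀ ρ ∈ R1, ∑ i, g e0 i * ρ i = 0) → ∀ ρ ∈ R1, ∑ i, g a i * ρ i = 0)
    {ρ : Fin r → κ} (hρ : ρ ∈ R1) :
    ∃ ρ' ∈ R1, (∀ g : K →ₗ[κ] (Fin r → κ), (∀ y, ∑ i, g y i * Φ.f y i = 0) →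
      ∑ i, g a i * ρ i = ∑ i, g e0 i * ρ' i) ∧ ∀ c : K, hh ρ (Φ.d a c) = hh ρ' (Φ.d e0 c) := by
  classical
  let b := Module.finBasis κ R1
  have hker : (⨅ j, LinearMap.ker (evS Φ e0 (b j : Fin r → κ))) ≤ LinearMap.ker (evS Φ a ρ) := by
    intro g hg
    rw [Submodule.mem_iInf] at hg
    rw [LinearMap.mem_ker]
    refine hlr g g.2 ?_ ρ hρ
    intro σ hσ
    have h3 : σ = ∑ j, b.repr ⟨σ, hσ⟩ j • (b j : Fin r → κ) := by
      have h1 : σ = ((∑ j, b.repr ⟨σ, hσ⟩ j • b j : R1) : Fin r → κ) := by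
        rw [b.sum_repr]
      conv_lhs => rw [h1]
      rw [Submodule.coe_sum]
      rfl
    rw [h3]
    have h4 : ∀ i, (g : K →ₗ[κ] (Fin r → κ)) e0 i * (∑ j, b.repr ⟨σ, hσ⟩ j • (b j : Fin r → κ)) i =
        ∑ j, b.repr ⟨σ, hσ⟩ j * ((g : K →ₗ[κ] (Fin r → κ)) e0 i * (b j : Fin r → κ) i) := by
      intro i
      rw [Finset.sum_apply, Finset.mul_sum]
      refine Finset.sum_congr rfl fun j _ => ?_
      rw [Pi.smul_apply, smul_eq_mul]
      ring
    rw [Finset.sum_congr rfl fun i _ => h4 i, Finset.sum_comm]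
    refine Finset.sum_eq_zero fun j _ => ?_
    rw [← Finset.mul_sum]
    have h5 : ∑ i, (g : K →ₗ[κ] (Fin r → κ)) e0 i * (b j : Fin r → κ) i = 0 := hg j
    rw [h5, mul_zero]
  have hmem : evS Φ a ρ ∈ Submodule.span κ (Set.range fun j => evS Φ e0 (b j : Fin r → κ)) :=
    mem_span_of_iInf_ker_le_ker (𝕜 := κ) (E := syzSub Φ) hker
  rw [Submodule.mem_span_range_iff_exists_fun] at hmem
  obtain ⟨c, hc⟩ := hmem
  refine ⟨∑ j, c j • (b j : Fin r → κ), sum_mem fun j _ => R1.smul_mem _ (b j).2, ?_, ?_⟩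
  · intro g hg
    have h1 := LinearMap.congr_fun hc ⟨g, hg⟩
    rw [LinearMap.sum_apply] at h1
    have h3 : ∑ j, c j * ∑ i, g e0 i * (b j : Fin r → κ) i = ∑ i, g a i * ρ i := h1
    rw [← h3]
    simp only [Finset.mul_sum, Finset.sum_apply, Pi.smul_apply, smul_eq_mul]
    rw [Finset.sum_comm]
    refine Finset.sum_congr rfl fun i _ => Finset.sum_congr rfl fun j _ => ?_
    ring
  · intro d
    set ρ' := ∑ j, c j • (b j : Fin r → κ)
    have hρ' : ρ' ∈ R1 := sum_mem fun j _ => R1.smul_mem _ (b j).2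
    by_contra hne
    obtain ⟨π, hadd, hsq, hπ⟩ := exists_halfFrob h2 (sub_ne_zero.2 hne)
    apply hπ
    let v := Module.finBasis κ K
    have hsyz := gsyz_syz h2 hΦ v hadd hsq d
    have hNR : ∀ u ∈ R1, ∀ p q : K, hh u (Φ.t p q d) = 0 := fun u hu p q =>
      iso_NR h2 hΦ (hR1 hu) (Φ.t_mem_R p q d)
    have h1 := LinearMap.congr_fun hc ⟨Φ.gsyz v π d, hsyz⟩
    rw [LinearMap.sum_apply] at h1
    have h3 : ∑ j, c j * ∑ i, Φ.gsyz v π d e0 i * (b j : Fin r → κ) i =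
        ∑ i, Φ.gsyz v π d a i * ρ i := h1
    have h4 : ∑ j, c j * ∑ i, Φ.gsyz v π d e0 i * (b j : Fin r → κ) i =
        ∑ i, Φ.gsyz v π d e0 i * ρ' i := by
      simp only [ρ', Finset.mul_sum, Finset.sum_apply, Pi.smul_apply, smul_eq_mul]
      rw [Finset.sum_comm]
      refine Finset.sum_congr rfl fun i _ => Finset.sum_congr rfl fun j _ => ?_
      ring
    rw [h4, gsyz_dot v hadd hsq d e0 ρ' (fun p q => hNR ρ' hρ' p q),
      gsyz_dot v hadd hsq d a ρ (fun p q => hNR ρ hρ p q)] at h3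
    have h5 : π (hh ρ (Φ.d a d)) = π (hh ρ (Φ.d a d) - hh ρ' (Φ.d e0 d)) + π (hh ρ' (Φ.d e0 d)) := by
      rw [← hadd, sub_add_cancel]
    rw [← h3] at h5
    exact right_eq_add.1 h5

/-- (K): the operators `κ_a` for an LR pair. -/
theorem exists_kap [Infinite κ] [FiniteDimensional κ K] (h2 : (2 : κ) = 0) (hΦ : Φ.Iso) (e0 : K)
    (S : Submodule κ K) (R1 : Submodule κ (Fin r → κ)) (hR1 : R1 ≤ Φ.N)
    (hlr : ∀ g : K →ₗ[κ] (Fin r → κ), (∀ y, ∑ i, g y i * Φ.f y i = 0) →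
      (∀ ρ ∈ R1, ∑ i, g e0 i * ρ i = 0) → ∀ s ∈ S, ∀ ρ ∈ R1, ∑ i, g s i * ρ i = 0) :
    ∃ kap : K → (Fin r → κ) → (Fin r → κ), ∀ a ∈ S, ∀ ρ ∈ R1, kap a ρ ∈ R1 ∧
      (∀ g : K →ₗ[κ] (Fin r → κ), (∀ y, ∑ i, g y i * Φ.f y i = 0) →
        ∑ i, g a i * ρ i = ∑ i, g e0 i * kap a ρ i) ∧
      ∀ c : K, hh ρ (Φ.d a c) = hh (kap a ρ) (Φ.d e0 c) := by
  classical
  have h : ∀ (a : K) (ρ : Fin r → κ), ∃ ρ' : Fin r → κ, a ∈ S → ρ ∈ R1 → (ρ' ∈ R1 ∧
      (∀ g : K →ₗ[κ] (Fin r → κ), (∀ y, ∑ i, g y i * Φ.f y i = 0) →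
        ∑ i, g a i * ρ i = ∑ i, g e0 i * ρ' i) ∧
      ∀ c : K, hh ρ (Φ.d a c) = hh ρ' (Φ.d e0 c)) := by
    intro a ρ
    by_cases ha : a ∈ S
    · by_cases hρ : ρ ∈ R1
      · obtain ⟨ρ', h1, h2', h3⟩ := exists_kap_one h2 hΦ e0 a R1 hR1
          (fun g hg h ρ hρ => hlr g hg h a ha ρ hρ) hρ
        exact ⟨ρ', fun _ _ => ⟨h1, h2', h3⟩⟩
      · exact ⟨0, fun _ h => absurd h hρ⟩
    · exact ⟨0, fun h => absurd h ha⟩
  choose kap hkap using h
  exact ⟨kap, fun a ha ρ hρ => hkap a ρ ha hρ⟩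

end CMap

end MP2619.CUB
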