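import Pool.Agent.Lib.MP_2619d0_ag.CUB.D4

set_option autoImplicit false

namespace MP2619.CUB

open Finset

variable {κ : Type*} [Field κ] {r : ℕ}

theorem sum3 {ι : Type*} [Fintype ι] [DecidableEq ι] (F : ι → κ) (A B C : ι) (a b c : κ)
    (hAB : A ≠ B) (hAC : A ≠ C) (hBC : B ≠ C) :
    ∑ S, (if S = A then a else if S = B then b else if S = C then c else 0) ^ 2 * F S =
      a ^ 2 * F A + b ^ 2 * F B + c ^ 2 * F C := by
  have h : ∀ S, (if S = A then a else if S = B then b else if S = C then c else 0) ^ 2 * F S =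
      (if S = A then a ^ 2 * F A else 0) + (if S = B then b ^ 2 * F B else 0) +
        (if S = C then c ^ 2 * F C else 0) := by
    intro S
    by_cases h1 : S = A
    · subst h1
      rw [if_pos rfl, if_pos rfl, if_neg hAB, if_neg hAC]
      ring
    · by_cases h2 : S = B
      · subst h2
        rw [if_neg h1, if_pos rfl, if_neg h1, if_pos rfl, if_neg hBC]
        ring
      · by_cases h3 : S = C
        · subst h3
          rw [if_neg h1, if_neg h2, if_pos rfl, if_neg h1, if_neg h2, if_pos rfl]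
          ring
        · rw [if_neg h1, if_neg h2, if_neg h3, if_neg h1, if_neg h2, if_neg h3]
          ring
  rw [Finset.sum_congr rfl fun S _ => h S, Finset.sum_add_distrib, Finset.sum_add_distrib]
  simp


theorem FP.key {x : Fin r → κ} (hF : FP x) (h2 : (2 : κ) = 0) {k : ℕ} (v : Fin k → (Fin r → κ))
    (hi : LinearIndependent κ (Fin.cons x v : Fin (k + 1) → (Fin r → κ))) (A B C : Finset (Fin k))
    (hAB : A ≠ B) (hAC : A ≠ C) (hBC : B ≠ C) (hA : Even A.card) (hB : Even B.card) (hC : Even C.card)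
    (b c : κ) : ∏ i ∈ A, hh (v i) x ≠ b ^ 2 * ∏ i ∈ B, hh (v i) x + c ^ 2 * ∏ i ∈ C, hh (v i) x := by
  intro h
  have h3 := hF k v hi 0 (fun S => if S = A then 1 else if S = B then b else
    if S = C then c else 0) (by
      intro S hS
      rw [add_zero] at hS
      have n1 : S ≠ A := by
        rintro rfl
        exact (Nat.not_even_iff_odd.2 hS) hA
      have n2 : S ≠ B := by
        rintro rfl
        exact (Nat.not_even_iff_odd.2 hS) hB
      have n3 : S ≠ C := by
        rintro rfl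
        exact (Nat.not_even_iff_odd.2 hS) hC
      simp only [if_neg n1, if_neg n2, if_neg n3]) (by
      rw [sum3 _ _ _ _ _ _ _ hAB hAC hBC, h]
      linear_combination (b ^ 2 * ∏ i ∈ B, hh (v i) x + c ^ 2 * ∏ i ∈ C, hh (v i) x) * h2) A
  simp at h3

theorem FP.key2 {x : Fin r → κ} (hF : FP x) (h2 : (2 : κ) = 0) {k : ℕ} (v : Fin k → (Fin r → κ))
    (hi : LinearIndependent κ (Fin.cons x v : Fin (k + 1) → (Fin r → κ))) (A B : Finset (Fin k))
    (hAB : A ≠ B) (hA : Even A.card) (hB : Even B.card)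
    (b : κ) : ∏ i ∈ A, hh (v i) x ≠ b ^ 2 * ∏ i ∈ B, hh (v i) x := by
  intro h
  have h3 := hF k v hi 0 (fun S => if S = A then 1 else if S = B then b else 0) (by
      intro S hS
      rw [add_zero] at hS
      have n1 : S ≠ A := by
        rintro rfl
        exact (Nat.not_even_iff_odd.2 hS) hA
      have n2 : S ≠ B := by
        rintro rfl
        exact (Nat.not_even_iff_odd.2 hS) hB
      simp only [if_neg n1, if_neg n2]) (by
      have e : ∀ S : Finset (Fin k), (if S = A then (1 : κ) else if S = B then b else 0) ^ 2 *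
          ∏ i ∈ S, hh (v i) x = (if S = A then ∏ i ∈ A, hh (v i) x else 0) +
          (if S = B then b ^ 2 * ∏ i ∈ B, hh (v i) x else 0) := by
        intro S
        by_cases c1 : S = A
        · subst c1
          rw [if_pos rfl, if_pos rfl, if_neg hAB]
          ring
        · by_cases c2 : S = B
          · subst c2
            rw [if_neg c1, if_pos rfl, if_neg c1, if_pos rfl]
            ring
          · rw [if_neg c1, if_neg c2, if_neg c1, if_neg c2]
            ring
      rw [Finset.sum_congr rfl fun S _ => e S, Finset.sum_add_distrib]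
      simp only [Finset.sum_ite_eq', Finset.mem_univ, if_true]
      rw [h]
      linear_combination (b ^ 2 * ∏ i ∈ B, hh (v i) x) * h2) A
  simp at h3

theorem li_cons {V : Type*} [AddCommGroup V] [Module κ V] {n : ℕ} {u : V} {v : Fin n → V}
    (h : LinearIndependent κ v) (hu : u ∉ Submodule.span κ (Set.range v)) :
    LinearIndependent κ (Matrix.vecCons u v) := linearIndependent_finCons.2 ⟨h, hu⟩

theorem rg1 {V : Type*} (a : V) : Set.range ![a] = {a} := by
  ext y
  simp only [Set.mem_range, Fin.exists_fin_succ, Set.mem_singleton_iff]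
  simp
  tauto

theorem rg2 {V : Type*} (a b : V) : Set.range ![b, a] = {a, b} := by
  ext y
  simp only [Set.mem_range, Fin.exists_fin_succ, Set.mem_insert_iff, Set.mem_singleton_iff]
  simp
  tauto

theorem rg3 {V : Type*} (a b c : V) : Set.range ![c, b, a] = {a, b, c} := by
  ext y
  simp only [Set.mem_range, Fin.exists_fin_succ, Set.mem_insert_iff, Set.mem_singleton_iff]
  simp
  tauto

theorem rg4 {V : Type*} (a b c d : V) : Set.range ![d, c, b, a] = {a, b, c, d} := by
  ext y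
  simp only [Set.mem_range, Fin.exists_fin_succ, Set.mem_insert_iff, Set.mem_singleton_iff]
  simp
  tauto

theorem li1 {V : Type*} [AddCommGroup V] [Module κ V] {x : V} (hx : x ≠ 0) :
    LinearIndependent κ ![x] := linearIndependent_unique_iff.2 hx

theorem li2 {x u t : Fin r → κ} (hx : x ≠ 0) (ht : t ∉ Submodule.span κ {x})
    (hu : u ∉ Submodule.span κ {x, t}) :
    LinearIndependent κ (Fin.cons x ![u, t] : Fin 3 → (Fin r → κ)) := by
  have h1 : LinearIndependent κ ![u, t, x] :=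
    li_cons (li_cons (li1 hx) (by rwa [rg1])) (by rwa [rg2])
  have h2 := h1.comp ![2, 0, 1] (by decide)
  convert h2 using 1
  ext i
  fin_cases i <;> rfl

theorem li3 {x u t t' : Fin r → κ} (hx : x ≠ 0) (ht : t ∉ Submodule.span κ {x})
    (ht' : t' ∉ Submodule.span κ {x, t}) (hu : u ∉ Submodule.span κ {x, t, t'}) :
    LinearIndependent κ (Fin.cons x ![u, t, t'] : Fin 4 → (Fin r → κ)) := by
  have h1 : LinearIndependent κ ![u, t', t, x] :=
    li_cons (li_cons (li_cons (li1 hx) (by rwa [rg1])) (by rwa [rg2])) (by rwa [rg3])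
  have h2 := h1.comp ![3, 0, 2, 1] (by decide)
  convert h2 using 1
  ext i
  fin_cases i <;> rfl

theorem li4 {x u t t' t'' : Fin r → κ} (hx : x ≠ 0) (ht : t ∉ Submodule.span κ {x})
    (ht' : t' ∉ Submodule.span κ {x, t}) (ht'' : t'' ∉ Submodule.span κ {x, t, t'})
    (hu : u ∉ Submodule.span κ {x, t, t', t''}) :
    LinearIndependent κ (Fin.cons x ![u, t, t', t''] : Fin 5 → (Fin r → κ)) := by
  have h1 : LinearIndependent κ ![u, t'', t', t, x] :=
    li_cons (li_cons (li_cons (li_cons (li1 hx) (by rwa [rg1])) (by rwa [rg2])) (by rwa [rg3]))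
      (by rwa [rg4])
  have h2 := h1.comp ![4, 0, 3, 2, 1] (by decide)
  convert h2 using 1
  ext i
  fin_cases i <;> rfl

/-- the product lemma for pairs -/
theorem FP.pair {x : Fin r → κ} (hF : FP x) (h2 : (2 : κ) = 0) (hx : x ≠ 0) (hxx : hh x x = 0)
    {T : Submodule κ (Fin r → κ)} {u t t' t'' : Fin r → κ} (hu : u ∉ Submodule.span κ {x} ⊔ T)
    (htT : t ∈ T) (ht : t ∉ Submodule.span κ {x}) (ht' : t' ∈ T) (ht'' : t'' ∈ T) :
    hh u x * hh t x ≠ hh t' x * hh t'' x := by
  intro h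
  have hxT : x ∈ Submodule.span κ {x} ⊔ T :=
    Submodule.mem_sup_left (Submodule.mem_span_singleton_self x)
  have hle : ∀ s : Set (Fin r → κ), s ⊆ (Submodule.span κ {x} ⊔ T : Submodule κ (Fin r → κ)) →
      u ∉ Submodule.span κ s := fun s hs hus => hu (Submodule.span_le.2 hs hus)
  have mT : ∀ {y}, y ∈ T → y ∈ Submodule.span κ {x} ⊔ T := fun hy => Submodule.mem_sup_right hy
  have two : ∀ y, y ∈ Submodule.span κ {x, t} → ∃ a, hh y x = a ^ 2 * hh t x := by
    intro y hy
    obtain ⟨a0, a1, ha⟩ := Submodule.mem_span_pair.1 hy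
    refine ⟨a1, ?_⟩
    rw [← ha, hh_add_left h2, hh_smul_left, hh_smul_left, hxx]
    ring
  by_cases c1 : t' ∈ Submodule.span κ {x, t}
  · obtain ⟨a, ha⟩ := two _ c1
    by_cases c2 : t'' ∈ Submodule.span κ {x, t}
    · obtain ⟨b, hb⟩ := two _ c2
      have hi := li2 hx ht (hle {x, t} (by
        rintro y (rfl | rfl)
        · exact hxT
        · exact mT htT))
      refine hF.key2 h2 ![u, t] hi {0, 1} ∅ (by decide) (by decide) (by decide) (a * b * hh t x) ?_
      rw [Finset.prod_pair (by decide), Finset.prod_empty]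
      simp only [Matrix.cons_val_zero, Matrix.cons_val_one]
      rw [h, ha, hb]
      ring
    · have hi := li3 hx ht c2 (hle {x, t, t''} (by
        rintro y (rfl | rfl | rfl)
        · exact hxT
        · exact mT htT
        · exact mT ht''))
      refine hF.key2 h2 ![u, t, t''] hi {0, 1} {1, 2} (by decide) (by decide) (by decide) a ?_
      rw [Finset.prod_pair (by decide), Finset.prod_pair (by decide)]
      simp only [Matrix.cons_val_zero, Matrix.cons_val_one, Matrix.cons_val]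
      rw [h, ha]
      ring
  · by_cases c2 : t'' ∈ Submodule.span κ {x, t, t'}
    · have hi := li3 hx ht c1 (hle {x, t, t'} (by
        rintro y (rfl | rfl | rfl)
        · exact hxT
        · exact mT htT
        · exact mT ht'))
      obtain ⟨a0, a1, a2, ha⟩ := Submodule.mem_span_triple.1 c2
      have hb : hh t'' x = a1 ^ 2 * hh t x + a2 ^ 2 * hh t' x := by
        rw [← ha, hh_add_left h2, hh_add_left h2, hh_smul_left, hh_smul_left, hh_smul_left, hxx]
        ring
      refine hF.key h2 ![u, t, t'] hi {0, 1} {1, 2} ∅ (by decide) (by decide) (by decide) (by decide)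
        (by decide) (by decide) a1 (a2 * hh t' x) ?_
      rw [Finset.prod_pair (by decide), Finset.prod_pair (by decide), Finset.prod_empty]
      simp only [Matrix.cons_val_zero, Matrix.cons_val_one, Matrix.cons_val]
      rw [h, hb]
      ring
    · have hi := li4 hx ht c1 c2 (hle {x, t, t', t''} (by
        rintro y (rfl | rfl | rfl | rfl)
        · exact hxT
        · exact mT htT
        · exact mT ht'
        · exact mT ht''))
      refine hF.key2 h2 ![u, t, t', t''] hi {0, 1} {2, 3} (by decide) (by decide) (by decide) 1 ?_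
      rw [Finset.prod_pair (by decide), Finset.prod_pair (by decide)]
      simp only [Matrix.cons_val_zero, Matrix.cons_val_one, Matrix.cons_val]
      rw [h]
      ring


namespace CMap

variable {K : Type*} [AddCommGroup K] [Module κ K]

variable [Infinite κ]

/-- the LR pair lemma: (w, b, ρ) solves `[w|e0] + ρ = β_b` with `h(R1, β_b) = 0`; then `b = 0` -/
theorem LR_pair {Φ : CMap κ K (Fin r → κ)} (h2 : (2 : κ) = 0) (hΦ : Φ.Iso) {e0 : K}
    (hP : P1 (Φ.f e0)) (hF : FP (Φ.f e0)) (hinj : Function.Injective (Φ.d e0)) {n : ℕ}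
    (v : Fin n → K) {S : Submodule κ K} (hv : ∀ i, v i ∈ S) (he : e0 ∈ S)
    {R1 : Submodule κ (Fin r → κ)} (hR0 : R1 ≠ ⊥) (hxR : Φ.f e0 ∉ R1) (hRN : R1 ≤ Φ.N)
    (hNR : ∀ u ∈ Φ.N, ∀ ρ ∈ R1, hh u ρ = 0)
    (ht : ∀ a ∈ S, ∀ b ∈ S, ∀ c ∈ S, Φ.t a b c ∈ R1)
    (kap : K → (Fin r → κ) → (Fin r → κ)) (hk1 : ∀ a ∈ S, ∀ ρ ∈ R1, kap a ρ ∈ R1)
    (hk2 : ∀ a ∈ S, ∀ ρ ∈ R1, ∀ d, hh ρ (Φ.d a d) = hh (kap a ρ) (Φ.d e0 d))
    (w : Fin n → κ) {b : K} (hb : b ∈ S) {ρ : Fin r → κ} (hρ : ρ ∈ R1)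
    (hs : Φ.br v w e0 + ρ = Φ.d e0 b) (hH : ∀ ρ' ∈ R1, hh ρ' (Φ.d e0 b) = 0) : b = 0 := by
  have hself : ∀ z : Fin r → κ, z + z = 0 := by
    intro z
    have : z + z = (2 : κ) • z := by rw [two_smul]
    rw [this, h2, zero_smul]
  have hxx : hh (Φ.f e0) (Φ.f e0) = 0 := hΦ e0
  have hx0 : Φ.f e0 ≠ 0 := by
    intro h
    exact hxR (by rw [h]; exact zero_mem _)
  have hRR : ∀ ρ ∈ R1, ∀ ρ' ∈ R1, hh ρ ρ' = 0 := fun ρ h ρ' h' => hNR _ (hRN h) _ h'
  have hxρ : ∀ ρ' ∈ R1, hh ρ' (Φ.f e0) = 0 → ρ' = 0 := by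
    intro ρ' h h0
    obtain ⟨a, ha⟩ := hP _ h0
    by_cases ha0 : a = 0
    · rw [ha, ha0, zero_smul]
    · exfalso
      apply hxR
      have : Φ.f e0 = a⁻¹ • ρ' := by rw [ha, smul_smul, inv_mul_cancel₀ ha0, one_smul]
      rw [this]
      exact R1.smul_mem _ h
  set X := Φ.br v w e0 with hX
  have hXe : X = Φ.d e0 b + ρ := by
    rw [← hs, add_assoc, hself, add_zero]
  have hRX : ∀ ρ' ∈ R1, hh ρ' X = 0 := by
    intro ρ' h
    rw [hXe, hh_add_right, hH _ h, hRR _ h _ hρ, add_zero]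
  -- (1)
  have h1 : ∀ ρ' ∈ R1, hh ρ' (Φ.br v w b) = 0 := by
    intro ρ' h
    rw [br_apply, hh_sum_right]
    refine Finset.sum_eq_zero fun i _ => ?_
    rw [hh_smul_right, hk2 _ (hv i) _ h, hH _ (hk1 _ (hv i) _ h), mul_zero]
  -- (2)
  have hfe : Φ.d e0 e0 = Φ.f e0 := Φ.d_self e0
  set μ : Fin r → κ := ∑ i, w i • kap (v i) (Φ.t (v i) b e0) with hμ
  have hμR : μ ∈ R1 := by
    rw [hμ]
    exact sum_mem fun i _ => R1.smul_mem _ (hk1 _ (hv i) _ (ht _ (hv i) _ hb _ he))
  have hβγ : hh (Φ.d e0 b) (Φ.d b e0) = hh (Φ.d b e0) (Φ.f e0) := by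
    have := (iso_coef h2 hΦ e0 b).2.2.2
    linear_combination this - hh (Φ.d b e0) (Φ.f e0) * h2
  have hbr : hh (Φ.br v w b) (Φ.f e0) = hh X (Φ.d b e0) + hh μ (Φ.f e0) := by
    rw [hX, hμ, br_apply, br_apply, hh_sum_left h2, hh_sum_left h2, hh_sum_left h2,
      ← Finset.sum_add_distrib]
    refine Finset.sum_congr rfl fun i _ => ?_
    rw [hh_smul_left, hh_smul_left, hh_smul_left]
    have hI := iso_I1 h2 hΦ (v i) b e0 e0
    rw [hfe, hk2 _ (hv i) _ (ht _ (hv i) _ hb _ he), hfe] at hI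
    linear_combination w i ^ 2 * hI - (w i ^ 2 * (hh (Φ.d (v i) e0) (Φ.d b e0) +
      hh (kap (v i) (Φ.t (v i) b e0)) (Φ.f e0))) * h2
  have hXγ : hh X (Φ.d b e0) = hh (Φ.d b e0) (Φ.f e0) + hh (kap b ρ) (Φ.f e0) := by
    rw [hXe, hh_add_left h2, hβγ, hk2 _ hb _ hρ, hfe]
  obtain ⟨c, hc⟩ : ∃ c : κ, Φ.br v w b + (Φ.d b e0 + kap b ρ + μ) = c • Φ.f e0 := by
    apply hP
    rw [hh_add_left h2, hh_add_left h2, hh_add_left h2, hbr, hXγ]
    linear_combination (hh (Φ.d b e0) (Φ.f e0) + hh (kap b ρ) (Φ.f e0) + hh μ (Φ.f e0)) * h2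
  have hbw : Φ.br v w b = Φ.d b e0 + kap b ρ + μ + c • Φ.f e0 := by
    rw [← hc, add_comm (Φ.br v w b), ← add_assoc, hself, zero_add]
  have hkb : kap b ρ ∈ R1 := hk1 _ hb _ hρ
  have e3 : ∀ ρ' ∈ R1, hh (kap b ρ') (Φ.f e0) = c * hh ρ' (Φ.f e0) := by
    intro ρ' h
    have h3 := h1 _ h
    rw [hbw, hh_add_right, hh_add_right, hh_add_right, hk2 _ hb _ h, hfe, hRR _ h _ hkb,
      hRR _ h _ hμR, hh_smul_right] at h3
    linear_combination h3 - c * hh ρ' (Φ.f e0) * h2
  -- (3)
  have hT : ∑ e, w e * hh (Φ.br v w (v e)) (Φ.d e0 b) = 0 := by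
    have h := iso_I0 h2 hΦ v w e0
    rw [← hX] at h
    unfold th hq at h
    rw [← h]
    refine Finset.sum_congr rfl fun e _ => ?_
    congr 1
    have e1 : ∑ i, ∑ j, (if i < j then w i * w j else 0) * hh (Φ.t (v i) (v j) (v e)) X = 0 := by
      refine Finset.sum_eq_zero fun i _ => Finset.sum_eq_zero fun j _ => ?_
      rw [hRX _ (ht _ (hv i) _ (hv j) _ (hv e)), mul_zero]
    rw [e1, add_zero]
    have e2 : hh (Φ.br v w (v e)) (Φ.d e0 b) = hh (Φ.br v w (v e)) X := by
      rw [hXe, hh_add_right, hNR _ (Φ.br_mem _ _ _) _ hρ, add_zero]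
    rw [e2, br_apply, hh_sum_left h2]
    refine Finset.sum_congr rfl fun i _ => ?_
    rw [hh_smul_left]
  have hT2 : ∑ e, w e * hh (Φ.br v w (v e)) (Φ.d e0 b) = hh X (Φ.br v w b) := by
    have e1 : ∀ e, w e * hh (Φ.br v w (v e)) (Φ.d e0 b) =
        ∑ i, w e * (w i ^ 2 * hh (Φ.d (v i) e0) (Φ.d (v e) b)) := by
      intro e
      rw [br_apply, hh_sum_left h2, Finset.mul_sum]
      refine Finset.sum_congr rfl fun i _ => ?_
      rw [hh_smul_left]
      have hI := iso_I1 h2 hΦ (v i) (v e) e0 b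
      rw [hk2 _ (hv i) _ (ht _ (hv i) _ (hv e) _ he), hH _ (hk1 _ (hv i) _ (ht _ (hv i) _ (hv e) _ he))]
        at hI
      linear_combination w e * w i ^ 2 * hI -
        (w e * w i ^ 2 * hh (Φ.d (v i) e0) (Φ.d (v e) b)) * h2
    rw [Finset.sum_congr rfl fun e _ => e1 e, hX, br_apply, hh_sum_left h2, Finset.sum_comm]
    refine Finset.sum_congr rfl fun i _ => ?_
    rw [hh_smul_left, br_apply, hh_sum_right, Finset.mul_sum]
    refine Finset.sum_congr rfl fun e _ => ?_
    rw [hh_smul_right]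
    ring
  have e4 : hh (Φ.d b e0) (Φ.f e0) = c * hh (Φ.d e0 b) (Φ.f e0) := by
    have h := hT2.symm.trans hT
    have hβN : Φ.d e0 b ∈ Φ.N := Φ.d_mem _ _
    rw [hXe, hh_add_left h2, h1 _ hρ, add_zero, hbw, hh_add_right, hh_add_right, hh_add_right,
      hNR _ hβN _ hkb, hNR _ hβN _ hμR, hβγ, hh_smul_right] at h
    linear_combination h - c * hh (Φ.d e0 b) (Φ.f e0) * h2
  obtain ⟨ρ', hρ', hρ0⟩ := Submodule.exists_mem_ne_zero_of_ne_bot hR0
  have hxρ' : hh ρ' (Φ.f e0) ≠ 0 := fun h => hρ0 (hxρ _ hρ' h)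
  -- (4)
  have hXb : hh (Φ.d e0 b) (Φ.f e0) = 0 := by
    by_contra hne
    have hxγ : hh (Φ.f e0) (Φ.d b e0) ≠ 0 := by
      have := (iso_coef h2 hΦ e0 b).2.1
      intro h
      rw [h, zero_add] at this
      exact hne this
    have hu : Φ.d b e0 ∉ Submodule.span κ {Φ.f e0} ⊔ (R1 ⊔ Submodule.span κ {Φ.d e0 b}) := by
      intro hmem
      apply hxγ
      have hle : Submodule.span κ {Φ.f e0} ⊔ (R1 ⊔ Submodule.span κ {Φ.d e0 b}) ≤
          LinearMap.ker (hr (Φ.f e0)) := by
        rw [sup_le_iff, sup_le_iff, Submodule.span_singleton_le_iff_mem,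
          Submodule.span_singleton_le_iff_mem]
        refine ⟨by rw [LinearMap.mem_ker, hr_apply, hxx], fun z hz => ?_, ?_⟩
        · rw [LinearMap.mem_ker, hr_apply, hNR _ (Φ.f_mem _) _ hz]
        · rw [LinearMap.mem_ker, hr_apply, iso_fd h2 hΦ]
      have := hle hmem
      rwa [LinearMap.mem_ker, hr_apply] at this
    refine hF.pair h2 hx0 hxx hu (t := ρ') (t' := Φ.d e0 b) (t'' := kap b ρ')
      (Submodule.mem_sup_left hρ') ?_
      (Submodule.mem_sup_right (Submodule.mem_span_singleton_self _))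
      (Submodule.mem_sup_left (hk1 _ hb _ hρ')) ?_
    · intro h
      obtain ⟨a, ha⟩ := Submodule.mem_span_singleton.1 h
      apply hxρ'
      rw [← ha, hh_smul_left, hxx, mul_zero]
    · rw [e3 _ hρ', e4]
      ring
  obtain ⟨a, ha⟩ := hP _ hXb
  have hba : b = a • e0 := by
    apply hinj
    rw [ha, map_smul, hfe]
  have h5 := hH _ hρ'
  rw [ha, hh_smul_right] at h5
  rcases mul_eq_zero.1 h5 with h | h
  · rw [hba, h, zero_smul]
  · exact absurd h hxρ'

end CMap

end MP2619.CUB
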