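import Pool.Agent.Lib.MP_2619d0_ag.CUB.HC
import Pool.Agent.Lib.MP_2619d0_ag.CUB.HT1
import Pool.Agent.Lib.MP_2619d0_ag.CUB.HT2
import Pool.Agent.Lib.MP_2619d0_ag.CUB.LRP
import Pool.Agent.Lib.MP_2619d0_ag.CUB.A2
import Pool.Agent.Lib.MP_2619d0_ag.CUB.H2
import Pool.Agent.Lib.MP_2619d0_ag.CUB.H3
import Pool.Agent.Lib.MP_2619d0_ag.CUB.KAP
import Pool.Agent.Lib.MP_2619d0_ag.CUB.FR
import Pool.Agent.Lib.MP_2619d0_ag.CUB.FP1

/-!
Final assembly of the linear algebra: `3 dim K ≤ 2 r + 2`.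
-/

set_option autoImplicit false

namespace MP2619.CUB

open Finset CMap Module

variable {κ K : Type*} [Field κ] [AddCommGroup K] [Module κ K] {r : ℕ}

theorem P1.mem {x : Fin r → κ} (hP : P1 x) (u : Fin r → κ) (h : hh u x = 0) :
    u ∈ Submodule.span κ {x} := by
  obtain ⟨c, rfl⟩ := hP u h
  exact Submodule.mem_span_singleton.2 ⟨c, rfl⟩

theorem hX_of {Φ : CMap κ K (Fin r → κ)} {e0 : K} (hP : P1 (Φ.f e0))
    (hinj : Function.Injective (Φ.d e0)) (b : K) (h : hh (Φ.d e0 b) (Φ.f e0) = 0) :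
    b ∈ Submodule.span κ {e0} := by
  obtain ⟨c, hc⟩ := hP _ h
  rw [← Φ.d_self, ← map_smul] at hc
  exact Submodule.mem_span_singleton.2 ⟨c, (hinj hc).symm⟩

theorem x_not_mem_R [Infinite κ] [FiniteDimensional κ K] (h2 : (2 : κ) = 0)
    {Φ : CMap κ K (Fin r → κ)} (hΦ : Φ.Iso) {e0 : K} (hP : P1 (Φ.f e0))
    (hinj : Function.Injective (Φ.d e0)) (hn : 2 ≤ finrank κ K) : Φ.f e0 ∉ Φ.R := by
  intro hx
  have h1 : (⊤ : Submodule κ K) ≤ Submodule.span κ {e0} := fun b _ =>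
    hX_of hP hinj b (iso_NR h2 hΦ (Φ.d_mem _ _) hx)
  have h3 := Submodule.finrank_mono h1
  have h4 := finrank_span_le_card (R := κ) ({e0} : Set K)
  rw [finrank_top] at h3
  simp at h4
  omega

/-- FINAL LINEAR ALGEBRA THEOREM -/
theorem LA_final [Infinite κ] [FiniteDimensional κ K] (h2 : (2 : κ) = 0)
    {Φ : CMap κ K (Fin r → κ)} (hΦ : Φ.Iso) (e0 : K) (hinj : Function.Injective (Φ.d e0))
    (hP : P1 (Φ.f e0)) (hF : FP (Φ.f e0)) (hn : 2 ≤ finrank κ K) :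
    3 * finrank κ K ≤ 2 * r + 2 := by
  have he0 : e0 ≠ 0 := by
    rintro rfl
    have hK : ∀ y : K, y = 0 := fun y => hinj (by rw [Φ.d_zero, Φ.d_zero])
    have : Subsingleton K := ⟨fun a b => (hK a).trans (hK b).symm⟩
    have := finrank_zero_of_subsingleton (R := κ) (M := K)
    omega
  have hFR : Φ.FR e0 := FR_of_P1 h2 hΦ hP he0
  have hxx : hh (Φ.f e0) (Φ.f e0) = 0 := hΦ e0
  obtain ⟨g0, hg0, hge⟩ := hFR (sqv (Φ.f e0)) hxx
  obtain ⟨S, R1, hPair⟩ := exists_pair h2 hΦ e0 g0 hg0 hge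
  have hxR := x_not_mem_R h2 hΦ hP hinj hn
  have hX := hX_of hP hinj
  set v := finBasis κ S with hv
  by_cases hR : R1 = ⊥
  · subst hR
    refine count3 h2 hΦ e0 g0 hg0 hge hinj hX (fun u hu => hP.mem u hu) hn S hPair v ?_
    have ht : ∀ a b c : S, (Φ.comp S.subtype).t a b c = 0 := by
      intro a b c
      have := hPair.t_mem a a.2 b b.2 c c.2
      simpa using this
    have hrz := finrank_KK_RZ h2 (hΦ.comp S.subtype) ht v (e0 := ⟨e0, hPair.e0_mem⟩) hP hF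
      (by
        intro a b hab
        exact Subtype.ext (hinj hab))
    unfold CMap.KK CMap.EE at hrz
    have e1 : ((Φ.comp S.subtype).br v).flip ⟨e0, hPair.e0_mem⟩ = (Φ.br (fun i => (v i : K))).flip e0 := by
      refine LinearMap.ext fun w => ?_
      rw [LinearMap.flip_apply, LinearMap.flip_apply, br_apply, br_apply]
      rfl
    rw [e1] at hrz
    exact hrz
  · have hxR1 : Φ.f e0 ∉ R1 := fun h => hxR (hPair.R_le h)
    obtain ⟨kap, hk⟩ := exists_kap h2 hΦ e0 S R1 (hPair.R_le.trans Φ.R_le_N) hPair.lr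
    have hk1 := fun a ha ρ hρ => (hk a ha ρ hρ).1
    have hk2 := fun a ha ρ hρ => (hk a ha ρ hρ).2.2
    have key := count2 h2 hΦ e0 g0 hg0 hge hinj hX S R1 hPair v (by
      intro w b ρ hb hρ hs hH
      exact LR_pair h2 hΦ hP hF hinj (fun i => (v i : K)) (fun i => (v i).2) hPair.e0_mem hR hxR1
        (hPair.R_le.trans Φ.R_le_N) (fun u hu ρ hρ => iso_NR h2 hΦ hu (hPair.R_le hρ)) hPair.t_mem
        kap hk1 hk2 w hb hρ hs hH)
    omega

/-- the same with the hypothesis that the derivatives of `x = Φ(e0)` fill `h(x, ·) = 0` -/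
theorem LA_DER [Infinite κ] [FiniteDimensional κ K] (h2 : (2 : κ) = 0)
    {Φ : CMap κ K (Fin r → κ)} (hΦ : Φ.Iso) (e0 : K) (hinj : Function.Injective (Φ.d e0))
    (hD : DER (Φ.f e0)) (hn : 2 ≤ finrank κ K) : 3 * finrank κ K ≤ 2 * r + 2 := by
  have hx : Φ.f e0 ≠ 0 := by
    intro h
    rw [← Φ.d_self] at h
    have he0 : e0 = 0 := hinj (by rw [h, map_zero])
    subst he0
    have hK : ∀ y : K, y = 0 := fun y => hinj (by rw [Φ.d_zero, Φ.d_zero])
    have : Subsingleton K := ⟨fun a b => (hK a).trans (hK b).symm⟩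
    have := finrank_zero_of_subsingleton (R := κ) (M := K)
    omega
  have hP : P1 (Φ.f e0) := by
    intro u hu
    obtain ⟨c, hc⟩ := Submodule.mem_span_singleton.1 (P1_of_DER h2 hx hD hu)
    exact ⟨c, hc.symm⟩
  exact LA_final h2 hΦ e0 hinj hP (FP_of_DER h2 hD) hn

end MP2619.CUB
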