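import Pool.Agent.Lib.MP_2619d0_ag.CUB.Main2
import Pool.Agent.Lib.MP_2619d0_ag.CUB.Bridge
import Pool.Agent.Lib.MP_2619d0_ag.CUB.HF
import Pool.Agent.Lib.MP_2619d0_ag.CUB.Any

/-!
Cubic families: the theorem over a field of small transcendence degree.
-/

set_option autoImplicit false

namespace MP2619.CUB

universe u

open MvPolynomial Pool.Agent.Lib.MP_2619d0_ag Pool.Agent.Lib.MP_2619d0_ag.T MP2619.T

/-- The linear algebra in the range `2 m + 7 ≤ 3 (k + 1)`. -/
theorem LA_of2 {m k : ℕ} (hmk : 2 * m + 7 ≤ 3 * (k + 1)) : LA.{u} m k := by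
  intro κ _ x Φ h
  obtain ⟨Ψ, -, hΨ, hΨx, hΨi, hder⟩ := h.exists_CMap
  have : Infinite κ := h.inf
  have h2 := h.two
  have hD : DER (Ψ.f (Pi.single 0 1)) := by
    rw [hΨx]
    exact hder
  have key := LA_DER h2 hΨ (Pi.single 0 1) hΨi hD (by
    rw [Module.finrank_fin_fun]
    omega)
  rw [Module.finrank_fin_fun] at key
  omega

/-- The theorem on families of parametrisations of degree at most three over a field of small
transcendence degree. -/
theorem fam_odd {m N : ℕ} {F : MvPolynomial (Fin (m+1+1)) ℂ} (hF : VG F) {E L : Type u} [Field E]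
    [Field L] [Algebra ℂ E] [Algebra ℂ L] [Algebra E L] [IsScalarTower ℂ E L] {e : ℕ} (he : e ≤ 3)
    (φ : Fin (m+1+1) → MvPolynomial (Fin N) E) (hφ : ∀ j, (φ j).IsHomogeneous e)
    (h0 : aeval φ F = 0) (p : Fin N → L) (x : Fin (m+1+1) → L)
    (hxd : x = fun j => aeval p (φ j)) (hx : HG F x) {D : ℕ} (hD : Algebra.trdeg ℂ E ≤ D)
    (hDm : 3 * D + 4 ≤ m) : ¬ Odd (Module.finrank (ratioField x) L) := by
  classical
  rcases Nat.lt_or_ge e 3 with h | h
  · exact low_any (by omega) hF (by omega) φ hφ h0 p x hxd hx hD (by omega)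
  · have he3 : e = 3 := by omega
    subst he3
    by_cases hcop : Cop φ
    · intro hodd
      obtain ⟨κ, fκ, x', Φ, hΦ⟩ := cub_reduction2 (by omega) hF φ hφ h0 hcop hD (by omega) p x hxd
        hx hodd
      exact LA_of2.{u} (m := m) (k := m - D) (by omega) κ x' Φ hΦ
    · exact factor_any (by omega) hF φ hφ h0 hcop p x hxd hx hD (by omega)

end MP2619.CUB
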