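import Pool.Agent.Lib.MP_2619d0_ag.CUB.D4

/-!
Linear syzygies of a cubic map in characteristic two, the pair `(S, R₁)`.
-/

set_option autoImplicit false

namespace MP2619.CUB

open Finset

/-- squares of the coordinates (Frobenius twist) -/
def sqv {κ : Type*} [Field κ] {r : ℕ} (u : Fin r → κ) : Fin r → κ := fun i => u i ^ 2

theorem sqv_dot {κ : Type*} [Field κ] {r : ℕ} (u v : Fin r → κ) : sqv u ⬝ᵥ v = hh u v := rfl

namespace CMap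

variable {κ K : Type*} [Field κ] [AddCommGroup K] [Module κ K] {r : ℕ}

theorem IsSyz.dot {Φ : CMap κ K (Fin r → κ)} {g : K →ₗ[κ] (Fin r → κ)} (hg : Φ.IsSyz g) (y : K) :
    g y ⬝ᵥ Φ.f y = 0 := hg y

variable {Φ : CMap κ K (Fin r → κ)} [Infinite κ]

theorem syz_coef (g : K →ₗ[κ] (Fin r → κ)) (hg : Φ.IsSyz g) (y z : K) :
    g y ⬝ᵥ Φ.d y z + g z ⬝ᵥ Φ.f y = 0 ∧ g y ⬝ᵥ Φ.d z y + g z ⬝ᵥ Φ.d y z = 0 := by
  have key := poly_zero 5 (fun k =>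
    if k = 0 then g y ⬝ᵥ Φ.f y else
    if k = 1 then g y ⬝ᵥ Φ.d y z + g z ⬝ᵥ Φ.f y else
    if k = 2 then g y ⬝ᵥ Φ.d z y + g z ⬝ᵥ Φ.d y z else
    if k = 3 then g y ⬝ᵥ Φ.f z + g z ⬝ᵥ Φ.d z y else g z ⬝ᵥ Φ.f z) (by
      intro s
      have h := hg.dot (y + s • z)
      rw [f_line, map_add, map_smul] at h
      simp only [add_dotProduct, dotProduct_add, smul_dotProduct, dotProduct_smul, smul_eq_mul] at h
      simp only [Finset.sum_range_succ, Finset.sum_range_zero]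
      norm_num
      linear_combination h)
  refine ⟨?_, ?_⟩
  · simpa using key 1 (by norm_num)
  · simpa using key 2 (by norm_num)

/-- (G1) -/
theorem syz_G1 (g : K →ₗ[κ] (Fin r → κ)) (hg : Φ.IsSyz g) (y z : K) :
    g y ⬝ᵥ Φ.d y z + g z ⬝ᵥ Φ.f y = 0 := (syz_coef g hg y z).1

/-- (G2): `<g(y), Φ_y(z)> = <g(z), Φ_z(y)>` -/
theorem syz_G2 (g : K →ₗ[κ] (Fin r → κ)) (hg : Φ.IsSyz g) (y z : K) :
    g y ⬝ᵥ Φ.d z y + g z ⬝ᵥ Φ.d y z = 0 := (syz_coef g hg y z).2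

/-- (G3): `<g(s), r(s,c,d)> + <g(c), Φ_d(s)> + <g(d), Φ_c(s)> = 0` -/
theorem syz_G3 (g : K →ₗ[κ] (Fin r → κ)) (hg : Φ.IsSyz g) (s c d : K) :
    g s ⬝ᵥ Φ.t s c d + g c ⬝ᵥ Φ.d s d + g d ⬝ᵥ Φ.d s c = 0 := by
  have key := poly_zero 4 (fun k =>
    if k = 0 then g s ⬝ᵥ Φ.d s d + g d ⬝ᵥ Φ.f s else
    if k = 1 then g s ⬝ᵥ Φ.t s c d + g c ⬝ᵥ Φ.d s d + g d ⬝ᵥ Φ.d s c else
    if k = 2 then g c ⬝ᵥ Φ.t s c d + g s ⬝ᵥ Φ.d c d + g d ⬝ᵥ Φ.d c s else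
      g c ⬝ᵥ Φ.d c d + g d ⬝ᵥ Φ.f c) (by
      intro t
      have h := syz_G1 g hg (s + t • c) d
      rw [f_line, d_line, map_add, map_smul] at h
      simp only [add_dotProduct, dotProduct_add, smul_dotProduct, dotProduct_smul, smul_eq_mul] at h
      simp only [Finset.sum_range_succ, Finset.sum_range_zero]
      norm_num
      linear_combination h)
  simpa using key 1 (by norm_num)

/-- (G4), four term relation for a linear syzygy -/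
theorem syz_G4 (g : K →ₗ[κ] (Fin r → κ)) (hg : Φ.IsSyz g) (a b c d : K) :
    g a ⬝ᵥ Φ.t b c d + g b ⬝ᵥ Φ.t a c d + g c ⬝ᵥ Φ.t a b d + g d ⬝ᵥ Φ.t a b c = 0 := by
  have key := poly_zero 3 (fun k =>
    if k = 0 then g a ⬝ᵥ Φ.t a c d + g c ⬝ᵥ Φ.d a d + g d ⬝ᵥ Φ.d a c else
    if k = 1 then g a ⬝ᵥ Φ.t b c d + g b ⬝ᵥ Φ.t a c d + g c ⬝ᵥ Φ.t a b d + g d ⬝ᵥ Φ.t a b c else
      g b ⬝ᵥ Φ.t b c d + g c ⬝ᵥ Φ.d b d + g d ⬝ᵥ Φ.d b c) (by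
      intro t
      have h := syz_G3 g hg (a + t • b) c d
      have e : Φ.t (a + t • b) c d = Φ.t a c d + t • Φ.t b c d := by
        simp only [map_add, map_smul, LinearMap.add_apply, LinearMap.smul_apply]
      rw [d_line, d_line, e, map_add, map_smul] at h
      simp only [add_dotProduct, dotProduct_add, smul_dotProduct, dotProduct_smul, smul_eq_mul] at h
      simp only [Finset.sum_range_succ, Finset.sum_range_zero]
      norm_num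
      linear_combination h)
  simpa using key 1 (by norm_num)

end CMap

open CMap Module

variable {κ K : Type*} [Field κ] [AddCommGroup K] [Module κ K] {r : ℕ}

/-- the pair `(S, R₁)` of Lemma 1 -/
structure LRPair (Φ : CMap κ K (Fin r → κ)) (e0 : K) (g0 : K →ₗ[κ] (Fin r → κ)) (S : Submodule κ K)
    (R1 : Submodule κ (Fin r → κ)) : Prop where
  e0_mem : e0 ∈ S
  R_le : R1 ≤ Φ.R
  codim : finrank κ S + finrank κ Φ.R = finrank κ K + finrank κ R1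
  g0_S : ∀ s ∈ S, ∀ ρ ∈ Φ.R, g0 s ⬝ᵥ ρ = 0
  g0_R : ∀ b : K, ∀ ρ ∈ R1, g0 b ⬝ᵥ ρ = 0
  t_mem : ∀ a ∈ S, ∀ b ∈ S, ∀ c ∈ S, Φ.t a b c ∈ R1
  lr : ∀ g : K →ₗ[κ] (Fin r → κ), Φ.IsSyz g → (∀ ρ ∈ R1, g e0 ⬝ᵥ ρ = 0) →
    ∀ s ∈ S, ∀ ρ ∈ R1, g s ⬝ᵥ ρ = 0

end MP2619.CUB
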