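import Pool.Agent.Lib.MP_2619d0_ag.CUB.H0

/-!
Lemma 1: existence of the pair `(S, R₁)`.
-/

set_option autoImplicit false

namespace MP2619.CUB

open Finset CMap Module

variable {κ K : Type*} [Field κ] [AddCommGroup K] [Module κ K] {r : ℕ}

namespace HC

/-- the pairing `S × R₁ → κ` of a linear map -/
noncomputable def pairing (g : K →ₗ[κ] (Fin r → κ)) (S : Submodule κ K)
    (R1 : Submodule κ (Fin r → κ)) : S →ₗ[κ] Module.Dual κ R1 :=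
  LinearMap.mk₂ κ (fun (s : S) (ρ : R1) => g (s : K) ⬝ᵥ (ρ : Fin r → κ))
    (fun a b c => by simp [add_dotProduct]) (fun s a b => by simp [smul_dotProduct])
    (fun a b c => by simp [dotProduct_add]) (fun s a b => by simp [dotProduct_smul])

theorem pairing_apply (g : K →ₗ[κ] (Fin r → κ)) (S : Submodule κ K)
    (R1 : Submodule κ (Fin r → κ)) (s : S) (ρ : R1) :
    pairing g S R1 s ρ = g (s : K) ⬝ᵥ (ρ : Fin r → κ) := rfl

/-- good pairs -/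
structure Good (Φ : CMap κ K (Fin r → κ)) (e0 : K) (S : Submodule κ K)
    (R1 : Submodule κ (Fin r → κ)) : Prop where
  e0_mem : e0 ∈ S
  R_le : R1 ≤ Φ.R
  codim : finrank κ S + finrank κ Φ.R = finrank κ K + finrank κ R1
  t_mem : ∀ a ∈ S, ∀ b ∈ S, ∀ c ∈ S, Φ.t a b c ∈ R1

theorem step [Infinite κ] [FiniteDimensional κ K] {Φ : CMap κ K (Fin r → κ)} {e0 : K}
    {S : Submodule κ K} {R1 : Submodule κ (Fin r → κ)} (hG : Good Φ e0 S R1)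
    (g : K →ₗ[κ] (Fin r → κ)) (hg : Φ.IsSyz g) (he : ∀ ρ ∈ R1, g e0 ⬝ᵥ ρ = 0) :
    ∃ (S' : Submodule κ K) (R' : Submodule κ (Fin r → κ)),
      (∀ s, s ∈ S' ↔ s ∈ S ∧ ∀ ρ ∈ R1, g s ⬝ᵥ ρ = 0) ∧
      (∀ ρ, ρ ∈ R' ↔ ρ ∈ R1 ∧ ∀ s ∈ S, g s ⬝ᵥ ρ = 0) ∧ Good Φ e0 S' R' := by
  have hS : ∀ s, s ∈ (LinearMap.ker (pairing g S R1)).map S.subtype ↔
      s ∈ S ∧ ∀ ρ ∈ R1, g s ⬝ᵥ ρ = 0 := by
    intro s
    rw [Submodule.mem_map]
    constructor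
    · rintro ⟨x, hx, rfl⟩
      refine ⟨x.2, fun ρ hρ => ?_⟩
      have := LinearMap.congr_fun (LinearMap.mem_ker.1 hx) ⟨ρ, hρ⟩
      simpa [pairing_apply] using this
    · rintro ⟨hs, h⟩
      refine ⟨⟨s, hs⟩, ?_, rfl⟩
      rw [LinearMap.mem_ker]
      ext ρ
      rw [pairing_apply]
      exact h _ ρ.2
  have hR : ∀ ρ, ρ ∈ (Submodule.dualCoannihilator (LinearMap.range (pairing g S R1))).map R1.subtype ↔
      ρ ∈ R1 ∧ ∀ s ∈ S, g s ⬝ᵥ ρ = 0 := by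
    intro ρ
    rw [Submodule.mem_map]
    constructor
    · rintro ⟨x, hx, rfl⟩
      refine ⟨x.2, fun s hs => ?_⟩
      rw [Submodule.mem_dualCoannihilator] at hx
      have := hx (pairing g S R1 ⟨s, hs⟩) ⟨_, rfl⟩
      simpa [pairing_apply] using this
    · rintro ⟨hρ, h⟩
      refine ⟨⟨ρ, hρ⟩, ?_, rfl⟩
      rw [Submodule.mem_dualCoannihilator]
      rintro _ ⟨s, rfl⟩
      rw [pairing_apply]
      exact h _ s.2
  refine ⟨_, _, hS, hR, ?_⟩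
  refine ⟨(hS _).2 ⟨hG.e0_mem, he⟩, fun ρ hρ => hG.R_le ((hR ρ).1 hρ).1, ?_, ?_⟩
  · have h1 := LinearMap.finrank_range_add_finrank_ker (pairing g S R1)
    have h2 := Subspace.finrank_add_finrank_dualCoannihilator_eq (LinearMap.range (pairing g S R1))
    have h3 := hG.codim
    rw [Submodule.finrank_map_subtype_eq, Submodule.finrank_map_subtype_eq]
    omega
  · intro a ha b hb c hc
    obtain ⟨ha1, ha2⟩ := (hS a).1 ha
    obtain ⟨hb1, hb2⟩ := (hS b).1 hb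
    obtain ⟨hc1, hc2⟩ := (hS c).1 hc
    rw [hR]
    refine ⟨hG.t_mem a ha1 b hb1 c hc1, fun s hs => ?_⟩
    have h4 := syz_G4 g hg s a b c
    rw [ha2 _ (hG.t_mem s hs b hb1 c hc1), hb2 _ (hG.t_mem s hs a ha1 c hc1),
      hc2 _ (hG.t_mem s hs a ha1 b hb1)] at h4
    simpa using h4

end HC

/-- Lemma 1 (file HC) -/
theorem exists_pair [Infinite κ] [FiniteDimensional κ K] (h2 : (2 : κ) = 0)
    {Φ : CMap κ K (Fin r → κ)} (hΦ : Φ.Iso) (e0 : K) (g0 : K →ₗ[κ] (Fin r → κ)) (hg0 : Φ.IsSyz g0)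
    (hge : g0 e0 = sqv (Φ.f e0)) :
    ∃ (S : Submodule κ K) (R1 : Submodule κ (Fin r → κ)), LRPair Φ e0 g0 S R1 := by
  classical
  have key : ∀ n : ℕ, ∀ (S : Submodule κ K) (R1 : Submodule κ (Fin r → κ)), finrank κ S = n →
      HC.Good Φ e0 S R1 → (∀ s ∈ S, ∀ ρ ∈ Φ.R, g0 s ⬝ᵥ ρ = 0) →
      (∀ b : K, ∀ ρ ∈ R1, g0 b ⬝ᵥ ρ = 0) →
      ∃ (S : Submodule κ K) (R1 : Submodule κ (Fin r → κ)), LRPair Φ e0 g0 S R1 := by
    intro n
    induction n using Nat.strong_induction_on with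
    | _ n ih =>
      intro S R1 hn hG hS hR
      by_cases hlr : ∀ g : K →ₗ[κ] (Fin r → κ), Φ.IsSyz g → (∀ ρ ∈ R1, g e0 ⬝ᵥ ρ = 0) →
          ∀ s ∈ S, ∀ ρ ∈ R1, g s ⬝ᵥ ρ = 0
      · exact ⟨S, R1, hG.e0_mem, hG.R_le, hG.codim, hS, hR, hG.t_mem, hlr⟩
      · push Not at hlr
        obtain ⟨g, hg, hge0, s, hs, ρ, hρ, hne⟩ := hlr
        obtain ⟨S', R', hS', hR', hG'⟩ := HC.step hG g hg hge0
        have hlt : S' < S := by
          rw [SetLike.lt_iff_le_and_exists]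
          exact ⟨fun x hx => ((hS' x).1 hx).1, s, hs, fun h => hne (((hS' s).1 h).2 ρ hρ)⟩
        have hfin := Submodule.finrank_lt_finrank_of_lt hlt
        refine ih _ (by omega) S' R' rfl hG' (fun x hx => hS x ((hS' x).1 hx).1)
          (fun b τ hτ => hR b τ ((hR' τ).1 hτ).1)
  have h0 : HC.Good Φ e0 ⊤ Φ.R := by
    refine ⟨Submodule.mem_top, le_rfl, ?_, fun a _ b _ c _ => Φ.t_mem_R a b c⟩
    rw [finrank_top]
  have he : ∀ ρ ∈ Φ.R, g0 e0 ⬝ᵥ ρ = 0 := by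
    intro ρ hρ
    rw [hge, sqv_dot]
    exact iso_NR h2 hΦ (Φ.f_mem e0) hρ
  obtain ⟨S', R', hS', hR', hG'⟩ := HC.step h0 g0 hg0 he
  exact key _ S' R' rfl hG' (fun s hs => ((hS' s).1 hs).2)
    (fun b ρ hρ => ((hR' ρ).1 hρ).2 b Submodule.mem_top)

end MP2619.CUB
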