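import Pool.Agent.Lib.MP_2619d0_ag.CUB.H0

/-!
The linear map `(w,b,τ) ↦ [w|e0] - β_b - τ`.
-/

set_option autoImplicit false

namespace MP2619.CUB

open Finset CMap Module

variable {κ K : Type*} [Field κ] [AddCommGroup K] [Module κ K] {r : ℕ}

/-- the map `(w,b,τ) ↦ [w|e0] - β_b - τ` -/
noncomputable def Lmap {ι : Type*} [Fintype ι] (Φ : CMap κ K (Fin r → κ)) (e0 : K) (v : ι → K) :
    ((ι → κ) × K × Φ.R) →ₗ[κ] (Fin r → κ) :=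
  ((Φ.br v).flip e0) ∘ₗ LinearMap.fst κ (ι → κ) (K × Φ.R) -
    (Φ.d e0) ∘ₗ LinearMap.fst κ K Φ.R ∘ₗ LinearMap.snd κ (ι → κ) (K × Φ.R) -
      Φ.R.subtype ∘ₗ LinearMap.snd κ K Φ.R ∘ₗ LinearMap.snd κ (ι → κ) (K × Φ.R)

theorem Lmap_apply {ι : Type*} [Fintype ι] (Φ : CMap κ K (Fin r → κ)) (e0 : K) (v : ι → K)
    (p : (ι → κ) × K × Φ.R) :
    Lmap Φ e0 v p = Φ.br v p.1 e0 - Φ.d e0 p.2.1 - p.2.2 := rfl

end MP2619.CUB
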