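import Pool.Agent.Lib.MP_2619d0_ag.CUB.Red0
import Pool.Agent.Lib.MP_2619d0_ag.CUB.COP

/-!
CUB: families which are not proportional to a family of quadratic forms; transfer along field extensions and
linear substitutions; Bezout.
-/

set_option autoImplicit false

namespace MP2619.CUB

open MvPolynomial

/-- The family `φ` is not proportional to a nonzero family of quadratic forms. -/
def Nop {σ K : Type*} [CommRing K] {N : ℕ} (φ : Fin N → MvPolynomial σ K) : Prop :=
  ∀ ψ : Fin N → MvPolynomial σ K, (∀ j, (ψ j).IsHomogeneous 2) →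
    (∀ i j, φ i * ψ j = φ j * ψ i) → ∀ j, ψ j = 0

section lam

variable {E L : Type*} [Field E] [Field L] [Algebra E L] {σ : Type*}

/-- a linear functional applied to the coefficients -/
noncomputable def lamP (f : L →ₗ[E] E) (P : MvPolynomial σ L) : MvPolynomial σ E :=
  ∑ d ∈ P.support, monomial d (f (coeff d P))

theorem lamP_coeff (f : L →ₗ[E] E) (P : MvPolynomial σ L) (d : σ →₀ ℕ) :
    coeff d (lamP f P) = f (coeff d P) := by
  classical
  rw [lamP, coeff_sum]
  simp only [coeff_monomial]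
  rw [Finset.sum_ite_eq']
  split_ifs with h
  · rfl
  · rw [notMem_support_iff.1 h, map_zero]

theorem lamP_mul (f : L →ₗ[E] E) (a : MvPolynomial σ E) (P : MvPolynomial σ L) :
    lamP f (map (algebraMap E L) a * P) = a * lamP f P := by
  classical
  ext d
  rw [lamP_coeff, coeff_mul, coeff_mul, map_sum]
  refine Finset.sum_congr rfl fun q _ => ?_
  rw [coeff_map, lamP_coeff, ← Algebra.smul_def, map_smul, smul_eq_mul]

theorem lamP_hom (f : L →ₗ[E] E) {P : MvPolynomial σ L} {n : ℕ} (hP : P.IsHomogeneous n) :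
    (lamP f P).IsHomogeneous n := by
  intro d hd
  rw [lamP_coeff] at hd
  exact hP fun h => hd (by rw [h, map_zero])

/-- extension of the field -/
theorem nop_map {N : ℕ} (φ : Fin N → MvPolynomial σ E) (hno : Nop φ) :
    Nop (fun j => map (algebraMap E L) (φ j)) := by
  intro ψ hψ h j
  ext d
  rw [coeff_zero, ← Module.forall_dual_apply_eq_zero_iff E]
  intro f
  have h1 := hno (fun j => lamP f (ψ j)) (fun j => lamP_hom f (hψ j)) (fun i j => by
    rw [← lamP_mul, ← lamP_mul, h]) j
  rw [← lamP_coeff, h1, coeff_zero]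

/-- descent to a subfield -/
theorem nop_of_map {M L : Type*} [Field M] [Field L] (ι : M →+* L) {N : ℕ}
    (φ : Fin N → MvPolynomial σ M) (hno : Nop (fun j => map ι (φ j))) : Nop φ := by
  intro ψ hψ h j
  apply map_injective ι ι.injective
  rw [map_zero]
  exact hno (fun j => map ι (ψ j)) (fun j => (hψ j).map ι) (fun i j => by
    rw [← map_mul, ← map_mul, h]) j

theorem nop_smul {K : Type*} [Field K] {N : ℕ} (φ : Fin N → MvPolynomial σ K) (hno : Nop φ)
    (μ : K) (hμ : μ ≠ 0) : Nop (fun j => C μ * φ j) := by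
  intro ψ hψ h
  refine hno ψ hψ fun i j => ?_
  have h3 : (C μ : MvPolynomial σ K) ≠ 0 := fun h5 => hμ (by rwa [← C_0, C_inj] at h5)
  apply mul_left_cancel₀ h3
  have h4 := h i j
  beta_reduce at h4
  rw [← mul_assoc, h4, mul_assoc]

end lam

section subst

variable {M : Type*} [Field M] {n : ℕ}

theorem nlsub_hom (B : Fin n → Fin n → M) {P : MvPolynomial (Fin n) M} {d : ℕ}
    (hP : P.IsHomogeneous d) : (lsub B P).IsHomogeneous d := by
  have h1 := hP.aeval (fun l => ∑ i, C (B i l) * X i) (n := 1) (fun l => by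
    refine IsHomogeneous.sum _ _ _ fun i _ => ?_
    have h2 := (isHomogeneous_C (Fin n) (B i l)).mul (isHomogeneous_X M i)
    rwa [zero_add] at h2)
  rwa [one_mul] at h1

theorem nlsub_mul (A : Fin n → Fin n → M) (P Q : MvPolynomial (Fin n) M) :
    lsub A (P * Q) = lsub A P * lsub A Q := map_mul _ P Q

theorem nlsub_comp (A B : Matrix (Fin n) (Fin n) M) (P : MvPolynomial (Fin n) M) :
    lsub A (lsub B P) = lsub (A * B) P := by
  have h1 : (aeval fun l => ∑ i, C (A i l) * X i : MvPolynomial (Fin n) M →ₐ[M]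
      MvPolynomial (Fin n) M).comp (aeval fun l => ∑ i, C (B i l) * X i) =
      aeval fun l => ∑ i, C ((A * B) i l) * X i := by
    apply MvPolynomial.algHom_ext
    intro l
    rw [AlgHom.comp_apply, aeval_X, aeval_X, map_sum]
    simp only [map_mul, aeval_X, aeval_C, algebraMap_eq, Matrix.mul_apply, map_sum, Finset.sum_mul,
      Finset.mul_sum]
    rw [Finset.sum_comm]
    refine Finset.sum_congr rfl fun i _ => Finset.sum_congr rfl fun j _ => ?_
    ring
  exact DFunLike.congr_fun h1 P

theorem nlsub_one (P : MvPolynomial (Fin n) M) : lsub (1 : Matrix (Fin n) (Fin n) M) P = P := by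
  have h1 : (aeval fun l => ∑ i, C ((1 : Matrix (Fin n) (Fin n) M) i l) * X i :
      MvPolynomial (Fin n) M →ₐ[M] MvPolynomial (Fin n) M) = AlgHom.id M _ := by
    apply MvPolynomial.algHom_ext
    intro l
    rw [aeval_X, AlgHom.id_apply, Finset.sum_eq_single l]
    · rw [Matrix.one_apply_eq, C_1, one_mul]
    · intro i _ hi
      rw [Matrix.one_apply_ne hi, C_0, zero_mul]
    · intro h
      exact absurd (Finset.mem_univ l) h
  exact DFunLike.congr_fun h1 P

/-- invertible linear substitutions -/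
theorem nop_lsub {N : ℕ} (φ : Fin N → MvPolynomial (Fin n) M) (hno : Nop φ)
    (V : Fin n → Fin n → M) (hV : LinearIndependent M V) : Nop (fun j => lsub V (φ j)) := by
  intro ψ hψ h j
  obtain ⟨B, hB⟩ : ∃ B : Matrix (Fin n) (Fin n) M, B = V := ⟨V, rfl⟩
  have hu : IsUnit B := by
    rw [← Matrix.linearIndependent_rows_iff_isUnit, hB]
    exact hV
  obtain ⟨A, hA⟩ := hu.exists_left_inv
  obtain ⟨A', hA'⟩ := hu.exists_right_inv
  have hBA : B * A = 1 := by
    have h4 : A = A' := by
      calc A = A * (B * A') := by rw [hA', mul_one]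
        _ = A' := by rw [← mul_assoc, hA, one_mul]
    rw [h4, hA']
  have h1 := hno (fun j => lsub A (ψ j)) (fun j => nlsub_hom A (hψ j)) (fun i j => by
    have h2 := congrArg (lsub A) (h i j)
    beta_reduce at h2
    rw [nlsub_mul, nlsub_mul, ← hB, nlsub_comp, nlsub_comp, hA, nlsub_one, nlsub_one] at h2
    exact h2) j
  have h2 := congrArg (lsub B) h1
  beta_reduce at h2
  rw [nlsub_comp, hBA, nlsub_one] at h2
  rw [h2, lsub, map_zero]

end subst

/-- Bezout -/
theorem nop_bez {M : Type*} [Field M] {N k : ℕ} (Ψ : Fin (N + 1) → MvPolynomial (Fin (k + 1)) M)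
    (hΨ : ∀ j, (Ψ j).IsHomogeneous 3) (h0 : coeff (Finsupp.single 0 3) (Ψ 0) = 1) (hno : Nop Ψ) :
    ∃ (R : MvPolynomial (Fin k) M) (A : Fin (N + 1) → Polynomial (MvPolynomial (Fin k) M)), R ≠ 0 ∧
      ∑ j, A j * finSuccEquiv M k (Ψ j) = Polynomial.C R :=
  COP_bezout Ψ hΨ h0 hno

/-- Bezout on a line -/
theorem nop_line {M : Type*} [Field M] {N k : ℕ} (Ψ : Fin (N + 1) → MvPolynomial (Fin (k + 1)) M)
    (hΨ : ∀ j, (Ψ j).IsHomogeneous 3) (h0 : coeff (Finsupp.single 0 3) (Ψ 0) = 1) (hno : Nop Ψ) :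
    ∃ r : MvPolynomial (Fin k) M, r ≠ 0 ∧ ∀ t : Fin k → M, eval t r ≠ 0 →
      ∃ A : Fin (N + 1) → Polynomial M,
        ∑ j, A j * (finSuccEquiv M k (Ψ j)).map (eval t : MvPolynomial (Fin k) M →+* M) = 1 := by
  obtain ⟨R, A, hR, hA⟩ := nop_bez Ψ hΨ h0 hno
  refine ⟨R, hR, fun t ht => ⟨fun j => Polynomial.C (eval t R)⁻¹ * (A j).map (eval t), ?_⟩⟩
  have h1 := congrArg (Polynomial.map (eval t : MvPolynomial (Fin k) M →+* M)) hA
  simp only [Polynomial.map_sum, Polynomial.map_mul, Polynomial.map_C] at h1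
  simp only [mul_assoc]
  rw [← Finset.mul_sum, h1, ← Polynomial.C_mul, inv_mul_cancel₀ ht, Polynomial.C_1]

/-- A family of cubic forms without common factor is not proportional to a family of quadratic forms. -/
theorem nop_of_cop {σ K : Type*} [Field K] {N : ℕ} (φ : Fin N → MvPolynomial σ K)
    (hφ : ∀ j, (φ j).IsHomogeneous 3) (h : Cop φ) : Nop φ := by
  classical
  intro ψ hψ hp j
  by_contra hj
  have hφj : φ j ≠ 0 := by
    intro h0
    have h1 : ∀ i, φ i = 0 := by
      intro i
      have h2 := hp i j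
      rw [h0, zero_mul] at h2
      exact (mul_eq_zero.1 h2).resolve_right hj
    have h3 := h 0 (fun i => by rw [h1 i])
    exact not_isUnit_zero h3
  let _ : StrongNormalizationMonoid (MvPolynomial σ K) :=
    UniqueFactorizationMonoid.strongNormalizationMonoid
  let _ : NormalizedGCDMonoid (MvPolynomial σ K) :=
    UniqueFactorizationMonoid.toNormalizedGCDMonoid (MvPolynomial σ K)
  have h1 : φ j ∣ Finset.univ.gcd (fun i => φ i * ψ j) :=
    Finset.dvd_gcd fun i _ => ⟨ψ i, hp i j⟩
  have h2 := h1.trans (Finset.gcd_mul_right' (s := Finset.univ) (f := φ) (ψ j)).dvd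
  have h3 : IsUnit (Finset.univ.gcd φ) := h _ fun i => Finset.gcd_dvd (Finset.mem_univ i)
  have h4 : φ j ∣ ψ j := (h3.dvd_mul_left).1 h2
  have h5 := MvPolynomial.totalDegree_le_of_dvd_of_isDomain h4 hj
  rw [(hφ j).totalDegree hφj, (hψ j).totalDegree hj] at h5
  omega

end MP2619.CUB
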