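import Pool.Agent.Lib.MP_2619d0_ag.CUB.L1
import Pool.Agent.Lib.MP_2619d0_ag.CUB.Lattice
import Pool.Agent.Lib.MP_2619d0_ag.CUB.Nop

/-!
CUB: integrality of a cubic family and its reduction.
-/

set_option autoImplicit false

namespace MP2619.CUB

open MvPolynomial Pool.Agent.Lib.MP_2619d0_ag Pool.Agent.Lib.MP_2619d0_ag.T MP2619.K

section coeffs

variable {M : Type*} [Field M] {k : ℕ}

theorem INT_big {f : MvPolynomial (Fin (k + 1)) M} (hf : f.IsHomogeneous 3) (i : ℕ) (hi : 3 < i) :
    (finSuccEquiv M k f).coeff i = 0 :=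
  Polynomial.coeff_eq_zero_of_natDegree_lt (lt_of_le_of_lt (COP_natDegree hf) hi)

theorem INT_lin {f : MvPolynomial (Fin k) M} (hf : f.IsHomogeneous 1) :
    f = ∑ l, C (coeff (Finsupp.single l 1) f) * X l := by
  classical
  ext d
  rw [coeff_sum]
  simp only [coeff_C_mul, coeff_X]
  by_cases hd : ∃ l, Finsupp.single l 1 = d
  · obtain ⟨l, rfl⟩ := hd
    rw [Finset.sum_eq_single l]
    · rw [if_pos rfl, mul_one]
    · intro l' _ hl'
      rw [if_neg, mul_zero]
      intro h
      exact hl' (Finsupp.single_left_injective one_ne_zero h)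
    · intro h
      exact absurd (Finset.mem_univ _) h
  · rw [Finset.sum_eq_zero]
    · by_contra hne
      have h1 := hf hne
      have h2 : Finsupp.degree d = 1 := by
        rw [Finsupp.degree_eq_weight_one]
        exact h1
      rw [Finsupp.degree_eq_sum] at h2
      apply hd
      obtain ⟨l, -, hl⟩ : ∃ l ∈ Finset.univ, d l ≠ 0 := by
        apply Finset.exists_ne_zero_of_sum_ne_zero
        rw [h2]
        exact one_ne_zero
      have h3 := Finset.add_sum_erase Finset.univ (fun i => d i) (Finset.mem_univ l)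
      have h4 : d l = 1 := by
        have h5 : d l + ∑ i ∈ Finset.univ.erase l, d i = 1 := h3.trans h2
        omega
      have h5 : ∑ i ∈ Finset.univ.erase l, d i = 0 := by
        have h6 : d l + ∑ i ∈ Finset.univ.erase l, d i = 1 := h3.trans h2
        omega
      refine ⟨l, ?_⟩
      ext i
      by_cases hi : i = l
      · rw [hi, Finsupp.single_eq_same, h4]
      · rw [Finsupp.single_eq_of_ne hi]
        exact (Finset.sum_eq_zero_iff.1 h5 i (Finset.mem_erase.2 ⟨hi, Finset.mem_univ _⟩)).symm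
    · intro l _
      rw [if_neg (fun h => hd ⟨l, h⟩), mul_zero]

theorem INT_cons2 (l : Fin k) : (Finsupp.single l 1 : Fin k →₀ ℕ).cons 2 =
    Finsupp.single 0 2 + Finsupp.single l.succ 1 := by
  ext i
  refine Fin.cases ?_ (fun i => ?_) i
  · rw [Finsupp.cons_zero, Finsupp.add_apply, Finsupp.single_eq_same,
      Finsupp.single_eq_of_ne (Fin.succ_ne_zero l).symm, add_zero]
  · rw [Finsupp.cons_succ, Finsupp.add_apply, Finsupp.single_eq_of_ne (Fin.succ_ne_zero i), zero_add]
    by_cases h : i = l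
    · rw [h, Finsupp.single_eq_same, Finsupp.single_eq_same]
    · rw [Finsupp.single_eq_of_ne h, Finsupp.single_eq_of_ne (fun h' => h (Fin.succ_injective _ h'))]

/-- the value of a cubic form on a line -/
theorem INT_eval {f : MvPolynomial (Fin (k + 1)) M} (hf : f.IsHomogeneous 3) (x : M) (b : Fin k → M)
    (hx : coeff (Finsupp.single 0 3) f = x)
    (hb : ∀ l : Fin k, coeff (Finsupp.single 0 2 + Finsupp.single l.succ 1) f = b l)
    (s : M) (u : Fin k → M) :
    eval (Fin.cons s u) f = s ^ 3 * x + s ^ 2 * ∑ l, u l * b l +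
      s * eval u ((finSuccEquiv M k f).coeff 1) + eval u ((finSuccEquiv M k f).coeff 0) := by
  rw [eval_eq_eval_mv_eval', Polynomial.eval_eq_sum_range' (n := 4)
    (lt_of_le_of_lt Polynomial.natDegree_map_le (Nat.lt_succ_of_le (COP_natDegree hf)))]
  rw [Finset.sum_range_succ, Finset.sum_range_succ, Finset.sum_range_succ, Finset.sum_range_one]
  simp only [Polynomial.coeff_map]
  have h2 := INT_lin (hf.finSuccEquiv_coeff_isHomogeneous 2 1 rfl)
  have h3 : eval u ((finSuccEquiv M k f).coeff 2) = ∑ l, u l * b l := by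
    rw [h2, map_sum]
    refine Finset.sum_congr rfl fun l _ => ?_
    rw [map_mul, eval_C, eval_X, finSuccEquiv_coeff_coeff, INT_cons2, hb, mul_comm]
  have h4 : (eval u : MvPolynomial (Fin k) M →+* M) ((finSuccEquiv M k f).coeff 3) = x := by
    rw [COP_coeff3 hf, eval_C, hx]
  rw [h3, h4]
  ring

end coeffs

section main

variable {M : Type*} [Field M] [Infinite M] (O : ValuationSubring M) {N k : ℕ}

/-- the coefficients of the family are integral -/
theorem INT_int (hinf : Infinite (IsLocalRing.ResidueField O)) (π : O)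
    (hπ : (π : M) ≠ 0) (hm : IsLocalRing.residue O π = 0)
    (hmax : ∀ o : O, IsLocalRing.residue O o = 0 → π ∣ o)
    (hdisc : ∀ o : O, o ≠ 0 → ∃ k : ℕ, ¬ π ^ k ∣ o)
    (c : Fin (N + 1) → Fin (N + 1) → Fin (N + 1) → O)
    (hc : ∀ i j l, IsLocalRing.residue O (c i j l) = if i = j ∧ j = l then 1 else 0)
    (h2 : (2 : IsLocalRing.ResidueField O) = 0)
    (x : Fin (N + 1) → O) (hx0 : x 0 = 1)
    (hP : ∀ w : Fin (N + 1) → IsLocalRing.ResidueField O,
      ∑ i, w i ^ 2 * IsLocalRing.residue O (x i) = 0 →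
        w = w 0 • fun i => IsLocalRing.residue O (x i))
    (Ψ : Fin (N + 1) → MvPolynomial (Fin (k + 1)) M) (hΨ : ∀ j, (Ψ j).IsHomogeneous 3)
    (hΨx : ∀ j, coeff (Finsupp.single 0 3) (Ψ j) = (x j : M))
    (t : Fin k → Fin (N + 1) → O)
    (hΨt : ∀ (l : Fin k) j, coeff (Finsupp.single 0 2 + Finsupp.single l.succ 1) (Ψ j) = (t l j : M))
    (ht0 : ∀ l, t l 0 = 0)
    (ht : LinearIndependent (IsLocalRing.ResidueField O)
      (fun l j => IsLocalRing.residue O (t l j)))
    (i₀ : Fin k)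
    (R : MvPolynomial (Fin k) M) (hR : R ≠ 0)
    (hA : ∀ u : Fin k → M, eval u R ≠ 0 → ∃ A : Fin (N + 1) → Polynomial M,
      ∑ j, A j * (finSuccEquiv M k (Ψ j)).map (eval u : MvPolynomial (Fin k) M →+* M) = 1)
    (hF : ∀ u : Fin (k + 1) → M, Fc (cm O.subtype c) (fun j => eval u (Ψ j)) = 0)
    (j : Fin (N + 1)) (d : Fin (k + 1) →₀ ℕ) : coeff d (Ψ j) ∈ O := by
  classical
  have hkey : ∀ u : Fin k → O, IsLocalRing.residue O (u i₀) ≠ 0 →
      eval (fun i => (u i : M)) R ≠ 0 → ∀ j,
        eval (fun i => (u i : M)) ((finSuccEquiv M k (Ψ j)).coeff 1) ∈ O ∧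
        eval (fun i => (u i : M)) ((finSuccEquiv M k (Ψ j)).coeff 0) ∈ O := by
    intro u hu hRu
    have hev : ∀ (s : M) j, eval (Fin.cons s (fun i => (u i : M))) (Ψ j) =
        s ^ 3 * (x j : M) + s ^ 2 * ((∑ l, u l * t l j : O) : M) +
        s * eval (fun i => (u i : M)) ((finSuccEquiv M k (Ψ j)).coeff 1) +
        eval (fun i => (u i : M)) ((finSuccEquiv M k (Ψ j)).coeff 0) := by
      intro s j
      rw [INT_eval (hΨ j) (x j : M) (fun l => (t l j : M)) (hΨx j) (fun l => hΨt l j) s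
        (fun i => (u i : M))]
      push_cast
      rfl
    obtain ⟨A, hA⟩ := hA _ hRu
    refine L1_main hinf hπ hm hmax hdisc c hc h2 x hx0 hP (fun j => ∑ l, u l * t l j) ?_ ?_
      (fun j => eval (fun i => (u i : M)) ((finSuccEquiv M k (Ψ j)).coeff 1))
      (fun j => eval (fun i => (u i : M)) ((finSuccEquiv M k (Ψ j)).coeff 0)) ?_
      A ?_
    · simp only [ht0, mul_zero, Finset.sum_const_zero]
    · by_contra hcon
      push Not at hcon
      apply hu
      refine Fintype.linearIndependent_iff.1 ht (fun l => IsLocalRing.residue O (u l)) ?_ i₀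
      funext j
      rw [Finset.sum_apply]
      have h1 := hcon j
      simp only [map_sum, map_mul] at h1
      exact h1
    · intro s
      have h1 := hF (Fin.cons s (fun i => (u i : M)))
      simp only [hev] at h1
      exact h1
    · intro s
      have h1 := congrArg (Polynomial.eval s) hA
      simp only [Polynomial.eval_finsetSum, Polynomial.eval_mul, Polynomial.eval_one] at h1
      simp only [← eval_eq_eval_mv_eval', hev] at h1
      exact h1
  have hI1 : ∀ j e, coeff e ((finSuccEquiv M k (Ψ j)).coeff 1) ∈ O := fun j =>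
    CUB_integral O _ R hR i₀ fun u hu hRu => (hkey u hu hRu j).1
  have hI0 : ∀ j e, coeff e ((finSuccEquiv M k (Ψ j)).coeff 0) ∈ O := fun j =>
    CUB_integral O _ R hR i₀ fun u hu hRu => (hkey u hu hRu j).2
  have hd : coeff d (Ψ j) = coeff d.tail ((finSuccEquiv M k (Ψ j)).coeff (d 0)) := by
    rw [finSuccEquiv_coeff_coeff, Finsupp.cons_tail]
  rw [hd]
  rcases lt_or_ge 3 (d 0) with h | h
  · rw [INT_big (hΨ j) _ h, coeff_zero]
    exact O.zero_mem
  · interval_cases h5 : d 0
    · exact hI0 j _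
    · exact hI1 j _
    · have h6 := INT_lin ((hΨ j).finSuccEquiv_coeff_isHomogeneous 2 1 rfl)
      rw [h6, coeff_sum]
      refine O.toSubring.sum_mem fun l _ => ?_
      rw [coeff_C_mul, coeff_X, finSuccEquiv_coeff_coeff, INT_cons2, hΨt]
      split_ifs
      · rw [mul_one]
        exact (t l j).2
      · rw [mul_zero]
        exact O.zero_mem
    · rw [COP_coeff3 (hΨ j), hΨx, coeff_C]
      split_ifs
      · exact (x j).2
      · exact O.zero_mem

/-- REDUCE: the reduction of the family -/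
theorem INT_reduce
    (c : Fin (N + 1) → Fin (N + 1) → Fin (N + 1) → O)
    (hc : ∀ i j l, IsLocalRing.residue O (c i j l) = if i = j ∧ j = l then 1 else 0)
    (x : Fin (N + 1) → O) (hx0 : x 0 = 1)
    (Ψ : Fin (N + 1) → MvPolynomial (Fin (k + 1)) M) (hΨ : ∀ j, (Ψ j).IsHomogeneous 3)
    (hΨx : ∀ j, coeff (Finsupp.single 0 3) (Ψ j) = (x j : M))
    (t : Fin k → Fin (N + 1) → O)
    (hΨt : ∀ (l : Fin k) j, coeff (Finsupp.single 0 2 + Finsupp.single l.succ 1) (Ψ j) = (t l j : M))
    (ht0 : ∀ l, t l 0 = 0)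
    (ht : LinearIndependent (IsLocalRing.ResidueField O)
      (fun l j => IsLocalRing.residue O (t l j)))
    (hint : ∀ j d, coeff d (Ψ j) ∈ O)
    (hF : ∀ u : Fin (k + 1) → M, Fc (cm O.subtype c) (fun j => eval u (Ψ j)) = 0) :
    ∃ Φ : Fin (N + 1) → MvPolynomial (Fin (k + 1)) (IsLocalRing.ResidueField O),
      (∀ j, (Φ j).IsHomogeneous 3) ∧ ∑ j, Φ j ^ 3 = 0 ∧
      (∀ j, coeff (Finsupp.single 0 3) (Φ j) = IsLocalRing.residue O (x j)) ∧
      (∀ (l : Fin k) j, coeff (Finsupp.single 0 2 + Finsupp.single l.succ 1) (Φ j) =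
        IsLocalRing.residue O (t l j)) ∧
      LinearIndependent (IsLocalRing.ResidueField O) (fun (i : Fin (k + 1)) (j : Fin (N + 1)) =>
        coeff (Finsupp.single 0 2 + Finsupp.single i 1) (Φ j)) := by
  classical
  have hrange : ∀ j, Ψ j ∈ Set.range (map O.subtype : MvPolynomial (Fin (k + 1)) O →
      MvPolynomial (Fin (k + 1)) M) := by
    intro j
    rw [mem_range_map_iff_coeffs_subset]
    intro z hz
    have hz' : z ∈ (Ψ j).coeffs := hz
    rw [mem_coeffs_iff] at hz'
    obtain ⟨d, hd, rfl⟩ := hz'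
    exact ⟨⟨_, hint j d⟩, rfl⟩
  choose Ψ' hΨ' using hrange
  have hinj : Function.Injective (map O.subtype : MvPolynomial (Fin (k + 1)) O →
      MvPolynomial (Fin (k + 1)) M) := map_injective _ O.subtype_injective
  have hco : ∀ j d, ((coeff d (Ψ' j) : O) : M) = coeff d (Ψ j) := by
    intro j d
    rw [← hΨ' j, coeff_map]
    rfl
  have hΦx : ∀ j, coeff (Finsupp.single 0 3) (map (IsLocalRing.residue O) (Ψ' j)) =
      IsLocalRing.residue O (x j) := by
    intro j
    rw [coeff_map]
    congr 1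
    apply Subtype.ext
    rw [hco, hΨx]
  have hΦt : ∀ (l : Fin k) j, coeff (Finsupp.single 0 2 + Finsupp.single l.succ 1)
      (map (IsLocalRing.residue O) (Ψ' j)) = IsLocalRing.residue O (t l j) := by
    intro l j
    rw [coeff_map]
    congr 1
    apply Subtype.ext
    rw [hco, hΨt]
  refine ⟨fun j => map (IsLocalRing.residue O) (Ψ' j), fun j d hd => ?_, ?_, hΦx, hΦt, ?_⟩
  · apply hΨ j
    intro h
    apply hd
    have h1 : coeff d (Ψ' j) = 0 := by
      apply Subtype.ext
      rw [hco, h]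
      rfl
    rw [coeff_map, h1, map_zero]
  · have h1 : Fc (cm C c) Ψ' = 0 := by
      apply hinj
      rw [map_zero]
      apply MvPolynomial.funext
      intro u
      rw [map_zero]
      have h2 := Fc_cm ((eval u).comp (map O.subtype)) (c := cm C c) Ψ'
      have h3 : cm ((eval u).comp (map O.subtype)) (cm C c) = cm O.subtype c := by
        funext i j l
        change eval u (map O.subtype (C (c i j l))) = _
        rw [map_C, eval_C]
        rfl
      rw [h3] at h2
      have h4 := hF u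
      simp only [← hΨ'] at h4
      exact h2.symm.trans h4
    have h2 := congrArg (map (IsLocalRing.residue O)) h1
    rw [map_zero, ← Fc_cm, A4_Fc] at h2
    · exact h2
    · intro i j l
      change map (IsLocalRing.residue O) (C (c i j l)) = _
      rw [map_C, hc]
      split_ifs
      · rw [C_1]
      · rw [C_0]
  · rw [Fintype.linearIndependent_iff]
    intro g hg
    have h0 : (Finsupp.single 0 2 + Finsupp.single 0 1 : Fin (k + 1) →₀ ℕ) =
        Finsupp.single 0 3 := by rw [← Finsupp.single_add]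
    have h1 : ∀ j, g 0 * IsLocalRing.residue O (x j) +
        ∑ l : Fin k, g l.succ * IsLocalRing.residue O (t l j) = 0 := by
      intro j
      have h2 := congrFun hg j
      rw [Finset.sum_apply, Fin.sum_univ_succ] at h2
      simp only [Pi.smul_apply, smul_eq_mul, h0, hΦx, hΦt] at h2
      exact h2
    have hg0 : g 0 = 0 := by
      have h2 := h1 0
      simp only [hx0, ht0, map_one, map_zero, mul_zero, Finset.sum_const_zero, mul_one, add_zero] at h2
      exact h2
    have hgs := Fintype.linearIndependent_iff.1 ht (fun l => g l.succ) (by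
      funext j
      rw [Finset.sum_apply]
      have h2 := h1 j
      rw [hg0, zero_mul, zero_add] at h2
      exact h2)
    intro i
    refine Fin.cases hg0 hgs i

/-- All coefficients of `Ψ` are integral. -/
theorem intg {M : Type*} [Field M] [Infinite M] (O : ValuationSubring M) {N k : ℕ}
    (c : Fin (N + 1) → Fin (N + 1) → Fin (N + 1) → O) (x : Fin (N + 1) → O) (ϖ : O)
    (hpl : Pl O c x ϖ) (h2M : (2 : M) ≠ 0) (Ψ : Fin (N + 1) → MvPolynomial (Fin (k + 1)) M)
    (hΨ : ∀ j, (Ψ j).IsHomogeneous 3)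
    (hF : ∀ y : Fin (k + 1) → M, Fc (cm O.subtype c) (fun j => eval y (Ψ j)) = 0)
    (h3 : ∀ j, coeff (Finsupp.single 0 3) (Ψ j) = x j) (b : Fin k → Fin (N + 1) → O)
    (hb : ∀ i j, coeff (Finsupp.single 0 2 + Finsupp.single i.succ 1) (Ψ j) = b i j)
    (hb0 : ∀ i, b i 0 = 0)
    (hbl : LinearIndependent (IsLocalRing.ResidueField O)
      (fun i j => IsLocalRing.residue O (b i j)))
    (hk : 1 ≤ k)
    (hr : ∃ r : MvPolynomial (Fin k) M, r ≠ 0 ∧ ∀ t : Fin k → M, eval t r ≠ 0 →
      ∃ A : Fin (N + 1) → Polynomial M,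
        ∑ j, A j * (finSuccEquiv M k (Ψ j)).map (eval t : MvPolynomial (Fin k) M →+* M) = 1) :
    ∀ j d, coeff d (Ψ j) ∈ O := by
  obtain ⟨R, hR, hA⟩ := hr
  have hϖ : (ϖ : M) ≠ 0 := by
    intro h
    have h1 : ϖ = 0 := Subtype.ext h
    have h2 := hpl.disc.dvd 2 ((IsLocalRing.residue_eq_zero_iff _).1 (by
      rw [map_ofNat]
      exact hpl.two))
    rw [h1, zero_dvd_iff] at h2
    exact h2M (congrArg Subtype.val h2)
  intro j d
  exact INT_int O hpl.inf ϖ hϖ ((IsLocalRing.residue_eq_zero_iff _).2 hpl.disc.mem)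
    (fun o ho => hpl.disc.dvd o ((IsLocalRing.residue_eq_zero_iff _).1 ho)) hpl.disc.arch c hpl.hc
    hpl.two x hpl.x0 hpl.hP Ψ hΨ h3 b hb hb0 hbl ⟨0, hk⟩ R hR hA hF j d

/-- The reduction of the family. -/
theorem red {M : Type*} [Field M] [Infinite M] (O : ValuationSubring M) {N k : ℕ}
    (c : Fin (N + 1) → Fin (N + 1) → Fin (N + 1) → O) (x : Fin (N + 1) → O) (ϖ : O)
    (hpl : Pl O c x ϖ) (Ψ : Fin (N + 1) → MvPolynomial (Fin (k + 1)) M)
    (hΨ : ∀ j, (Ψ j).IsHomogeneous 3)
    (hF : ∀ y : Fin (k + 1) → M, Fc (cm O.subtype c) (fun j => eval y (Ψ j)) = 0)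
    (h3 : ∀ j, coeff (Finsupp.single 0 3) (Ψ j) = x j) (b : Fin k → Fin (N + 1) → O)
    (hb : ∀ i j, coeff (Finsupp.single 0 2 + Finsupp.single i.succ 1) (Ψ j) = b i j)
    (hb0 : ∀ i, b i 0 = 0)
    (hbl : LinearIndependent (IsLocalRing.ResidueField O)
      (fun i j => IsLocalRing.residue O (b i j)))
    (hint : ∀ j d, coeff d (Ψ j) ∈ O) :
    ∃ Φ : Fin (N + 1) → MvPolynomial (Fin (k + 1)) (IsLocalRing.ResidueField O),
      CubRed (fun i => IsLocalRing.residue O (x i)) Φ := by
  obtain ⟨Φ, hΦ, hcube, hpt, -, hinj⟩ := INT_reduce O c hpl.hc x hpl.x0 Ψ hΨ h3 b hb hb0 hbl hint hF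
  exact ⟨Φ, hpl.two, hpl.inf, by rw [hpl.x0, map_one], hpl.xx, hpl.hP, hpl.der, hΦ, hcube, hpt, hinj⟩

end main

end MP2619.CUB
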