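import Pool.Agent.Lib.MP_2619d0_ag.K.K6

set_option autoImplicit false

namespace MP2619.CUB

open Pool.Agent.Lib.MP_2619d0_ag.T

section coeffs

variable {ι K : Type*} [Fintype ι] [Field K]

/-- a polynomial of degree nine which vanishes on an infinite field -/
theorem L1_poly [Infinite K] (a0 a1 a2 a3 a4 a5 a6 a7 a8 a9 : K)
    (h : ∀ s : K, a9 * s ^ 9 + a8 * s ^ 8 + a7 * s ^ 7 + a6 * s ^ 6 + a5 * s ^ 5 + a4 * s ^ 4 +
      a3 * s ^ 3 + a2 * s ^ 2 + a1 * s + a0 = 0) :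
    a9 = 0 ∧ a8 = 0 ∧ a7 = 0 ∧ a6 = 0 ∧ a5 = 0 ∧ a4 = 0 ∧ a3 = 0 := by
  have hP : (Polynomial.C a9 * Polynomial.X ^ 9 + Polynomial.C a8 * Polynomial.X ^ 8 +
      Polynomial.C a7 * Polynomial.X ^ 7 + Polynomial.C a6 * Polynomial.X ^ 6 +
      Polynomial.C a5 * Polynomial.X ^ 5 + Polynomial.C a4 * Polynomial.X ^ 4 +
      Polynomial.C a3 * Polynomial.X ^ 3 + Polynomial.C a2 * Polynomial.X ^ 2 +
      Polynomial.C a1 * Polynomial.X + Polynomial.C a0 : Polynomial K) = 0 := by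
    apply Polynomial.funext
    intro s
    simp only [Polynomial.eval_add, Polynomial.eval_mul, Polynomial.eval_C, Polynomial.eval_pow,
      Polynomial.eval_X, Polynomial.eval_zero]
    exact h s
  have e9 := congrArg (fun p => Polynomial.coeff p 9) hP
  have e8 := congrArg (fun p => Polynomial.coeff p 8) hP
  have e7 := congrArg (fun p => Polynomial.coeff p 7) hP
  have e6 := congrArg (fun p => Polynomial.coeff p 6) hP
  have e5 := congrArg (fun p => Polynomial.coeff p 5) hP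
  have e4 := congrArg (fun p => Polynomial.coeff p 4) hP
  have e3 := congrArg (fun p => Polynomial.coeff p 3) hP
  simp only [Polynomial.coeff_add, Polynomial.coeff_C_mul, Polynomial.coeff_X_pow,
    Polynomial.coeff_X, Polynomial.coeff_C, Polynomial.coeff_zero] at e9 e8 e7 e6 e5 e4 e3
  norm_num at e9 e8 e7 e6 e5 e4 e3
  exact ⟨e9, e8, e7, e6, e5, e4, e3⟩

/-- `F(s² β + s γ + ψ)` -/
theorem L1_FN (c : ι → ι → ι → K) (β γ ψ : ι → K) (s : K) :
    Fc c (s ^ 2 • β + s • γ + ψ) = s ^ 6 * Fc c β + s ^ 5 * Dc c β γ + s ^ 4 * (Dc c γ β + Dc c β ψ) +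
      s ^ 3 * (Fc c γ + Tc c β γ ψ) + s ^ 2 * (Dc c γ ψ + Dc c ψ β) + s * Dc c ψ γ + Fc c ψ := by
  have hT : Tc c (s ^ 2 • β) (s • γ) ψ = s ^ 3 * Tc c β γ ψ := by
    rw [Tc_smul_left, Tc_comm, Tc_smul_left, Tc_comm]
    ring
  rw [Fc_add, Fc_line, Dc_add_left, Dc_smul_left, Dc_smul_left, hT, Dc_add_right,
    Dc_smul_right, Dc_smul_right]
  ring

theorem L1_DN (c : ι → ι → ι → K) (β γ ψ x : ι → K) (s : K) :
    Dc c (s ^ 2 • β + s • γ + ψ) x = s ^ 4 * Dc c β x + s ^ 3 * Tc c β γ x +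
      s ^ 2 * (Dc c γ x + Tc c β ψ x) + s * Tc c γ ψ x + Dc c ψ x := by
  have hT : Tc c (s ^ 2 • β) (s • γ) x = s ^ 3 * Tc c β γ x := by
    rw [Tc_smul_left, Tc_comm, Tc_smul_left, Tc_comm]
    ring
  rw [Dc_add_left, Dc_add_left, Dc_smul_left, Dc_smul_left, hT, Tc_add_left, Tc_smul_left,
    Tc_smul_left]
  ring

theorem L1_DxN (c : ι → ι → ι → K) (β γ ψ x : ι → K) (s : K) :
    Dc c x (s ^ 2 • β + s • γ + ψ) = s ^ 2 * Dc c x β + s * Dc c x γ + Dc c x ψ := by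
  rw [Dc_add_right, Dc_add_right, Dc_smul_right, Dc_smul_right]

/-- Row L1a. The coefficients of `F((s³ + m₁ s + m₀) x + s² β + s γ + ψ)`. -/
theorem L1_coeffs [Infinite K] (c : ι → ι → ι → K) (x β γ ψ : ι → K) (m1 m0 : K)
    (h : ∀ s : K, Fc c ((s ^ 3 + m1 * s + m0) • x + (s ^ 2 • β + s • γ + ψ)) = 0) :
    Fc c x = 0 ∧ Dc c x β = 0 ∧ Dc c x γ = - Dc c β x ∧
      Dc c x ψ = - (Tc c β γ x + Fc c β) ∧
      Dc c γ x = m1 * Dc c β x - Dc c β γ - Tc c β ψ x ∧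
      m0 * Dc c β x = Tc c γ ψ x + Dc c γ β + Dc c β ψ - m1 * (Tc c β γ x + 2 * Fc c β) ∧
      Dc c ψ x = m1 * Dc c β γ + m0 * (Tc c β γ x + 2 * Fc c β) - Fc c γ - Tc c β γ ψ := by
  obtain ⟨e9, e8, e7, e6, e5, e4, e3⟩ := L1_poly
    (Dc c x ψ * m0 * m0 + Dc c ψ x * m0 + Fc c x * m0 * m0 * m0 + Fc c ψ)
    (2 * Dc c x ψ * m0 * m1 + Dc c x γ * m0 * m0 + Dc c ψ γ + Dc c ψ x * m1 +
      3 * Fc c x * m0 * m0 * m1 + Tc c γ ψ x * m0)
    (Dc c x ψ * m1 * m1 + 2 * Dc c x γ * m0 * m1 + Dc c γ ψ + Dc c γ x * m0 + Dc c ψ β +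
      Dc c x β * m0 * m0 + 3 * Fc c x * m0 * m1 * m1 + Tc c β ψ x * m0 + Tc c γ ψ x * m1)
    (2 * Dc c x ψ * m0 + Dc c x γ * m1 * m1 + Dc c γ x * m1 + Dc c ψ x + 2 * Dc c x β * m0 * m1 +
      3 * Fc c x * m0 * m0 + Fc c x * m1 * m1 * m1 + Fc c γ + Tc c β γ ψ + Tc c β ψ x * m1 +
      Tc c β γ x * m0)
    (2 * Dc c x ψ * m1 + 2 * Dc c x γ * m0 + Dc c β ψ + Dc c γ β + Dc c x β * m1 * m1 +
      6 * Fc c x * m0 * m1 + Tc c γ ψ x + Tc c β γ x * m1 + Dc c β x * m0)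
    (2 * Dc c x γ * m1 + Dc c β γ + Dc c γ x + 2 * Dc c x β * m0 + 3 * Fc c x * m1 * m1 +
      Tc c β ψ x + Dc c β x * m1)
    (Dc c x ψ + 2 * Dc c x β * m1 + 3 * Fc c x * m0 + Fc c β + Tc c β γ x)
    (Dc c x γ + 3 * Fc c x * m1 + Dc c β x) (Dc c x β) (Fc c x) (by
      intro s
      have h1 := h s
      have h2 : (s ^ 3 + m1 * s + m0) • x + (s ^ 2 • β + s • γ + ψ) =
        (s ^ 3 + m1 * s + m0) • x + (1 : K) • (s ^ 2 • β + s • γ + ψ) := by rw [one_smul]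
      rw [h2, Fc_line, L1_FN, L1_DN, L1_DxN] at h1
      linear_combination h1)
  have f7 : Dc c x γ = - Dc c β x := by linear_combination e7 - 3 * m1 * e9
  have f6 : Dc c x ψ = - (Tc c β γ x + Fc c β) := by
    linear_combination e6 - 2 * m1 * e8 - 3 * m0 * e9
  have f5 : Dc c γ x = m1 * Dc c β x - Dc c β γ - Tc c β ψ x := by
    linear_combination e5 - 2 * m0 * e8 - 3 * m1 * m1 * e9 - 2 * m1 * f7
  refine ⟨e9, e8, f7, f6, f5, ?_, ?_⟩
  · linear_combination - e4 + m1 * m1 * e8 + 6 * m0 * m1 * e9 + 2 * m1 * f6 + 2 * m0 * f7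
  · linear_combination e3 - 2 * m0 * m1 * e8 - 3 * m0 * m0 * e9 - m1 * m1 * m1 * e9 - 2 * m0 * f6 -
      m1 * m1 * f7 - m1 * f5

end coeffs

section vals

variable {M : Type*} [Field M] (O : ValuationSubring M) (π : O)

/-- `a ∈ π^k O` -/
def In (k : ℤ) (a : M) : Prop := ∃ o : O, a = (π : M) ^ k * (o : M)

/-- `v ∈ π^k O^n` -/
def VIn {n : ℕ} (k : ℤ) (v : Fin n → M) : Prop := ∃ z : Fin n → O, v = (π : M) ^ k • fun i => (z i : M)

variable {O π}

theorem In_zero (k : ℤ) : In O π k 0 := ⟨0, by simp⟩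

theorem In_coe (o : O) : In O π 0 (o : M) := ⟨o, by simp⟩

theorem In_add {k : ℤ} {a b : M} (ha : In O π k a) (hb : In O π k b) : In O π k (a + b) := by
  obtain ⟨x, rfl⟩ := ha
  obtain ⟨y, rfl⟩ := hb
  exact ⟨x + y, by push_cast; ring⟩

theorem In_neg {k : ℤ} {a : M} (ha : In O π k a) : In O π k (-a) := by
  obtain ⟨x, rfl⟩ := ha
  exact ⟨-x, by push_cast; ring⟩

theorem In_sub {k : ℤ} {a b : M} (ha : In O π k a) (hb : In O π k b) : In O π k (a - b) := by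
  rw [sub_eq_add_neg]
  exact In_add ha (In_neg hb)

theorem In_mul (hπ : (π : M) ≠ 0) {k l : ℤ} {a b : M} (ha : In O π k a) (hb : In O π l b) :
    In O π (k + l) (a * b) := by
  obtain ⟨x, rfl⟩ := ha
  obtain ⟨y, rfl⟩ := hb
  refine ⟨x * y, ?_⟩
  rw [zpow_add₀ hπ]
  push_cast
  ring

theorem In_mono (hπ : (π : M) ≠ 0) {k l : ℤ} (h : k ≤ l) {a : M} (ha : In O π l a) : In O π k a := by
  obtain ⟨x, rfl⟩ := ha
  obtain ⟨d, rfl⟩ := Int.le.dest h
  refine ⟨π ^ d * x, ?_⟩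
  rw [zpow_add₀ hπ, zpow_natCast]
  push_cast
  ring

theorem In_unit (hπ : (π : M) ≠ 0) (hm : IsLocalRing.residue O π = 0) {k j : ℤ} {u : O}
    (hu : IsLocalRing.residue O u ≠ 0) (h : In O π k ((π : M) ^ j * (u : M))) : k ≤ j := by
  by_contra hlt
  push Not at hlt
  obtain ⟨x, hx⟩ := In_mono hπ (show j + 1 ≤ k by omega) h
  rw [zpow_add₀ hπ, zpow_one, mul_assoc] at hx
  have h1 := mul_left_cancel₀ (zpow_ne_zero j hπ) hx
  have h2 : u = π * x := Subtype.ext (by push_cast; exact h1)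
  apply hu
  rw [h2, map_mul, hm, zero_mul]

end vals

section cubic

variable {M : Type*} [Field M] {O : ValuationSubring M} {π : O} {n : ℕ}
  {c : Fin n → Fin n → Fin n → O}

theorem VIn_D (hπ : (π : M) ≠ 0) {k l : ℤ} {a b : Fin n → M} (ha : VIn O π k a) (hb : VIn O π l b) :
    In O π (2 * k + l) (Dc (cm O.subtype c) a b) := by
  obtain ⟨x, rfl⟩ := ha
  obtain ⟨y, rfl⟩ := hb
  rw [Dc_smul_left, Dc_smul_right, MP2619.K.K6_Dc O c]
  refine ⟨Dc c x y, ?_⟩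
  rw [zpow_add₀ hπ, two_mul, zpow_add₀ hπ]
  ring

theorem VIn_F (hπ : (π : M) ≠ 0) {k : ℤ} {a : Fin n → M} (ha : VIn O π k a) :
    In O π (3 * k) (Fc (cm O.subtype c) a) := by
  obtain ⟨x, rfl⟩ := ha
  rw [Fc_smul, show (fun i => (x i : M)) = fun i => O.subtype (x i) from rfl, Fc_cm O.subtype x]
  refine ⟨Fc c x, ?_⟩
  rw [show 3 * k = k + k + k by ring, zpow_add₀ hπ, zpow_add₀ hπ]
  change _ = _ * ((Fc c x : O) : M)
  simp only [ValuationSubring.subtype_apply]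
  ring

theorem VIn_T (hπ : (π : M) ≠ 0) (hmax : ∀ o : O, IsLocalRing.residue O o = 0 → π ∣ o)
    (hc : ∀ i j l, IsLocalRing.residue O (c i j l) = if i = j ∧ j = l then 1 else 0)
    (h2 : (2 : IsLocalRing.ResidueField O) = 0) {k l j : ℤ} {a b d : Fin n → M}
    (ha : VIn O π k a) (hb : VIn O π l b) (hd : VIn O π j d) :
    In O π (k + l + j + 1) (Tc (cm O.subtype c) a b d) := by
  obtain ⟨x, rfl⟩ := ha
  obtain ⟨y, rfl⟩ := hb
  obtain ⟨z, rfl⟩ := hd
  have e1 : Tc (cm O.subtype c) ((π : M) ^ k • fun i => (x i : M)) ((π : M) ^ l • fun i => (y i : M))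
      ((π : M) ^ j • fun i => (z i : M)) = (π : M) ^ k * ((π : M) ^ l * ((π : M) ^ j *
        Tc (cm O.subtype c) (fun i => (x i : M)) (fun i => (y i : M)) (fun i => (z i : M)))) := by
    rw [Tc_smul_left, Tc_comm, Tc_smul_left, Tc_comm', Tc_comm, Tc_smul_left]
    congr 3
    rw [Tc_comm, Tc_comm', Tc_comm]
  have e2 : Tc (cm O.subtype c) (fun i => (x i : M)) (fun i => (y i : M)) (fun i => (z i : M)) =
      ((Tc c x y z : O) : M) := Tc_cm O.subtype x y z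
  have e3 : IsLocalRing.residue O (Tc c x y z) = 0 := by
    rw [← Tc_cm, MP2619.K.K6_Tc h2 (cm (IsLocalRing.residue O) c) hc]
  obtain ⟨t, ht⟩ := hmax _ e3
  rw [e1, e2, ht]
  refine ⟨t, ?_⟩
  rw [zpow_add₀ hπ, zpow_add₀ hπ, zpow_add₀ hπ, zpow_one]
  push_cast
  ring

end cubic

section fac

variable {M : Type*} [Field M] {O : ValuationSubring M} {π : O}

theorem L1_ord (hπ : (π : M) ≠ 0) (hmax : ∀ o : O, IsLocalRing.residue O o = 0 → π ∣ o)
    (hdisc : ∀ o : O, o ≠ 0 → ∃ k : ℕ, ¬ π ^ k ∣ o) (a : M) (ha : a ≠ 0) :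
    ∃ (k : ℤ) (u : O), a = (π : M) ^ k * (u : M) ∧ IsLocalRing.residue O u ≠ 0 := by
  have key : ∀ o : O, o ≠ 0 → ∃ (k : ℕ) (u : O), o = π ^ k * u ∧ IsLocalRing.residue O u ≠ 0 := by
    intro o ho
    classical
    have hex := hdisc o ho
    have h1 := Nat.find_spec hex
    have h0 : Nat.find hex ≠ 0 := by
      intro h
      rw [h, pow_zero] at h1
      exact h1 (one_dvd _)
    obtain ⟨k, hk⟩ := Nat.exists_eq_succ_of_ne_zero h0
    have h2 : π ^ k ∣ o := by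
      by_contra h3
      have := Nat.find_min' hex h3
      omega
    obtain ⟨u, hu⟩ := h2
    refine ⟨k, u, hu, fun h4 => ?_⟩
    obtain ⟨t, ht⟩ := hmax u h4
    apply h1
    rw [hk]
    exact ⟨t, by rw [hu, ht, pow_succ]; ring⟩
  rcases O.mem_or_inv_mem a with h | h
  · obtain ⟨k, u, h1, h2⟩ := key ⟨a, h⟩ (fun h0 => ha (congrArg Subtype.val h0))
    refine ⟨k, u, ?_, h2⟩
    have := congrArg Subtype.val h1
    simpa using this
  · obtain ⟨k, u, h1, h2⟩ := key ⟨a⁻¹, h⟩ (fun h0 => inv_ne_zero ha (congrArg Subtype.val h0))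
    have hu : IsUnit u := by
      by_contra h3
      exact h2 ((IsLocalRing.residue_eq_zero_iff u).2 h3)
    obtain ⟨v, hv⟩ := hu
    refine ⟨-k, ((v⁻¹ : Oˣ) : O), ?_, ?_⟩
    · have h4 := congrArg Subtype.val h1
      have h5 : a⁻¹ = (π : M) ^ k * (u : M) := by simpa using h4
      have h6 : (u : M) * (((v⁻¹ : Oˣ) : O) : M) = 1 := by
        have : (u : O) * ((v⁻¹ : Oˣ) : O) = 1 := by rw [← hv, Units.mul_inv]
        exact_mod_cast congrArg Subtype.val this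
      have h7 : a = ((π : M) ^ k * (u : M))⁻¹ := by rw [← h5, inv_inv]
      have h8 : (((v⁻¹ : Oˣ) : O) : M) = (u : M)⁻¹ := eq_inv_of_mul_eq_one_right h6
      rw [h7, mul_inv, zpow_neg, zpow_natCast, h8]
    · intro h3
      have h4 : IsLocalRing.residue O (((v : Oˣ) : O) * ((v⁻¹ : Oˣ) : O)) = 0 := by
        rw [map_mul, h3, mul_zero]
      rw [Units.mul_inv, map_one] at h4
      exact one_ne_zero h4

/-- a vector is a power of `π` times a primitive vector; if it is zero then the exponent is arbitrary -/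
theorem L1_fac (hπ : (π : M) ≠ 0) (hmax : ∀ o : O, IsLocalRing.residue O o = 0 → π ∣ o)
    (hdisc : ∀ o : O, o ≠ 0 → ∃ k : ℕ, ¬ π ^ k ∣ o) {n : ℕ} (v : Fin n → M) :
    ∃ k0 : ℤ, ∀ T : ℤ, k0 ≤ T → ∃ (k : ℤ) (z : Fin n → O), k ≤ T ∧
      v = (π : M) ^ k • (fun i => (z i : M)) ∧ (k = T ∨ ∃ i, IsLocalRing.residue O (z i) ≠ 0) := by
  by_cases hv : v = 0
  · refine ⟨0, fun T _ => ⟨T, 0, le_refl _, ?_, Or.inl rfl⟩⟩
    rw [hv]
    funext i
    simp
  · obtain ⟨g, z, i, hg, hz, hw⟩ := MP2619.K.K6_scale O v hv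
    obtain ⟨k, u, hk, hu⟩ := L1_ord hπ hmax hdisc g hg
    refine ⟨k, fun T hT => ⟨k, fun j => u * z j, hT, ?_, Or.inr ⟨i, ?_⟩⟩⟩
    · rw [hw, hk]
      funext j
      simp only [Pi.smul_apply, smul_eq_mul]
      push_cast
      ring
    · change IsLocalRing.residue O (u * z i) ≠ 0
      rw [hz, mul_one]
      exact hu

theorem L1_fac1 (hπ : (π : M) ≠ 0) (hmax : ∀ o : O, IsLocalRing.residue O o = 0 → π ∣ o)
    (hdisc : ∀ o : O, o ≠ 0 → ∃ k : ℕ, ¬ π ^ k ∣ o) (a : M) :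
    ∃ k0 : ℤ, ∀ T : ℤ, k0 ≤ T → ∃ (k : ℤ) (u : O), k ≤ T ∧
      a = (π : M) ^ k * (u : M) ∧ (k = T ∨ IsLocalRing.residue O u ≠ 0) := by
  by_cases ha : a = 0
  · refine ⟨0, fun T _ => ⟨T, 0, le_refl _, ?_, Or.inl rfl⟩⟩
    rw [ha]
    simp
  · obtain ⟨k, u, hk, hu⟩ := L1_ord hπ hmax hdisc a ha
    exact ⟨k, fun T hT => ⟨k, u, hT, hk, Or.inr hu⟩⟩

theorem L1_arith (T g h a e : ℤ) (hT : 1 ≤ T) (hg : g ≤ T) (hh : h ≤ T) (ha : a ≤ T) (he : e ≤ T)
    (H5g : g = T ∨ a ≤ 2 * g ∨ g ≤ 2 * g ∨ h + 1 ≤ 2 * g)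
    (H5a : a = T ∨ 2 * g ≤ a ∨ g ≤ a ∨ h + 1 ≤ a)
    (H4 : e = T ∨ g + h + 1 ≤ e ∨ 2 * g ≤ e ∨ h ≤ e ∨ a + g + 1 ≤ e ∨ a + 1 ≤ e)
    (H3 : h = T ∨ a + g ≤ 2 * h ∨ e + g + 1 ≤ 2 * h ∨ e + 1 ≤ 2 * h ∨ 3 * g ≤ 2 * h ∨
      g + h + 1 ≤ 2 * h) :
    (0 ≤ g ∧ 0 ≤ h ∧ 0 ≤ a ∧ 0 ≤ e) ∨ (g < 0 ∧ a = 2 * g ∧ 2 * g < h ∧ 3 * g < e) := by
  omega

end fac

section newton

variable {M : Type*} [Field M] {O : ValuationSubring M} {π : O} {N : ℕ}

/-- a polynomial takes values in `π^{-D} O` on `O` -/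
theorem L1_bound (hπ : (π : M) ≠ 0) (hmax : ∀ o : O, IsLocalRing.residue O o = 0 → π ∣ o)
    (hdisc : ∀ o : O, o ≠ 0 → ∃ k : ℕ, ¬ π ^ k ∣ o) (P : Polynomial M) :
    ∃ D : ℕ, ∀ s : O, ∃ o : O, (π : M) ^ D * P.eval (s : M) = (o : M) := by
  induction P using Polynomial.induction_on' with
  | add p q hp hq =>
    obtain ⟨D1, h1⟩ := hp
    obtain ⟨D2, h2⟩ := hq
    refine ⟨D1 + D2, fun s => ?_⟩
    obtain ⟨o1, e1⟩ := h1 s
    obtain ⟨o2, e2⟩ := h2 s
    refine ⟨π ^ D2 * o1 + π ^ D1 * o2, ?_⟩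
    rw [Polynomial.eval_add, pow_add]
    push_cast
    rw [← e1, ← e2]
    ring
  | monomial k a =>
    by_cases ha : a = 0
    · exact ⟨0, fun s => ⟨0, by rw [ha]; simp⟩⟩
    · obtain ⟨j, u, hj, -⟩ := L1_ord hπ hmax hdisc a ha
      obtain ⟨q, h1⟩ : ∃ q : ℕ, (q : ℤ) = (j.natAbs : ℤ) + j := ⟨(j.natAbs + j).toNat, by omega⟩
      refine ⟨j.natAbs, fun s => ⟨π ^ q * u * s ^ k, ?_⟩⟩
      rw [Polynomial.eval_monomial, hj]
      have h3 : ((π ^ q * u * s ^ k : O) : M) = (π : M) ^ q * (u : M) * (s : M) ^ k := by push_cast; rfl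
      rw [h3, ← zpow_natCast (π : M) q, h1, zpow_add₀ hπ, zpow_natCast]
      ring

/-- Row L1c. The configuration with a simple root cannot occur. -/
theorem L1_newton (hinf : Infinite (IsLocalRing.ResidueField O))
    (hπ : (π : M) ≠ 0) (hm : IsLocalRing.residue O π = 0)
    (hmax : ∀ o : O, IsLocalRing.residue O o = 0 → π ∣ o)
    (hdisc : ∀ o : O, o ≠ 0 → ∃ k : ℕ, ¬ π ^ k ∣ o)
    (c : Fin (N + 1) → Fin (N + 1) → Fin (N + 1) → O)
    (hc : ∀ i j l, IsLocalRing.residue O (c i j l) = if i = j ∧ j = l then 1 else 0)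
    (h2 : (2 : IsLocalRing.ResidueField O) = 0)
    (X : Fin (N + 1) → O)
    (hP : ∀ w : Fin (N + 1) → IsLocalRing.ResidueField O,
      ∑ i, w i ^ 2 * IsLocalRing.residue O (X i) = 0 →
        w = w 0 • fun i => IsLocalRing.residue O (X i))
    (m1 m0 ε : O) (β γ ψ : Fin (N + 1) → O) (hm1 : IsLocalRing.residue O m1 ≠ 0)
    (hm0 : π ∣ m0) (hε : π ∣ ε)
    (hF : ∀ s : O, Fc c ((s ^ 3 + m1 * s + m0) • X + ε • (s ^ 2 • β + s • γ + ψ)) = 0)
    (A : Fin (N + 1) → Polynomial M)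
    (hA : ∀ s : O, ∑ j, (A j).eval (s : M) *
      (((s ^ 3 + m1 * s + m0) * X j + ε * (s ^ 2 * β j + s * γ j + ψ j) : O) : M) = 1) : False := by
  classical
  have hres : ∀ a b : Fin (N + 1) → O, IsLocalRing.residue O (Dc c a b) =
      ∑ i, IsLocalRing.residue O (a i) ^ 2 * IsLocalRing.residue O (b i) :=
    fun a b => MP2619.K.K6_resD O c hc h2 a b
  have hresF : ∀ a : Fin (N + 1) → O, IsLocalRing.residue O (Fc c a) =
      Fc (cm (IsLocalRing.residue O) c) (fun i => IsLocalRing.residue O (a i)) := fun a =>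
    (Fc_cm (IsLocalRing.residue O) a).symm
  obtain ⟨κc, hκc⟩ : ∃ κc, κc = cm (IsLocalRing.residue O) c := ⟨_, rfl⟩
  have hDκ : ∀ a b : Fin (N + 1) → IsLocalRing.ResidueField O, Dc κc a b = ∑ i, a i ^ 2 * b i := by
    intro a b
    rw [hκc]
    exact A4_Dc h2 (cm (IsLocalRing.residue O) c) hc a b
  obtain ⟨w0, hw0⟩ : ∃ w0 : O → Fin (N + 1) → O, ∀ s, w0 s =
    (s ^ 3 + m1 * s + m0) • X + ε • (s ^ 2 • β + s • γ + ψ) := ⟨_, fun _ => rfl⟩
  -- Newton iteration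
  have key : ∀ k : ℕ, ∃ s : O, π ∣ s ∧ ∀ j, π ^ (k + 1) ∣ w0 s j := by
    intro k
    induction k with
    | zero =>
      refine ⟨0, dvd_zero _, fun j => ?_⟩
      rw [hw0, zero_add, pow_one]
      simp only [Pi.add_apply, Pi.smul_apply, smul_eq_mul]
      refine dvd_add (Dvd.dvd.mul_right ?_ _) (Dvd.dvd.mul_right hε _)
      rw [zero_pow (by norm_num), mul_zero, zero_add, zero_add]
      exact hm0
    | succ k ih =>
      obtain ⟨s, hs, hj⟩ := ih
      choose w hw using hj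
      have hπO : π ≠ 0 := fun h => hπ (by rw [h]; rfl)
      have hpk : π ^ (k + 1) ≠ 0 := pow_ne_zero _ hπO
      -- expansion at `s + π^(k+1) u`
      obtain ⟨E, hE⟩ : ∃ E : O → Fin (N + 1) → O, ∀ u j, E u j = w j +
        u * ((3 * s ^ 2 + m1) * X j + ε * (2 * s * β j + γ j)) +
        π ^ (k + 1) * u ^ 2 * (3 * s * X j + ε * β j) + π ^ (2 * (k + 1)) * u ^ 3 * X j :=
        ⟨_, fun _ _ => rfl⟩
      have hexp : ∀ u, w0 (s + π ^ (k + 1) * u) = π ^ (k + 1) • E u := by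
        intro u
        funext j
        have h1 := hw j
        rw [hw0] at h1 ⊢
        simp only [Pi.add_apply, Pi.smul_apply, smul_eq_mul] at h1 ⊢
        rw [hE]
        have h3 : π ^ (2 * (k + 1)) = π ^ (k + 1) * π ^ (k + 1) := by rw [← pow_add]; ring_nf
        rw [h3]
        linear_combination h1
      have hFE : ∀ u, Fc c (E u) = 0 := by
        intro u
        have h1 := hF (s + π ^ (k + 1) * u)
        rw [← hw0, hexp, Fc_smul] at h1
        rcases mul_eq_zero.1 h1 with h3 | h3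
        · exact absurd h3 (pow_ne_zero _ hpk)
        · exact h3
      have hπ0 : ∀ o : O, π ∣ o → IsLocalRing.residue O o = 0 := by
        rintro o ⟨t, rfl⟩
        rw [map_mul, hm, zero_mul]
      have hrE : ∀ u, (fun j => IsLocalRing.residue O (E u j)) =
          (IsLocalRing.residue O u * IsLocalRing.residue O m1) • (fun j => IsLocalRing.residue O (X j)) +
            (fun j => IsLocalRing.residue O (w j)) := by
        intro u
        funext j
        rw [hE]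
        have h3 : IsLocalRing.residue O (π ^ (k + 1)) = 0 := hπ0 _ (dvd_pow_self _ (Nat.succ_ne_zero k))
        have h4 : IsLocalRing.residue O (π ^ (2 * (k + 1))) = 0 :=
          hπ0 _ (dvd_pow_self _ (by omega))
        have h5 : IsLocalRing.residue O s = 0 := hπ0 _ hs
        have h6 : IsLocalRing.residue O ε = 0 := hπ0 _ hε
        simp only [map_add, map_mul, Pi.add_apply, Pi.smul_apply, smul_eq_mul, h3, h4, h6]
        rw [map_pow _ s, h5]
        ring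
      have hX0 : Fc κc (fun j => IsLocalRing.residue O (X j)) = 0 := by
        by_contra hX0
        -- a nonzero polynomial of degree three with infinitely many roots
        have hline : ∀ t : IsLocalRing.ResidueField O, Fc κc (t • (fun j => IsLocalRing.residue O (X j)) +
            (fun j => IsLocalRing.residue O (w j))) = 0 := by
          intro t
          obtain ⟨u, hu⟩ := IsLocalRing.residue_surjective (t * (IsLocalRing.residue O m1)⁻¹)
          have h3 := hrE u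
          rw [hu, mul_assoc, inv_mul_cancel₀ hm1, mul_one] at h3
          rw [← h3, hκc, ← hresF, hFE, map_zero]
        exact hX0 (MP2619.T.st_line_coeffs κc _ _ hline).1
      have hline : ∀ t : IsLocalRing.ResidueField O, Fc κc (t • (fun j => IsLocalRing.residue O (X j)) +
            (fun j => IsLocalRing.residue O (w j))) = 0 := by
          intro t
          obtain ⟨u, hu⟩ := IsLocalRing.residue_surjective (t * (IsLocalRing.residue O m1)⁻¹)
          have h3 := hrE u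
          rw [hu, mul_assoc, inv_mul_cancel₀ hm1, mul_one] at h3
          rw [← h3, hκc, ← hresF, hFE, map_zero]
      obtain ⟨-, -, h3, -⟩ := MP2619.T.st_line_coeffs κc _ _ hline
      rw [hDκ] at h3
      have h4 := hP _ h3
      obtain ⟨u, hu⟩ := IsLocalRing.residue_surjective
        (-(IsLocalRing.residue O (w 0)) * (IsLocalRing.residue O m1)⁻¹)
      refine ⟨s + π ^ (k + 1) * u, dvd_add hs (Dvd.dvd.mul_right (dvd_pow_self _ (Nat.succ_ne_zero k)) _),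
        fun j => ?_⟩
      rw [hexp]
      simp only [Pi.smul_apply, smul_eq_mul]
      rw [pow_succ π (k + 1)]
      refine mul_dvd_mul_left _ (hmax _ ?_)
      have h5 := congrFun (hrE u) j
      have h6 := congrFun h4 j
      simp only [Pi.add_apply, Pi.smul_apply, smul_eq_mul] at h5 h6
      rw [h5, hu, h6, mul_assoc (-_), inv_mul_cancel₀ hm1, mul_one]
      ring
  -- Bezout
  choose D hD using fun j => L1_bound hπ hmax hdisc (A j)
  obtain ⟨s, -, hs⟩ := key (∑ j, D j)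
  choose o ho using fun j => hD j s
  choose t ht using hs
  have h1 := hA s
  have h3 : ∀ j, (((s ^ 3 + m1 * s + m0) * X j + ε * (s ^ 2 * β j + s * γ j + ψ j) : O)) =
      π ^ (∑ j, D j + 1) * t j := by
    intro j
    have := ht j
    rw [hw0] at this
    simp only [Pi.add_apply, Pi.smul_apply, smul_eq_mul] at this
    rw [← this]
  have h4 : (π : M) ^ (∑ j, D j) = ((π ^ (∑ j, D j + 1) * ∑ j, π ^ (∑ i, D i - D j) * o j * t j : O) : M) := by
    have h5 : (π : M) ^ (∑ j, D j) = ∑ j, (π : M) ^ (∑ i, D i) * ((A j).eval (s : M) *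
      (((s ^ 3 + m1 * s + m0) * X j + ε * (s ^ 2 * β j + s * γ j + ψ j) : O) : M)) := by
      rw [← Finset.mul_sum, h1, mul_one]
    rw [h5]
    push_cast
    rw [Finset.mul_sum]
    refine Finset.sum_congr rfl fun j _ => ?_
    have h6 : D j ≤ ∑ i, D i := Finset.single_le_sum (fun _ _ => Nat.zero_le _) (Finset.mem_univ j)
    have h7 : (π : M) ^ (∑ i, D i) = (π : M) ^ (∑ i, D i - D j) * (π : M) ^ (D j) := by
      rw [← pow_add, Nat.sub_add_cancel h6]
    have h8 := congrArg (fun z : O => (z : M)) (h3 j)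
    push_cast at h8
    rw [h8]
    have h9 := ho j
    calc (π : M) ^ (∑ i, D i) * (Polynomial.eval (s : M) (A j) * ((π : M) ^ (∑ j, D j + 1) * (t j : M)))
        = (π : M) ^ (∑ i, D i - D j) * ((π : M) ^ (D j) * Polynomial.eval (s : M) (A j)) *
          ((π : M) ^ (∑ j, D j + 1) * (t j : M)) := by rw [h7]; ring
      _ = _ := by rw [h9]; ring
  have h5 : π ^ (∑ j, D j) = π ^ (∑ j, D j + 1) * ∑ j, π ^ (∑ i, D i - D j) * o j * t j := by
    apply Subtype.ext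
    rw [← h4]
    push_cast
    rfl
  have hπO : π ≠ 0 := fun h => hπ (by rw [h]; rfl)
  rw [pow_succ, mul_assoc] at h5
  have h6 := mul_left_cancel₀ (pow_ne_zero _ hπO) ((mul_one _).trans h5)
  have h7 := congrArg (IsLocalRing.residue O) h6
  rw [map_one, map_mul, hm, zero_mul] at h7
  exact one_ne_zero h7

end newton
section main

variable {M : Type*} [Field M] {O : ValuationSubring M} {π : O} {N : ℕ}

/-- LEMMA 1. -/
theorem L1_main [Infinite M] (hinf : Infinite (IsLocalRing.ResidueField O))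
    (hπ : (π : M) ≠ 0) (hm : IsLocalRing.residue O π = 0)
    (hmax : ∀ o : O, IsLocalRing.residue O o = 0 → π ∣ o)
    (hdisc : ∀ o : O, o ≠ 0 → ∃ k : ℕ, ¬ π ^ k ∣ o)
    (c : Fin (N + 1) → Fin (N + 1) → Fin (N + 1) → O)
    (hc : ∀ i j l, IsLocalRing.residue O (c i j l) = if i = j ∧ j = l then 1 else 0)
    (h2 : (2 : IsLocalRing.ResidueField O) = 0)
    (X : Fin (N + 1) → O) (hX0 : X 0 = 1)
    (hP : ∀ w : Fin (N + 1) → IsLocalRing.ResidueField O,
      ∑ i, w i ^ 2 * IsLocalRing.residue O (X i) = 0 →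
        w = w 0 • fun i => IsLocalRing.residue O (X i))
    (β : Fin (N + 1) → O) (hβ0 : β 0 = 0) (hβ : ∃ i, IsLocalRing.residue O (β i) ≠ 0)
    (gam psi : Fin (N + 1) → M)
    (hF : ∀ s : M, Fc (cm O.subtype c) (s ^ 3 • (fun i => (X i : M)) + s ^ 2 • (fun i => (β i : M)) +
      s • gam + psi) = 0)
    (A : Fin (N + 1) → Polynomial M)
    (hA : ∀ s : M, ∑ j, (A j).eval s * (s ^ 3 * (X j : M) + s ^ 2 * (β j : M) + s * gam j + psi j) = 1) :
    ∀ j, gam j ∈ O ∧ psi j ∈ O := by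
  classical
  obtain ⟨XM, hXM⟩ : ∃ XM : Fin (N + 1) → M, XM = fun i => (X i : M) := ⟨_, rfl⟩
  obtain ⟨βM, hβM⟩ : ∃ βM : Fin (N + 1) → M, βM = fun i => (β i : M) := ⟨_, rfl⟩
  obtain ⟨cM, hcM⟩ : ∃ cM, cM = cm O.subtype c := ⟨_, rfl⟩
  obtain ⟨γ, hγ⟩ : ∃ γ : Fin (N + 1) → M, γ = gam - gam 0 • XM := ⟨_, rfl⟩
  obtain ⟨ψ, hψ⟩ : ∃ ψ : Fin (N + 1) → M, ψ = psi - psi 0 • XM := ⟨_, rfl⟩
  have hXM0 : XM 0 = 1 := by
    rw [hXM]
    change ((X 0 : O) : M) = 1
    rw [hX0]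
    rfl
  have hγ0 : γ 0 = 0 := by
    rw [hγ]
    simp [hXM0]
  have hψ0 : ψ 0 = 0 := by
    rw [hψ]
    simp [hXM0]
  have hdec : ∀ s : M, s ^ 3 • (fun i => (X i : M)) + s ^ 2 • (fun i => (β i : M)) + s • gam + psi =
      (s ^ 3 + gam 0 * s + psi 0) • XM + (s ^ 2 • βM + s • γ + ψ) := by
    intro s
    funext j
    rw [hγ, hψ, hXM, hβM]
    simp only [Pi.add_apply, Pi.smul_apply, Pi.sub_apply, smul_eq_mul]
    ring
  obtain ⟨-, -, -, -, f5, f4, f3⟩ := L1_coeffs cM XM βM γ ψ (gam 0) (psi 0) (by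
    intro s
    rw [← hdec, hcM]
    exact hF s)
  -- the exponents
  obtain ⟨g0, hg0⟩ := L1_fac hπ hmax hdisc γ
  obtain ⟨h0, hh0⟩ := L1_fac hπ hmax hdisc ψ
  obtain ⟨a0, ha0⟩ := L1_fac1 hπ hmax hdisc (gam 0)
  obtain ⟨e0, he0⟩ := L1_fac1 hπ hmax hdisc (psi 0)
  obtain ⟨T, hT⟩ : ∃ T : ℤ, T = 1 + |g0| + |h0| + |a0| + |e0| := ⟨_, rfl⟩
  have hTg : g0 ≤ T := by
    have := le_abs_self g0; have := abs_nonneg h0; have := abs_nonneg a0; have := abs_nonneg e0
    omega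
  have hTh : h0 ≤ T := by
    have := le_abs_self h0; have := abs_nonneg g0; have := abs_nonneg a0; have := abs_nonneg e0
    omega
  have hTa : a0 ≤ T := by
    have := le_abs_self a0; have := abs_nonneg h0; have := abs_nonneg g0; have := abs_nonneg e0
    omega
  have hTe : e0 ≤ T := by
    have := le_abs_self e0; have := abs_nonneg h0; have := abs_nonneg a0; have := abs_nonneg g0
    omega
  have hT1 : 1 ≤ T := by
    have := abs_nonneg g0; have := abs_nonneg h0; have := abs_nonneg a0; have := abs_nonneg e0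
    omega
  obtain ⟨g, zg, hgT, hg, hgr⟩ := hg0 T hTg
  obtain ⟨h, zh, hhT, hh, hhr⟩ := hh0 T hTh
  obtain ⟨a, μ1, haT, ha, har⟩ := ha0 T hTa
  obtain ⟨e, μ0, heT, he, her⟩ := he0 T hTe
  have hzg0 : zg 0 = 0 := by
    rw [hg] at hγ0
    simp only [Pi.smul_apply, smul_eq_mul] at hγ0
    exact Subtype.ext ((mul_eq_zero.1 hγ0).resolve_left (zpow_ne_zero _ hπ))
  have hzh0 : zh 0 = 0 := by
    rw [hh] at hψ0
    simp only [Pi.smul_apply, smul_eq_mul] at hψ0
    exact Subtype.ext ((mul_eq_zero.1 hψ0).resolve_left (zpow_ne_zero _ hπ))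
  -- P1
  have hprim : ∀ z : Fin (N + 1) → O, z 0 = 0 → (∃ i, IsLocalRing.residue O (z i) ≠ 0) →
      IsLocalRing.residue O (Dc c z X) ≠ 0 := by
    rintro z hz ⟨i, hi⟩ h3
    rw [MP2619.K.K6_resD O c hc h2] at h3
    have h4 := congrFun (hP (fun i => IsLocalRing.residue O (z i)) h3) i
    simp only [Pi.smul_apply, smul_eq_mul] at h4
    rw [hz, map_zero, zero_mul] at h4
    exact hi h4
  have hu0 := hprim β hβ0 hβ
  have hDβ : Dc cM βM XM = ((Dc c β X : O) : M) := by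
    rw [hcM, hβM, hXM]
    exact MP2619.K.K6_Dc O c β X
  have vX : VIn O π 0 XM := ⟨X, by rw [hXM, zpow_zero, one_smul]⟩
  have vβ : VIn O π 0 βM := ⟨β, by rw [hβM, zpow_zero, one_smul]⟩
  have vγ : VIn O π g γ := ⟨zg, hg⟩
  have vψ : VIn O π h ψ := ⟨zh, hh⟩
  have ia : In O π a (gam 0) := ⟨μ1, ha⟩
  have ie : In O π e (psi 0) := ⟨μ0, he⟩
  have iD : In O π 0 (Dc cM βM XM) := by
    rw [hDβ]
    exact In_coe _
  have d1 := VIn_D (c := c) hπ vβ vγ
  have d2 := VIn_T (c := c) hπ hmax hc h2 vβ vψ vX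
  have d3 := VIn_D (c := c) hπ vγ vX
  have d4 := VIn_T (c := c) hπ hmax hc h2 vγ vψ vX
  have d5 := VIn_D (c := c) hπ vγ vβ
  have d6 := VIn_D (c := c) hπ vβ vψ
  have d7 := VIn_T (c := c) hπ hmax hc h2 vβ vγ vX
  have d8 := VIn_F (c := c) hπ vβ
  have d9 := VIn_F (c := c) hπ vγ
  have d10 := VIn_T (c := c) hπ hmax hc h2 vβ vγ vψ
  rw [← hcM] at d1 d2 d3 d4 d5 d6 d7 d8 d9 d10
  have i2 : In O π 1 (2 : M) := by
    obtain ⟨t, ht⟩ := hmax 2 (by rw [map_ofNat]; exact h2)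
    refine ⟨t, ?_⟩
    have h3 := congrArg O.subtype ht
    rw [map_ofNat, map_mul] at h3
    rw [zpow_one]
    exact h3
  have eγ : Dc cM γ XM = (π : M) ^ (2 * g) * ((Dc c zg X : O) : M) := by
    rw [hg, Dc_smul_left, hcM, hXM, MP2619.K.K6_Dc O c zg X, two_mul, zpow_add₀ hπ]
    ring
  have eψ : Dc cM ψ XM = (π : M) ^ (2 * h) * ((Dc c zh X : O) : M) := by
    rw [hh, Dc_smul_left, hcM, hXM, MP2619.K.K6_Dc O c zh X, two_mul, zpow_add₀ hπ]
    ring
  have ea : gam 0 * Dc cM βM XM = (π : M) ^ a * ((μ1 * Dc c β X : O) : M) := by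
    rw [hDβ, ha]
    push_cast
    ring
  have ee : psi 0 * Dc cM βM XM = (π : M) ^ e * ((μ0 * Dc c β X : O) : M) := by
    rw [hDβ, he]
    push_cast
    ring
  have H5g : g = T ∨ a ≤ 2 * g ∨ g ≤ 2 * g ∨ h + 1 ≤ 2 * g := by
    by_contra hcon
    push Not at hcon
    obtain ⟨c1, c2, c3, c4⟩ := hcon
    have h3 : In O π (2 * g + 1) ((π : M) ^ (2 * g) * ((Dc c zg X : O) : M)) := by
      rw [← eγ, f5]
      exact In_sub (In_sub (In_mono hπ (by omega) (In_mul hπ ia iD)) (In_mono hπ (by omega) d1))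
        (In_mono hπ (by omega) d2)
    have := In_unit hπ hm (hprim zg hzg0 (hgr.resolve_left c1)) h3
    omega
  have H5a : a = T ∨ 2 * g ≤ a ∨ g ≤ a ∨ h + 1 ≤ a := by
    by_contra hcon
    push Not at hcon
    obtain ⟨c1, c2, c3, c4⟩ := hcon
    have h4 : gam 0 * Dc cM βM XM = Dc cM γ XM + Dc cM βM γ + Tc cM βM ψ XM := by
      rw [f5]; ring
    have h3 : In O π (a + 1) ((π : M) ^ a * ((μ1 * Dc c β X : O) : M)) := by
      rw [← ea, h4]
      exact In_add (In_add (In_mono hπ (by omega) d3) (In_mono hπ (by omega) d1))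
        (In_mono hπ (by omega) d2)
    have := In_unit hπ hm (by rw [map_mul]; exact mul_ne_zero (har.resolve_left c1) hu0) h3
    omega
  have H4 : e = T ∨ g + h + 1 ≤ e ∨ 2 * g ≤ e ∨ h ≤ e ∨ a + g + 1 ≤ e ∨ a + 1 ≤ e := by
    by_contra hcon
    push Not at hcon
    obtain ⟨c1, c2, c3, c4, c5, c6⟩ := hcon
    have h3 : In O π (e + 1) ((π : M) ^ e * ((μ0 * Dc c β X : O) : M)) := by
      rw [← ee, f4, mul_add]
      exact In_sub (In_add (In_add (In_mono hπ (by omega) d4) (In_mono hπ (by omega) d5))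
        (In_mono hπ (by omega) d6)) (In_add (In_mono hπ (by omega) (In_mul hπ ia d7))
          (In_mono hπ (by omega) (In_mul hπ ia (In_mul hπ i2 d8))))
    have := In_unit hπ hm (by rw [map_mul]; exact mul_ne_zero (her.resolve_left c1) hu0) h3
    omega
  have H3 : h = T ∨ a + g ≤ 2 * h ∨ e + g + 1 ≤ 2 * h ∨ e + 1 ≤ 2 * h ∨ 3 * g ≤ 2 * h ∨
      g + h + 1 ≤ 2 * h := by
    by_contra hcon
    push Not at hcon
    obtain ⟨c1, c2, c3, c4, c5, c6⟩ := hcon
    have h3 : In O π (2 * h + 1) ((π : M) ^ (2 * h) * ((Dc c zh X : O) : M)) := by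
      rw [← eψ, f3, mul_add (psi 0)]
      exact In_sub (In_sub (In_add (In_mono hπ (by omega) (In_mul hπ ia d1))
        (In_add (In_mono hπ (by omega) (In_mul hπ ie d7))
          (In_mono hπ (by omega) (In_mul hπ ie (In_mul hπ i2 d8))))) (In_mono hπ (by omega) d9))
            (In_mono hπ (by omega) d10)
    have := In_unit hπ hm (hprim zh hzh0 (hhr.resolve_left c1)) h3
    omega
  rcases L1_arith T g h a e hT1 hgT hhT haT heT H5g H5a H4 H3 with ⟨k1, k2, k3, k4⟩ | ⟨k1, k2, k3, k4⟩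
  · -- everything is integral
    have hint : ∀ {k : ℤ} (_ : 0 ≤ k) (o : O), (π : M) ^ k * (o : M) ∈ O := by
      intro k hk o
      obtain ⟨d, rfl⟩ := Int.eq_ofNat_of_zero_le hk
      rw [zpow_natCast]
      exact O.mul_mem _ _ (O.pow_mem π.2 d) o.2
    intro j
    have e1 : gam j = γ j + gam 0 * XM j := by
      rw [hγ]
      simp
    have e2 : psi j = ψ j + psi 0 * XM j := by
      rw [hψ]
      simp
    have hXj : XM j ∈ O := by
      rw [hXM]
      exact (X j).2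
    refine ⟨?_, ?_⟩
    · rw [e1]
      refine O.add_mem _ _ ?_ (O.mul_mem _ _ ?_ hXj)
      · rw [hg]
        exact hint k1 _
      · rw [ha]
        exact hint k3 _
    · rw [e2]
      refine O.add_mem _ _ ?_ (O.mul_mem _ _ ?_ hXj)
      · rw [hh]
        exact hint k2 _
      · rw [he]
        exact hint k4 _
  · -- the configuration with a simple root
    exfalso
    obtain ⟨d, hd⟩ : ∃ d : ℕ, (d : ℤ) = -g := ⟨(-g).toNat, by omega⟩
    obtain ⟨d1', hd1⟩ : ∃ d1 : ℕ, (d1 : ℤ) = h - 2 * g := ⟨(h - 2 * g).toNat, by omega⟩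
    obtain ⟨d2', hd2⟩ : ∃ d2 : ℕ, (d2 : ℤ) = e - 3 * g := ⟨(e - 3 * g).toNat, by omega⟩
    have hd0 : d ≠ 0 := by omega
    have hεM : ((π ^ d : O) : M) = (π : M) ^ (-g) := by
      rw [← hd, zpow_natCast]
      push_cast
      rfl
    obtain ⟨ε, hε⟩ : ∃ ε : M, ε = (π : M) ^ (-g) := ⟨_, rfl⟩
    have hε0 : ε ≠ 0 := by
      rw [hε]
      exact zpow_ne_zero _ hπ
    have r1 : ε ^ 2 * gam 0 = (μ1 : M) := by
      rw [ha, hε, k2, ← zpow_natCast, ← zpow_mul, ← mul_assoc, ← zpow_add₀ hπ]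
      rw [show -g * ((2 : ℕ) : ℤ) + 2 * g = 0 by push_cast; ring, zpow_zero, one_mul]
    have r2 : ε ^ 3 * psi 0 = ((π ^ d2' * μ0 : O) : M) := by
      rw [he, hε, ← zpow_natCast, ← zpow_mul, ← mul_assoc, ← zpow_add₀ hπ]
      rw [show -g * ((3 : ℕ) : ℤ) + e = (d2' : ℤ) by rw [hd2]; push_cast; ring, zpow_natCast]
      push_cast
      rfl
    have r3 : ∀ j, ε * γ j = (zg j : M) := by
      intro j
      rw [hg, hε]
      simp only [Pi.smul_apply, smul_eq_mul]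
      rw [← mul_assoc, ← zpow_add₀ hπ, neg_add_cancel, zpow_zero, one_mul]
    have r4 : ∀ j, ε ^ 2 * ψ j = ((π ^ d1' * zh j : O) : M) := by
      intro j
      rw [hh, hε]
      simp only [Pi.smul_apply, smul_eq_mul]
      rw [← zpow_natCast, ← zpow_mul, ← mul_assoc, ← zpow_add₀ hπ]
      rw [show -g * ((2 : ℕ) : ℤ) + h = (d1' : ℤ) by rw [hd1]; push_cast; ring, zpow_natCast]
      push_cast
      rfl
    -- the rescaled curve
    have hcurve : ∀ (s : O) (j : Fin (N + 1)), (((s ^ 3 + μ1 * s + π ^ d2' * μ0) * X j +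
        π ^ d * (s ^ 2 * β j + s * zg j + π ^ d1' * zh j) : O) : M) =
        ε ^ 3 * (((s : M) / ε) ^ 3 * (X j : M) + ((s : M) / ε) ^ 2 * (β j : M) +
          ((s : M) / ε) * gam j + psi j) := by
      intro s j
      have h3 := congrFun (hdec ((s : M) / ε)) j
      simp only [Pi.add_apply, Pi.smul_apply, smul_eq_mul] at h3
      rw [h3]
      have e1 : (((s ^ 3 + μ1 * s + π ^ d2' * μ0) * X j +
        π ^ d * (s ^ 2 * β j + s * zg j + π ^ d1' * zh j) : O) : M) =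
        ((s : M) ^ 3 + (μ1 : M) * (s : M) + ((π ^ d2' * μ0 : O) : M)) * (X j : M) +
          ((π ^ d : O) : M) * ((s : M) ^ 2 * (β j : M) + (s : M) * (zg j : M) +
            ((π ^ d1' * zh j : O) : M)) := by
        push_cast
        ring
      rw [e1, ← r1, ← r2, ← r3, ← r4, hεM, ← hε, hXM, hβM]
      field_simp
    refine L1_newton hinf hπ hm hmax hdisc c hc h2 X hP μ1 (π ^ d2' * μ0) (π ^ d) β zg
      (fun j => π ^ d1' * zh j) (har.resolve_left (by omega))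
      (Dvd.dvd.mul_right (dvd_pow_self _ (by omega)) _) (dvd_pow_self _ hd0) ?_
      (fun j => Polynomial.C (ε⁻¹ ^ 3) * (A j).comp (Polynomial.C ε⁻¹ * Polynomial.X)) ?_
    · intro s
      have h3 : (fun j => ((((s ^ 3 + μ1 * s + π ^ d2' * μ0) • X + (π ^ d) • (s ^ 2 • β + s • zg +
          fun j => π ^ d1' * zh j)) j : O) : M)) = ε ^ 3 • (((s : M) / ε) ^ 3 • (fun i => (X i : M)) +
            ((s : M) / ε) ^ 2 • (fun i => (β i : M)) + ((s : M) / ε) • gam + psi) := by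
        funext j
        have h4 := hcurve s j
        simp only [Pi.add_apply, Pi.smul_apply, smul_eq_mul] at h4 ⊢
        exact h4
      have h4 := Fc_cm (c := c) O.subtype ((s ^ 3 + μ1 * s + π ^ d2' * μ0) • X + (π ^ d) • (s ^ 2 • β +
        s • zg + fun j => π ^ d1' * zh j))
      apply Subtype.ext
      have h5 : ((Fc c ((s ^ 3 + μ1 * s + π ^ d2' * μ0) • X + (π ^ d) • (s ^ 2 • β +
        s • zg + fun j => π ^ d1' * zh j)) : O) : M) = Fc (cm O.subtype c) (fun j =>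
          ((((s ^ 3 + μ1 * s + π ^ d2' * μ0) • X + (π ^ d) • (s ^ 2 • β + s • zg +
          fun j => π ^ d1' * zh j)) j : O) : M)) := h4.symm
      rw [h5, h3, Fc_smul, hF, mul_zero]
      rfl
    · intro s
      rw [← hA ((s : M) / ε)]
      refine Finset.sum_congr rfl fun j _ => ?_
      rw [hcurve s j, Polynomial.eval_mul, Polynomial.eval_C, Polynomial.eval_comp, Polynomial.eval_mul,
        Polynomial.eval_C, Polynomial.eval_X, div_eq_inv_mul]
      field_simp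

end main

end MP2619.CUB
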