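import Pool.Agent.Lib.MP_2619d0_ag.CUB.Place
import Pool.Agent.Lib.MP_2619d0_ag.CUB.Rank
import Pool.Agent.Lib.MP_2619d0_ag.CUB.Bezp
import Pool.Agent.Lib.MP_2619d0_ag.CUB.Lat2
import Pool.Agent.Lib.MP_2619d0_ag.CUB.INT
import Pool.Agent.Lib.MP_2619d0_ag.QMain

/-!
Cubic families: the reduction theorem for families over a field of small transcendence degree.
-/

set_option autoImplicit false

namespace MP2619.CUB

universe u

open MvPolynomial Pool.Agent.Lib.MP_2619d0_ag Pool.Agent.Lib.MP_2619d0_ag.T MP2619.T MP2619.K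

/-- The linear algebra: there are no reductions of families of cubic parametrisations of cubics in `m + 2`
variables by forms in `k + 1` variables. -/
def LA (m k : ℕ) : Prop :=
  ∀ (κ : Type u) [Field κ] (x : Fin (m + 1 + 1) → κ)
    (Φ : Fin (m + 1 + 1) → MvPolynomial (Fin (k + 1)) κ), CubRed x Φ → False

section descent

variable {E L : Type u} [Field E] [Field L] [Algebra E L]

/-- polynomials with coefficients in a subfield -/
theorem descent {n : ℕ} (M : Subfield L) (φ : MvPolynomial (Fin n) E)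
    (h : ∀ d ∈ φ.support, algebraMap E L (coeff d φ) ∈ M) :
    ∃ φM : MvPolynomial (Fin n) M, map M.subtype φM = map (algebraMap E L) φ := by
  classical
  refine ⟨∑ d : φ.support, monomial d.1 ⟨algebraMap E L (coeff d.1 φ), h d.1 d.2⟩, ?_⟩
  conv_rhs => rw [φ.as_sum]
  rw [map_sum, map_sum, ← Finset.sum_coe_sort φ.support]
  refine Finset.sum_congr rfl fun d _ => ?_
  rw [map_monomial, map_monomial]
  rfl

end descent

variable {m N : ℕ} {E L : Type u} [Field E] [Field L] [Algebra ℂ E] [Algebra ℂ L] [Algebra E L]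
  [IsScalarTower ℂ E L]

/-- The reduction theorem. -/
theorem cub_reduction2 (hm : 1 ≤ m) {F : MvPolynomial (Fin (m+1+1)) ℂ} (hF : VG F)
    (φ : Fin (m+1+1) → MvPolynomial (Fin N) E) (hφ : ∀ j, (φ j).IsHomogeneous 3)
    (h0 : aeval φ F = 0) (hcop : Cop φ) {D : ℕ} (hD : Algebra.trdeg ℂ E ≤ D) (hDm : D + 1 ≤ m)
    (p : Fin N → L) (x : Fin (m+1+1) → L) (hxd : x = fun j => aeval p (φ j)) (hx : HG F x)
    (hodd : Odd (Module.finrank (ratioField x) L)) :
    ∃ (κ : Type u) (_ : Field κ) (x' : Fin (m+1+1) → κ)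
      (Φ : Fin (m+1+1) → MvPolynomial (Fin (m - D + 1)) κ), CubRed x' Φ := by
  classical
  have hinfL : Infinite L := Infinite.of_injective _ (algebraMap ℂ L).injective
  have hchL : CharZero L := charZero_of_injective_algebraMap (algebraMap ℂ L).injective
  have hx0 : x 0 ≠ 0 := HG_zero hF hx
  have hGx : Gp F (ev x) := Gp_ev (N := m+1) hF.1 x hx0 hx
  have hodd' : Odd (fd (ev x)) := by
    rw [fd_ev (N := m+1) x hx0]
    exact hodd
  obtain ⟨q, hq⟩ : ∃ q : Fin N ⊕ Unit ⊕ (Σ j : Fin (m+1+1), (φ j).support) → L,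
    q = Sum.elim p (Sum.elim (fun _ => x 0)
      (fun s => algebraMap E L (coeff s.2.1 (φ s.1)))) := ⟨_, rfl⟩
  obtain ⟨M, O, c, X', ϖ, hM, hcL, hXL, hpl⟩ := place_pl hm hF (ev x)
    (fun a => by rw [ev_apply, aeval_C]) hGx hodd' q
  have hpM : ∀ i, p i ∈ M := by
    intro i
    have h1 := hM (Sum.inl i)
    rwa [hq] at h1
  have hxM : x 0 ∈ M := by
    have h1 := hM (Sum.inr (Sum.inl ()))
    rwa [hq] at h1
  have hcM : ∀ j, ∀ d ∈ (φ j).support, algebraMap E L (coeff d (φ j)) ∈ M := by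
    intro j d hd
    have h1 := hM (Sum.inr (Sum.inr ⟨j, ⟨d, hd⟩⟩))
    rwa [hq] at h1
  choose φM hφM using fun j => descent M (φ j) (hcM j)
  have hφMh : ∀ j, (φM j).IsHomogeneous 3 := by
    intro j
    apply MvPolynomial.IsHomogeneous.of_map (f := M.subtype) M.subtype.injective
    rw [hφM]
    exact (hφ j).map _
  obtain ⟨pM, hpMd⟩ : ∃ pM : Fin N → M, ∀ i, (pM i : L) = p i :=
    ⟨fun i => ⟨p i, hpM i⟩, fun _ => rfl⟩
  obtain ⟨μ, hμ⟩ : ∃ μ : M, (μ : L) = (x 0)⁻¹ := ⟨⟨(x 0)⁻¹, M.inv_mem hxM⟩, rfl⟩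
  have hμL : (μ : L) ≠ 0 := by
    rw [hμ]
    exact inv_ne_zero hx0
  have hμ0 : μ ≠ 0 := by
    intro h
    apply hμL
    rw [h]
    rfl
  have hch : CharZero M := by
    refine ⟨fun a b hab => ?_⟩
    have h1 : ((a : M) : L) = ((b : M) : L) := congrArg Subtype.val hab
    push_cast at h1
    exact_mod_cast h1
  have hinfM : Infinite M := inferInstance
  -- values
  have hval : ∀ (P : MvPolynomial (Fin N) M) (Q : MvPolynomial (Fin N) E),
      map M.subtype P = map (algebraMap E L) Q → ∀ u : Fin N → M,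
        ((eval u P : M) : L) = aeval (fun i => (u i : L)) Q := by
    intro P Q hPQ u
    have h1 : aeval (fun i => (u i : L)) Q = eval (fun i => (u i : L)) (map (algebraMap E L) Q) := by
      rw [eval_map, aeval_def]
    have h2 : eval (fun i => (u i : L)) (map M.subtype P) = M.subtype (eval u P) := by
      rw [eval_map]
      exact (eval₂_comp_left M.subtype (RingHom.id M) u P).symm ▸ rfl
    rw [h1, ← hPQ, h2]
    rfl
  have hφM2 : ∀ j (u : Fin N → M),
      ((eval u (φM j) : M) : L) = aeval (fun i => (u i : L)) (φ j) := fun j u =>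
    hval (φM j) (φ j) (hφM j) u
  have hXL' : ∀ i, ((X' i : M) : L) = (x 0)⁻¹ * x i := by
    intro i
    rw [hXL, yh_ev (N := m+1) x hx0]
    rfl
  have hpL : (fun i => (pM i : L)) = p := funext hpMd
  have hXφ : ∀ j, eval pM (C μ * φM j) = (X' j : M) := by
    intro j
    apply Subtype.ext
    rw [hXL', map_mul, eval_C]
    change (μ : L) * ((eval pM (φM j) : M) : L) = _
    rw [hμ, hφM2, hpL, hxd]
  have hcc : cm M.subtype (cm O.subtype c) = cL L F := by
    funext i j l
    exact hcL i j l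
  -- the cubic form vanishes on the image of `φ`
  have hFφ : ∀ u : Fin N → M, Fc (cm O.subtype c) (fun j => eval u (C μ * φM j)) = 0 := by
    intro u
    have h1 : (fun j => eval u (C μ * φM j)) = μ • fun j => eval u (φM j) := by
      funext j
      rw [map_mul, eval_C]
      rfl
    rw [h1, Fc_smul]
    have h3 : Fc (cm O.subtype c) (fun j => eval u (φM j)) = 0 := by
      apply Subtype.ext
      have h4 : Fc (cm M.subtype (cm O.subtype c)) (fun j => ((eval u (φM j) : M) : L)) =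
        ((Fc (cm O.subtype c) (fun j => eval u (φM j)) : M) : L) :=
        Fc_cm M.subtype (fun j => eval u (φM j))
      rw [hcc] at h4
      simp only [hφM2] at h4
      rw [fc_phi hF φ h0] at h4
      exact h4.symm
    rw [h3, mul_zero]
  have hhom : ∀ j, (C μ * φM j).IsHomogeneous 3 := by
    intro j
    have h1 := (isHomogeneous_C (Fin N) μ).mul (hφMh j)
    rwa [zero_add] at h1
  -- the rank of the derivative
  have hder : ∀ l j, ((eval pM (pderiv l (C μ * φM j)) : M) : L) =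
      (x 0)⁻¹ * aeval p (pderiv l (φ j)) := by
    intro l j
    rw [pderiv_C_mul, map_mul, eval_C]
    have h3 : ((eval pM (pderiv l (φM j)) : M) : L) = aeval p (pderiv l (φ j)) := by
      rw [hval (pderiv l (φM j)) (pderiv l (φ j)) (by rw [← pderiv_map, ← pderiv_map, hφM]) pM, hpL]
    rw [← h3, ← hμ]
    rfl
  obtain ⟨w0, hw0⟩ := rank_beta hF φ hφ p x hxd hx hD
  obtain ⟨w, hw⟩ := rank_descend M.subtype (fun l j => eval pM (pderiv l (C μ * φM j))) w0 (by
    have h1 : (fun i j => ∑ l, w0 i l * M.subtype (eval pM (pderiv l (C μ * φM j)))) =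
        (x 0)⁻¹ • fun i j => ∑ l, w0 i l * aeval p (pderiv l (φ j)) := by
      funext i j
      have h2 : ((x 0)⁻¹ • fun i j => ∑ l, w0 i l * aeval p (pderiv l (φ j)) :
          Fin (m - D + 1) → Fin (m+1+1) → L) i j =
          (x 0)⁻¹ * ∑ l, w0 i l * aeval p (pderiv l (φ j)) := rfl
      rw [h2, Finset.mul_sum]
      refine Finset.sum_congr rfl fun l _ => ?_
      change w0 i l * ((eval pM (pderiv l (C μ * φM j)) : M) : L) = _
      rw [hder]
      ring
    rw [h1]
    exact hw0.units_smul (fun _ => Units.mk0 _ (inv_ne_zero hx0)))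
  have h3M : (3 : M) ≠ 0 := by
    intro h
    exact three_ne_zero h
  have hX'0 := hpl.x0
  have h2M : (2 : M) ≠ 0 := by
    intro h
    exact two_ne_zero h
  have hnoM : Nop (fun j => C μ * φM j) := by
    apply nop_smul _ _ μ hμ0
    apply nop_of_map M.subtype
    have h1 : (fun j => map M.subtype (φM j)) = fun j => map (algebraMap E L) (φ j) := funext hφM
    rw [h1]
    exact nop_map φ (nop_of_cop φ hφ hcop)
  obtain ⟨R, hR, hRp, hRB⟩ := bezp (fun j => C μ * φM j) hhom hnoM pM (by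
    rw [hXφ, hX'0]
    rfl)
  obtain ⟨V, b, hV0, hb0, hbl, hb, t0, ht0⟩ := lat2 h3M O (k := m - D) (by omega) X' hX'0
    (fun j => C μ * φM j) hhom pM hXφ w hw R hR hRp
  obtain ⟨r, hr0, hr⟩ := lsubR_tail_ne V R t0 ht0
  obtain ⟨Ψ, hΨd⟩ : ∃ Ψ : Fin (m+1+1) → MvPolynomial (Fin (m - D + 1)) M,
    Ψ = fun j => lsubR V (C μ * φM j) := ⟨_, rfl⟩
  have hΨh : ∀ j, (Ψ j).IsHomogeneous 3 := by
    intro j
    rw [hΨd]
    exact lsubR_homog V (hhom j)
  have hΨF : ∀ y : Fin (m - D + 1) → M, Fc (cm O.subtype c) (fun j => eval y (Ψ j)) = 0 := by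
    intro y
    have h1 : (fun j => eval y (Ψ j)) = fun j => eval (fun i => ∑ l, V l i * y l) (C μ * φM j) := by
      funext j
      rw [hΨd]
      exact eval_lsubR V _ y
    rw [h1]
    exact hFφ _
  have hΨ3 : ∀ j, coeff (Finsupp.single 0 3) (Ψ j) = X' j := by
    intro j
    rw [hΨd]
    change coeff (Finsupp.single 0 3) (lsubR V (C μ * φM j)) = X' j
    rw [coeff_lsubR_zero V (hhom j), hV0, hXφ]
  have hΨb : ∀ i j, coeff (Finsupp.single 0 2 + Finsupp.single i.succ 1) (Ψ j) = b i j := by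
    intro i j
    rw [hΨd]
    change coeff (Finsupp.single 0 2 + Finsupp.single i.succ 1) (lsubR V (C μ * φM j)) = b i j
    rw [coeff_lsubR_one V (hhom j), hV0, hb]
  have hΨr : ∃ r : MvPolynomial (Fin (m - D)) M, r ≠ 0 ∧ ∀ t : Fin (m - D) → M, eval t r ≠ 0 →
      ∃ A : Fin (m+1+1) → Polynomial M, ∑ j, A j *
        (finSuccEquiv M (m - D) (Ψ j)).map (eval t : MvPolynomial (Fin (m - D)) M →+* M) = 1 := by
    refine ⟨r, hr0, fun t ht => ?_⟩
    rw [hr] at ht
    obtain ⟨A, hA⟩ := hRB _ ht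
    refine ⟨A, ?_⟩
    rw [← hA]
    refine Finset.sum_congr rfl fun j _ => ?_
    rw [hΨd]
    change A j * (finSuccEquiv M (m - D) (lsubR V (C μ * φM j))).map _ = _
    rw [line_lsubR, hV0]
  have hint := intg O c X' ϖ hpl h2M Ψ hΨh hΨF hΨ3 b hΨb hb0 hbl (by omega) hΨr
  obtain ⟨Φ, hΦ⟩ := red O c X' ϖ hpl Ψ hΨh hΨF hΨ3 b hΨb hb0 hbl hint
  exact ⟨_, _, _, Φ, hΦ⟩

end MP2619.CUB
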