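import Pool.Agent.Lib.MP_2619d0_ag.CUB.Place1
import Pool.Agent.Lib.MP_2619d0_ag.CUB.Red0
import Pool.Agent.Lib.MP_2619d0_ag.K.K3b

/-!
CUB, row Place: a place of odd residue degree at which the very general cubic reduces to the Fermat cubic
in characteristic two (copy of the proof of `K3_place`, with more output).
-/

set_option autoImplicit false

namespace MP2619.CUB

universe u

open MvPolynomial Pool.Agent.Lib.MP_2619d0_ag Pool.Agent.Lib.MP_2619d0_ag.T MP2619.K

/-- There are derivations dual to the elements `y i`. -/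
def DualDer {κ : Type*} [Field κ] {m : ℕ} (y : Fin m → κ) : Prop :=
  ∀ j, ∃ D : Derivation ℤ κ κ, ∀ i, D (y i) = if i = j then 1 else 0

theorem DualDer_of {k L : Type*} [Field k] [Field L] {m : ℕ} (ρ : MvPolynomial (Fin m) k →+* L)
    (h2 : (2 : L) = 0) (hρ : Function.Injective ρ)
    (hodd : Odd (Module.finrank (Subfield.closure (Set.range ρ)) L)) (y : Fin m → L)
    (hy : ∀ i, y i = ρ (X i)) : DualDer y := by
  intro j
  obtain ⟨D, hD⟩ := K2_der h2 ρ hρ hodd j
  exact ⟨D, fun i => by rw [hy, hD]⟩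

/-- The tangent space of the cone at the residue point consists of the values of derivations. -/
theorem CUB_der {L : Type*} [Field L] (h2 : (2 : L) = 0) {m : ℕ} (x : Fin (m + 1 + 1) → L)
    (h0 : x 0 = 1) (hsum : ∑ i, x i ^ 3 = 0)
    (hP1 : ∀ w : Fin (m + 1 + 1) → L, ∑ i, w i ^ 2 * x i = 0 → w = w 0 • x)
    (hD : DualDer (fun i : Fin m => x i.succ.succ)) : DerP x := by
  classical
  intro u hu
  have : CharP L 2 := CharTwo.of_one_ne_zero_of_two_eq_zero one_ne_zero h2
  choose d hd using hD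
  obtain ⟨t, ht⟩ : ∃ t : Fin m → L, ∀ j, t j = u j.succ.succ - u 0 * x j.succ.succ := ⟨_, fun _ => rfl⟩
  obtain ⟨D, hDdef⟩ : ∃ D : Derivation ℤ L L, D = ∑ j, t j • d j := ⟨_, rfl⟩
  have hDx : ∀ i : Fin m, D (x i.succ.succ) = t i := by
    intro i
    have h3 := congrFun (map_sum (Derivation.coeFnAddMonoidHom (R := ℤ) (A := L) (M := L))
      (fun j => t j • d j) Finset.univ) (x i.succ.succ)
    rw [Finset.sum_apply] at h3
    change (∑ j, t j • d j) (x i.succ.succ) = ∑ j, (t j • d j) (x i.succ.succ) at h3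
    rw [hDdef, h3]
    simp only [Derivation.smul_apply, hd, smul_eq_mul, mul_ite, mul_one, mul_zero]
    rw [Finset.sum_ite_eq, if_pos (Finset.mem_univ _)]
  have hD0 : D (x 0) = 0 := by rw [h0, Derivation.map_one_eq_zero]
  have hsq : ∀ a : L, D (a ^ 2) = 0 := by
    intro a
    rw [pow_two, Derivation.leibniz]
    exact CharTwo.add_self_eq_zero _
  have hcu : ∀ a : L, D (a ^ 3) = a ^ 2 * D a := by
    intro a
    rw [pow_succ, Derivation.leibniz, hsq, smul_eq_mul, smul_eq_mul, mul_zero, add_zero]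
  have e1 : ∑ i, x i ^ 2 * D (x i) = 0 := by
    have e := congrArg D hsum
    rw [map_sum, map_zero] at e
    rw [← e]
    exact Finset.sum_congr rfl fun i _ => (hcu _).symm
  -- `x 1 ≠ 0`
  have hx1 : x 1 ≠ 0 := by
    intro h1
    have hw : ∑ i, (Pi.single 1 1 : Fin (m + 1 + 1) → L) i ^ 2 * x i = 0 := by
      rw [Finset.sum_eq_single 1]
      · rw [Pi.single_eq_same, one_pow, one_mul, h1]
      · intro i _ hi
        rw [Pi.single_eq_of_ne hi, zero_pow two_ne_zero, zero_mul]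
      · intro h
        exact absurd (Finset.mem_univ _) h
    have h3 := congrFun (hP1 _ hw) 1
    have h01 : (0 : Fin (m + 1 + 1)) ≠ 1 := by
      intro h
      have := congrArg Fin.val h
      simp at this
    rw [Pi.single_eq_same, Pi.single_eq_of_ne h01, zero_smul] at h3
    exact one_ne_zero h3
  refine ⟨D, u 0, ?_⟩
  have e2 : ∑ i, x i ^ 2 * (u i - u 0 * x i - D (x i)) = 0 := by
    have e3 : ∀ i, x i ^ 2 * (u i - u 0 * x i - D (x i)) =
        x i ^ 2 * u i - u 0 * x i ^ 3 - x i ^ 2 * D (x i) := fun i => by ring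
    rw [Finset.sum_congr rfl fun i _ => e3 i, Finset.sum_sub_distrib, Finset.sum_sub_distrib, hu,
      ← Finset.mul_sum, hsum, e1]
    ring
  rw [Fin.sum_univ_succ, Fin.sum_univ_succ] at e2
  have e4 : ∑ i : Fin m, x i.succ.succ ^ 2 * (u i.succ.succ - u 0 * x i.succ.succ - D (x i.succ.succ)) = 0 :=
    Finset.sum_eq_zero fun i _ => by rw [hDx, ht, sub_self, mul_zero]
  rw [e4, hD0, h0] at e2
  have hs0 : ((0 : Fin (m + 1)).succ : Fin (m + 1 + 1)) = 1 := rfl
  rw [hs0] at e2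
  have e5 : x 1 ^ 2 * (u 1 - u 0 * x 1 - D (x 1)) = 0 := by
    linear_combination e2
  have e6 := (mul_eq_zero.1 e5).resolve_left (pow_ne_zero 2 hx1)
  intro i
  refine Fin.cases ?_ (fun i => ?_) i
  · rw [hD0, h0]
    ring
  · refine Fin.cases ?_ (fun i => ?_) i
    · rw [hs0]
      linear_combination e6
    · rw [hDx, ht]
      ring

/-- The place of `K3_place`, with more output: the valuation ring is discrete and the residues of the
affine coordinates (except the first) have dual derivations. -/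
theorem CUB_place {m : ℕ} (hm : 1 ≤ m) {F : MvPolynomial (Fin (m + 1 + 1)) ℂ} (hF : VG F)
    {L : Type u} [Field L] [Algebra ℂ L] (χ : MvPolynomial (Fin (m + 1)) ℂ →+* L)
    (hχC : ∀ a, χ (C a) = algebraMap ℂ L a) (hχ : Gp F χ) (hodd : Odd (fd χ)) {ι : Type}
    [Finite ι] (p : ι → L) :
    ∃ (M2 : Subfield L) (O : ValuationSubring M2)
      (c : Fin (m + 1 + 1) → Fin (m + 1 + 1) → Fin (m + 1 + 1) → O) (x : Fin (m + 1 + 1) → O),
      (∀ i, p i ∈ M2) ∧
      (∀ i j l, ((c i j l : M2) : L) = algebraMap ℂ L (cub F i j l)) ∧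
      (∀ i, ((x i : M2) : L) = yh χ i) ∧
      (∀ i j l, IsLocalRing.residue O (c i j l) = if i = j ∧ j = l then 1 else 0) ∧
      (2 : IsLocalRing.ResidueField O) = 0 ∧ Infinite (IsLocalRing.ResidueField O) ∧
      x 0 = 1 ∧
      ∑ i, IsLocalRing.residue O (x i) ^ 3 = 0 ∧
      (∃ π : O, π ≠ 0 ∧ IsLocalRing.maximalIdeal O = Ideal.span {π} ∧
        ∀ b : O, b ≠ 0 → ∃ k : ℕ, ¬ π ^ k ∣ b) ∧
      DualDer (fun i : Fin m => IsLocalRing.residue O (x i.succ.succ)) ∧
      DerP (fun i => IsLocalRing.residue O (x i)) ∧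
      (∀ w : Fin (m + 1 + 1) → IsLocalRing.ResidueField O,
        ∑ i, w i ^ 2 * IsLocalRing.residue O (x i) = 0 →
          w = w 0 • fun i => IsLocalRing.residue O (x i)) ∧
      (∀ z : Fin (m + 1 + 1) → O,
        (∀ i, IsLocalRing.residue O (z i) = IsLocalRing.residue O (x i)) →
        ∀ I : IntermediateField ℂ L, (∀ i, ((z i : M2) : L) ∈ I) →
        ∀ y : M2, IsAlgebraic I (y : L)) := by
  classical
  have hchar : CharZero L := charZero_of_injective_algebraMap (algebraMap ℂ L).injective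
  obtain ⟨hψ, hψodd⟩ := K3_deg hF χ hχ hodd
  obtain ⟨T, hT⟩ := descend (K3_psi χ) hψodd.pos.ne' (fun o : Option ι => o.elim (χ (X 0)) p)
  obtain ⟨A, _, _, _, β, hβ, h2A, hcA, hTT⟩ := K1_dvr (fun j : Exp3 (m + 1 + 1) => coeff j.1 F) hF.2
    (fun j => if ∃ i, j.1 = Finsupp.single i 3 then 1 else 0) (T.biUnion fun c => c.coeffs)
  have hden := SG4_den β T (fun c hc z hz => hTT z (Finset.mem_biUnion.mpr ⟨c, hc, hz⟩))
  obtain ⟨M2, hM2, hp, hfr⟩ := hT (MvPolynomial (Fin m) A) (MvPolynomial.map β) (by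
    intro c hc
    obtain ⟨a, b, hb, hab⟩ := hden c hc
    refine ⟨a, b, ?_, ?_⟩
    · intro h0
      exact hb (hψ (by rw [h0, map_zero]))
    · rw [← map_mul, hab])
  obtain ⟨ψ', hψ'⟩ : ∃ ψ' : MvPolynomial (Fin m) A →+* M2,
    ψ' = ((K3_psi χ).comp (MvPolynomial.map β)).codRestrict M2 hM2 := ⟨_, rfl⟩
  have hψ'v : ∀ G, (ψ' G : L) = K3_psi χ (map β G) := fun G => by rw [hψ']; rfl
  have hψ'C : ∀ a, (ψ' (C a) : L) = algebraMap ℂ L (β a) := by
    intro a
    rw [hψ'v, map_C, K3_psi_C, hχC]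
  have hψ'X : ∀ i, (ψ' (X i) : L) = χ (X i.succ) := by
    intro i
    rw [hψ'v, map_X, K3_psi_X]
  have hψ'inj : Function.Injective ψ' := by
    intro a b hab
    have h1 : K3_psi χ (map β a) = K3_psi χ (map β b) := by
      rw [← hψ'v, ← hψ'v, hab]
    exact map_injective β hβ (hψ h1)
  rw [← hψ'] at hfr
  obtain ⟨O, hO, hval, hoddO, ϖ, e, hϖ, hord⟩ := CUB_gauss ψ' hψ'inj (by rw [hfr]; exact hψodd)
  have hdisc := CUB_disc ψ' hψ'inj (by rw [hfr]; exact hψodd.pos.ne') O hO hval ϖ hϖ e hord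
  obtain ⟨ρ0, hρ0⟩ : ∃ ρ0, ρ0 = (IsLocalRing.residue O).comp (ψ'.codRestrict O hO) := ⟨_, rfl⟩
  have hρ0z : ∀ G, ρ0 G = 0 ↔ ∀ d, coeff d G ∈ IsLocalRing.maximalIdeal A := by
    intro G
    rw [← hval, ← O.valuation_lt_one_iff (⟨ψ' G, hO G⟩ : O), ← IsLocalRing.residue_eq_zero_iff, hρ0]
    rfl
  have hρ0C : ∀ a, ρ0 (C a) = 0 ↔ a ∈ IsLocalRing.maximalIdeal A := by
    intro a
    rw [hρ0z]
    constructor
    · intro h
      have h1 := h 0
      rwa [coeff_C, if_pos rfl] at h1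
    · intro h d
      rw [coeff_C]
      split_ifs
      · exact h
      · exact Ideal.zero_mem _
  -- the residue map
  obtain ⟨r, hr⟩ : ∃ r : A →+* IsLocalRing.ResidueField O, r = ρ0.comp C := ⟨_, rfl⟩
  have hloc : IsLocalHom r := by
    refine ⟨fun a ha => ?_⟩
    by_contra hna
    have h1 : a ∈ IsLocalRing.maximalIdeal A := (IsLocalRing.mem_maximalIdeal a).2 hna
    rw [← hρ0C] at h1
    rw [hr] at ha
    exact ha.ne_zero h1
  let r1 : IsLocalRing.ResidueField A →+* IsLocalRing.ResidueField O := IsLocalRing.ResidueField.lift r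
  have hr1 : ∀ a, r1 (IsLocalRing.residue A a) = ρ0 (C a) := by
    intro a
    change IsLocalRing.ResidueField.lift r (IsLocalRing.residue A a) = _
    rw [IsLocalRing.ResidueField.lift_residue_apply, hr]
    rfl
  obtain ⟨ρ1, hρ1⟩ : ∃ ρ1 : MvPolynomial (Fin m) (IsLocalRing.ResidueField A) →+*
    IsLocalRing.ResidueField O, ρ1 = eval₂Hom r1 (fun i => ρ0 (X i)) := ⟨_, rfl⟩
  have hρ1X : ∀ i, ρ1 (X i) = ρ0 (X i) := by
    intro i
    rw [hρ1, coe_eval₂Hom, eval₂_X]
  have hρ10 : ∀ G, ρ1 (map (IsLocalRing.residue A) G) = ρ0 G := by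
    intro G
    have h1 : ρ1.comp (map (IsLocalRing.residue A)) = ρ0 := by
      apply MvPolynomial.ringHom_ext
      · intro a
        rw [RingHom.comp_apply, map_C, hρ1, coe_eval₂Hom, eval₂_C, hr1]
      · intro i
        rw [RingHom.comp_apply, map_X, hρ1X]
    exact RingHom.congr_fun h1 G
  have hsurj : Function.Surjective (map (IsLocalRing.residue A) :
      MvPolynomial (Fin m) A → MvPolynomial (Fin m) (IsLocalRing.ResidueField A)) :=
    map_surjective _ IsLocalRing.residue_surjective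
  have hρ1inj : Function.Injective ρ1 := by
    rw [injective_iff_map_eq_zero]
    intro P hP
    obtain ⟨G, rfl⟩ := hsurj P
    rw [hρ10, hρ0z] at hP
    ext d
    rw [coeff_map, coeff_zero, IsLocalRing.residue_eq_zero_iff]
    exact hP d
  have hrange : Set.range ρ1 = Set.range ρ0 := by
    apply Set.Subset.antisymm
    · rintro _ ⟨P, rfl⟩
      obtain ⟨G, rfl⟩ := hsurj P
      exact ⟨G, (hρ10 G).symm⟩
    · rintro _ ⟨G, rfl⟩
      exact ⟨_, hρ10 G⟩
  have hodd1 : Odd (Module.finrank (Subfield.closure (Set.range ρ1))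
      (IsLocalRing.ResidueField O)) := by
    rw [hrange, hρ0]
    exact hoddO
  have h2res : (2 : IsLocalRing.ResidueField O) = 0 := by
    have h1 := (hρ0C 2).2 h2A
    have h2 : (C (2 : A) : MvPolynomial (Fin m) A) = 2 := map_ofNat C 2
    rw [h2, map_ofNat] at h1
    exact h1
  have hinf : Infinite (IsLocalRing.ResidueField O) := by
    have : Nonempty (Fin m) := ⟨⟨0, hm⟩⟩
    exact Infinite.of_injective ρ1 hρ1inj
  -- coefficients
  choose cA hcA1 hcA2 using hcA
  have hdeg : ∀ i j k : Fin (m + 1 + 1), (Finsupp.single i 1 + Finsupp.single j 1 +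
      Finsupp.single k 1 : Fin (m + 1 + 1) →₀ ℕ).degree = 3 := by
    intro i j k
    simp [map_add]
  obtain ⟨c, hc⟩ : ∃ c : Fin (m + 1 + 1) → Fin (m + 1 + 1) → Fin (m + 1 + 1) → O, ∀ i j k,
      c i j k = if i ≤ j ∧ j ≤ k then (ψ'.codRestrict O hO)
        (C (cA (⟨Finsupp.single i 1 + Finsupp.single j 1 + Finsupp.single k 1, hdeg i j k⟩ :
          Exp3 (m + 1 + 1)))) else 0 := ⟨_, fun _ _ _ => rfl⟩
  have hcL : ∀ i j l, ((c i j l : M2) : L) = algebraMap ℂ L (cub F i j l) := by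
    intro i j k
    rw [hc]
    unfold cub
    split_ifs with h
    · change (ψ' (C _) : L) = _
      rw [hψ'C, hcA1]
    · rw [map_zero]
      rfl
  have hcr : ∀ i j l, IsLocalRing.residue O (c i j l) = if i = j ∧ j = l then 1 else 0 := by
    intro i j k
    rw [hc]
    by_cases h : i ≤ j ∧ j ≤ k
    · rw [if_pos h]
      have h3 := (hρ0C _).2 (hcA2 (⟨Finsupp.single i 1 + Finsupp.single j 1 + Finsupp.single k 1,
        hdeg i j k⟩ : Exp3 (m + 1 + 1)))
      rw [C_sub, map_sub, sub_eq_zero, hρ0] at h3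
      change IsLocalRing.residue O ((ψ'.codRestrict O hO) (C _)) = _ at h3
      rw [h3]
      by_cases h2 : i = j ∧ j = k
      · rw [if_pos h2, if_pos]
        · rw [Int.cast_one, C_1, map_one]
        · obtain ⟨rfl, rfl⟩ := h2
          refine ⟨i, ?_⟩
          change (Finsupp.single i 1 + Finsupp.single i 1 + Finsupp.single i 1 :
            Fin (m + 1 + 1) →₀ ℕ) = _
          rw [← Finsupp.single_add, ← Finsupp.single_add]
      · rw [if_neg h2, if_neg]
        · rw [Int.cast_zero, C_0, map_zero]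
        · rintro ⟨l, hl⟩
          exact h2 (V1_sum_single i j k l hl)
    · rw [if_neg h, if_neg, map_zero]
      rintro ⟨rfl, rfl⟩
      exact h ⟨le_refl _, le_refl _⟩
  -- the point
  obtain ⟨xM, hxMd⟩ : ∃ xM : Fin (m + 1 + 1) → M2,
    xM = Fin.cons 1 (Fin.cons ⟨χ (X 0), hp none⟩ (fun i => ψ' (X i))) := ⟨_, rfl⟩
  have hxM0 : xM 0 = 1 := by rw [hxMd, Fin.cons_zero]
  have hxM2 : ∀ i : Fin m, xM i.succ.succ = ψ' (X i) := by
    intro i
    rw [hxMd, Fin.cons_succ, Fin.cons_succ]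
  have hxML : ∀ i, (xM i : L) = yh χ i := by
    intro i
    rw [hxMd]
    unfold yh
    refine Fin.cases ?_ (fun i => ?_) i
    · rw [Fin.cons_zero, Fin.cons_zero]
      rfl
    · rw [Fin.cons_succ, Fin.cons_succ]
      refine Fin.cases ?_ (fun i => ?_) i
      · rw [Fin.cons_zero]
      · rw [Fin.cons_succ, hψ'X]
  have hF0 : Fc (cm O.subtype c) xM = 0 := by
    apply Subtype.ext
    have h1 : Fc (cm M2.subtype (cm O.subtype c)) (fun i => (xM i : L)) =
        ((Fc (cm O.subtype c) xM : M2) : L) := Fc_cm M2.subtype xM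
    have h2 : cm M2.subtype (cm O.subtype c) = cc F χ := by
      funext i j k
      change ((c i j k : M2) : L) = χ (C (cub F i j k))
      rw [hcL, hχC]
    have h3 : (fun i => (xM i : L)) = yh χ := funext hxML
    rw [h2, h3, ← chi_dh hF.1 χ, (hχ _).2 dvd_rfl] at h1
    exact h1.symm
  have hxO2 : ∀ i : Fin (m + 1 + 1), i ≠ 1 → xM i ∈ O := by
    intro i
    refine Fin.cases ?_ (fun i => ?_) i
    · intro _
      rw [hxM0]
      exact O.one_mem
    · refine Fin.cases ?_ (fun i => ?_) i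
      · intro h
        exact absurd rfl h
      · intro _
        rw [hxM2]
        exact hO _
  have hξ : xM 1 ∈ O := by
    by_contra hnot
    have hinv : (xM 1)⁻¹ ∈ O := (O.mem_or_inv_mem _).resolve_left hnot
    have hx1 : xM 1 ≠ 0 := by
      intro h
      apply hnot
      rw [h]
      exact O.zero_mem
    have hres0 : IsLocalRing.residue O ⟨(xM 1)⁻¹, hinv⟩ = 0 := by
      rw [IsLocalRing.residue_eq_zero_iff, IsLocalRing.mem_maximalIdeal, mem_nonunits_iff]
      rintro ⟨u, hu⟩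
      apply hnot
      have h1 : ((u : O) : M2) * (((u⁻¹ : Oˣ) : O) : M2) = 1 := by
        have h2 : ((u : O) * ((u⁻¹ : Oˣ) : O) : O) = 1 := Units.mul_inv u
        exact congrArg Subtype.val h2
      rw [hu] at h1
      have h2 : (((u⁻¹ : Oˣ) : O) : M2) = xM 1 := by
        have h3 : (xM 1)⁻¹ * (((u⁻¹ : Oˣ) : O) : M2) = 1 := h1
        field_simp at h3
        exact h3
      rw [← h2]
      exact (((u⁻¹ : Oˣ) : O)).2
    let w : Fin (m + 1 + 1) → O := fun i => if h : i = 1 then 1 else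
      ⟨(xM 1)⁻¹, hinv⟩ * ⟨xM i, hxO2 i h⟩
    have hw : (fun i => (w i : M2)) = (xM 1)⁻¹ • xM := by
      funext i
      by_cases h : i = 1
      · simp only [w]
        rw [dif_pos h, h, Pi.smul_apply, smul_eq_mul, inv_mul_cancel₀ hx1]
        rfl
      · simp only [w]
        rw [dif_neg h]
        rfl
    have hFw : Fc c w = 0 := by
      apply Subtype.ext
      have h1 : Fc (cm O.subtype c) (fun i => (w i : M2)) = ((Fc c w : O) : M2) := Fc_cm O.subtype w
      rw [hw, Fc_smul, hF0, mul_zero] at h1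
      exact h1.symm
    have h2 := congrArg (IsLocalRing.residue O) hFw
    rw [map_zero, ← Fc_cm, A4_Fc (cm (IsLocalRing.residue O) c) hcr, Finset.sum_eq_single 1] at h2
    · have hw1 : w 1 = 1 := dif_pos rfl
      rw [hw1, map_one, one_pow] at h2
      exact one_ne_zero h2
    · intro i _ hi
      simp only [w]
      rw [dif_neg hi, map_mul, hres0, zero_mul, zero_pow (by norm_num)]
    · intro h
      exact absurd (Finset.mem_univ _) h
  have hxO : ∀ i, xM i ∈ O := by
    intro i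
    by_cases h : i = 1
    · rw [h]
      exact hξ
    · exact hxO2 i h
  obtain ⟨x, hx⟩ : ∃ x : Fin (m + 1 + 1) → O, ∀ i, (x i : M2) = xM i :=
    ⟨fun i => ⟨xM i, hxO i⟩, fun _ => rfl⟩
  have hx0 : IsLocalRing.residue O (x 0) = 1 := by
    have h1 : x 0 = 1 := Subtype.ext ((hx 0).trans hxM0)
    rw [h1, map_one]
  have hx2 : ∀ i : Fin m, x i.succ.succ = (ψ'.codRestrict O hO) (X i) := fun i =>
    Subtype.ext ((hx _).trans (hxM2 i))
  have hx2' : ∀ i : Fin m, IsLocalRing.residue O (x i.succ.succ) = ρ1 (X i) := by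
    intro i
    rw [hx2, hρ1X, hρ0]
    rfl
  have hsum : ∑ i, IsLocalRing.residue O (x i) ^ 3 = 0 := by
    have h1 : Fc c x = 0 := by
      apply Subtype.ext
      have h1 : Fc (cm O.subtype c) (fun i => (x i : M2)) = ((Fc c x : O) : M2) := Fc_cm O.subtype x
      rw [funext hx, hF0] at h1
      exact h1.symm
    have h2 := congrArg (IsLocalRing.residue O) h1
    rwa [map_zero, ← Fc_cm, A4_Fc (cm (IsLocalRing.residue O) c) hcr] at h2
  have hP1 : ∀ w : Fin (m + 1 + 1) → IsLocalRing.ResidueField O,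
      ∑ i, w i ^ 2 * IsLocalRing.residue O (x i) = 0 →
        w = w 0 • fun i => IsLocalRing.residue O (x i) := fun w hw =>
    K2_P1 h2res ρ1 hρ1inj hodd1 (fun i => IsLocalRing.residue O (x i)) hx0 hx2' hsum w hw
  have hdual : DualDer (fun i : Fin m => IsLocalRing.residue O (x i.succ.succ)) :=
    DualDer_of ρ1 h2res hρ1inj hodd1 _ hx2'
  refine ⟨M2, O, c, x, fun i => hp (some i), hcL, ?_, hcr, h2res, hinf,
    Subtype.ext ((hx 0).trans hxM0), hsum, hdisc, hdual,
    CUB_der h2res _ hx0 hsum hP1 hdual, hP1, ?_⟩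
  · intro i
    rw [hx, hxML]
  · intro z hz I hI y
    refine K3_trans β M2 ψ' hψ'inj hψ'C ?_ O hO hval (fun i => z i.succ.succ) ?_ I
      (fun i => hI _) y
    · rw [hfr]
      exact hψodd.pos.ne'
    · intro i
      rw [hz, hx2]

theorem place_pl {m : ℕ} (hm : 1 ≤ m) {F : MvPolynomial (Fin (m + 1 + 1)) ℂ} (hF : VG F)
    {L : Type u} [Field L] [Algebra ℂ L] (χ : MvPolynomial (Fin (m + 1)) ℂ →+* L)
    (hχC : ∀ a, χ (C a) = algebraMap ℂ L a) (hχ : Gp F χ) (hodd : Odd (fd χ)) {ι : Type}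
    [Finite ι] (p : ι → L) :
    ∃ (M2 : Subfield L) (O : ValuationSubring M2)
      (c : Fin (m + 1 + 1) → Fin (m + 1 + 1) → Fin (m + 1 + 1) → O) (x : Fin (m + 1 + 1) → O)
      (ϖ : O),
      (∀ i, p i ∈ M2) ∧
      (∀ i j l, ((c i j l : M2) : L) = algebraMap ℂ L (cub F i j l)) ∧
      (∀ i, ((x i : M2) : L) = yh χ i) ∧ Pl O c x ϖ := by
  obtain ⟨M2, O, c, x, h1, h2, h3, h4, h5, h6, h7, h8, ⟨π, h9, h10, h11⟩, -, h12, h13, -⟩ :=
    CUB_place hm hF χ hχC hχ hodd p
  refine ⟨M2, O, c, x, π, h1, h2, h3, ⟨⟨?_, ?_, h11⟩, h5, h6, h4, h7, h8, h13, h12⟩⟩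
  · rw [h10]
    exact Ideal.mem_span_singleton_self π
  · intro b hb
    rw [h10] at hb
    exact Ideal.mem_span_singleton.1 hb

end MP2619.CUB
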