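import Pool.Agent.Lib.MP_2619d0_ag.T.SG1
import Pool.Agent.Lib.MP_2619d0_ag.K.K2

/-!
CUB, row Place, part 1: the places over the Gauss valuation are discrete.
-/

set_option autoImplicit false

namespace MP2619.CUB

open MvPolynomial Pool.Agent.Lib.MP_2619d0_ag Pool.Agent.Lib.MP_2619d0_ag.T

universe u

/-- `SG1_places` with the order of the prime element. -/
theorem CUB_places {R : Type*} {M : Type u} [CommRing R] [IsDomain R] [IsNoetherianRing R] [Field M]
    [CharZero M] (ψ : R →+* M) (hψ : Function.Injective ψ)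
    (hfd : Module.finrank (Subfield.closure (Set.range ψ)) M ≠ 0) (f : R) (hf : Prime f) :
    ∃ (s : Finset (ValuationSubring M)) (e d : ValuationSubring M → ℕ),
      (∀ O, O ∈ s ↔ ((∀ G, ψ G ∈ O) ∧ ∀ G, O.valuation (ψ G) < 1 ↔ f ∣ G)) ∧
      (∀ O ∈ s, HasOrd O (ψ f) (e O)) ∧
      (∀ O ∈ s, ∀ h : ∀ G, ψ G ∈ O, Module.finrank (Subfield.closure (Set.range
        ((IsLocalRing.residue O).comp (ψ.codRestrict O h)))) (IsLocalRing.ResidueField O) = d O) ∧
      ∑ O ∈ s, e O * d O = Module.finrank (Subfield.closure (Set.range ψ)) M := by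
  have hp : (Ideal.span {f}).IsPrime := (Ideal.span_singleton_prime hf.ne_zero).mpr hf
  let A := Localization.AtPrime (Ideal.span {f})
  have hle : (Ideal.span {f}).primeCompl ≤ nonZeroDivisors R :=
    Ideal.primeCompl_le_nonZeroDivisors (Ideal.span {f})
  have hdom : IsDomain A := IsLocalization.isDomain_localization hle
  have hnoeth : IsNoetherianRing A :=
    IsLocalization.isNoetherianRing (Ideal.span {f}).primeCompl A inferInstance
  have hinjA : Function.Injective (algebraMap R A) :=
    IsLocalization.injective A hle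
  have hmax : IsLocalRing.maximalIdeal A = Ideal.span {algebraMap R A f} := by
    rw [← IsLocalization.AtPrime.map_eq_maximalIdeal (Ideal.span {f}) A, Ideal.map_span,
      Set.image_singleton]
  have hfA : algebraMap R A f ≠ 0 := by
    intro h
    exact hf.ne_zero (hinjA (by rw [h, map_zero]))
  have hnf : ¬ IsField A := by
    intro h
    rw [IsLocalRing.isField_iff_maximalIdeal_eq, hmax, Ideal.span_singleton_eq_bot] at h
    exact hfA h
  have hdvr : IsDiscreteValuationRing A := by
    refine ((IsDiscreteValuationRing.TFAE A hnf).out 0 4).mpr ?_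
    rw [hmax]
    exact ⟨⟨_, rfl⟩⟩
  have hirr : Irreducible (algebraMap R A f) :=
    (IsDiscreteValuationRing.irreducible_iff_uniformizer _).mpr hmax
  have hunit : ∀ y : (Ideal.span {f}).primeCompl, IsUnit (ψ y) := by
    intro y
    rw [isUnit_iff_ne_zero]
    intro h
    have h0 : (y : R) = 0 := hψ (by rw [h, map_zero])
    apply y.2
    rw [h0]
    exact Ideal.zero_mem _
  let j : A →+* M := IsLocalization.lift hunit
  have hj1 : ∀ G, j (algebraMap R A G) = ψ G := fun G =>
    IsLocalization.lift_eq hunit G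
  have hjmul : ∀ (G : R) (H : (Ideal.span {f}).primeCompl),
      j (IsLocalization.mk' A G H) * ψ H = ψ G := by
    intro G H
    rw [← hj1, ← hj1, ← map_mul, IsLocalization.mk'_spec]
  have hψne : ∀ H : (Ideal.span {f}).primeCompl, ψ H ≠ 0 := fun H => (hunit H).ne_zero
  have hj : Function.Injective j := by
    rw [injective_iff_map_eq_zero]
    intro a ha
    obtain ⟨G, H, rfl⟩ := IsLocalization.exists_mk'_eq (Ideal.span {f}).primeCompl a
    have h1 := hjmul G H
    rw [ha, zero_mul] at h1
    have h2 : G = 0 := hψ (by rw [← h1, map_zero])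
    rw [h2, IsLocalization.mk'_zero]
  have hcl : Subfield.closure (Set.range j) = Subfield.closure (Set.range ψ) := by
    apply le_antisymm
    · rw [Subfield.closure_le]
      rintro _ ⟨a, rfl⟩
      obtain ⟨G, H, rfl⟩ := IsLocalization.exists_mk'_eq (Ideal.span {f}).primeCompl a
      exact LT3_div_mem ψ G H _ (hψne H) (hjmul G H)
    · rw [Subfield.closure_le]
      rintro _ ⟨G, rfl⟩
      exact Subfield.subset_closure ⟨_, hj1 G⟩
  have hfin : Module.finrank (Subfield.closure (Set.range j)) M =
      Module.finrank (Subfield.closure (Set.range ψ)) M := by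
    rw [hcl]
  obtain ⟨s, e, d, h1, h2, h3, h4⟩ := fi_dvr j hj (by rw [hfin]; exact hfd)
  have hmem : ∀ G, algebraMap R A G ∈ IsLocalRing.maximalIdeal A ↔ f ∣ G := by
    intro G
    rw [IsLocalization.AtPrime.to_map_mem_maximal_iff A (Ideal.span {f}), Ideal.mem_span_singleton]
  refine ⟨s, e, d, ?_, ?_, ?_, ?_⟩
  · intro O
    rw [h1]
    constructor
    · rintro ⟨ha, hb⟩
      refine ⟨fun G => ?_, fun G => ?_⟩
      · rw [← hj1]; exact ha _
      · rw [← hj1, hb, hmem]
    · rintro ⟨ha, hb⟩
      have hH : ∀ H : (Ideal.span {f}).primeCompl, O.valuation (ψ H) = 1 := by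
        intro H
        apply le_antisymm ((O.valuation_le_one_iff _).mpr (ha _))
        rw [← not_lt]
        intro hlt
        rw [hb, ← Ideal.mem_span_singleton] at hlt
        exact H.2 hlt
      have hval : ∀ (G : R) (H : (Ideal.span {f}).primeCompl),
          O.valuation (j (IsLocalization.mk' A G H)) = O.valuation (ψ G) := by
        intro G H
        rw [← hjmul G H, map_mul, hH, mul_one]
      refine ⟨fun a => ?_, fun a => ?_⟩
      · obtain ⟨G, H, rfl⟩ := IsLocalization.exists_mk'_eq (Ideal.span {f}).primeCompl a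
        rw [← O.valuation_le_one_iff, hval, O.valuation_le_one_iff]
        exact ha G
      · obtain ⟨G, H, rfl⟩ := IsLocalization.exists_mk'_eq (Ideal.span {f}).primeCompl a
        rw [hval, hb, IsLocalization.AtPrime.mk'_mem_maximal_iff A (Ideal.span {f}),
          Ideal.mem_span_singleton]
  · intro O hO
    rw [← hj1]
    exact h2 O hO _ hirr
  · intro O hO h
    have hO1 := (h1 O).mp hO
    rw [← h3 O hO hO1.1]
    have hcl2 : Subfield.closure (Set.range ((IsLocalRing.residue O).comp
        (j.codRestrict O hO1.1))) = Subfield.closure (Set.range ((IsLocalRing.residue O).comp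
        (ψ.codRestrict O h))) := by
      apply le_antisymm
      · rw [Subfield.closure_le]
        rintro _ ⟨a, rfl⟩
        obtain ⟨G, H, rfl⟩ := IsLocalization.exists_mk'_eq (Ideal.span {f}).primeCompl a
        refine LT3_div_mem ((IsLocalRing.residue O).comp (ψ.codRestrict O h)) G H _ ?_ ?_
        · intro h0
          have h5 : (ψ.codRestrict O h) (H : R) ∈ IsLocalRing.maximalIdeal O := by
            rw [← IsLocalRing.residue_eq_zero_iff]
            exact h0
          rw [ValuationSubring.valuation_lt_one_iff] at h5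
          have h6 : O.valuation (ψ H) < 1 := h5
          rw [← hj1, hO1.2, hmem, ← Ideal.mem_span_singleton] at h6
          exact H.2 h6
        · have h7 : (j.codRestrict O hO1.1) (IsLocalization.mk' A G H) * (ψ.codRestrict O h) H =
              (ψ.codRestrict O h) G := Subtype.ext (hjmul G H)
          have h8 := congrArg (IsLocalRing.residue O) h7
          rw [map_mul] at h8
          exact h8
      · rw [Subfield.closure_le]
        rintro _ ⟨G, rfl⟩
        refine Subfield.subset_closure ⟨algebraMap R A G, ?_⟩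
        have h7 : (j.codRestrict O hO1.1) (algebraMap R A G) =
              (ψ.codRestrict O h) G := Subtype.ext (hj1 G)
        exact congrArg (IsLocalRing.residue O) h7
    rw [← hcl2]
  · rw [h4, hfin]

/-- An extension of the Gauss valuation to an extension of odd degree, with odd residue degree;
the valuation ring is discrete. -/
theorem CUB_gauss {A : Type*} {M : Type u} [CommRing A] [IsDomain A] [IsDiscreteValuationRing A]
    [Field M] [CharZero M] {N : ℕ} (ψ : MvPolynomial (Fin N) A →+* M) (hψ : Function.Injective ψ)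
    (hodd : Odd (Module.finrank (Subfield.closure (Set.range ψ)) M)) :
    ∃ (O : ValuationSubring M) (h : ∀ G, ψ G ∈ O),
      (∀ G, O.valuation (ψ G) < 1 ↔ ∀ d, coeff d G ∈ IsLocalRing.maximalIdeal A) ∧
      Odd (Module.finrank (Subfield.closure (Set.range ((IsLocalRing.residue O).comp
        (ψ.codRestrict O h)))) (IsLocalRing.ResidueField O)) ∧
      ∃ (ϖ : A) (e : ℕ), Irreducible ϖ ∧ HasOrd O (ψ (C ϖ)) e := by
  obtain ⟨ϖ, hϖ⟩ := IsDiscreteValuationRing.exists_irreducible A
  have hmax := (IsDiscreteValuationRing.irreducible_iff_uniformizer ϖ).mp hϖ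
  have hprime : Prime (C ϖ : MvPolynomial (Fin N) A) := (MvPolynomial.prime_C_iff (Fin N)).mpr hϖ.prime
  obtain ⟨s, e, d, h1, h1', h2, h3⟩ := CUB_places ψ hψ hodd.pos.ne' (C ϖ) hprime
  obtain ⟨O, hOs, hOd⟩ : ∃ O ∈ s, Odd (d O) := by
    by_contra hcon
    push Not at hcon
    have h4 : Even (∑ O ∈ s, e O * d O) := by
      apply Finset.even_sum
      intro O hO
      exact (Nat.not_odd_iff_even.1 (hcon O hO)).mul_left _
    rw [h3] at h4
    exact (Nat.not_even_iff_odd.2 hodd) h4
  obtain ⟨hO1, hO2⟩ := (h1 O).1 hOs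
  refine ⟨O, hO1, ?_, ?_, ϖ, e O, hϖ, h1' O hOs⟩
  · intro G
    rw [hO2, C_dvd_iff_dvd_coeff]
    simp only [hmax, Ideal.mem_span_singleton]
  · rw [h2 O hOs hO1]
    exact hOd

/-- The valuation ring is discrete: some power of the uniformizer does not divide a given element. -/
theorem CUB_disc {A : Type*} {M : Type u} [CommRing A] [IsDomain A] [IsDiscreteValuationRing A]
    [Field M] {N : ℕ} (ψ : MvPolynomial (Fin N) A →+* M) (hψ : Function.Injective ψ)
    (hfin : Module.finrank (Subfield.closure (Set.range ψ)) M ≠ 0) (O : ValuationSubring M)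
    (hO : ∀ G, ψ G ∈ O)
    (hval : ∀ G, O.valuation (ψ G) < 1 ↔ ∀ d, coeff d G ∈ IsLocalRing.maximalIdeal A)
    (ϖ : A) (hϖ : Irreducible ϖ) (e : ℕ) (hord : HasOrd O (ψ (C ϖ)) e) :
    ∃ π : O, π ≠ 0 ∧ IsLocalRing.maximalIdeal O = Ideal.span {π} ∧
      ∀ b : O, b ≠ 0 → ∃ k : ℕ, ¬ π ^ k ∣ b := by
  classical
  obtain ⟨w, hw0, hw1, hw, η, hη, hηw⟩ := hord
  have hwO : w ∈ O := (O.valuation_le_one_iff _).1 hw1.le
  have hprime : Prime (C ϖ : MvPolynomial (Fin N) A) := (MvPolynomial.prime_C_iff (Fin N)).mpr hϖ.prime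
  have hmaxA := (IsDiscreteValuationRing.irreducible_iff_uniformizer ϖ).mp hϖ
  have hmem : ∀ b : O, b ∈ IsLocalRing.maximalIdeal O ↔ O.valuation (b : M) < 1 := by
    intro b
    rw [← ValuationSubring.valuation_lt_one_iff]
  refine ⟨⟨w, hwO⟩, ?_, ?_, ?_⟩
  · intro h
    exact hw0 (congrArg Subtype.val h)
  · apply le_antisymm
    · intro b hb
      rw [hmem] at hb
      obtain ⟨c, hc, hbc⟩ := hw _ hb
      rw [Ideal.mem_span_singleton]
      refine ⟨⟨c, hc⟩, Subtype.ext ?_⟩
      rw [hbc, mul_comm]
      rfl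
    · rw [Ideal.span_singleton_le_iff_mem, hmem]
      exact hw1
  · intro b hb
    by_contra hcon
    push Not at hcon
    -- `b` is algebraic over the polynomial ring
    let _ : Algebra (MvPolynomial (Fin N) A) O := (ψ.codRestrict O hO).toAlgebra
    have halg : IsAlgebraic (MvPolynomial (Fin N) A) b := by
      let K : Subfield M := Subfield.closure (Set.range ψ)
      let ψK : MvPolynomial (Fin N) A →+* K :=
        ψ.codRestrict _ (fun g => Subfield.subset_closure ⟨g, rfl⟩)
      let _ : Algebra (MvPolynomial (Fin N) A) K := ψK.toAlgebra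
      have hfrac : IsFractionRing (MvPolynomial (Fin N) A) K := MP2619.K.K2_frac ψ hψ
      let _ : Algebra (MvPolynomial (Fin N) A) M := ψ.toAlgebra
      have t1 : IsScalarTower (MvPolynomial (Fin N) A) K M :=
        IsScalarTower.of_algebraMap_eq fun _ => rfl
      have hfd : FiniteDimensional K M := Module.finite_of_finrank_pos (Nat.pos_of_ne_zero hfin)
      have h2 : IsAlgebraic K (b : M) := Algebra.IsAlgebraic.isAlgebraic _
      rw [← IsFractionRing.isAlgebraic_iff (MvPolynomial (Fin N) A) K M] at h2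
      obtain ⟨P, hP0, hP⟩ := h2
      refine ⟨P, hP0, Subtype.ext ?_⟩
      rw [Polynomial.aeval_def] at hP ⊢
      have h5 := Polynomial.hom_eval₂ P (algebraMap (MvPolynomial (Fin N) A) O) O.subtype b
      change O.subtype _ = _
      rw [h5]
      exact hP
    obtain ⟨r, hr0, hr⟩ := halg.exists_nonzero_dvd (mem_nonZeroDivisors_of_ne_zero hb)
    obtain ⟨n, Q, hQ, hrQ⟩ := WfDvdMonoid.max_power_factor hr0 hprime.irreducible
    have hQ1 : O.valuation (ψ Q) = 1 := by
      apply le_antisymm ((O.valuation_le_one_iff _).mpr (hO _))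
      rw [← not_lt]
      intro hlt
      rw [hval] at hlt
      apply hQ
      rw [C_dvd_iff_dvd_coeff]
      intro d
      have h7 := hlt d
      rwa [hmaxA, Ideal.mem_span_singleton] at h7
    have hrv : O.valuation (ψ r) = O.valuation w ^ (e * n) := by
      rw [hrQ, map_mul, map_mul, hQ1, mul_one, map_pow, map_pow, hηw, map_mul, hη, one_mul,
        map_pow, pow_mul]
    obtain ⟨c, hc⟩ := (hcon (e * n + 1)).trans hr
    have hc' : ψ r = w ^ (e * n + 1) * (c : M) := congrArg Subtype.val hc
    have h8 : O.valuation (ψ r) ≤ O.valuation w ^ (e * n + 1) := by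
      rw [hc', map_mul, map_pow]
      exact mul_le_of_le_one_right' ((O.valuation_le_one_iff _).2 c.2)
    rw [hrv] at h8
    have hv0 : O.valuation w ≠ 0 := (Valuation.ne_zero_iff _).2 hw0
    have h9 : O.valuation w ^ (e * n + 1) < O.valuation w ^ (e * n) := by
      rw [pow_succ]
      exact mul_lt_of_lt_one_right (zero_lt_iff.2 (pow_ne_zero _ hv0)) hw1
    exact absurd h8 (not_le.2 h9)

end MP2619.CUB
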