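import Mathlib

set_option autoImplicit false

namespace MP2619.CUB

universe w u

open MvPolynomial Algebra

open scoped IntermediateField.algebraAdjoinAdjoin in
private theorem ts_field {k : Type w} {L1 : Type u} [Field k] [Field L1] [Algebra k L1] (S : Set L1) :
    Algebra.trdeg k (IntermediateField.adjoin k S) = Algebra.trdeg k (Algebra.adjoin k S) := by
  have h2 := trdeg_add_eq k (Algebra.adjoin k S) (A := IntermediateField.adjoin k S)
  have h3 : Algebra.trdeg (Algebra.adjoin k S) (IntermediateField.adjoin k S) = 0 := by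
    rw [trdeg_eq_zero_iff]
    infer_instance
  rw [h3, add_zero] at h2
  exact h2.symm

private theorem ts_gen {k : Type w} {ι : Type} {E L1 : Type u} [Field k] [Field E] [Field L1]
    [Algebra k E] [Algebra k L1]
    (c : ι → E) (c1 : ι → L1)
    (h : ∀ G : MvPolynomial ι k, aeval c G = 0 → aeval c1 G = 0) :
    Algebra.trdeg k (IntermediateField.adjoin k (Set.range c1)) ≤ Algebra.trdeg k E := by
  classical
  rw [ts_field, Algebra.adjoin_range_eq_range_aeval]
  let f : MvPolynomial ι k →ₐ[k] (aeval c : MvPolynomial ι k →ₐ[k] E).range :=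
    (aeval c : MvPolynomial ι k →ₐ[k] E).rangeRestrict
  let g : MvPolynomial ι k →ₐ[k] (aeval c1 : MvPolynomial ι k →ₐ[k] L1).range :=
    (aeval c1 : MvPolynomial ι k →ₐ[k] L1).rangeRestrict
  have hf : Function.Surjective f := AlgHom.rangeRestrict_surjective _
  have hg : Function.Surjective g := AlgHom.rangeRestrict_surjective _
  have hfg : ∀ a ∈ RingHom.ker f, g a = 0 := by
    intro a ha
    have h4 : f a = 0 := ha
    apply Subtype.ext
    exact h a (congrArg Subtype.val h4)
  let φ : (MvPolynomial ι k ⧸ RingHom.ker f) →ₐ[k] (aeval c1 : MvPolynomial ι k →ₐ[k] L1).range :=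
    Ideal.Quotient.liftₐ (RingHom.ker f) g hfg
  let e := (Ideal.quotientKerAlgEquivOfSurjective hf).symm
  have hφ : Function.Surjective (φ.comp e.toAlgHom) := by
    intro y
    obtain ⟨a, rfl⟩ := hg y
    refine ⟨f a, ?_⟩
    have h5 : e (f a) = Ideal.Quotient.mk _ a := by
      rw [AlgEquiv.symm_apply_eq]
      rfl
    change φ (e (f a)) = g a
    rw [h5]
    rfl
  exact (trdeg_le_of_surjective _ hφ).trans
    (trdeg_le_of_injective (aeval c : MvPolynomial ι k →ₐ[k] E).range.val Subtype.val_injective)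

theorem trdeg_spec {ι : Type} {E L1 : Type u} [Field E] [Field L1] [Algebra ℂ E] [Algebra ℂ L1]
    (c : ι → E) (c1 : ι → L1)
    (h : ∀ G : MvPolynomial ι ℂ, aeval c G = 0 → aeval c1 G = 0) :
    Algebra.trdeg ℂ (IntermediateField.adjoin ℂ (Set.range c1)) ≤ Algebra.trdeg ℂ E :=
  ts_gen c c1 h

end MP2619.CUB
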