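import Pool.Agent.Lib.MP_2619d0_ag.CUB.Final2
import Pool.Agent.Lib.MP_2619d0_ag.CUB.Spec2

/-!
Cubic families: the theorem with a factor `𝔸^r`.
-/

set_option autoImplicit false

namespace MP2619.CUB

universe u

open MvPolynomial Pool.Agent.Lib.MP_2619d0_ag Pool.Agent.Lib.MP_2619d0_ag.T MP2619.T

theorem nat_of_trdeg {m : ℕ} {c : Cardinal.{u}} (h : 3 * c + 4 ≤ (m : Cardinal.{u})) :
    ∃ D : ℕ, c = D ∧ 3 * D + 4 ≤ m := by
  have h1 : c ≤ (m : Cardinal.{u}) := by
    calc c = 1 * c := (one_mul c).symm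
      _ ≤ 3 * c := mul_le_mul_left (by norm_num) c
      _ ≤ 3 * c + 4 := le_self_add
      _ ≤ m := h
  obtain ⟨D, hD⟩ := Cardinal.lt_aleph0.1 (h1.trans_lt (Cardinal.natCast_lt_aleph0 (n := m)))
  refine ⟨D, hD, ?_⟩
  rw [hD] at h
  exact_mod_cast h

/-- The theorem on families of parametrisations of degree at most three, with a factor `𝔸^r`. -/
theorem stable_fam {m N : ℕ} {F : MvPolynomial (Fin (m+1+1)) ℂ} (hF : VG F) {E L : Type u}
    [Field E] [Field L] [Algebra ℂ E] [Algebra ℂ L] [Algebra E L] [IsScalarTower ℂ E L] {e : ℕ}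
    (he : e ≤ 3) (φ : Fin (m+1+1) → MvPolynomial (Fin N) E) (hφ : ∀ j, (φ j).IsHomogeneous e)
    (h0 : aeval φ F = 0) (p : Fin N → L) (hx : HG F (fun j => aeval p (φ j))) {D : ℕ}
    (hD : Algebra.trdeg ℂ E ≤ D) (hDm : 3 * D + 4 ≤ m) {r : ℕ} (v : Fin r → L)
    (hv : AlgebraicIndependent (ratioField (fun j => aeval p (φ j))) v) :
    ¬ Odd (Module.finrank (IntermediateField.adjoin (ratioField (fun j => aeval p (φ j)))
      (Set.range v)) L) := by
  classical
  intro hodd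
  obtain ⟨x, hxd⟩ : ∃ x : Fin (m+1+1) → L, x = fun j => aeval p (φ j) := ⟨_, rfl⟩
  rw [← hxd] at hx
  have hx0 : x 0 ≠ 0 := HG_zero hF hx
  -- the function field of `X`
  obtain ⟨K0, hK0⟩ : ∃ K0 : IntermediateField ℂ L, K0 = ratioField (fun j => aeval p (φ j)) :=
    ⟨_, rfl⟩
  rw [← hK0] at hodd hv
  have hK0x : K0 = ratioField x := by rw [hK0, hxd]
  have hKC : CharZero K0 := charZero_of_injective_algebraMap (algebraMap ℂ K0).injective
  have hmem : ∀ j, x j / x 0 ∈ K0 := by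
    intro j
    rw [hK0x]
    exact IntermediateField.subset_adjoin _ _ ⟨j, 0, rfl⟩
  let y : Fin (m+1+1) → K0 := fun j => ⟨x j / x 0, hmem j⟩
  -- the coefficients
  let ι' : Type := Σ j : Fin (m+1+1), (φ j).support
  obtain ⟨c, hc⟩ : ∃ c : ι' → E, c = fun s => coeff s.2.1 (φ s.1) := ⟨_, rfl⟩
  obtain ⟨q, hq⟩ : ∃ q : Fin N ⊕ Unit ⊕ ι' → L,
    q = Sum.elim p (Sum.elim (fun _ => (x 0)⁻¹) (fun s => algebraMap E L (c s))) := ⟨_, rfl⟩
  obtain ⟨L1, fL1, aL1, p1, hp1, hodd1⟩ := odd_spec (ι := Fin N ⊕ Unit ⊕ ι') r v hv hodd q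
  let aC : Algebra ℂ L1 := ((algebraMap K0 L1).comp (algebraMap ℂ K0)).toAlgebra
  have tw : IsScalarTower ℂ K0 L1 := IsScalarTower.of_algebraMap_eq fun _ => rfl
  obtain ⟨c1, hc1⟩ : ∃ c1 : ι' → L1, c1 = fun s => p1 (Sum.inr (Sum.inr s)) := ⟨_, rfl⟩
  have hcrel : ∀ G : MvPolynomial ι' ℂ, aeval c G = 0 → aeval c1 G = 0 := by
    intro G hG
    have h1 := hp1 (MvPolynomial.map (algebraMap ℂ K0)
      (rename (fun s => (Sum.inr (Sum.inr s) : Fin N ⊕ Unit ⊕ ι')) G)) (by
        rw [aeval_map_algebraMap, aeval_rename]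
        have h2 : (q ∘ fun s => (Sum.inr (Sum.inr s) : Fin N ⊕ Unit ⊕ ι')) =
            fun s => algebraMap E L (c s) := by
          rw [hq]
          rfl
        rw [h2]
        have h3 := MvPolynomial.aeval_algebraMap_apply (R := ℂ) (A := E) L c G
        exact h3.trans (by rw [hG, map_zero]))
    rw [aeval_map_algebraMap, aeval_rename] at h1
    rw [hc1]
    exact h1
  let E1 : IntermediateField ℂ L1 := IntermediateField.adjoin ℂ (Set.range c1)
  have hE1 : Algebra.trdeg ℂ E1 ≤ D := le_trans (trdeg_spec c c1 hcrel) hD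
  let c2 : ι' → E1 := fun s => ⟨c1 s, IntermediateField.subset_adjoin _ _ ⟨s, rfl⟩⟩
  -- the specialised family
  let Φ : Fin (m+1+1) → MvPolynomial (Fin N) (MvPolynomial ι' ℂ) := fun j =>
    ∑ d : (φ j).support, monomial d.1 (X ⟨j, d⟩)
  have hΦφ : ∀ j, MvPolynomial.map (aeval c : MvPolynomial ι' ℂ →ₐ[ℂ] E).toRingHom (Φ j) = φ j := by
    intro j
    change MvPolynomial.map (aeval c : MvPolynomial ι' ℂ →ₐ[ℂ] E).toRingHom
      (∑ d : (φ j).support, monomial d.1 (X ⟨j, d⟩)) = φ j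
    conv_rhs => rw [(φ j).as_sum]
    rw [map_sum, ← Finset.sum_coe_sort (φ j).support]
    refine Finset.sum_congr rfl fun d _ => ?_
    rw [map_monomial]
    congr 1
    change aeval c (X (⟨j, d⟩ : ι')) = _
    rw [aeval_X, hc]
  obtain ⟨φ1, hφ1⟩ : ∃ φ1 : Fin (m+1+1) → MvPolynomial (Fin N) E1,
    φ1 = fun j => MvPolynomial.map (aeval c2 : MvPolynomial ι' ℂ →ₐ[ℂ] E1).toRingHom (Φ j) :=
    ⟨_, rfl⟩
  have hφ1h : ∀ j, (φ1 j).IsHomogeneous e := by
    intro j
    rw [hφ1]
    refine IsHomogeneous.map ?_ _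
    refine IsHomogeneous.sum _ _ _ fun d _ => ?_
    apply isHomogeneous_monomial
    rw [Finsupp.degree_eq_weight_one]
    exact hφ j (mem_support_iff.1 d.2)
  -- the equation of `X`
  have hG0 : ∀ d, aeval c (coeff d (aeval Φ F)) = 0 := by
    intro d
    have h1 : MvPolynomial.map (aeval c : MvPolynomial ι' ℂ →ₐ[ℂ] E).toRingHom (aeval Φ F) =
        aeval φ F := by
      have h2 := MvPolynomial.comp_aeval_apply (R := ℂ) (f := Φ)
        (MvPolynomial.mapAlgHom (σ := Fin N) (aeval c : MvPolynomial ι' ℂ →ₐ[ℂ] E)) F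
      have h3 : (fun j => MvPolynomial.mapAlgHom (σ := Fin N)
          (aeval c : MvPolynomial ι' ℂ →ₐ[ℂ] E) (Φ j)) = φ := by
        funext j
        exact hΦφ j
      rw [h3] at h2
      exact h2
    have h4 := congrArg (coeff d) h1
    rw [coeff_map, h0, coeff_zero] at h4
    exact h4
  have h01 : aeval φ1 F = 0 := by
    have h1 : MvPolynomial.map (aeval c2 : MvPolynomial ι' ℂ →ₐ[ℂ] E1).toRingHom (aeval Φ F) =
        aeval φ1 F := by
      have h2 := MvPolynomial.comp_aeval_apply (R := ℂ) (f := Φ)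
        (MvPolynomial.mapAlgHom (σ := Fin N) (aeval c2 : MvPolynomial ι' ℂ →ₐ[ℂ] E1)) F
      have h3 : (fun j => MvPolynomial.mapAlgHom (σ := Fin N)
          (aeval c2 : MvPolynomial ι' ℂ →ₐ[ℂ] E1) (Φ j)) = φ1 := by
        rw [hφ1]
        rfl
      rw [h3] at h2
      exact h2
    rw [← h1]
    refine MvPolynomial.ext _ _ fun d => ?_
    rw [coeff_map, coeff_zero]
    have h2 := hcrel _ (hG0 d)
    have h3 := MvPolynomial.aeval_algebraMap_apply (R := ℂ) (A := E1) L1 c2 (coeff d (aeval Φ F))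
    have h4 : algebraMap E1 L1 (aeval c2 (coeff d (aeval Φ F))) = 0 := h3.symm.trans h2
    exact (map_eq_zero (algebraMap E1 L1)).1 h4
  -- the relations
  have hev : ∀ (A : Type u) [Field A] [Algebra E A] (s : Fin N → A) (j : Fin (m+1+1)),
      aeval s (φ j) = ∑ d : (φ j).support, algebraMap E A (c ⟨j, d⟩) * ∏ i, s i ^ d.1 i := by
    intro A _ _ s j
    rw [aeval_def, eval₂_eq', ← Finset.sum_coe_sort (φ j).support, hc]
  have hrel : ∀ j, aeval (fun i => p1 (Sum.inl i)) (φ1 j) * p1 (Sum.inr (Sum.inl ())) =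
      algebraMap K0 L1 (y j) := by
    intro j
    have h1 := hp1 ((∑ d : (φ j).support, X (Sum.inr (Sum.inr ⟨j, d⟩)) *
      ∏ i, X (Sum.inl i) ^ d.1 i) * X (Sum.inr (Sum.inl ())) - C (y j)) (by
        rw [map_sub, map_mul, aeval_X, aeval_C, map_sum]
        simp only [map_mul, map_prod, map_pow, aeval_X]
        have h2 : q (Sum.inr (Sum.inl ())) = (x 0)⁻¹ := by rw [hq]; rfl
        have h3 : ∀ i, q (Sum.inl i) = p i := fun i => by rw [hq]; rfl
        have h4 : ∀ s, q (Sum.inr (Sum.inr s)) = algebraMap E L (c s) := fun s => by rw [hq]; rfl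
        rw [h2]
        simp only [h3, h4]
        rw [← hev L p j]
        have h3 : aeval p (φ j) = x j := by rw [hxd]
        rw [h3]
        change x j * (x 0)⁻¹ - x j / x 0 = 0
        rw [div_eq_mul_inv, sub_self])
    rw [map_sub, map_mul, aeval_X, aeval_C, map_sum, sub_eq_zero] at h1
    simp only [map_mul, map_prod, map_pow, aeval_X] at h1
    rw [← h1]
    congr 1
    rw [hφ1]
    change aeval (fun i => p1 (Sum.inl i)) (MvPolynomial.map
      (aeval c2 : MvPolynomial ι' ℂ →ₐ[ℂ] E1).toRingHom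
      (∑ d : (φ j).support, monomial d.1 (X ⟨j, d⟩))) = _
    rw [map_sum, map_sum]
    refine Finset.sum_congr rfl fun d _ => ?_
    rw [map_monomial, aeval_monomial, Finsupp.prod_fintype _ _ (fun i => pow_zero _)]
    congr 1
    change algebraMap E1 L1 (aeval c2 (X (⟨j, d⟩ : ι'))) = _
    rw [aeval_X]
    change c1 ⟨j, d⟩ = _
    rw [hc1]
  set c := p1 (Sum.inr (Sum.inl ())) with hcd
  have hc0 : c ≠ 0 := by
    intro h
    have h1 := hrel 0
    rw [h, mul_zero] at h1
    have h2 : y 0 = 1 := Subtype.ext (div_self hx0)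
    rw [h2, map_one] at h1
    exact zero_ne_one h1
  have hx1 : (fun j => aeval (fun i => p1 (Sum.inl i)) (φ1 j)) =
      fun j => c⁻¹ * algebraMap K0 L1 (y j) := by
    funext j
    rw [← hrel j, mul_comm _ c, inv_mul_cancel_left₀ hc0]
  -- the generic point
  have hyL : HG F (fun j => algebraMap K0 L (y j)) := by
    have h1 : (fun j => algebraMap K0 L (y j)) = (x 0)⁻¹ • x := by
      funext j
      change x j / x 0 = (x 0)⁻¹ * x j
      rw [div_eq_mul_inv, mul_comm]
    rw [h1]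
    exact HG_smul hx _ (inv_ne_zero hx0)
  have hy : HG F y := HG_algebraMap.1 hyL
  have hy1 : HG F (fun j => algebraMap K0 L1 (y j)) := HG_algebraMap.2 hy
  have hg1 : HG F (fun j => aeval (fun i => p1 (Sum.inl i)) (φ1 j)) := by
    rw [hx1]
    exact HG_smul hy1 _ (inv_ne_zero hc0)
  -- the degree
  have htop : IntermediateField.adjoin ℂ {z : K0 | ∃ i j, z = y i / y j} = ⊤ := by
    apply IntermediateField.lift_injective K0
    rw [IntermediateField.lift_adjoin, IntermediateField.lift_top]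
    refine Eq.trans ?_ hK0x.symm
    unfold ratioField
    congr 1
    ext z
    constructor
    · rintro ⟨_, ⟨i, j, rfl⟩, rfl⟩
      refine ⟨i, j, ?_⟩
      change x i / x 0 / (x j / x 0) = x i / x j
      rw [div_div_div_cancel_right₀ hx0]
    · rintro ⟨i, j, rfl⟩
      refine ⟨y i / y j, ⟨i, j, rfl⟩, ?_⟩
      change x i / x 0 / (x j / x 0) = x i / x j
      rw [div_div_div_cancel_right₀ hx0]
  have hrf : ratioField (fun j => aeval (fun i => p1 (Sum.inl i)) (φ1 j)) =
      (IsScalarTower.toAlgHom ℂ K0 L1).fieldRange := by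
    rw [hx1, ratioField_smul' _ (inv_ne_zero hc0), AlgHom.fieldRange_eq_map, ← htop,
      IntermediateField.adjoin_map]
    unfold ratioField
    congr 1
    ext z
    constructor
    · rintro ⟨i, j, rfl⟩
      exact ⟨y i / y j, ⟨i, j, rfl⟩, by
        change algebraMap K0 L1 (y i / y j) = _
        rw [map_div₀]⟩
    · rintro ⟨_, ⟨i, j, rfl⟩, rfl⟩
      refine ⟨i, j, ?_⟩
      change algebraMap K0 L1 (y i / y j) = _
      rw [map_div₀]
  have hfin : Module.finrank (ratioField (fun j => aeval (fun i => p1 (Sum.inl i)) (φ1 j))) L1 =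
      Module.finrank K0 L1 := by
    rw [hrf]
    symm
    exact Algebra.finrank_eq_of_equiv_equiv
      (AlgEquiv.ofInjectiveField (IsScalarTower.toAlgHom ℂ K0 L1)).toRingEquiv
      (RingEquiv.refl _) (by ext x; rfl)
  refine fam_odd hF he φ1 hφ1h h01 (fun i => p1 (Sum.inl i)) _ rfl hg1 hE1 hDm ?_
  rw [hfin]
  exact hodd1

end MP2619.CUB
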